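import Pool.Agent.PFlow.PDefs

/-!
# Block P: elementary facts on `L²` norms
-/

open MeasureTheory Filter Topology Set
open scoped ContDiff RealInnerProductSpace ENNReal

namespace Pool.Agent.PFlow.PB

open Pool.Agent.PenroseSph Pool.Agent.PFlow

section general
variable {F : Type*} [NormedAddCommGroup F]

theorem eLpNorm_two (f : E3 → F) (hf : MemLp f 2) :
    eLpNorm f 2 volume = ENNReal.ofReal (√(∫ x, ‖f x‖ ^ 2)) := by
  rw [hf.eLpNorm_eq_integral_rpow_norm (by norm_num) (by norm_num)]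
  congr 1
  rw [Real.sqrt_eq_rpow]
  norm_num

theorem sqrt_add_le' (f g : E3 → F) (hf : MemLp f 2) (hg : MemLp g 2) :
    √(∫ x, ‖f x + g x‖ ^ 2) ≤ √(∫ x, ‖f x‖ ^ 2) + √(∫ x, ‖g x‖ ^ 2) := by
  have h := eLpNorm_add_le hf.1 hg.1 (show (1 : ℝ≥0∞) ≤ 2 by norm_num)
  have h3 : eLpNorm (f + g) 2 volume = ENNReal.ofReal (√(∫ x, ‖f x + g x‖ ^ 2)) :=
    eLpNorm_two _ (hf.add hg)
  rw [h3, eLpNorm_two f hf, eLpNorm_two g hg, ← ENNReal.ofReal_add (Real.sqrt_nonneg _)
    (Real.sqrt_nonneg _)] at h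
  exact (ENNReal.ofReal_le_ofReal_iff (by positivity)).1 h

theorem tend_iff (f : E3 → F) (fn : ℕ → E3 → F) (hf : MemLp f 2) (hn : ∀ n, MemLp (fn n) 2) :
    Tendsto (fun n => ∫ x, ‖fn n x - f x‖ ^ 2) atTop (𝓝 0) ↔
      Tendsto (fun n => eLpNorm (fn n - f) 2 volume) atTop (𝓝 0) := by
  have e : ∀ n, eLpNorm (fn n - f) 2 volume = ENNReal.ofReal (√(∫ x, ‖fn n x - f x‖ ^ 2)) :=
    fun n => eLpNorm_two _ ((hn n).sub hf)
  simp only [e]
  constructor
  · intro h
    have := (Real.continuous_sqrt.tendsto 0).comp h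
    rw [Real.sqrt_zero] at this
    simpa using ENNReal.tendsto_ofReal this
  · intro h
    have h1 : Tendsto (fun n => √(∫ x, ‖fn n x - f x‖ ^ 2)) atTop (𝓝 0) := by
      have := (ENNReal.tendsto_toReal ENNReal.zero_ne_top).comp h
      simpa [Function.comp_def, ENNReal.toReal_ofReal (Real.sqrt_nonneg _)] using this
    have h2 := h1.pow 2
    simp only [ne_eq, OfNat.ofNat_ne_zero, not_false_eq_true, zero_pow] at h2
    refine h2.congr fun n => Real.sq_sqrt ?_
    exact integral_nonneg fun x => by positivity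

/-- integrability of squares -/
theorem int_sq (f : E3 → F) (hf : MemLp f 2) : Integrable (fun x => ‖f x‖ ^ 2) :=
  (memLp_two_iff_integrable_sq_norm hf.1).1 hf

end general

theorem sq_eq (f : E3 → ℝ) : sq f = ∫ x, ‖f x‖ ^ 2 := by
  unfold sq
  congr 1
  ext x
  rw [Real.norm_eq_abs, sq_abs]

theorem sqv_eq (G : E3 → E3) : sqv G = ∫ x, ‖G x‖ ^ 2 := rfl

theorem sq_nonneg' (f : E3 → ℝ) : 0 ≤ sq f := integral_nonneg fun x => by positivity

theorem sqv_nonneg' (G : E3 → E3) : 0 ≤ sqv G := integral_nonneg fun x => by positivity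

theorem sq_add_le (f g : E3 → ℝ) (hf : MemLp f 2) (hg : MemLp g 2) :
    √(sq (fun x => f x + g x)) ≤ √(sq f) + √(sq g) := by
  simpa only [sq_eq] using sqrt_add_le' f g hf hg

theorem sqv_add_le (f g : E3 → E3) (hf : MemLp f 2) (hg : MemLp g 2) :
    √(sqv (fun x => f x + g x)) ≤ √(sqv f) + √(sqv g) := by
  simpa only [sqv_eq] using sqrt_add_le' f g hf hg

theorem sq_sub_comm (f g : E3 → ℝ) : sq (fun x => f x - g x) = sq (fun x => g x - f x) := by
  unfold sq
  congr 1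
  ext x
  ring

theorem sqv_sub_comm (f g : E3 → E3) : sqv (fun x => f x - g x) = sqv (fun x => g x - f x) := by
  unfold sqv
  congr 1
  ext x
  rw [norm_sub_rev]

/-- the Cauchy-Schwarz inequality for vector fields -/
theorem csv (F G : E3 → E3) (hF : MemLp F 2) (hG : MemLp G 2) :
    |∫ x, ⟪F x, G x⟫| ≤ √(sqv F) * √(sqv G) := by
  have h1 : ∫ x, ⟪F x, G x⟫ = ⟪hF.toLp F, hG.toLp G⟫ := by
    rw [L2.inner_def]
    apply integral_congr_ae
    filter_upwards [hF.coeFn_toLp, hG.coeFn_toLp] with x h1 h2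
    rw [h1, h2]
  rw [h1]
  refine (abs_real_inner_le_norm _ _).trans ?_
  rw [Lp.norm_toLp, Lp.norm_toLp, eLpNorm_two F hF, eLpNorm_two G hG,
    ENNReal.toReal_ofReal (Real.sqrt_nonneg _), ENNReal.toReal_ofReal (Real.sqrt_nonneg _)]
  rfl

/-- the Cauchy-Schwarz inequality -/
theorem cs (f g : E3 → ℝ) (hf : MemLp f 2) (hg : MemLp g 2) :
    |∫ x, f x * g x| ≤ √(sq f) * √(sq g) := by
  have h1 : ∫ x, f x * g x = ⟪hf.toLp f, hg.toLp g⟫ := by
    rw [L2.inner_def]
    apply integral_congr_ae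
    filter_upwards [hf.coeFn_toLp, hg.coeFn_toLp] with x h1 h2
    rw [h1, h2]
    simp [mul_comm]
  rw [h1]
  refine (abs_real_inner_le_norm _ _).trans ?_
  rw [Lp.norm_toLp, Lp.norm_toLp, eLpNorm_two f hf, eLpNorm_two g hg,
    ENNReal.toReal_ofReal (Real.sqrt_nonneg _), ENNReal.toReal_ofReal (Real.sqrt_nonneg _),
    sq_eq, sq_eq]

theorem int_mul (f g : E3 → ℝ) (hf : MemLp f 2) (hg : MemLp g 2) :
    Integrable (fun x => f x * g x) := by
  have := hf.integrable_mul hg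
  exact this

/-- limits of integrals of products -/
theorem tend_mul (f g : E3 → ℝ) (fn : ℕ → E3 → ℝ) (hf : MemLp f 2) (hn : ∀ n, MemLp (fn n) 2)
    (hg : MemLp g 2) (h : Tendsto (fun n => sq (fun x => fn n x - f x)) atTop (𝓝 0)) :
    Tendsto (fun n => ∫ x, fn n x * g x) atTop (𝓝 (∫ x, f x * g x)) := by
  rw [tendsto_iff_norm_sub_tendsto_zero]
  have h1 : Tendsto (fun n => √(sq (fun x => fn n x - f x)) * √(sq g)) atTop (𝓝 0) := by
    have := ((Real.continuous_sqrt.tendsto 0).comp h).mul_const (√(sq g))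
    simpa using this
  refine squeeze_zero (fun n => norm_nonneg _) (fun n => ?_) h1
  rw [← integral_sub (int_mul _ _ (hn n) hg) (int_mul _ _ hf hg), Real.norm_eq_abs]
  have e : (fun x => fn n x * g x - f x * g x) = fun x => (fn n x - f x) * g x := by
    ext x
    ring
  rw [e]
  exact cs _ _ ((hn n).sub hf) hg

theorem memLp_comp (G : E3 → E3) (hG : MemLp G 2) (i : Fin 3) : MemLp (fun x => G x i) 2 := by
  have h : MemLp (fun x => (EuclideanSpace.proj i : E3 →L[ℝ] ℝ) (G x)) 2 :=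
    (EuclideanSpace.proj i : E3 →L[ℝ] ℝ).comp_memLp' hG
  exact h

theorem abs_comp_le (v : E3) (i : Fin 3) : |v i| ≤ ‖v‖ := by
  have := PiLp.norm_apply_le v i
  simpa using this

theorem sq_comp_le (G : E3 → E3) (hG : MemLp G 2) (i : Fin 3) : sq (fun x => G x i) ≤ sqv G := by
  refine integral_mono ?_ (int_sq G hG) fun x => ?_
  · have := int_sq _ (memLp_comp G hG i)
    simpa [Real.norm_eq_abs, sq_abs] using this
  · have := abs_comp_le (G x) i
    have h2 := abs_nonneg (G x i)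
    calc (G x i) ^ 2 = |G x i| ^ 2 := (sq_abs _).symm
      _ ≤ ‖G x‖ ^ 2 := by gcongr

theorem norm_sq_eq (v : E3) : ‖v‖ ^ 2 = ∑ i, v i ^ 2 := by
  rw [EuclideanSpace.norm_sq_eq]
  simp

theorem ee_apply (i j : Fin 3) : (ee i) j = if j = i then 1 else 0 := by
  simp [ee]

theorem pd_eq (i : Fin 3) (f : E3 → ℝ) (x : E3) : pd i f x = fderiv ℝ f x (ee i) := rfl

theorem gr_apply (φ : E3 → ℝ) (x : E3) (i : Fin 3) : gr φ x i = pd i φ x := rfl

theorem sum_ee (v : E3) : v = ∑ i, v i • ee i := by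
  ext j
  simp [ee_apply, Fin.sum_univ_three]
  fin_cases j <;> simp

theorem gr_inner (φ : E3 → ℝ) (x v : E3) : ⟪gr φ x, v⟫ = fderiv ℝ φ x v := by
  conv_rhs => rw [sum_ee v]
  rw [map_sum, PiLp.inner_apply]
  refine Finset.sum_congr rfl fun i _ => ?_
  rw [map_smul]
  simp [gr_apply, pd_eq]

theorem gr_cont (φ : E3 → ℝ) (h : ContDiff ℝ 1 φ) : Continuous (gr φ) := by
  unfold gr
  refine (PiLp.continuous_toLp 2 _).comp (continuous_pi fun i => ?_)
  exact (h.continuous_fderiv (by norm_num)).clm_apply continuous_const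

theorem gr_cpt (φ : E3 → ℝ) (hc : HasCompactSupport φ) : HasCompactSupport (gr φ) := by
  refine (hc.fderiv (𝕜 := ℝ)).mono ?_
  intro x hx
  rw [Function.mem_support] at hx ⊢
  intro h0
  apply hx
  ext i
  simp [gr_apply, pd_eq, h0]

theorem gr_memLp (φ : E3 → ℝ) (h : ContDiff ℝ 1 φ) (hc : HasCompactSupport φ) :
    MemLp (gr φ) 2 := (gr_cont φ h).memLp_of_hasCompactSupport (gr_cpt φ hc)

theorem test_memLp (φ : E3 → ℝ) (h : Test φ) : MemLp φ 2 :=
  h.smooth.continuous.memLp_of_hasCompactSupport h.cpt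

theorem Test.one {φ : E3 → ℝ} (h : Test φ) : ContDiff ℝ 1 φ := h.smooth.of_le (by exact_mod_cast le_top)

end Pool.Agent.PFlow.PB
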