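import Pool.Agent.PFlow.StmtsP
import Pool.Agent.PFlow.P.Base

/-!
# Block P, module MOLL: mollifications
-/

open MeasureTheory Filter Topology Set Metric
open scoped ContDiff RealInnerProductSpace ENNReal Convolution

namespace Pool.Agent.PFlow.PB

open Pool.Agent.PenroseSph Pool.Agent.PFlow

/-- the bump functions -/
noncomputable def bmp (n : ℕ) : ContDiffBump (0 : E3) where
  rIn := 1 / (2 * ((n : ℝ) + 1))
  rOut := 1 / ((n : ℝ) + 1)
  rIn_pos := by positivity
  rIn_lt_rOut := by
    have : (0 : ℝ) < (n : ℝ) + 1 := by positivity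
    rw [div_lt_div_iff₀ (by positivity) (by positivity)]
    linarith

/-- the mollification -/
noncomputable def Jm (n : ℕ) (f : E3 → ℝ) : E3 → ℝ :=
  ((bmp n).normed volume ⋆[ContinuousLinearMap.lsmul ℝ ℝ, volume] f : E3 → ℝ)

theorem Jm_apply (n : ℕ) (f : E3 → ℝ) (x : E3) :
    Jm n f x = ∫ t, (bmp n).normed volume t * f (x - t) := rfl

theorem locInt {f : E3 → ℝ} (h : MemLp f 2) : LocallyIntegrable f volume :=
  h.locallyIntegrable (by norm_num)

theorem rho_smooth (n : ℕ) : ContDiff ℝ ∞ ((bmp n).normed volume) := (bmp n).contDiff_normed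

theorem rho_cpt (n : ℕ) : HasCompactSupport ((bmp n).normed volume) := (bmp n).hasCompactSupport_normed

theorem rho_cont (n : ℕ) : Continuous ((bmp n).normed volume) := (bmp n).continuous_normed

theorem rho_nonneg (n : ℕ) (x : E3) : 0 ≤ (bmp n).normed volume x := (bmp n).nonneg_normed x

theorem rho_int (n : ℕ) : ∫ x, (bmp n).normed volume x = 1 := (bmp n).integral_normed

theorem Jm_smooth (n : ℕ) (f : E3 → ℝ) (hf : MemLp f 2) : ContDiff ℝ ∞ (Jm n f) :=
  (rho_cpt n).contDiff_convolution_left _ (rho_smooth n) (locInt hf)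

theorem conv_ex (n : ℕ) (f : E3 → ℝ) (hf : LocallyIntegrable f volume) (x : E3) :
    Integrable (fun t => (bmp n).normed volume t * f (x - t)) :=
  (rho_cpt n).convolutionExists_left (ContinuousLinearMap.lsmul ℝ ℝ) (rho_cont n) hf x

theorem Jm_sq_le (n : ℕ) (f : E3 → ℝ) (hf : MemLp f 2) (x : E3) :
    (Jm n f x) ^ 2 ≤ Jm n (fun y => f y ^ 2) x := by
  have hf2 : Integrable (fun y => f y ^ 2) := by
    have := int_sq f hf
    simpa [Real.norm_eq_abs, sq_abs] using this
  have i1 := conv_ex n f (locInt hf) x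
  have i2 := conv_ex n (fun y => f y ^ 2) hf2.locallyIntegrable x
  have i3 : Integrable (fun t => (bmp n).normed volume t) :=
    (rho_cont n).integrable_of_hasCompactSupport (rho_cpt n)
  set m := Jm n f x with hm
  have h0 : 0 ≤ ∫ t, (bmp n).normed volume t * (f (x - t) - m) ^ 2 :=
    integral_nonneg fun t => mul_nonneg (rho_nonneg n t) (by positivity)
  have e : (fun t => (bmp n).normed volume t * (f (x - t) - m) ^ 2)
      = fun t => ((bmp n).normed volume t * f (x - t) ^ 2
        - 2 * m * ((bmp n).normed volume t * f (x - t))) + m ^ 2 * (bmp n).normed volume t := by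
    ext t
    ring
  have j1 : Integrable (fun t => 2 * m * ((bmp n).normed volume t * f (x - t))) := i1.const_mul _
  have j2 : Integrable (fun t => m ^ 2 * (bmp n).normed volume t) := i3.const_mul _
  have j3 : Integrable (fun t => (bmp n).normed volume t * f (x - t) ^ 2
        - 2 * m * ((bmp n).normed volume t * f (x - t))) := i2.sub j1
  rw [e, integral_add j3 j2, integral_sub i2 j1,
    integral_const_mul, integral_const_mul, rho_int, ← Jm_apply, ← hm] at h0
  have h1 : ∫ t, (bmp n).normed volume t * f (x - t) ^ 2 = Jm n (fun y => f y ^ 2) x := rfl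
  rw [h1] at h0
  nlinarith

theorem Jm_int (n : ℕ) (g : E3 → ℝ) (hg : Integrable g) :
    Integrable (Jm n g) ∧ ∫ x, Jm n g x = ∫ x, g x := by
  have i3 : Integrable (fun t => (bmp n).normed volume t) :=
    (rho_cont n).integrable_of_hasCompactSupport (rho_cpt n)
  refine ⟨i3.integrable_convolution (ContinuousLinearMap.lsmul ℝ ℝ) hg, ?_⟩
  have := integral_convolution (ContinuousLinearMap.lsmul ℝ ℝ) (μ := (volume : Measure E3)) i3 hg
  rw [rho_int] at this
  simpa [Jm] using this

theorem Jm_mem (n : ℕ) (f : E3 → ℝ) (hf : MemLp f 2) : MemLp (Jm n f) 2 := by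
  have hf2 : Integrable (fun y => f y ^ 2) := by
    have := int_sq f hf
    simpa [Real.norm_eq_abs, sq_abs] using this
  have hc : Continuous (Jm n f) := (Jm_smooth n f hf).continuous
  rw [memLp_two_iff_integrable_sq_norm hc.aestronglyMeasurable]
  refine (Jm_int n _ hf2).1.mono (by fun_prop) (Eventually.of_forall fun x => ?_)
  have h1 := Jm_sq_le n f hf x
  rw [Real.norm_eq_abs, Real.norm_eq_abs, Real.norm_eq_abs, sq_abs, abs_of_nonneg (sq_nonneg _)]
  exact h1.trans (le_abs_self _)

theorem Jm_contr (n : ℕ) (f : E3 → ℝ) (hf : MemLp f 2) : sq (Jm n f) ≤ sq f := by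
  have hf2 : Integrable (fun y => f y ^ 2) := by
    have := int_sq f hf
    simpa [Real.norm_eq_abs, sq_abs] using this
  have h1 := Jm_int n _ hf2
  unfold sq
  rw [← h1.2]
  refine integral_mono ?_ h1.1 fun x => Jm_sq_le n f hf x
  have := int_sq _ (Jm_mem n f hf)
  simpa [Real.norm_eq_abs, sq_abs] using this

theorem Jm_close (n : ℕ) (g : E3 → ℝ) (hg : AEStronglyMeasurable g volume) (x : E3) (ε : ℝ)
    (h : ∀ y ∈ ball x (1 / ((n : ℝ) + 1)), dist (g y) (g x) ≤ ε) : |Jm n g x - g x| ≤ ε := by
  have := (bmp n).dist_normed_convolution_le (μ := (volume : Measure E3)) hg h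
  rwa [Real.dist_eq] at this

theorem rad_le (n : ℕ) : 1 / ((n : ℝ) + 1) ≤ 1 := by
  rw [div_le_one (by positivity)]
  have : (0 : ℝ) ≤ n := Nat.cast_nonneg n
  linarith

theorem Jm_sub (n : ℕ) (f g : E3 → ℝ) (hf : MemLp f 2) (hg : MemLp g 2) (x : E3) :
    Jm n (fun y => f y - g y) x = Jm n f x - Jm n g x := by
  simp only [Jm_apply]
  rw [← integral_sub (conv_ex n f (locInt hf) x) (conv_ex n g (locInt hg) x)]
  congr 1
  ext t
  ring

theorem Jm_tend_cc (g : E3 → ℝ) (hc : Continuous g) (hs : HasCompactSupport g) :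
    Tendsto (fun n => sq (fun x => Jm n g x - g x)) atTop (𝓝 0) := by
  have hu : UniformContinuous g := hs.uniformContinuous_of_continuous hc
  obtain ⟨R, hR⟩ : ∃ R, ∀ x : E3, R < ‖x‖ → g x = 0 := by
    obtain ⟨R, hR⟩ := hs.isBounded.subset_closedBall (0 : E3)
    refine ⟨R, fun x hx => ?_⟩
    by_contra h
    have := hR (subset_tsupport g h)
    simp at this
    linarith
  set V : ℝ := (volume : Measure E3).real (closedBall 0 (R + 1)) with hV
  have hV0 : 0 ≤ V := measureReal_nonneg
  have hg : MemLp g 2 := hc.memLp_of_hasCompactSupport hs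
  rw [Metric.tendsto_atTop]
  intro ε hε
  obtain ⟨δ, hδ, hδ2⟩ := Metric.uniformContinuous_iff.1 hu (√(ε / (V + 1))) (by positivity)
  obtain ⟨N, hN⟩ := exists_nat_one_div_lt hδ
  refine ⟨N, fun n hn => ?_⟩
  have hrn : 1 / ((n : ℝ) + 1) < δ := by
    refine lt_of_le_of_lt ?_ hN
    have : (N : ℝ) ≤ n := by exact_mod_cast hn
    gcongr
  have hb : ∀ x, |Jm n g x - g x| ≤ √(ε / (V + 1)) := fun x =>
    Jm_close n g hc.aestronglyMeasurable x _ fun y hy =>
      (hδ2 (lt_trans (mem_ball.1 hy) hrn)).le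
  have hz : ∀ x, x ∉ closedBall (0 : E3) (R + 1) → Jm n g x - g x = 0 := by
    intro x hx
    have hx2 : R + 1 < ‖x‖ := by simpa using hx
    have := Jm_close n g hc.aestronglyMeasurable x 0 fun y hy => by
      have h1 : ‖y - x‖ < 1 := by
        have := lt_of_lt_of_le (mem_ball.1 hy) (rad_le n)
        rwa [dist_eq_norm] at this
      have h2 : R < ‖y‖ := by
        have : ‖x‖ ≤ ‖y‖ + ‖y - x‖ := by
          calc ‖x‖ = ‖y - (y - x)‖ := by congr 1; abel
            _ ≤ ‖y‖ + ‖y - x‖ := norm_sub_le _ _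
        linarith
      rw [hR y h2, hR x (by linarith), dist_self]
    exact abs_eq_zero.1 (le_antisymm this (abs_nonneg _))
  rw [Real.dist_eq, sub_zero, abs_of_nonneg (sq_nonneg' _)]
  have h1 : sq (fun x => Jm n g x - g x)
      ≤ ∫ x, (closedBall (0 : E3) (R + 1)).indicator (fun _ => ε / (V + 1)) x := by
    unfold sq
    refine integral_mono_of_nonneg (Eventually.of_forall fun x => by positivity) ?_
      (Eventually.of_forall fun x => ?_)
    · rw [integrable_indicator_iff measurableSet_closedBall]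
      exact integrableOn_const (isCompact_closedBall _ _).measure_lt_top.ne
    · by_cases hx : x ∈ closedBall (0 : E3) (R + 1)
      · simp only [indicator_of_mem hx]
        rw [← sq_abs]
        calc |Jm n g x - g x| ^ 2 ≤ (√(ε / (V + 1))) ^ 2 := by
              have := hb x
              gcongr
          _ = ε / (V + 1) := Real.sq_sqrt (by positivity)
      · simp only [indicator_of_notMem hx]
        rw [hz x hx]
        norm_num
  refine lt_of_le_of_lt h1 ?_
  rw [integral_indicator measurableSet_closedBall, setIntegral_const, smul_eq_mul, ← hV]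
  rw [mul_div_assoc', div_lt_iff₀ (by positivity)]
  nlinarith

theorem Jm_tend (f : E3 → ℝ) (hf : MemLp f 2) :
    Tendsto (fun n => sq (fun x => Jm n f x - f x)) atTop (𝓝 0) := by
  rw [Metric.tendsto_atTop]
  intro ε hε
  set η := √ε / 4 with hη
  have hη0 : 0 < η := by positivity
  obtain ⟨g, hs, hg1, hc, hg⟩ := hf.exists_hasCompactSupport_eLpNorm_sub_le (by norm_num)
    (ε := ENNReal.ofReal η) (by simpa using hη0)
  have hfg : √(sq (fun x => f x - g x)) ≤ η := by
    have e : eLpNorm (f - g) 2 volume = ENNReal.ofReal (√(∫ x, ‖f x - g x‖ ^ 2)) :=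
      eLpNorm_two _ (hf.sub hg)
    rw [e, ENNReal.ofReal_le_ofReal_iff hη0.le] at hg1
    rw [sq_eq]
    exact hg1
  obtain ⟨N, hN⟩ := Metric.tendsto_atTop.1 (Jm_tend_cc g hc hs) (η ^ 2) (by positivity)
  refine ⟨N, fun n hn => ?_⟩
  have h2 := hN n hn
  rw [Real.dist_eq, sub_zero, abs_of_nonneg (sq_nonneg' _)] at h2 ⊢
  have h3 : √(sq (fun x => Jm n g x - g x)) < η := by
    rw [Real.sqrt_lt' hη0]
    exact h2
  have h4 : √(sq (fun x => Jm n f x - Jm n g x)) ≤ η := by
    have : (fun x => Jm n f x - Jm n g x) = Jm n (fun y => f y - g y) := by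
      ext x
      rw [Jm_sub n f g hf hg]
    rw [this]
    exact (Real.sqrt_le_sqrt (Jm_contr n _ (hf.sub hg))).trans hfg
  have h5 : √(sq (fun x => Jm n f x - f x)) < √ε := by
    have a1 := sq_add_le (fun x => Jm n f x - Jm n g x) (fun x => Jm n g x - f x)
      ((Jm_mem n f hf).sub (Jm_mem n g hg)) ((Jm_mem n g hg).sub hf)
    have a2 := sq_add_le (fun x => Jm n g x - g x) (fun x => g x - f x)
      ((Jm_mem n g hg).sub hg) (hg.sub hf)
    simp only [sub_add_sub_cancel] at a1 a2
    rw [sq_sub_comm g f] at a2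
    have : η = √ε / 4 := hη
    have h0 : 0 < √ε := by positivity
    linarith
  exact (Real.sqrt_lt_sqrt_iff (sq_nonneg' _)).1 h5

theorem Jm_cpt (n : ℕ) (f : E3 → ℝ) (hs : HasCompactSupport f) : HasCompactSupport (Jm n f) :=
  (rho_cpt n).convolution _ hs

theorem Jm_unif (f : E3 → ℝ) (hc : Continuous f) (K : Set E3) (hK : IsCompact K) :
    TendstoUniformlyOn (fun n => Jm n f) f atTop K := by
  have hK' : IsCompact (cthickening 1 K) := hK.cthickening
  have hu : UniformContinuousOn f (cthickening 1 K) :=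
    hK'.uniformContinuousOn_of_continuous hc.continuousOn
  rw [Metric.tendstoUniformlyOn_iff]
  intro ε hε
  obtain ⟨δ, hδ, hδ2⟩ := Metric.uniformContinuousOn_iff.1 hu (ε / 2) (by positivity)
  obtain ⟨N, hN⟩ := exists_nat_one_div_lt hδ
  filter_upwards [eventually_ge_atTop N] with n hn x hx
  have hrn : 1 / ((n : ℝ) + 1) < δ := by
    refine lt_of_le_of_lt ?_ hN
    have : (N : ℝ) ≤ n := by exact_mod_cast hn
    gcongr
  have := Jm_close n f hc.aestronglyMeasurable x (ε / 2) fun y hy => by
    have hy1 : y ∈ cthickening 1 K := by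
      refine mem_cthickening_of_dist_le y x 1 K hx ?_
      exact (lt_of_lt_of_le (mem_ball.1 hy) (rad_le n)).le
    have hx1 : x ∈ cthickening 1 K := self_subset_cthickening K hx
    exact (hδ2 y hy1 x hx1 (lt_trans (mem_ball.1 hy) hrn)).le
  rw [dist_comm, Real.dist_eq]
  linarith

theorem rho_refl (n : ℕ) (x : E3) : Test (fun y => (bmp n).normed volume (x - y)) :=
  ⟨(rho_smooth n).comp (contDiff_const.sub contDiff_id),
    (rho_cpt n).comp_homeomorph (Homeomorph.subLeft x)⟩

theorem pd_rho_refl (n : ℕ) (x : E3) (i : Fin 3) (y : E3) :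
    pd i (fun y => (bmp n).normed volume (x - y)) y = - pd i ((bmp n).normed volume) (x - y) := by
  have h1 : HasFDerivAt ((bmp n).normed volume) (fderiv ℝ ((bmp n).normed volume) (x - y))
      (x - y) := ((rho_smooth n).differentiable (by simp)).differentiableAt.hasFDerivAt
  have h2 : HasFDerivAt (fun y : E3 => x - y) (-(ContinuousLinearMap.id ℝ E3)) y :=
    (hasFDerivAt_id y).const_sub x
  have h4 := (h1.comp y h2).fderiv
  rw [pd_eq, pd_eq]
  have h5 : fderiv ℝ (fun y => (bmp n).normed volume (x - y)) y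
      = (fderiv ℝ ((bmp n).normed volume) (x - y)).comp (-(ContinuousLinearMap.id ℝ E3)) := h4
  rw [h5]
  simp

theorem Jm_grad (f : E3 → ℝ) (G : E3 → E3) (hf : MemLp f 2) (hw : WGrad f G) (n : ℕ) (x : E3)
    (i : Fin 3) : gr (Jm n f) x i = Jm n (fun y => G y i) x := by
  have hl := locInt hf
  have h1 := (rho_cpt n).hasFDerivAt_convolution_left (ContinuousLinearMap.lsmul ℝ ℝ)
    ((rho_smooth n).of_le (by exact_mod_cast le_top)) hl x
  have hex : ConvolutionExistsAt (fderiv ℝ ((bmp n).normed volume)) f x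
      ((ContinuousLinearMap.lsmul ℝ ℝ : ℝ →L[ℝ] ℝ →L[ℝ] ℝ).precompL E3) volume :=
    ((rho_cpt n).fderiv ℝ).convolutionExists_left _
      ((rho_smooth n).continuous_fderiv (by simp)) hl x
  have h2 : gr (Jm n f) x i = ∫ t, pd i ((bmp n).normed volume) t * f (x - t) := by
    rw [gr_apply, pd_eq]
    have : fderiv ℝ (Jm n f) x = _ := h1.fderiv
    rw [this, convolution_def, ContinuousLinearMap.integral_apply hex]
    rfl
  have h3 : ∫ t, pd i ((bmp n).normed volume) t * f (x - t)
      = ∫ y, pd i ((bmp n).normed volume) (x - y) * f y := by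
    have := integral_sub_left_eq_self (μ := (volume : Measure E3))
      (fun y => pd i ((bmp n).normed volume) (x - y) * f y) x
    rw [← this]
    congr 1
    ext t
    simp
  have h4 : Jm n (fun y => G y i) x = ∫ y, (bmp n).normed volume (x - y) * G y i := by
    have := integral_sub_left_eq_self (μ := (volume : Measure E3))
      (fun y => (bmp n).normed volume (x - y) * G y i) x
    rw [← this, Jm_apply]
    congr 1
    ext t
    simp
  have h5 := hw _ (rho_refl n x) i
  rw [h2, h3, h4]
  simp only [pd_rho_refl, mul_neg, integral_neg, neg_inj] at h5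
  simpa only [mul_comm] using h5

theorem moll_thm : MOLL :=
  ⟨Jm, {
    smooth := Jm_smooth
    mem := Jm_mem
    contr := Jm_contr
    tend := Jm_tend
    grad := fun f G hf _ hw n x i => Jm_grad f G hf hw n x i
    cpt := fun n f _ hs => Jm_cpt n f hs
    unif := fun f _ hc K hK => Jm_unif f hc K hK }⟩

end Pool.Agent.PFlow.PB
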