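import Pool.Agent.PFlow.P.API1

/-!
# Block P, module NDIV: the equation in nondivergence form
-/

open MeasureTheory Filter Topology Set
open scoped ContDiff RealInnerProductSpace ENNReal

namespace Pool.Agent.PFlow.PB

open Pool.Agent.PenroseSph Pool.Agent.PFlow

namespace NDivAux

/-- The joint map. -/
def jt (A : E3 → E3 → E3) (z : E3 × E3) : E3 := A z.1 z.2

theorem pd_comm (f : E3 → ℝ) (h : ContDiff ℝ 2 f) (i k : Fin 3) (x : E3) :
    pd k (pd i f) x = pd i (pd k f) x := by
  have h1 : ∀ (i k : Fin 3), pd k (pd i f) x = fderiv ℝ (fderiv ℝ f) x (ee k) (ee i) := by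
    intro i k
    have hd : DifferentiableAt ℝ (fderiv ℝ f) x :=
      (h.fderiv_right (m := 1) (by norm_num)).differentiable (by norm_num) x
    have h2 : HasFDerivAt (fun y => fderiv ℝ f y (ee i))
        ((ContinuousLinearMap.apply ℝ ℝ (ee i)).comp (fderiv ℝ (fderiv ℝ f) x)) x :=
      (ContinuousLinearMap.apply ℝ ℝ (ee i)).hasFDerivAt.comp x hd.hasFDerivAt
    show fderiv ℝ (fun y => fderiv ℝ f y (ee i)) x (ee k) = _
    rw [h2.fderiv]
    rfl
  rw [h1, h1]
  have hs := (h.contDiffAt (x := x)).isSymmSndFDerivAt (by simp)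
  exact hs (ee k) (ee i)

theorem gr_diff (f : E3 → ℝ) (h : ContDiff ℝ ∞ f) : ContDiff ℝ ∞ (gr f) := by
  rw [contDiff_euclidean]
  intro i
  exact (h.fderiv_right (m := ∞) (by simp)).clm_apply contDiff_const

theorem fderiv_gr (f : E3 → ℝ) (h : ContDiff ℝ ∞ f) (i : Fin 3) (x : E3) :
    fderiv ℝ (gr f) x (ee i) = hs f i x := by
  have hd : DifferentiableAt ℝ (gr f) x := (gr_diff f h).differentiable (by simp) x
  ext k
  have h1 : HasFDerivAt (fun y => gr f y k)
      ((EuclideanSpace.proj k : E3 →L[ℝ] ℝ).comp (fderiv ℝ (gr f) x)) x :=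
    (EuclideanSpace.proj k : E3 →L[ℝ] ℝ).hasFDerivAt.comp x hd.hasFDerivAt
  have h2 : pd i (pd k f) x = fderiv ℝ (gr f) x (ee i) k := by
    show fderiv ℝ (fun y => gr f y k) x (ee i) = _
    rw [h1.fderiv]
    rfl
  rw [← h2, pd_comm f (by exact_mod_cast contDiff_infty.1 h 2)]
  rfl

theorem opA_eq (A : E3 → E3 → E3) (hA : ContDiff ℝ ∞ (jt A)) (x ξ : E3) (M : Fin 3 → E3) :
    opA A x ξ M = ∑ i, (fderiv ℝ (jt A) (x, ξ) (ee i, M i)) i := by
  have hd : DifferentiableAt ℝ (jt A) (x, ξ) := hA.differentiable (by simp) _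
  have h1 : HasFDerivAt (fun y => A y ξ)
      ((fderiv ℝ (jt A) (x, ξ)).comp (ContinuousLinearMap.inl ℝ E3 E3)) x := by
    have := hd.hasFDerivAt.comp x (hasFDerivAt_prodMk_left (𝕜 := ℝ) x ξ)
    exact this
  have h2 : HasFDerivAt (A x)
      ((fderiv ℝ (jt A) (x, ξ)).comp (ContinuousLinearMap.inr ℝ E3 E3)) ξ := by
    have := hd.hasFDerivAt.comp ξ (hasFDerivAt_prodMk_right (𝕜 := ℝ) x ξ)
    exact this
  unfold opA
  rw [h1.fderiv, h2.fderiv, ← Finset.sum_add_distrib]
  refine Finset.sum_congr rfl fun i _ => ?_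
  have h3 : ((ee i, M i) : E3 × E3) = (ee i, 0) + (0, M i) := by simp
  rw [h3, map_add]
  rfl

theorem opA_cont (A : E3 → E3 → E3) (hA : ContDiff ℝ ∞ (jt A)) :
    Continuous (fun q : E3 × E3 × (Fin 3 → E3) => opA A q.1 q.2.1 q.2.2) := by
  have h : (fun q : E3 × E3 × (Fin 3 → E3) => opA A q.1 q.2.1 q.2.2) =
      fun q => ∑ i, (fderiv ℝ (jt A) (q.1, q.2.1) (ee i, q.2.2 i)) i := by
    funext q
    exact opA_eq A hA _ _ _
  rw [h]
  have hc : Continuous (fderiv ℝ (jt A)) := hA.continuous_fderiv (by simp)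
  refine continuous_finsetSum _ fun i _ => ?_
  refine (EuclideanSpace.proj i : E3 →L[ℝ] ℝ).continuous.comp ?_
  refine (hc.comp (continuous_fst.prodMk (continuous_fst.comp continuous_snd))).clm_apply ?_
  exact continuous_const.prodMk ((continuous_apply i).comp (continuous_snd.comp continuous_snd))

theorem opA_tendsto (A : E3 → E3 → E3) (hA : ContDiff ℝ ∞ (jt A)) (x : E3) (X : ℕ → E3) (X0 : E3)
    (Y : ℕ → Fin 3 → E3) (Y0 : Fin 3 → E3) (hX : Tendsto X atTop (𝓝 X0))
    (hY : ∀ i, Tendsto (fun k => Y k i) atTop (𝓝 (Y0 i))) :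
    Tendsto (fun k => opA A x (X k) (Y k)) atTop (𝓝 (opA A x X0 Y0)) := by
  have c3 : Tendsto (fun k => (x, X k, Y k)) atTop (𝓝 (x, X0, Y0)) :=
    tendsto_const_nhds.prodMk_nhds (hX.prodMk_nhds (tendsto_pi_nhds.2 hY))
  have c4 := ((opA_cont A hA).tendsto (x, X0, Y0)).comp c3
  simp only [Function.comp_def] at c4
  exact c4

theorem opA_meas (A : E3 → E3 → E3) (hA : ContDiff ℝ ∞ (jt A)) (X : E3 → E3)
    (Y : Fin 3 → E3 → E3) (hX : MemLp X 2) (hY : ∀ i, MemLp (Y i) 2) :
    AEStronglyMeasurable (fun x => opA A x (X x) (fun i => Y i x)) volume := by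
  have e0 : AEStronglyMeasurable (fun x => fun i => Y i x) volume :=
    (aemeasurable_pi_lambda _ fun i => (hY i).1.aemeasurable).aestronglyMeasurable
  have e1 : AEStronglyMeasurable (fun x => (x, X x, fun i => Y i x)) volume :=
    aestronglyMeasurable_id.prodMk (hX.1.prodMk e0)
  have e2 := (opA_cont A hA).comp_aestronglyMeasurable e1
  exact e2

theorem opA_bound {A : E3 → E3 → E3} {B : E3 → E3 → ℝ} {c L r : ℝ} (hP : PCoef A B c L r)
    (x ξ : E3) (M : Fin 3 → E3) : |opA A x ξ M| ≤ 3 * L * (‖ξ‖ + ∑ i, ‖M i‖) := by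
  have hL : 0 ≤ L := hP.c_pos.le.trans hP.c_le
  have h1 : ‖fderiv ℝ (fun y => A y ξ) x‖ ≤ L * ‖ξ‖ := by
    have hl : LipschitzWith (Real.toNNReal (L * ‖ξ‖)) (fun y => A y ξ) := by
      refine LipschitzWith.of_dist_le_mul fun y z => ?_
      rw [dist_eq_norm, dist_eq_norm, Real.coe_toNNReal _ (by positivity)]
      have := hP.lipx y z ξ
      linarith
    have := norm_fderiv_le_of_lipschitz ℝ hl (x₀ := x)
    rwa [Real.coe_toNNReal _ (by positivity)] at this
  have h2 : ‖fderiv ℝ (A x) ξ‖ ≤ L := by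
    have hl : LipschitzWith (Real.toNNReal L) (A x) := by
      refine LipschitzWith.of_dist_le_mul fun y z => ?_
      rw [dist_eq_norm, dist_eq_norm, Real.coe_toNNReal _ hL]
      exact hP.lipA x y z
    have := norm_fderiv_le_of_lipschitz ℝ hl (x₀ := ξ)
    rwa [Real.coe_toNNReal _ hL] at this
  have h3 : ∀ i, |(fderiv ℝ (fun y => A y ξ) x (ee i)) i| ≤ L * ‖ξ‖ := by
    intro i
    refine (abs_comp_le _ i).trans (((fderiv ℝ (fun y => A y ξ) x).le_opNorm _).trans ?_)
    have : ‖ee i‖ = 1 := by simp [ee]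
    rw [this, mul_one]
    exact h1
  have h4 : ∀ i, |(fderiv ℝ (A x) ξ (M i)) i| ≤ L * ‖M i‖ := by
    intro i
    refine (abs_comp_le _ i).trans (((fderiv ℝ (A x) ξ).le_opNorm _).trans ?_)
    exact mul_le_mul_of_nonneg_right h2 (norm_nonneg _)
  have a0 := abs_le.1 (h3 0)
  have a1 := abs_le.1 (h3 1)
  have a2 := abs_le.1 (h3 2)
  have b0 := abs_le.1 (h4 0)
  have b1 := abs_le.1 (h4 1)
  have b2 := abs_le.1 (h4 2)
  have n0 := mul_nonneg hL (norm_nonneg (M 0))
  have n1 := mul_nonneg hL (norm_nonneg (M 1))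
  have n2 := mul_nonneg hL (norm_nonneg (M 2))
  unfold opA
  simp only [Fin.sum_univ_three]
  rw [abs_le]
  constructor
  · nlinarith
  · nlinarith

theorem dv_comp {A : E3 → E3 → E3} (hA : ContDiff ℝ ∞ (jt A)) {f : E3 → ℝ}
    (h : ContDiff ℝ ∞ f) (x : E3) :
    dv (fun y => A y (gr f y)) x = opA A x (gr f x) (fun i => hs f i x) := by
  rw [opA_eq A hA]
  unfold dv
  refine Finset.sum_congr rfl fun i _ => ?_
  have hd : DifferentiableAt ℝ (jt A) (x, gr f x) := hA.differentiable (by simp) _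
  have hg : DifferentiableAt ℝ (gr f) x := (gr_diff f h).differentiable (by simp) x
  have h1 : HasFDerivAt (fun y => A y (gr f y))
      ((fderiv ℝ (jt A) (x, gr f x)).comp
        ((ContinuousLinearMap.id ℝ E3).prod (fderiv ℝ (gr f) x))) x := by
    have := hd.hasFDerivAt.comp x ((hasFDerivAt_id (𝕜 := ℝ) x).prodMk hg.hasFDerivAt)
    exact this
  rw [h1.fderiv, ContinuousLinearMap.comp_apply, ContinuousLinearMap.prod_apply,
    fderiv_gr f h]
  rfl

end NDivAux

open NDivAux in
theorem ndiv_thm (h1 : API1) (h2 : API2) (hd : DENS) (_hs : SYMM) : NDIV := by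
  intro A B c L r Θ θ T t₀ hP hPen u G M hW hH
  have hL : 0 ≤ L := hP.c_pos.le.trans hP.c_le
  have hA : ContDiff ℝ ∞ (jt A) := hP.smoothA
  have hAc : Continuous (jt A) := hA.continuous
  have hAb : ∀ x ξ, ‖A x ξ‖ ≤ L * ‖ξ‖ := by
    intro x ξ
    have := hP.lipA x ξ 0
    rwa [hP.A_zero, sub_zero, sub_zero] at this
  have hBb : ∀ x ξ, |B x ξ| ≤ L * ‖ξ‖ := by
    intro x ξ
    have := hP.lipB x ξ 0
    rwa [hP.B_zero, sub_zero, sub_zero] at this
  obtain ⟨φn, hT, -, hgr, hhs, -⟩ := hd u G M hH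
  have hGm : MemLp G 2 := hH.h1.memG
  have hMm : ∀ i, MemLp (M i) 2 := fun i => (hH.h2 i).memG
  have hgm : ∀ n, MemLp (gr (φn n)) 2 := fun n => gr_memLp _ (hT n).one (hT n).cpt
  have hpdT : ∀ n i, Test (pd i (φn n)) := fun n i =>
    ⟨((hT n).smooth.fderiv_right (m := ∞) (by simp)).clm_apply contDiff_const,
      pd_cpt _ (hT n).cpt i⟩
  have hhm : ∀ n i, MemLp (hs (φn n) i) 2 := fun n i =>
    gr_memLp _ (hpdT n i).one (hpdT n i).cpt
  -- the functions `D` and `d n`
  let D : E3 → ℝ := fun x => ‖G x‖ + ∑ i, ‖M i x‖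
  let dn : ℕ → E3 → ℝ := fun n x => ‖gr (φn n) x - G x‖ + ∑ i, ‖hs (φn n) i x - M i x‖
  have hDm : MemLp D 2 := by
    have e : D = fun x => ‖G x‖ + (‖M 0 x‖ + ‖M 1 x‖ + ‖M 2 x‖) := by
      funext x
      simp only [D, Fin.sum_univ_three]
    rw [e]
    exact hGm.norm.add (((hMm 0).norm.add (hMm 1).norm).add (hMm 2).norm)
  have hdm : ∀ n, MemLp (dn n) 2 := by
    intro n
    have e : dn n = fun x => ‖gr (φn n) x - G x‖ + (‖hs (φn n) 0 x - M 0 x‖ +
        ‖hs (φn n) 1 x - M 1 x‖ + ‖hs (φn n) 2 x - M 2 x‖) := by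
      funext x
      simp only [dn, Fin.sum_univ_three]
    rw [e]
    exact ((hgm n).sub hGm).norm.add (((((hhm n 0).sub (hMm 0)).norm.add
      ((hhm n 1).sub (hMm 1)).norm)).add ((hhm n 2).sub (hMm 2)).norm)
  have hd0 : ∀ n x, 0 ≤ dn n x := fun n x => by positivity
  have hD0 : ∀ x, 0 ≤ D x := fun x => by positivity
  have hdt : Tendsto (fun n => sq (dn n)) atTop (𝓝 0) := by
    have e1 : Tendsto (fun n => 4 * (sqv (fun x => gr (φn n) x - G x) +
        (sqv (fun x => hs (φn n) 0 x - M 0 x) + sqv (fun x => hs (φn n) 1 x - M 1 x) +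
          sqv (fun x => hs (φn n) 2 x - M 2 x)))) atTop (𝓝 0) := by
      have := (hgr.add (((hhs 0).add (hhs 1)).add (hhs 2))).const_mul 4
      simpa using this
    refine squeeze_zero (fun n => sq_nonneg' _) (fun n => ?_) e1
    have i0 : Integrable (fun x => ‖gr (φn n) x - G x‖ ^ 2) := int_sq _ ((hgm n).sub hGm)
    have ii : ∀ i, Integrable (fun x => ‖hs (φn n) i x - M i x‖ ^ 2) := fun i =>
      int_sq _ ((hhm n i).sub (hMm i))
    have i1 := ii 0
    have i2 := ii 1
    have i3 := ii 2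
    have i12 : Integrable (fun x => ‖hs (φn n) 0 x - M 0 x‖ ^ 2 + ‖hs (φn n) 1 x - M 1 x‖ ^ 2) :=
      i1.add i2
    have i123 : Integrable (fun x => ‖hs (φn n) 0 x - M 0 x‖ ^ 2 + ‖hs (φn n) 1 x - M 1 x‖ ^ 2 +
        ‖hs (φn n) 2 x - M 2 x‖ ^ 2) := i12.add i3
    have e2 : 4 * (sqv (fun x => gr (φn n) x - G x) +
        (sqv (fun x => hs (φn n) 0 x - M 0 x) + sqv (fun x => hs (φn n) 1 x - M 1 x) +
          sqv (fun x => hs (φn n) 2 x - M 2 x))) =
        ∫ x, 4 * (‖gr (φn n) x - G x‖ ^ 2 + (‖hs (φn n) 0 x - M 0 x‖ ^ 2 +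
          ‖hs (φn n) 1 x - M 1 x‖ ^ 2 + ‖hs (φn n) 2 x - M 2 x‖ ^ 2)) := by
      rw [integral_const_mul]
      congr 1
      show (∫ x, ‖gr (φn n) x - G x‖ ^ 2) + ((∫ x, ‖hs (φn n) 0 x - M 0 x‖ ^ 2) +
        (∫ x, ‖hs (φn n) 1 x - M 1 x‖ ^ 2) + ∫ x, ‖hs (φn n) 2 x - M 2 x‖ ^ 2) = _
      rw [← integral_add i1 i2, ← integral_add i12 i3, ← integral_add i0 i123]
    rw [e2]
    unfold sq
    refine integral_mono ?_ ?_ ?_
    · have := int_sq _ (hdm n)
      simpa [Real.norm_eq_abs, sq_abs] using this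
    · exact (i0.add i123).const_mul 4
    · intro x
      simp only [dn, Fin.sum_univ_three]
      have p0 := norm_nonneg (gr (φn n) x - G x)
      have p1 := norm_nonneg (hs (φn n) 0 x - M 0 x)
      have p2 := norm_nonneg (hs (φn n) 1 x - M 1 x)
      have p3 := norm_nonneg (hs (φn n) 2 x - M 2 x)
      nlinarith [sq_nonneg (‖gr (φn n) x - G x‖ - ‖hs (φn n) 0 x - M 0 x‖),
        sq_nonneg (‖gr (φn n) x - G x‖ - ‖hs (φn n) 1 x - M 1 x‖),
        sq_nonneg (‖gr (φn n) x - G x‖ - ‖hs (φn n) 2 x - M 2 x‖),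
        sq_nonneg (‖hs (φn n) 0 x - M 0 x‖ - ‖hs (φn n) 1 x - M 1 x‖),
        sq_nonneg (‖hs (φn n) 0 x - M 0 x‖ - ‖hs (φn n) 2 x - M 2 x‖),
        sq_nonneg (‖hs (φn n) 1 x - M 1 x‖ - ‖hs (φn n) 2 x - M 2 x‖)]
  -- an a.e. convergent subsequence
  obtain ⟨ns, hns, hae⟩ : ∃ ns : ℕ → ℕ, StrictMono ns ∧
      ∀ᵐ x, Tendsto (fun k => dn (ns k) x) atTop (𝓝 0) := by
    have e1 : Tendsto (fun n => eLpNorm (dn n - 0) 2 volume) atTop (𝓝 0) := by
      refine (tend_iff (0 : E3 → ℝ) dn MemLp.zero hdm).1 ?_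
      refine hdt.congr fun n => ?_
      rw [sq_eq]
      simp
    have e2 := tendstoInMeasure_of_tendsto_eLpNorm (by norm_num) (fun n => (hdm n).1)
      aestronglyMeasurable_zero e1
    exact e2.exists_seq_tendsto_ae
  let F : E3 → ℝ := fun x => opA A x (G x) (fun i => M i x)
  let Fn : ℕ → E3 → ℝ := fun n x => opA A x (gr (φn n) x) (fun i => hs (φn n) i x)
  have hmeas := opA_meas A hA
  have hFb : ∀ x, |F x| ≤ 3 * L * D x := fun x => opA_bound hP _ _ _
  have hFm : MemLp F 2 := by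
    refine MemLp.of_le_mul (c := 3 * L) hDm (hmeas G M hGm hMm) (Eventually.of_forall fun x => ?_)
    rw [Real.norm_eq_abs, Real.norm_eq_abs, abs_of_nonneg (hD0 x)]
    exact hFb x
  have hFnb : ∀ n x, |Fn n x| ≤ 3 * L * (dn n x + D x) := by
    intro n x
    refine (opA_bound hP _ _ _).trans ?_
    refine mul_le_mul_of_nonneg_left ?_ (by positivity)
    have t0 : ‖gr (φn n) x‖ ≤ ‖gr (φn n) x - G x‖ + ‖G x‖ := by
      have := norm_add_le (gr (φn n) x - G x) (G x)
      rwa [sub_add_cancel] at this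
    have t1 : ∀ i, ‖hs (φn n) i x‖ ≤ ‖hs (φn n) i x - M i x‖ + ‖M i x‖ := by
      intro i
      have := norm_add_le (hs (φn n) i x - M i x) (M i x)
      rwa [sub_add_cancel] at this
    have t2 := Finset.sum_le_sum fun i (_ : i ∈ Finset.univ) => t1 i
    rw [Finset.sum_add_distrib] at t2
    show _ ≤ (‖gr (φn n) x - G x‖ + ∑ i, ‖hs (φn n) i x - M i x‖) + (‖G x‖ + ∑ i, ‖M i x‖)
    linarith
  have hFnm : ∀ n, MemLp (Fn n) 2 := by
    intro n
    refine MemLp.of_le_mul (c := 3 * L) ((hdm n).add hDm) (hmeas _ _ (hgm n) (hhm n))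
      (Eventually.of_forall fun x => ?_)
    rw [Real.norm_eq_abs, Real.norm_eq_abs, abs_of_nonneg
      (show 0 ≤ (dn n + D) x from add_nonneg (hd0 n x) (hD0 x))]
    exact hFnb n x
  have hFae : ∀ᵐ x, Tendsto (fun k => Fn (ns k) x) atTop (𝓝 (F x)) := by
    filter_upwards [hae] with x hx
    have c1 : Tendsto (fun k => gr (φn (ns k)) x) atTop (𝓝 (G x)) := by
      rw [tendsto_iff_norm_sub_tendsto_zero]
      refine squeeze_zero (fun k => norm_nonneg _) (fun k => ?_) hx
      have : 0 ≤ ∑ i, ‖hs (φn (ns k)) i x - M i x‖ := by positivity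
      show _ ≤ ‖gr (φn (ns k)) x - G x‖ + ∑ i, ‖hs (φn (ns k)) i x - M i x‖
      linarith
    have c2 : ∀ i, Tendsto (fun k => hs (φn (ns k)) i x) atTop (𝓝 (M i x)) := by
      intro i
      rw [tendsto_iff_norm_sub_tendsto_zero]
      refine squeeze_zero (fun k => norm_nonneg _) (fun k => ?_) hx
      have e1 : ‖hs (φn (ns k)) i x - M i x‖ ≤ ∑ i, ‖hs (φn (ns k)) i x - M i x‖ :=
        Finset.single_le_sum (f := fun i => ‖hs (φn (ns k)) i x - M i x‖)
          (fun i _ => norm_nonneg _) (Finset.mem_univ i)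
      show _ ≤ ‖gr (φn (ns k)) x - G x‖ + ∑ i, ‖hs (φn (ns k)) i x - M i x‖
      have := norm_nonneg (gr (φn (ns k)) x - G x)
      linarith
    exact opA_tendsto A hA x (fun k => gr (φn (ns k)) x) (G x)
      (fun k i => hs (φn (ns k)) i x) (fun i => M i x) c1 c2
  -- the identity for test functions
  have key : ∀ φ : E3 → ℝ, Test φ → ∫ x, ⟪A x (G x), gr φ x⟫ = - ∫ x, F x * φ x := by
    intro φ hφ
    have hφm : MemLp φ 2 := test_memLp φ hφ
    have hφa : MemLp (fun x => |φ x|) 2 := hφm.norm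
    have hgφ : MemLp (gr φ) 2 := gr_memLp φ hφ.one hφ.cpt
    -- left side
    have hAm : ∀ X : E3 → E3, MemLp X 2 → MemLp (fun x => A x (X x)) 2 := by
      intro X hX
      refine MemLp.of_le_mul (c := L) hX ?_ (Eventually.of_forall fun x => hAb x (X x))
      exact hAc.comp_aestronglyMeasurable (aestronglyMeasurable_id.prodMk hX.1)
    have hinner : ∀ X Y : E3 → E3, MemLp X 2 → MemLp Y 2 → Integrable (fun x => ⟪X x, Y x⟫) := by
      intro X Y hX hY
      have h3 := (hX.norm).integrable_mul (hY.norm)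
      refine h3.mono' (hX.1.inner hY.1) (Eventually.of_forall fun x => ?_)
      exact norm_inner_le_norm _ _
    have tl : Tendsto (fun k => ∫ x, ⟪A x (gr (φn (ns k)) x), gr φ x⟫) atTop
        (𝓝 (∫ x, ⟪A x (G x), gr φ x⟫)) := by
      rw [tendsto_iff_norm_sub_tendsto_zero]
      have e1 : Tendsto (fun k => L * (√(sq (dn (ns k))) * √(sq (fun x => ‖gr φ x‖)))) atTop
          (𝓝 0) := by
        have := (((Real.continuous_sqrt.tendsto 0).comp (hdt.comp hns.tendsto_atTop)).mul_const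
          (√(sq (fun x => ‖gr φ x‖)))).const_mul L
        simpa using this
      refine squeeze_zero (fun k => norm_nonneg _) (fun k => ?_) e1
      rw [← integral_sub (hinner _ _ (hAm _ (hgm _)) hgφ) (hinner _ _ (hAm _ hGm) hgφ)]
      have e2 : Integrable (fun x => L * (dn (ns k) x * ‖gr φ x‖)) :=
        ((int_mul _ _ (hdm _) hgφ.norm)).const_mul L
      refine (norm_integral_le_of_norm_le e2 (Eventually.of_forall fun x => ?_)).trans ?_
      · rw [← inner_sub_left]
        refine (norm_inner_le_norm _ _).trans ?_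
        have e3 := hP.lipA x (gr (φn (ns k)) x) (G x)
        have e4 : ‖gr (φn (ns k)) x - G x‖ ≤ dn (ns k) x := by
          have : 0 ≤ ∑ i, ‖hs (φn (ns k)) i x - M i x‖ := by positivity
          show _ ≤ ‖gr (φn (ns k)) x - G x‖ + ∑ i, ‖hs (φn (ns k)) i x - M i x‖
          linarith
        have e5 := mul_le_mul_of_nonneg_left e4 hL
        calc _ ≤ L * dn (ns k) x * ‖gr φ x‖ :=
              mul_le_mul_of_nonneg_right (e3.trans e5) (norm_nonneg _)
          _ = _ := by ring
      · rw [integral_const_mul]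
        exact mul_le_mul_of_nonneg_left ((le_abs_self _).trans (cs _ _ (hdm _) hgφ.norm)) hL
    -- right side
    have tr : Tendsto (fun k => ∫ x, Fn (ns k) x * φ x) atTop (𝓝 (∫ x, F x * φ x)) := by
      rw [tendsto_iff_norm_sub_tendsto_zero]
      let rk : ℕ → E3 → ℝ := fun k x =>
        max (|Fn (ns k) x - F x| - 3 * L * dn (ns k) x) 0
      have r0 : ∀ k x, 0 ≤ rk k x := fun k x => le_max_right _ _
      have r1 : ∀ k x, rk k x ≤ 6 * L * D x := by
        intro k x
        refine max_le ?_ (by have := hD0 x; positivity)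
        have a1 := hFnb (ns k) x
        have a2 := hFb x
        have a3 := abs_sub (Fn (ns k) x) (F x)
        nlinarith
      have r2 : ∀ᵐ x, Tendsto (fun k => rk k x) atTop (𝓝 0) := by
        filter_upwards [hFae] with x hx
        have a1 : Tendsto (fun k => |Fn (ns k) x - F x|) atTop (𝓝 0) := by
          have := (hx.sub_const (F x)).abs
          simpa using this
        refine squeeze_zero (fun k => r0 k x) (fun k => ?_) a1
        refine max_le ?_ (abs_nonneg _)
        have := hd0 (ns k) x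
        nlinarith [mul_nonneg hL this]
      have rm : ∀ k, AEStronglyMeasurable (rk k) volume := fun k =>
        ((((hFnm (ns k)).1.sub hFm.1).norm.sub ((hdm (ns k)).1.const_mul (3 * L)))).sup
          aestronglyMeasurable_const
      have bI : Integrable (fun x => 6 * L * D x * |φ x|) :=
        int_mul (fun x => 6 * L * D x) _ (hDm.const_mul (6 * L)) hφa
      have rI : ∀ k, Integrable (fun x => rk k x * |φ x|) := by
        intro k
        refine bI.mono' ((rm k).mul hφa.1) (Eventually.of_forall fun x => ?_)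
        rw [Real.norm_eq_abs, abs_of_nonneg (mul_nonneg (r0 k x) (abs_nonneg _))]
        exact mul_le_mul_of_nonneg_right (r1 k x) (abs_nonneg _)
      have rt : Tendsto (fun k => ∫ x, rk k x * |φ x|) atTop (𝓝 0) := by
        have := tendsto_integral_of_dominated_convergence (μ := (volume : Measure E3))
          (F := fun k x => rk k x * |φ x|) (f := fun _ => (0 : ℝ)) (fun x => 6 * L * D x * |φ x|)
          (fun k => (rm k).mul hφa.1) bI (fun k => Eventually.of_forall fun x => ?_) ?_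
        · simpa using this
        · rw [Real.norm_eq_abs, abs_of_nonneg (mul_nonneg (r0 k x) (abs_nonneg _))]
          exact mul_le_mul_of_nonneg_right (r1 k x) (abs_nonneg _)
        · filter_upwards [r2] with x hx
          have := hx.mul_const |φ x|
          simpa using this
      have e1 : Tendsto (fun k => (∫ x, rk k x * |φ x|) +
          3 * L * (√(sq (dn (ns k))) * √(sq (fun x => |φ x|)))) atTop (𝓝 0) := by
        have := rt.add ((((Real.continuous_sqrt.tendsto 0).comp
          (hdt.comp hns.tendsto_atTop)).mul_const (√(sq (fun x => |φ x|)))).const_mul (3 * L))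
        simpa using this
      refine squeeze_zero (fun k => norm_nonneg _) (fun k => ?_) e1
      rw [← integral_sub (int_mul _ _ (hFnm _) hφm) (int_mul _ _ hFm hφm)]
      have e2 : Integrable (fun x => rk k x * |φ x| + 3 * L * (dn (ns k) x * |φ x|)) :=
        (rI k).add ((int_mul _ _ (hdm _) hφa).const_mul (3 * L))
      refine (norm_integral_le_of_norm_le e2 (Eventually.of_forall fun x => ?_)).trans ?_
      · have e3 : Fn (ns k) x * φ x - F x * φ x = (Fn (ns k) x - F x) * φ x := by ring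
        rw [e3, norm_mul, Real.norm_eq_abs, Real.norm_eq_abs]
        have e4 : |Fn (ns k) x - F x| ≤ rk k x + 3 * L * dn (ns k) x := by
          have := le_max_left (|Fn (ns k) x - F x| - 3 * L * dn (ns k) x) 0
          show _ ≤ max (|Fn (ns k) x - F x| - 3 * L * dn (ns k) x) 0 + 3 * L * dn (ns k) x
          linarith
        calc _ ≤ (rk k x + 3 * L * dn (ns k) x) * |φ x| :=
              mul_le_mul_of_nonneg_right e4 (abs_nonneg _)
          _ = _ := by ring
      · rw [integral_add (rI k) ((int_mul _ _ (hdm _) hφa).const_mul (3 * L)),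
          integral_const_mul]
        have e5 := (le_abs_self _).trans (cs _ _ (hdm (ns k)) hφa)
        have e6 := mul_le_mul_of_nonneg_left e5 (show 0 ≤ 3 * L by positivity)
        linarith
    have eqn : ∀ n, ∫ x, ⟪A x (gr (φn n) x), gr φ x⟫ = - ∫ x, Fn n x * φ x := by
      intro n
      have hg := gr_diff (φn n) (hT n).smooth
      have hX : ContDiff ℝ 1 (fun x => A x (gr (φn n) x)) :=
        (hA.comp (contDiff_id.prodMk hg)).of_le (by exact_mod_cast le_top)
      have hXc : HasCompactSupport (fun x => A x (gr (φn n) x)) := by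
        refine (gr_cpt _ (hT n).cpt).mono ?_
        intro x hx
        rw [Function.mem_support] at hx ⊢
        intro h0
        apply hx
        show A x (gr (φn n) x) = 0
        rw [h0, hP.A_zero]
      rw [h2.ibpv _ hX hXc φ (gr φ) (h1.ofTest φ hφ)]
      congr 1
      refine integral_congr_ae (Eventually.of_forall fun x => ?_)
      show dv (fun y => A y (gr (φn n) y)) x * φ x = Fn n x * φ x
      rw [dv_comp hA (hT n).smooth]
    exact tendsto_nhds_unique tl (tr.neg.congr fun k => (eqn (ns k)).symm)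
  -- the fundamental lemma
  have hum : MemLp u 2 := hH.h1.memf
  have hBm : MemLp (fun x => B x (G x)) 2 := by
    refine MemLp.of_le_mul (c := L) hGm ?_ (Eventually.of_forall fun x => hBb x (G x))
    exact hP.smoothB.continuous.comp_aestronglyMeasurable (aestronglyMeasurable_id.prodMk hGm.1)
  have hΘm : MemLp (fun x => Θ x * u x) 2 := by
    refine MemLp.of_le_mul (c := T) hum (hPen.contΘ.aestronglyMeasurable.mul hum.1)
      (Eventually.of_forall fun x => ?_)
    rw [norm_mul, Real.norm_eq_abs, abs_of_nonneg ((hPen.nonneg x).trans (hPen.le x))]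
    exact mul_le_mul_of_nonneg_right (hPen.bdd x) (norm_nonneg _)
  have hθm : MemLp θ 2 := by
    refine hPen.contθ.memLp_of_hasCompactSupport ?_
    refine HasCompactSupport.intro (isCompact_closedBall (0 : E3) r) fun x hx => ?_
    refine hPen.outθ x ?_
    rw [mem_closedBall_zero_iff, not_le] at hx
    exact hx.le
  have hRm : MemLp (fun x => F x + (B x (G x) - Θ x * u x + θ x)) 2 :=
    hFm.add ((hBm.sub hΘm).add hθm)
  have hz := ae_eq_zero_of_integral_contDiff_smul_eq_zero (hRm.locallyIntegrable (by norm_num))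
    (fun φ hφ hc => by
      have hTφ : Test φ := ⟨hφ, hc⟩
      have hφm := test_memLp φ hTφ
      have e1 := key φ hTφ
      have e2 := hW.2 φ (gr φ) (h1.ofTest φ hTφ)
      have e3 : ∫ x, φ x • (F x + (B x (G x) - Θ x * u x + θ x)) =
          (∫ x, F x * φ x) + ∫ x, (B x (G x) - Θ x * u x + θ x) * φ x := by
        rw [← integral_add (int_mul _ _ hFm hφm)
          (int_mul (fun x => B x (G x) - Θ x * u x + θ x) _ ((hBm.sub hΘm).add hθm) hφm)]
        refine integral_congr_ae (Eventually.of_forall fun x => ?_)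
        simp only [smul_eq_mul]
        ring
      rw [e3]
      linarith)
  filter_upwards [hz] with x hx
  show F x + B x (G x) = Θ x * u x - θ x
  linarith

end Pool.Agent.PFlow.PB
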