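import Pool.Agent.PFlow.P.AllP
import Pool.Agent.PFlow.P.NDiv

/-!
# Block P: the function `u` exists
-/

namespace Pool.Agent.PFlow

open PB

theorem PB.pNDIV : NDIV := ndiv_thm pAPI1 pAPI2 pDENS pSYMM

/-- **Block P**: the interface statement `Stmt_P`, without hypotheses. -/
theorem P : Stmt_P := stmt_P_of pNDIV

end Pool.Agent.PFlow
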