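import Pool.Agent.PFlow.StmtsPF

/-!
# CORDI: the integrated Cordes inequality
-/

open MeasureTheory Filter Topology Set
open scoped ContDiff RealInnerProductSpace

namespace Pool.Agent.PFlow.PB

open Pool.Agent.PenroseSph Pool.Agent.PFlow

namespace CordI

/-- the sum of the squares of the entries -/
noncomputable def QQ (M : Bil) : ℝ := ∑ i, ∑ j, M i j ^ 2

lemma QQ_nonneg (M : Bil) : 0 ≤ QQ M :=
  Finset.sum_nonneg fun _ _ => Finset.sum_nonneg fun _ _ => sq_nonneg _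

lemma sq_le_QQ (M : Bil) (i j : Fin 3) : M i j ^ 2 ≤ QQ M := by
  unfold QQ
  refine le_trans ?_ (Finset.single_le_sum (f := fun i => ∑ j, M i j ^ 2)
    (fun i _ => Finset.sum_nonneg fun _ _ => sq_nonneg _) (Finset.mem_univ i))
  exact Finset.single_le_sum (f := fun j => M i j ^ 2) (fun _ _ => sq_nonneg _)
    (Finset.mem_univ j)

lemma nsq_young (g : TensorField) (x : E3) (hn : ∀ A : Bil, 0 ≤ nsq g x A) (A B : Bil) {s : ℝ}
    (hs : 0 < s) :
    nsq g x (A + B) ≤ (1 + s ^ 2) * nsq g x A + (1 + (s ^ 2)⁻¹) * nsq g x B := by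
  have h := hn (s • A - s⁻¹ • B)
  have e : nsq g x (A + B) + nsq g x (s • A - s⁻¹ • B) =
      (1 + s ^ 2) * nsq g x A + (1 + (s ^ 2)⁻¹) * nsq g x B := by
    simp only [nsq, Finset.mul_sum, ← Finset.sum_add_distrib]
    refine Finset.sum_congr rfl fun i _ => Finset.sum_congr rfl fun j _ =>
      Finset.sum_congr rfl fun k _ => Finset.sum_congr rfl fun l _ => ?_
    simp only [Matrix.add_apply, Matrix.sub_apply, Matrix.smul_apply, smul_eq_mul]
    field_simp
    ring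
  linarith

lemma sq_young (a b : ℝ) {s : ℝ} (hs : 0 < s) :
    (a - b) ^ 2 ≤ (1 + s ^ 2) * a ^ 2 + (1 + (s ^ 2)⁻¹) * b ^ 2 := by
  have h := sq_nonneg (s * a + s⁻¹ * b)
  have e : (1 + s ^ 2) * a ^ 2 + (1 + (s ^ 2)⁻¹) * b ^ 2 - (a - b) ^ 2 =
      (s * a + s⁻¹ * b) ^ 2 := by
    field_simp
    ring
  linarith

/-- the constant of the pointwise inequality -/
noncomputable def K0 (C C0 T ε : ℝ) : ℝ :=
  (1 + ε / 4) * ((1 + 4 / ε) * (81 * C ^ 3)) + (1 + ε / 4) * (|C0| * (1 + T ^ 2)) +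
    (1 + 4 / ε) * (729 * C ^ 4)

lemma K0_nonneg {C C0 T ε : ℝ} (hC : 1 ≤ C) (hε : 0 < ε) : 0 ≤ K0 C C0 T ε := by
  unfold K0
  positivity

/-- the pointwise inequality -/
lemma pointwise {g h : TensorField} {C : ℝ} (hb : GBound g h C) (x : E3) (p : Cov) (M : Bil)
    {F T C0 ε P : ℝ} (hε : 0 < ε) (hε1 : ε < 1) (hP : ∀ k, |p k| ≤ P) (hF : |F| ≤ T)
    (H : trg g x (cHess g x p M) ^ 2 ≤ (1 - ε) * nsq g x (cHess g x p M)
      + C0 * (P ^ 2 + F ^ 2 * (1 + P ^ 2))) :
    ε / (2 * C ^ 2) * QQ M ≤ volDen g x * (nsq g x M - trg g x M ^ 2) +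
      C * K0 C C0 T ε * (P ^ 2 + F ^ 2) := by
  have hC1 : 1 ≤ C := hb.one
  have hC0 : 0 < C := by linarith
  have hP0 : 0 ≤ P := (abs_nonneg _).trans (hP 0)
  have hn : ∀ A : Bil, 0 ≤ nsq g x A := by
    intro A
    have h1 := hb.nsqLow x A
    have h2 : (0 : ℝ) ≤ ∑ i, ∑ j, A i j ^ 2 := QQ_nonneg A
    by_contra hcon
    push Not at hcon
    nlinarith
  -- the error
  set N : Bil := cHess g x p M with hN
  set E : Bil := N - M with hE
  have hEe : ∀ i j, E i j = -∑ k, christoffel g k i j x * p k := by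
    intro i j
    simp only [hE, hN, cHess, Matrix.sub_apply, Matrix.of_apply]
    ring
  have hEb : ∀ i j, |E i j| ≤ 3 * C * P := by
    intro i j
    rw [hEe, abs_neg]
    refine (Finset.abs_sum_le_sum_abs _ _).trans ?_
    calc ∑ k, |christoffel g k i j x * p k| ≤ ∑ _k : Fin 3, C * P := by
          refine Finset.sum_le_sum fun k _ => ?_
          rw [abs_mul]
          exact mul_le_mul (hb.chr x k i j) (hP k) (abs_nonneg _) hC0.le
      _ = 3 * C * P := by simp; ring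
  have hEn : nsq g x E ≤ 81 * C ^ 3 * P ^ 2 := by
    refine (hb.nsqUp x E).trans ?_
    have h1 : ∑ i, ∑ j, E i j ^ 2 ≤ ∑ _i : Fin 3, ∑ _j : Fin 3, (3 * C * P) ^ 2 :=
      Finset.sum_le_sum fun i _ => Finset.sum_le_sum fun j _ =>
        sq_le_sq' (by linarith [neg_abs_le (E i j), hEb i j])
          ((le_abs_self _).trans (hEb i j))
    have h2 : ∑ _i : Fin 3, ∑ _j : Fin 3, (3 * C * P) ^ 2 = 81 * C ^ 2 * P ^ 2 := by
      simp; ring
    rw [h2] at h1
    calc C * ∑ i, ∑ j, E i j ^ 2 ≤ C * (81 * C ^ 2 * P ^ 2) :=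
          mul_le_mul_of_nonneg_left h1 hC0.le
      _ = _ := by ring
  have hEt : trg g x E ^ 2 ≤ 729 * C ^ 4 * P ^ 2 := by
    have h1 : |trg g x E| ≤ 27 * C ^ 2 * P := by
      refine (hb.tr x E).trans ?_
      have h2 : ∑ i, ∑ j, |E i j| ≤ ∑ _i : Fin 3, ∑ _j : Fin 3, (3 * C * P) :=
        Finset.sum_le_sum fun i _ => Finset.sum_le_sum fun j _ => hEb i j
      have h3 : ∑ _i : Fin 3, ∑ _j : Fin 3, (3 * C * P) = 27 * C * P := by
        simp; ring
      rw [h3] at h2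
      calc C * ∑ i, ∑ j, |E i j| ≤ C * (27 * C * P) := mul_le_mul_of_nonneg_left h2 hC0.le
        _ = _ := by ring
    have h4 : trg g x E ^ 2 ≤ (27 * C ^ 2 * P) ^ 2 :=
      sq_le_sq' (by linarith [neg_abs_le (trg g x E)]) ((le_abs_self _).trans h1)
    calc trg g x E ^ 2 ≤ (27 * C ^ 2 * P) ^ 2 := h4
      _ = _ := by ring
  -- Young
  set s : ℝ := √ε / 2 with hs
  have hs0 : 0 < s := by
    have := Real.sqrt_pos.2 hε
    positivity
  have hs2 : s ^ 2 = ε / 4 := by
    rw [hs, div_pow, Real.sq_sqrt hε.le]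
    norm_num
  have hs3 : (s ^ 2)⁻¹ = 4 / ε := by
    rw [hs2, inv_div]
  have hy1 := nsq_young g x hn M E hs0
  have hME : M + E = N := by rw [hE]; abel
  rw [hME, hs3, hs2] at hy1
  have htr : trg g x M = trg g x N - trg g x E := by
    have : trg g x N = trg g x M + trg g x E := by
      rw [← hME]
      simp only [trg, Matrix.add_apply, mul_add, Finset.sum_add_distrib]
    linarith
  have hy2 := sq_young (trg g x N) (trg g x E) hs0
  rw [← htr, hs3, hs2] at hy2
  -- the right-hand side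
  have hF2 : F ^ 2 ≤ T ^ 2 := sq_le_sq' (by linarith [neg_abs_le F]) ((le_abs_self _).trans hF)
  have hR : C0 * (P ^ 2 + F ^ 2 * (1 + P ^ 2)) ≤ |C0| * (1 + T ^ 2) * (P ^ 2 + F ^ 2) := by
    have h1 : C0 * (P ^ 2 + F ^ 2 * (1 + P ^ 2)) ≤ |C0| * (P ^ 2 + F ^ 2 * (1 + P ^ 2)) :=
      mul_le_mul_of_nonneg_right (le_abs_self _) (by positivity)
    have h2 : P ^ 2 + F ^ 2 * (1 + P ^ 2) ≤ (1 + T ^ 2) * (P ^ 2 + F ^ 2) := by
      nlinarith [mul_nonneg (sq_nonneg P) (sub_nonneg.2 hF2), mul_nonneg (sq_nonneg T)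
        (sq_nonneg F)]
    calc _ ≤ |C0| * (P ^ 2 + F ^ 2 * (1 + P ^ 2)) := h1
      _ ≤ |C0| * ((1 + T ^ 2) * (P ^ 2 + F ^ 2)) := mul_le_mul_of_nonneg_left h2 (abs_nonneg _)
      _ = _ := by ring
  have ha := hn M
  have hPF : P ^ 2 ≤ P ^ 2 + F ^ 2 := by linarith [sq_nonneg F]
  have h4ε : 0 < 1 + 4 / ε := by positivity
  -- main estimate
  have hmain : trg g x M ^ 2 ≤ (1 - ε / 2) * nsq g x M + K0 C C0 T ε * (P ^ 2 + F ^ 2) := by
    have e1 : trg g x N ^ 2 ≤ (1 - ε) * ((1 + ε / 4) * nsq g x M) +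
        (1 + 4 / ε) * (81 * C ^ 3) * (P ^ 2 + F ^ 2) +
        |C0| * (1 + T ^ 2) * (P ^ 2 + F ^ 2) := by
      have e2 : (1 - ε) * nsq g x N ≤ (1 - ε) * ((1 + ε / 4) * nsq g x M +
          (1 + 4 / ε) * nsq g x E) := mul_le_mul_of_nonneg_left hy1 (by linarith)
      have e3 : (1 - ε) * ((1 + 4 / ε) * nsq g x E) ≤ (1 + 4 / ε) * (81 * C ^ 3) *
          (P ^ 2 + F ^ 2) := by
        calc (1 - ε) * ((1 + 4 / ε) * nsq g x E) ≤ 1 * ((1 + 4 / ε) * nsq g x E) :=
              mul_le_mul_of_nonneg_right (by linarith) (mul_nonneg h4ε.le (hn E))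
          _ = (1 + 4 / ε) * nsq g x E := one_mul _
          _ ≤ (1 + 4 / ε) * (81 * C ^ 3 * (P ^ 2 + F ^ 2)) := by
              refine mul_le_mul_of_nonneg_left (hEn.trans ?_) h4ε.le
              exact mul_le_mul_of_nonneg_left hPF (by positivity)
          _ = _ := by ring
      linarith
    have e4 : (1 + ε / 4) * trg g x N ^ 2 ≤ (1 + ε / 4) * ((1 - ε) * ((1 + ε / 4) * nsq g x M) +
        (1 + 4 / ε) * (81 * C ^ 3) * (P ^ 2 + F ^ 2) +
        |C0| * (1 + T ^ 2) * (P ^ 2 + F ^ 2)) := mul_le_mul_of_nonneg_left e1 (by linarith)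
    have e5 : (1 + 4 / ε) * trg g x E ^ 2 ≤ (1 + 4 / ε) * (729 * C ^ 4) * (P ^ 2 + F ^ 2) := by
      calc (1 + 4 / ε) * trg g x E ^ 2 ≤ (1 + 4 / ε) * (729 * C ^ 4 * (P ^ 2 + F ^ 2)) := by
            refine mul_le_mul_of_nonneg_left (hEt.trans ?_) h4ε.le
            exact mul_le_mul_of_nonneg_left hPF (by positivity)
        _ = _ := by ring
    have e6 : (1 + ε / 4) * ((1 - ε) * ((1 + ε / 4) * nsq g x M)) ≤
        (1 - ε / 2) * nsq g x M := by
      have e7 : (1 + ε / 4) * ((1 - ε) * (1 + ε / 4)) ≤ 1 - ε / 2 := by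
        nlinarith [sq_nonneg ε, pow_pos hε 3]
      calc (1 + ε / 4) * ((1 - ε) * ((1 + ε / 4) * nsq g x M)) =
            (1 + ε / 4) * ((1 - ε) * (1 + ε / 4)) * nsq g x M := by ring
        _ ≤ _ := mul_le_mul_of_nonneg_right e7 ha
    have e8 : K0 C C0 T ε * (P ^ 2 + F ^ 2) =
        (1 + ε / 4) * ((1 + 4 / ε) * (81 * C ^ 3) * (P ^ 2 + F ^ 2) +
          |C0| * (1 + T ^ 2) * (P ^ 2 + F ^ 2)) +
        (1 + 4 / ε) * (729 * C ^ 4) * (P ^ 2 + F ^ 2) := by
      unfold K0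
      ring
    rw [e8]
    linarith
  -- conclusion
  have hv1 := hb.volUp x
  have hv2 := hb.volLow x
  have hv0 : 0 < volDen g x := by
    by_contra hcon
    push Not at hcon
    nlinarith
  have hQ : QQ M ≤ C * nsq g x M := hb.nsqLow x M
  have f1 : QQ M ≤ C ^ 2 * (volDen g x * nsq g x M) := by
    calc QQ M ≤ C * nsq g x M := hQ
      _ = 1 * (C * nsq g x M) := (one_mul _).symm
      _ ≤ (C * volDen g x) * (C * nsq g x M) :=
          mul_le_mul_of_nonneg_right hv2 (mul_nonneg hC0.le ha)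
      _ = _ := by ring
  have f2 : ε / (2 * C ^ 2) * QQ M ≤ ε / 2 * (volDen g x * nsq g x M) := by
    calc ε / (2 * C ^ 2) * QQ M ≤ ε / (2 * C ^ 2) * (C ^ 2 * (volDen g x * nsq g x M)) :=
          mul_le_mul_of_nonneg_left f1 (by positivity)
      _ = _ := by field_simp
  have hK := K0_nonneg (C0 := C0) (T := T) hC1 hε
  have f3 : volDen g x * (K0 C C0 T ε * (P ^ 2 + F ^ 2)) ≤
      C * (K0 C C0 T ε * (P ^ 2 + F ^ 2)) :=
    mul_le_mul_of_nonneg_right hv1 (by positivity)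
  have f4 : volDen g x * trg g x M ^ 2 ≤ volDen g x * ((1 - ε / 2) * nsq g x M +
      K0 C C0 T ε * (P ^ 2 + F ^ 2)) := mul_le_mul_of_nonneg_left hmain hv0.le
  nlinarith

lemma volDen_nonneg (g : TensorField) (x : E3) : 0 ≤ volDen g x := Real.sqrt_nonneg _

/-- the coefficients -/
noncomputable def qq (g : TensorField) (i k j l : Fin 3) (x : E3) : ℝ :=
  volDen g x * (g x)⁻¹ i k * (g x)⁻¹ j l

lemma qq_abs {g h : TensorField} {C : ℝ} (hb : GBound g h C) (i k j l : Fin 3) (x : E3) :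
    |qq g i k j l x| ≤ C ^ 3 := by
  have hC0 : 0 < C := lt_of_lt_of_le one_pos hb.one
  have hv : |volDen g x| ≤ C := by
    rw [abs_of_nonneg (volDen_nonneg g x)]
    exact hb.volUp x
  unfold qq
  rw [abs_mul, abs_mul]
  calc |volDen g x| * |(g x)⁻¹ i k| * |(g x)⁻¹ j l| ≤ C * C * C :=
        mul_le_mul (mul_le_mul hv (hb.inv x i k) (abs_nonneg _) hC0.le) (hb.inv x j l)
          (abs_nonneg _) (by positivity)
    _ = C ^ 3 := by ring

lemma qq_pd {g h : TensorField} {C : ℝ} (hb : GBound g h C)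
    (h1 : ∀ i j, ContDiff ℝ ∞ (fun x => (g x)⁻¹ i j)) (h2 : ContDiff ℝ ∞ (volDen g))
    (m i k j l : Fin 3) (x : E3) : |pd m (qq g i k j l) x| ≤ 3 * C ^ 3 := by
  have hC0 : 0 < C := lt_of_lt_of_le one_pos hb.one
  have hv : |volDen g x| ≤ C := by
    rw [abs_of_nonneg (volDen_nonneg g x)]
    exact hb.volUp x
  have d1 : ∀ i j, DifferentiableAt ℝ (fun x => (g x)⁻¹ i j) x := fun i j =>
    ((h1 i j).differentiable (by simp)) x
  have d2 : DifferentiableAt ℝ (volDen g) x := (h2.differentiable (by simp)) x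
  have e : pd m (qq g i k j l) x = volDen g x * (g x)⁻¹ i k * pd m (fun y => (g y)⁻¹ j l) x +
      (volDen g x * pd m (fun y => (g y)⁻¹ i k) x + pd m (volDen g) x * (g x)⁻¹ i k) *
        (g x)⁻¹ j l := by
    simp only [pd]
    have e1 : qq g i k j l = fun y => (volDen g y * (g y)⁻¹ i k) * (g y)⁻¹ j l := rfl
    have d3 : DifferentiableAt ℝ (fun y => volDen g y * (g y)⁻¹ i k) x := d2.mul (d1 i k)
    rw [e1, fderiv_fun_mul d3 (d1 j l), fderiv_fun_mul d2 (d1 i k)]
    simp only [ContinuousLinearMap.add_apply, ContinuousLinearMap.smul_apply, smul_eq_mul]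
    ring
  rw [e]
  have t1 : |volDen g x * (g x)⁻¹ i k * pd m (fun y => (g y)⁻¹ j l) x| ≤ C ^ 3 := by
    rw [abs_mul, abs_mul]
    calc _ ≤ C * C * C :=
          mul_le_mul (mul_le_mul hv (hb.inv x i k) (abs_nonneg _) hC0.le) (hb.dinv x j l m)
            (abs_nonneg _) (by positivity)
      _ = C ^ 3 := by ring
  have t2 : |volDen g x * pd m (fun y => (g y)⁻¹ i k) x * (g x)⁻¹ j l| ≤ C ^ 3 := by
    rw [abs_mul, abs_mul]
    calc _ ≤ C * C * C :=
          mul_le_mul (mul_le_mul hv (hb.dinv x i k m) (abs_nonneg _) hC0.le) (hb.inv x j l)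
            (abs_nonneg _) (by positivity)
      _ = C ^ 3 := by ring
  have t3 : |pd m (volDen g) x * (g x)⁻¹ i k * (g x)⁻¹ j l| ≤ C ^ 3 := by
    rw [abs_mul, abs_mul]
    calc _ ≤ C * C * C :=
          mul_le_mul (mul_le_mul (hb.dvol x m) (hb.inv x i k) (abs_nonneg _) hC0.le)
            (hb.inv x j l) (abs_nonneg _) (by positivity)
      _ = C ^ 3 := by ring
  rw [add_mul]
  rw [abs_le] at *
  constructor <;> linarith [t1.1, t1.2, t2.1, t2.2, t3.1, t3.2]

lemma gr_le {φ : E3 → ℝ} {x : E3} {D : ℝ} (hD : 0 ≤ D) (h : ∀ m, |pd m φ x| ≤ D) :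
    ‖gr φ x‖ ≤ 3 * D := by
  rw [EuclideanSpace.norm_eq]
  refine Real.sqrt_le_iff.2 ⟨by positivity, ?_⟩
  calc ∑ i, ‖gr φ x i‖ ^ 2 ≤ ∑ _i : Fin 3, D ^ 2 := by
        refine Finset.sum_le_sum fun i _ => ?_
        exact pow_le_pow_left₀ (norm_nonneg _) (h i) 2
    _ = 3 * D ^ 2 := by simp
    _ ≤ (3 * D) ^ 2 := by nlinarith [sq_nonneg D]

lemma abs_apply_le (v : E3) (i : Fin 3) : |v i| ≤ ‖v‖ := by
  have := PiLp.norm_apply_le v i
  simpa using this

lemma memLp_apply {G : E3 → E3} (hG : MemLp G 2) (i : Fin 3) : MemLp (fun x => G x i) 2 :=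
  (EuclideanSpace.proj i : E3 →L[ℝ] ℝ).comp_memLp' hG

end CordI

open CordI in
/-- CORDI: the integrated Cordes inequality. -/
theorem cordi_thm (_h1 : API1) (hc : CID) (hb : KBND) (hs : KSM) : CORDI := by
  intro ε g h r hε hε1 hg C₀ T
  obtain ⟨C, hC⟩ := hb g h r hg
  obtain ⟨s1, s2, -⟩ := hs g h r hg
  have hC1 : 1 ≤ C := hC.one
  have hC0 : 0 < C := by linarith
  set D : ℝ := 3 * C ^ 3 with hD
  have hD0 : 0 < D := by positivity
  set η : ℝ := ε / (4 * C ^ 2 * (162 * D)) with hη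
  have hη0 : 0 < η := by positivity
  set K3 : ℝ := 162 * D / (4 * η) with hK3
  have hK30 : 0 < K3 := by positivity
  set K1 : ℝ := C * K0 C C₀ T ε with hK1
  have hK10 : 0 ≤ K1 := mul_nonneg hC0.le (K0_nonneg hC1 hε)
  refine ⟨4 * C ^ 2 / ε * (K1 + K3), ?_⟩
  intro u G M F hu hF hFT hcor
  have mM : ∀ i, MemLp (M i) 2 := fun i => (hu.h2 i).memG
  have mG : MemLp G 2 := hu.h1.memG
  have mMc : ∀ i j, MemLp (fun x => M i x j) 2 := fun i j => memLp_apply (mM i) j
  -- `∑ sqv (M i)` is the integral of `QQ`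
  have iM : ∀ i j, Integrable (fun x => mt (fun i => M i x) i j ^ 2) :=
    fun i j => (mMc i j).integrable_sq
  have iQ : Integrable (fun x => QQ (mt fun i => M i x)) := by
    unfold QQ
    exact integrable_finsetSum _ fun i _ => integrable_finsetSum _ fun j _ => iM i j
  have hQ : ∑ i, sqv (M i) = ∫ x, QQ (mt fun i => M i x) := by
    unfold QQ
    rw [integral_finsetSum _ fun i _ => integrable_finsetSum _ fun j _ => iM i j]
    refine Finset.sum_congr rfl fun i _ => ?_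
    unfold sqv
    refine integral_congr_ae (ae_of_all _ fun x => ?_)
    simp only [mt, Matrix.of_apply]
    rw [EuclideanSpace.norm_sq_eq]
    refine Finset.sum_congr rfl fun j _ => ?_
    rw [Real.norm_eq_abs, sq_abs]
  have iG : Integrable (fun x => ‖G x‖ ^ 2) := by
    exact mG.norm.integrable_sq
  have iF : Integrable (fun x => F x ^ 2) := hF.integrable_sq
  -- the quadratic form
  set Y : E3 → ℝ := fun x => ∑ i, ∑ k, ∑ j, ∑ l,
    qq g i k j l x * (M i x j * M k x l - M i x k * M j x l) with hY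
  set X : E3 → ℝ := fun x => ∑ i, ∑ k, ∑ j, ∑ l,
    (pd j (qq g i k j l) x * G x i * M k x l - pd k (qq g i k j l) x * G x i * M j x l) with hX
  have hqs : ∀ i k j l, ContDiff ℝ ∞ (qq g i k j l) := fun i k j l =>
    (s2.mul (s1 i k)).mul (s1 j l)
  have hqpd : ∀ m i k j l x, |pd m (qq g i k j l) x| ≤ D := fun m i k j l x =>
    qq_pd hC s1 s2 m i k j l x
  have hcid : ∫ x, Y x = - ∫ x, X x := by
    refine hc (qq g) (3 * D) (fun i k j l => (hqs i k j l).of_le ENat.LEInfty.out)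
      (fun i k j l x => (qq_abs hC i k j l x).trans ?_)
      (fun i k j l x => gr_le hD0.le (fun m => hqpd m i k j l x)) u G M hu
    rw [hD]
    nlinarith [pow_pos hC0 3]
  have hYe : ∀ x, Y x = volDen g x * (nsq g x (mt fun i => M i x) -
      trg g x (mt fun i => M i x) ^ 2) := by
    intro x
    have e1 : nsq g x (mt fun i => M i x) = ∑ i, ∑ k, ∑ j, ∑ l,
        (g x)⁻¹ i k * (g x)⁻¹ j l * M i x j * M k x l :=
      Finset.sum_congr rfl fun i _ => Finset.sum_comm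
    have e2 : trg g x (mt fun i => M i x) ^ 2 = ∑ i, ∑ k, ∑ j, ∑ l,
        (g x)⁻¹ i k * M i x k * ((g x)⁻¹ j l * M j x l) := by
      unfold trg
      rw [pow_two, Finset.sum_mul_sum]
      refine Finset.sum_congr rfl fun i _ => ?_
      rw [Finset.sum_comm]
      simp only [Finset.sum_mul_sum]
      rfl
    rw [e1, e2]
    simp only [hY, qq, ← Finset.sum_sub_distrib, Finset.mul_sum]
    refine Finset.sum_congr rfl fun i _ => Finset.sum_congr rfl fun k _ =>
      Finset.sum_congr rfl fun j _ => Finset.sum_congr rfl fun l _ => ?_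
    ring
  have iY : Integrable Y := by
    refine integrable_finsetSum _ fun i _ => integrable_finsetSum _ fun k _ =>
      integrable_finsetSum _ fun j _ => integrable_finsetSum _ fun l _ => ?_
    have i1 : Integrable (fun x => M i x j * M k x l - M i x k * M j x l) :=
      ((mMc i j).integrable_mul (mMc k l)).sub ((mMc i k).integrable_mul (mMc j l))
    exact i1.bdd_mul (c := C ^ 3) (hqs i k j l).continuous.aestronglyMeasurable
      (ae_of_all _ fun x => qq_abs hC i k j l x)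
  -- pointwise bound of X
  have hXb : ∀ x, |X x| ≤ ε / (4 * C ^ 2) * QQ (mt fun i => M i x) + K3 * ‖G x‖ ^ 2 := by
    intro x
    set q : ℝ := QQ (mt fun i => M i x) with hq
    have hterm : ∀ (m : Fin 3) (i k j l a b : Fin 3),
        |pd m (qq g i k j l) x * G x i * M a x b| ≤ D * (η * q + ‖G x‖ ^ 2 / (4 * η)) := by
      intro m i k j l a b
      rw [mul_assoc, abs_mul]
      refine mul_le_mul (hqpd m i k j l x) ?_ (abs_nonneg _) hD0.le
      have e1 : M a x b ^ 2 ≤ q := sq_le_QQ (mt fun i => M i x) a b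
      have e2 : G x i ^ 2 ≤ ‖G x‖ ^ 2 := by
        rw [← sq_abs]
        exact pow_le_pow_left₀ (abs_nonneg _) (abs_apply_le _ _) 2
      rw [abs_mul]
      have e3 : |G x i| * |M a x b| ≤ η * |M a x b| ^ 2 + |G x i| ^ 2 / (4 * η) := by
        have e4 : η * |M a x b| ^ 2 + |G x i| ^ 2 / (4 * η) - |G x i| * |M a x b| =
            (2 * η * |M a x b| - |G x i|) ^ 2 / (4 * η) := by
          field_simp
          ring
        have e5 : 0 ≤ (2 * η * |M a x b| - |G x i|) ^ 2 / (4 * η) := by positivity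
        linarith
      rw [sq_abs, sq_abs] at e3
      have e6 : η * M a x b ^ 2 ≤ η * q := mul_le_mul_of_nonneg_left e1 hη0.le
      have e7 : G x i ^ 2 / (4 * η) ≤ ‖G x‖ ^ 2 / (4 * η) :=
        div_le_div_of_nonneg_right e2 (by positivity)
      linarith
    calc |X x| ≤ ∑ _i : Fin 3, ∑ _k : Fin 3, ∑ _j : Fin 3, ∑ _l : Fin 3,
          (2 * (D * (η * q + ‖G x‖ ^ 2 / (4 * η)))) := by
          refine (Finset.abs_sum_le_sum_abs _ _).trans (Finset.sum_le_sum fun i _ => ?_)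
          refine (Finset.abs_sum_le_sum_abs _ _).trans (Finset.sum_le_sum fun k _ => ?_)
          refine (Finset.abs_sum_le_sum_abs _ _).trans (Finset.sum_le_sum fun j _ => ?_)
          refine (Finset.abs_sum_le_sum_abs _ _).trans (Finset.sum_le_sum fun l _ => ?_)
          refine (abs_sub _ _).trans ?_
          have t1 := hterm j i k j l k l
          have t2 := hterm k i k j l j l
          linarith
      _ = 162 * D * (η * q + ‖G x‖ ^ 2 / (4 * η)) := by
          simp only [Finset.sum_const, Finset.card_univ, Fintype.card_fin, nsmul_eq_mul]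
          push_cast
          ring
      _ = ε / (4 * C ^ 2) * q + K3 * ‖G x‖ ^ 2 := by
          have e8 : 162 * D * η = ε / (4 * C ^ 2) := by
            rw [hη]
            field_simp
          rw [← e8, hK3]
          field_simp
  have hXi : |∫ x, X x| ≤ ∫ x, (ε / (4 * C ^ 2) * QQ (mt fun i => M i x) + K3 * ‖G x‖ ^ 2) := by
    rw [← Real.norm_eq_abs]
    exact norm_integral_le_of_norm_le ((iQ.const_mul _).add (iG.const_mul _))
      (ae_of_all _ fun x => hXb x)
  rw [integral_add (iQ.const_mul _) (iG.const_mul _), integral_const_mul, integral_const_mul]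
    at hXi
  -- integrate the pointwise inequality
  have hint : ∫ x, ε / (2 * C ^ 2) * QQ (mt fun i => M i x) ≤
      ∫ x, (Y x + K1 * (‖G x‖ ^ 2 + F x ^ 2)) := by
    refine integral_mono_ae (iQ.const_mul _) (iY.add ((iG.add iF).const_mul _)) ?_
    filter_upwards [hFT, hcor] with x hx1 hx2
    show ε / (2 * C ^ 2) * QQ (mt fun i => M i x) ≤ Y x + K1 * (‖G x‖ ^ 2 + F x ^ 2)
    rw [hYe]
    exact pointwise hC x (G x) (mt fun i => M i x) hε hε1 (fun k => abs_apply_le _ _) hx1 hx2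
  have i2 : Integrable (fun x => K1 * (‖G x‖ ^ 2 + F x ^ 2)) := (iG.add iF).const_mul _
  rw [integral_const_mul, integral_add iY i2, integral_const_mul, integral_add iG iF, hcid]
    at hint
  -- conclusion
  rw [hQ]
  have hsG : sqv G = ∫ x, ‖G x‖ ^ 2 := rfl
  have hsF : sq F = ∫ x, F x ^ 2 := rfl
  rw [hsG, hsF]
  set IQ := ∫ x, QQ (mt fun i => M i x) with hIQ
  set IG := ∫ x, ‖G x‖ ^ 2 with hIG
  set IF := ∫ x, F x ^ 2 with hIF
  have hIF0 : 0 ≤ IF := integral_nonneg fun x => sq_nonneg _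
  have hIG0 : 0 ≤ IG := integral_nonneg fun x => sq_nonneg _
  have hx := (abs_le.1 hXi).1
  have e1 : ε / (2 * C ^ 2) * IQ = 2 * (ε / (4 * C ^ 2) * IQ) := by ring
  have e2 : ε / (4 * C ^ 2) * IQ ≤ (K1 + K3) * (IG + IF) := by
    nlinarith [mul_nonneg hK30.le hIF0]
  have e3 : IQ = 4 * C ^ 2 / ε * (ε / (4 * C ^ 2) * IQ) := by
    field_simp
  rw [e3, mul_assoc]
  exact mul_le_mul_of_nonneg_left e2 (by positivity)

end Pool.Agent.PFlow.PB
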