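import Pool.Agent.PFlow.StmtsP
import Pool.Agent.PFlow.P.Base

/-!
# Block P, module API1: algebra and closedness of `H1`
-/

open MeasureTheory Filter Topology Set
open scoped ContDiff RealInnerProductSpace ENNReal

namespace Pool.Agent.PFlow.PB

open Pool.Agent.PenroseSph Pool.Agent.PFlow

theorem a1_congr (f f' : E3 → ℝ) (G G' : E3 → E3) (h : H1 f G) (hf : f =ᵐ[volume] f')
    (hG : G =ᵐ[volume] G') : H1 f' G' := by
  obtain ⟨φ, h1, h2, h3⟩ := h.approx
  refine ⟨(memLp_congr_ae hf).1 h.memf, (memLp_congr_ae hG).1 h.memG, φ, h1, ?_, ?_⟩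
  · refine h2.congr fun n => ?_
    unfold sq
    apply integral_congr_ae
    filter_upwards [hf] with x hx
    rw [hx]
  · refine h3.congr fun n => ?_
    unfold sqv
    apply integral_congr_ae
    filter_upwards [hG] with x hx
    rw [hx]

theorem gr_add (f g : E3 → ℝ) (x : E3) (hf : DifferentiableAt ℝ f x) (hg : DifferentiableAt ℝ g x) :
    gr (fun x => f x + g x) x = gr f x + gr g x := by
  ext i
  simp [gr_apply, pd_eq, fderiv_fun_add hf hg]

theorem gr_smul (a : ℝ) (f : E3 → ℝ) (x : E3) (hf : DifferentiableAt ℝ f x) :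
    gr (fun x => a * f x) x = a • gr f x := by
  ext i
  simp [gr_apply, pd_eq, fderiv_const_mul hf]

theorem Test.diff {φ : E3 → ℝ} (h : Test φ) (x : E3) : DifferentiableAt ℝ φ x :=
  (h.one.differentiable (by norm_num)) x

theorem Test.add {φ ψ : E3 → ℝ} (h : Test φ) (h' : Test ψ) : Test (fun x => φ x + ψ x) :=
  ⟨h.smooth.add h'.smooth, h.cpt.add h'.cpt⟩

theorem Test.smul {φ : E3 → ℝ} (a : ℝ) (h : Test φ) : Test (fun x => a * φ x) :=
  ⟨contDiff_const.mul h.smooth, h.cpt.mul_left⟩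

theorem tend_add_sq (f g : E3 → ℝ) (fn gn : ℕ → E3 → ℝ) (hf : MemLp f 2) (hg : MemLp g 2)
    (hfn : ∀ n, MemLp (fn n) 2) (hgn : ∀ n, MemLp (gn n) 2)
    (h1 : Tendsto (fun n => sq (fun x => fn n x - f x)) atTop (𝓝 0))
    (h2 : Tendsto (fun n => sq (fun x => gn n x - g x)) atTop (𝓝 0)) :
    Tendsto (fun n => sq (fun x => (fn n x + gn n x) - (f x + g x))) atTop (𝓝 0) := by
  have h3 : Tendsto (fun n => (√(sq (fun x => fn n x - f x)) + √(sq (fun x => gn n x - g x))) ^ 2)
      atTop (𝓝 0) := by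
    have := (((Real.continuous_sqrt.tendsto 0).comp h1).add
      ((Real.continuous_sqrt.tendsto 0).comp h2)).pow 2
    simpa using this
  refine squeeze_zero (fun n => sq_nonneg' _) (fun n => ?_) h3
  have h4 := sq_add_le (fun x => fn n x - f x) (fun x => gn n x - g x) ((hfn n).sub hf)
    ((hgn n).sub hg)
  have e : (fun x => (fn n x + gn n x) - (f x + g x))
      = fun x => (fn n x - f x) + (gn n x - g x) := by
    ext x
    ring
  rw [e]
  calc sq (fun x => (fn n x - f x) + (gn n x - g x))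
      = (√(sq (fun x => (fn n x - f x) + (gn n x - g x)))) ^ 2 := (Real.sq_sqrt (sq_nonneg' _)).symm
    _ ≤ _ := by gcongr

theorem tend_add_sqv (f g : E3 → E3) (fn gn : ℕ → E3 → E3) (hf : MemLp f 2) (hg : MemLp g 2)
    (hfn : ∀ n, MemLp (fn n) 2) (hgn : ∀ n, MemLp (gn n) 2)
    (h1 : Tendsto (fun n => sqv (fun x => fn n x - f x)) atTop (𝓝 0))
    (h2 : Tendsto (fun n => sqv (fun x => gn n x - g x)) atTop (𝓝 0)) :
    Tendsto (fun n => sqv (fun x => (fn n x + gn n x) - (f x + g x))) atTop (𝓝 0) := by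
  have h3 : Tendsto (fun n => (√(sqv (fun x => fn n x - f x)) + √(sqv (fun x => gn n x - g x))) ^ 2)
      atTop (𝓝 0) := by
    have := (((Real.continuous_sqrt.tendsto 0).comp h1).add
      ((Real.continuous_sqrt.tendsto 0).comp h2)).pow 2
    simpa using this
  refine squeeze_zero (fun n => sqv_nonneg' _) (fun n => ?_) h3
  have h4 := sqv_add_le (fun x => fn n x - f x) (fun x => gn n x - g x) ((hfn n).sub hf)
    ((hgn n).sub hg)
  have e : (fun x => (fn n x + gn n x) - (f x + g x))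
      = fun x => (fn n x - f x) + (gn n x - g x) := by
    ext x
    simp
    ring
  rw [e]
  calc sqv (fun x => (fn n x - f x) + (gn n x - g x))
      = (√(sqv (fun x => (fn n x - f x) + (gn n x - g x)))) ^ 2 :=
        (Real.sq_sqrt (sqv_nonneg' _)).symm
    _ ≤ _ := by gcongr

theorem a1_add (f : E3 → ℝ) (F : E3 → E3) (g : E3 → ℝ) (G : E3 → E3) (h : H1 f F) (h' : H1 g G) :
    H1 (fun x => f x + g x) (fun x => F x + G x) := by
  obtain ⟨φ, h1, h2, h3⟩ := h.approx
  obtain ⟨ψ, h1', h2', h3'⟩ := h'.approx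
  refine ⟨h.memf.add h'.memf, h.memG.add h'.memG, fun n x => φ n x + ψ n x,
    fun n => (h1 n).add (h1' n), ?_, ?_⟩
  · exact tend_add_sq f g φ ψ h.memf h'.memf (fun n => test_memLp _ (h1 n))
      (fun n => test_memLp _ (h1' n)) h2 h2'
  · have := tend_add_sqv F G (fun n => gr (φ n)) (fun n => gr (ψ n)) h.memG h'.memG
      (fun n => gr_memLp _ (h1 n).one (h1 n).cpt)
      (fun n => gr_memLp _ (h1' n).one (h1' n).cpt) h3 h3'
    refine this.congr fun n => ?_
    congr 1
    ext1 x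
    rw [gr_add _ _ _ ((h1 n).diff x) ((h1' n).diff x)]

theorem a1_smul (a : ℝ) (f : E3 → ℝ) (F : E3 → E3) (h : H1 f F) :
    H1 (fun x => a * f x) (fun x => a • F x) := by
  obtain ⟨φ, h1, h2, h3⟩ := h.approx
  refine ⟨h.memf.const_mul a, h.memG.const_smul a, fun n x => a * φ n x,
    fun n => (h1 n).smul a, ?_, ?_⟩
  · have := h2.const_mul (a ^ 2)
    rw [mul_zero] at this
    refine this.congr fun n => ?_
    unfold sq
    rw [← integral_const_mul]
    congr 1
    ext x
    ring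
  · have := h3.const_mul (a ^ 2)
    rw [mul_zero] at this
    refine this.congr fun n => ?_
    unfold sqv
    rw [← integral_const_mul]
    congr 1
    ext x
    show a ^ 2 * ‖gr (φ n) x - F x‖ ^ 2 = ‖gr (fun x => a * φ n x) x - a • F x‖ ^ 2
    rw [gr_smul _ _ _ ((h1 n).diff x), ← smul_sub, norm_smul, mul_pow, Real.norm_eq_abs, sq_abs]

theorem a1_sub (f : E3 → ℝ) (F : E3 → E3) (g : E3 → ℝ) (G : E3 → E3) (h : H1 f F) (h' : H1 g G) :
    H1 (fun x => f x - g x) (fun x => F x - G x) := by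
  have := a1_add f F _ _ h (a1_smul (-1) g G h')
  have e1 : (fun x => f x + -1 * g x) = fun x => f x - g x := by ext x; ring
  have e2 : (fun x => F x + (-1 : ℝ) • G x) = fun x => F x - G x := by
    ext1 x
    rw [neg_one_smul, sub_eq_add_neg]
  rwa [e1, e2] at this

theorem pd_cont (φ : E3 → ℝ) (h : ContDiff ℝ 1 φ) (i : Fin 3) : Continuous (pd i φ) :=
  (h.continuous_fderiv (by norm_num)).clm_apply continuous_const

theorem pd_cpt (φ : E3 → ℝ) (hc : HasCompactSupport φ) (i : Fin 3) : HasCompactSupport (pd i φ) := by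
  refine (hc.fderiv (𝕜 := ℝ)).mono ?_
  intro x hx
  rw [Function.mem_support] at hx ⊢
  intro h0
  apply hx
  simp [pd_eq, h0]

theorem pd_memLp (φ : E3 → ℝ) (h : ContDiff ℝ 1 φ) (hc : HasCompactSupport φ) (i : Fin 3) :
    MemLp (pd i φ) 2 := (pd_cont φ h i).memLp_of_hasCompactSupport (pd_cpt φ hc i)

/-- integration by parts for two `C¹` functions, one of them with compact support -/
theorem ibp_C1 (φ ψ : E3 → ℝ) (h : ContDiff ℝ 1 φ) (h' : ContDiff ℝ 1 ψ)
    (hc : HasCompactSupport ψ) (i : Fin 3) :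
    ∫ x, φ x * pd i ψ x = - ∫ x, pd i φ x * ψ x := by
  have := integral_mul_fderiv_eq_neg_fderiv_mul_of_integrable (𝕜 := ℝ) (μ := (volume : Measure E3))
    (f := φ) (g := ψ) (v := ee i) ?_ ?_ ?_ (fun x _ => h.differentiable (by norm_num) x)
    (fun x _ => h'.differentiable (by norm_num) x)
  · exact this
  · exact ((pd_cont φ h i).mul h'.continuous).integrable_of_hasCompactSupport hc.mul_left
  · exact (h.continuous.mul (pd_cont ψ h' i)).integrable_of_hasCompactSupport
      (pd_cpt ψ hc i).mul_left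
  · exact (h.continuous.mul h'.continuous).integrable_of_hasCompactSupport hc.mul_left

theorem tend_comp (G : E3 → E3) (Gn : ℕ → E3 → E3) (hG : MemLp G 2) (hn : ∀ n, MemLp (Gn n) 2)
    (h : Tendsto (fun n => sqv (fun x => Gn n x - G x)) atTop (𝓝 0)) (i : Fin 3) :
    Tendsto (fun n => sq (fun x => Gn n x i - G x i)) atTop (𝓝 0) := by
  refine squeeze_zero (fun n => sq_nonneg' _) (fun n => ?_) h
  exact sq_comp_le (fun x => Gn n x - G x) ((hn n).sub hG) i

theorem a1_wgrad (f : E3 → ℝ) (G : E3 → E3) (h : H1 f G) : WGrad f G := by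
  obtain ⟨φ, h1, h2, h3⟩ := h.approx
  intro ψ hψ i
  have t1 := tend_mul f (pd i ψ) φ h.memf (fun n => test_memLp _ (h1 n))
    (pd_memLp ψ hψ.one hψ.cpt i) h2
  have t2 := tend_mul (fun x => G x i) ψ (fun n x => gr (φ n) x i) (memLp_comp G h.memG i)
    (fun n => memLp_comp _ (gr_memLp _ (h1 n).one (h1 n).cpt) i) (test_memLp ψ hψ)
    (tend_comp G (fun n => gr (φ n)) h.memG (fun n => gr_memLp _ (h1 n).one (h1 n).cpt) h3 i)
  refine tendsto_nhds_unique t1 (t2.neg.congr fun n => ?_)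
  exact (ibp_C1 (φ n) ψ (h1 n).one hψ.one hψ.cpt i).symm

theorem a1_unique (f : E3 → ℝ) (G G' : E3 → E3) (h : H1 f G) (h' : H1 f G') :
    G =ᵐ[volume] G' := by
  have hw := a1_wgrad f G h
  have hw' := a1_wgrad f G' h'
  have key : ∀ i : Fin 3, ∀ᵐ x, G x i - G' x i = 0 := by
    intro i
    have hi := memLp_comp G h.memG i
    have hi' := memLp_comp G' h'.memG i
    have hl : LocallyIntegrable (fun x => G x i - G' x i) volume :=
      (hi.sub hi').locallyIntegrable (by norm_num)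
    refine ae_eq_zero_of_integral_contDiff_smul_eq_zero hl fun ψ hψ hc => ?_
    have e1 := hw ψ ⟨hψ, hc⟩ i
    have e2 := hw' ψ ⟨hψ, hc⟩ i
    have hm := test_memLp ψ ⟨hψ, hc⟩
    have e3 : ∫ x, ψ x • (G x i - G' x i) = (∫ x, G x i * ψ x) - ∫ x, G' x i * ψ x := by
      rw [← integral_sub (int_mul _ _ hi hm) (int_mul _ _ hi' hm)]
      congr 1
      ext x
      simp only [smul_eq_mul]
      ring
    rw [e3]
    linarith
  filter_upwards [key 0, key 1, key 2] with x h0 h1 h2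
  ext i
  fin_cases i
  · exact sub_eq_zero.1 h0
  · exact sub_eq_zero.1 h1
  · exact sub_eq_zero.1 h2

theorem a1_closed (f : E3 → ℝ) (G : E3 → E3) (fn : ℕ → E3 → ℝ) (Gn : ℕ → E3 → E3)
    (h : ∀ n, H1 (fn n) (Gn n)) (hf : MemLp f 2) (hG : MemLp G 2)
    (h1 : Tendsto (fun n => sq (fun x => fn n x - f x)) atTop (𝓝 0))
    (h2 : Tendsto (fun n => sqv (fun x => Gn n x - G x)) atTop (𝓝 0)) : H1 f G := by
  have hc : ∀ n : ℕ, ∃ φ : E3 → ℝ, Test φ ∧ sq (fun x => φ x - fn n x) < 1 / ((n : ℝ) + 1) ∧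
      sqv (fun x => gr φ x - Gn n x) < 1 / ((n : ℝ) + 1) := by
    intro n
    obtain ⟨φ, a1, a2, a3⟩ := (h n).approx
    have hp : (0 : ℝ) < 1 / ((n : ℝ) + 1) := by positivity
    have e1 := (tendsto_order.1 a2).2 _ hp
    have e2 := (tendsto_order.1 a3).2 _ hp
    obtain ⟨m, hm⟩ := (e1.and e2).exists
    exact ⟨φ m, a1 m, hm.1, hm.2⟩
  choose φ a1 a2 a3 using hc
  have h0 : Tendsto (fun n : ℕ => 1 / ((n : ℝ) + 1)) atTop (𝓝 0) :=
    tendsto_one_div_add_atTop_nhds_zero_nat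
  have b2 : Tendsto (fun n => sq (fun x => φ n x - fn n x)) atTop (𝓝 0) :=
    squeeze_zero (fun n => sq_nonneg' _) (fun n => (a2 n).le) h0
  have b3 : Tendsto (fun n => sqv (fun x => gr (φ n) x - Gn n x)) atTop (𝓝 0) :=
    squeeze_zero (fun n => sqv_nonneg' _) (fun n => (a3 n).le) h0
  refine ⟨hf, hG, φ, a1, ?_, ?_⟩
  · have := tend_add_sq (fun _ => 0) (fun _ => 0) (fun n x => φ n x - fn n x)
      (fun n x => fn n x - f x) (MemLp.zero') (MemLp.zero')
      (fun n => (test_memLp _ (a1 n)).sub (h n).memf) (fun n => (h n).memf.sub hf)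
      (by simpa using b2) (by simpa using h1)
    simpa using this
  · have := tend_add_sqv (fun _ => 0) (fun _ => 0) (fun n x => gr (φ n) x - Gn n x)
      (fun n x => Gn n x - G x) (MemLp.zero') (MemLp.zero')
      (fun n => (gr_memLp _ (a1 n).one (a1 n).cpt).sub (h n).memG) (fun n => (h n).memG.sub hG)
      (by simpa using b3) (by simpa using h2)
    simpa using this

section complete
variable {F : Type*} [NormedAddCommGroup F] [CompleteSpace F]

theorem complete_gen (fn : ℕ → E3 → F) (hm : ∀ n, MemLp (fn n) 2)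
    (hc : ∀ ε > 0, ∃ N, ∀ m ≥ N, ∀ n ≥ N, (∫ x, ‖fn m x - fn n x‖ ^ 2) < ε) :
    ∃ f, MemLp f 2 ∧ Tendsto (fun n => ∫ x, ‖fn n x - f x‖ ^ 2) atTop (𝓝 0) := by
  have hC : CauchySeq (fun n => (hm n).toLp (fn n)) := by
    rw [Metric.cauchySeq_iff]
    intro ε hε
    obtain ⟨N, hN⟩ := hc (ε ^ 2) (by positivity)
    refine ⟨N, fun m hm' n hn' => ?_⟩
    rw [dist_eq_norm, ← MemLp.toLp_sub, Lp.norm_toLp]
    have e : eLpNorm (fn m - fn n) 2 volume = ENNReal.ofReal (√(∫ x, ‖fn m x - fn n x‖ ^ 2)) :=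
      eLpNorm_two _ ((hm m).sub (hm n))
    rw [e, ENNReal.toReal_ofReal (Real.sqrt_nonneg _)]
    rw [Real.sqrt_lt' hε]
    exact hN m hm' n hn'
  obtain ⟨g, hg⟩ := cauchySeq_tendsto_of_complete hC
  refine ⟨g, Lp.memLp g, ?_⟩
  rw [tend_iff _ _ (Lp.memLp g) hm]
  rw [Lp.tendsto_Lp_iff_tendsto_eLpNorm'] at hg
  refine hg.congr fun n => ?_
  apply eLpNorm_congr_ae
  filter_upwards [(hm n).coeFn_toLp] with x hx
  simp [hx]

end complete

theorem api1_thm : API1 where
  gr_apply := gr_apply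
  gr_inner := gr_inner
  gr_cont := gr_cont
  ofTest φ h := by
    refine ⟨test_memLp φ h, gr_memLp φ h.one h.cpt, fun _ => φ, fun _ => h, ?_, ?_⟩
    · simp [sq]
    · simp [sqv]
  congr := a1_congr
  add := a1_add
  sub := a1_sub
  smul := a1_smul
  wgrad := a1_wgrad
  unique := a1_unique
  closed := a1_closed
  complete fn hm hc := by
    obtain ⟨f, h1, h2⟩ := complete_gen fn hm (by simpa only [sq_eq] using hc)
    exact ⟨f, h1, by simpa only [sq_eq] using h2⟩
  completev fn hm hc := complete_gen fn hm hc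

end Pool.Agent.PFlow.PB
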