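import Pool.Agent.PFlow.P.API1

/-!
# Block P, module API2: products, translations, integration by parts in `H1`
-/

open MeasureTheory Filter Topology Set
open scoped ContDiff RealInnerProductSpace ENNReal

namespace Pool.Agent.PFlow.PB

open Pool.Agent.PenroseSph Pool.Agent.PFlow

theorem sqv_sum (G : E3 → E3) (hG : MemLp G 2) : sqv G = ∑ i, sq (fun x => G x i) := by
  unfold sqv sq
  rw [← integral_finsetSum]
  · congr 1
    ext x
    exact norm_sq_eq (G x)
  · intro i _
    have := int_sq _ (memLp_comp G hG i)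
    simpa [Real.norm_eq_abs, sq_abs] using this

theorem memLp_of_comp (G : E3 → E3) (h : ∀ i, MemLp (fun x => G x i) 2) : MemLp G 2 := by
  have e : G = fun x => ∑ i, G x i • ee i := by
    ext1 x
    exact sum_ee (G x)
  rw [e]
  refine memLp_finsetSum _ fun i _ => ?_
  have hb : MemLp (fun x => (ContinuousLinearMap.toSpanSingleton ℝ (ee i)) (G x i)) 2 :=
    (ContinuousLinearMap.toSpanSingleton ℝ (ee i)).comp_memLp' (h i)
  simpa using hb

theorem tend_of_comp (G : E3 → E3) (Gn : ℕ → E3 → E3) (hG : MemLp G 2)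
    (hn : ∀ n, MemLp (Gn n) 2)
    (h : ∀ i, Tendsto (fun n => sq (fun x => Gn n x i - G x i)) atTop (𝓝 0)) :
    Tendsto (fun n => sqv (fun x => Gn n x - G x)) atTop (𝓝 0) := by
  have e : ∀ n, sqv (fun x => Gn n x - G x) = ∑ i, sq (fun x => Gn n x i - G x i) := by
    intro n
    have := sqv_sum (fun x => Gn n x - G x) ((hn n).sub hG)
    rw [this]
    rfl
  simp only [e]
  have := tendsto_finsetSum Finset.univ fun i _ => h i
  simpa using this

theorem wgrad_C1 (φ : E3 → ℝ) (h : ContDiff ℝ 1 φ) : WGrad φ (gr φ) := by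
  intro ψ hψ i
  exact ibp_C1 φ ψ h hψ.one hψ.cpt i

theorem a2_ofC1 (hm : MOLL) (φ : E3 → ℝ) (h : ContDiff ℝ 1 φ) (hc : HasCompactSupport φ) :
    H1 φ (gr φ) := by
  obtain ⟨J, hJ⟩ := hm
  have hφ : MemLp φ 2 := h.continuous.memLp_of_hasCompactSupport hc
  have hg := gr_memLp φ h hc
  have ht : ∀ n, Test (J n φ) := fun n => ⟨hJ.smooth n φ hφ, hJ.cpt n φ hφ hc⟩
  refine ⟨hφ, hg, fun n => J n φ, ht, hJ.tend φ hφ, ?_⟩
  refine tend_of_comp (gr φ) (fun n => gr (J n φ)) hg
    (fun n => gr_memLp _ (ht n).one (ht n).cpt) fun i => ?_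
  have h2 := hJ.tend (fun y => gr φ y i) (memLp_comp _ hg i)
  refine h2.congr fun n => ?_
  congr 1
  ext x
  rw [hJ.grad φ (gr φ) hφ hg (wgrad_C1 φ h) n x i]

theorem gr_mul (ζ φ : E3 → ℝ) (x : E3) (h : DifferentiableAt ℝ ζ x)
    (h' : DifferentiableAt ℝ φ x) :
    gr (fun x => ζ x * φ x) x = ζ x • gr φ x + φ x • gr ζ x := by
  ext i
  simp [gr_apply, pd_eq, fderiv_fun_mul h h']

theorem sq_mul_le (ζ f : E3 → ℝ) (C : ℝ) (hf : MemLp f 2) (hζ : ∀ x, |ζ x| ≤ C) :
    sq (fun x => ζ x * f x) ≤ C ^ 2 * sq f := by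
  unfold sq
  rw [← integral_const_mul]
  refine integral_mono_of_nonneg (Eventually.of_forall fun x => by positivity) ?_
    (Eventually.of_forall fun x => ?_)
  · have := (int_sq f hf).const_mul (C ^ 2)
    simpa [Real.norm_eq_abs, sq_abs] using this
  · show (ζ x * f x) ^ 2 ≤ C ^ 2 * f x ^ 2
    rw [mul_pow]
    have := hζ x
    have h2 : ζ x ^ 2 ≤ C ^ 2 := by
      rw [← sq_abs (ζ x)]
      have := abs_nonneg (ζ x)
      gcongr
    gcongr

theorem sqv_smul_le (ζ : E3 → ℝ) (F : E3 → E3) (C : ℝ) (hf : MemLp F 2) (hζ : ∀ x, |ζ x| ≤ C) :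
    sqv (fun x => ζ x • F x) ≤ C ^ 2 * sqv F := by
  unfold sqv
  rw [← integral_const_mul]
  refine integral_mono_of_nonneg (Eventually.of_forall fun x => by positivity)
    ((int_sq F hf).const_mul (C ^ 2)) (Eventually.of_forall fun x => ?_)
  show ‖ζ x • F x‖ ^ 2 ≤ C ^ 2 * ‖F x‖ ^ 2
  rw [norm_smul, mul_pow, Real.norm_eq_abs]
  have h1 := hζ x
  have := abs_nonneg (ζ x)
  gcongr

theorem sqv_smul_le' (f : E3 → ℝ) (Z : E3 → E3) (C : ℝ) (hf : MemLp f 2) (hZ : ∀ x, ‖Z x‖ ≤ C) :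
    sqv (fun x => f x • Z x) ≤ C ^ 2 * sq f := by
  unfold sqv sq
  rw [← integral_const_mul]
  refine integral_mono_of_nonneg (Eventually.of_forall fun x => by positivity) ?_
    (Eventually.of_forall fun x => ?_)
  · have := (int_sq f hf).const_mul (C ^ 2)
    simpa [Real.norm_eq_abs, sq_abs] using this
  · show ‖f x • Z x‖ ^ 2 ≤ C ^ 2 * f x ^ 2
    rw [norm_smul, mul_pow, Real.norm_eq_abs, sq_abs, mul_comm]
    have := norm_nonneg (Z x)
    gcongr
    exact hZ x

theorem memLp_mul_bdd (ζ f : E3 → ℝ) (C : ℝ) (hf : MemLp f 2) (hc : Continuous ζ)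
    (hζ : ∀ x, |ζ x| ≤ C) : MemLp (fun x => ζ x * f x) 2 := by
  refine hf.of_le_mul (c := C) (hc.aestronglyMeasurable.mul hf.1)
    (Eventually.of_forall fun x => ?_)
  rw [norm_mul]
  exact mul_le_mul_of_nonneg_right (hζ x) (norm_nonneg _)

theorem memLp_smul_bdd (ζ : E3 → ℝ) (F : E3 → E3) (C : ℝ) (hf : MemLp F 2) (hc : Continuous ζ)
    (hζ : ∀ x, |ζ x| ≤ C) : MemLp (fun x => ζ x • F x) 2 := by
  refine hf.of_le_mul (c := C) (hc.aestronglyMeasurable.smul hf.1)
    (Eventually.of_forall fun x => ?_)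
  rw [norm_smul]
  exact mul_le_mul_of_nonneg_right (hζ x) (norm_nonneg _)

theorem memLp_smul_bdd' (f : E3 → ℝ) (Z : E3 → E3) (C : ℝ) (hf : MemLp f 2) (hc : Continuous Z)
    (hZ : ∀ x, ‖Z x‖ ≤ C) : MemLp (fun x => f x • Z x) 2 := by
  refine hf.of_le_mul (c := C) (hf.1.smul hc.aestronglyMeasurable)
    (Eventually.of_forall fun x => ?_)
  rw [norm_smul, mul_comm]
  exact mul_le_mul_of_nonneg_right (hZ x) (norm_nonneg _)

theorem a2_mul (hm : MOLL) (f : E3 → ℝ) (G : E3 → E3) (ζ : E3 → ℝ) (C : ℝ) (h : H1 f G)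
    (hζ : ContDiff ℝ 1 ζ) (h1 : ∀ x, |ζ x| ≤ C) (h2 : ∀ x, ‖gr ζ x‖ ≤ C) :
    H1 (fun x => ζ x * f x) (fun x => ζ x • G x + f x • gr ζ x) := by
  obtain ⟨φ, a1, a2, a3⟩ := h.approx
  have hζc := hζ.continuous
  have hgc := gr_cont ζ hζ
  refine a1_closed _ _ (fun n x => ζ x * φ n x) (fun n x => ζ x • gr (φ n) x + φ n x • gr ζ x)
    (fun n => ?_) (memLp_mul_bdd ζ f C h.memf hζc h1)
    ((memLp_smul_bdd ζ G C h.memG hζc h1).add (memLp_smul_bdd' f _ C h.memf hgc h2)) ?_ ?_
  · have := a2_ofC1 hm (fun x => ζ x * φ n x) (hζ.mul (a1 n).one) (a1 n).cpt.mul_left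
    have e : gr (fun x => ζ x * φ n x) = fun x => ζ x • gr (φ n) x + φ n x • gr ζ x := by
      ext1 x
      exact gr_mul ζ (φ n) x (hζ.differentiable (by norm_num) x) ((a1 n).diff x)
    rwa [e] at this
  · have h3 := a2.const_mul (C ^ 2)
    rw [mul_zero] at h3
    refine squeeze_zero (fun n => sq_nonneg' _) (fun n => ?_) h3
    have := sq_mul_le ζ (fun x => φ n x - f x) C ((test_memLp _ (a1 n)).sub h.memf) h1
    refine le_trans (le_of_eq ?_) this
    congr 1
    ext x
    ring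
  · have hgm := fun n => gr_memLp _ (a1 n).one (a1 n).cpt
    have hfm := fun n => test_memLp _ (a1 n)
    refine tend_add_sqv (fun x => ζ x • G x) (fun x => f x • gr ζ x)
      (fun n x => ζ x • gr (φ n) x) (fun n x => φ n x • gr ζ x)
      (memLp_smul_bdd ζ G C h.memG hζc h1) (memLp_smul_bdd' f _ C h.memf hgc h2)
      (fun n => memLp_smul_bdd ζ _ C (hgm n) hζc h1)
      (fun n => memLp_smul_bdd' _ _ C (hfm n) hgc h2) ?_ ?_
    · have h3 := a3.const_mul (C ^ 2)
      rw [mul_zero] at h3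
      refine squeeze_zero (fun n => sqv_nonneg' _) (fun n => ?_) h3
      have := sqv_smul_le ζ (fun x => gr (φ n) x - G x) C ((hgm n).sub h.memG) h1
      refine le_trans (le_of_eq ?_) this
      congr 1
      ext1 x
      rw [smul_sub]
    · have h3 := a2.const_mul (C ^ 2)
      rw [mul_zero] at h3
      refine squeeze_zero (fun n => sqv_nonneg' _) (fun n => ?_) h3
      have := sqv_smul_le' (fun x => φ n x - f x) (gr ζ) C ((hfm n).sub h.memf) h2
      refine le_trans (le_of_eq ?_) this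
      congr 1
      ext1 x
      rw [sub_smul]

theorem sq_shift (f : E3 → ℝ) (h : E3) : sq (fun x => f (x + h)) = sq f :=
  integral_add_right_eq_self (fun x => f x ^ 2) h

theorem sqv_shift (G : E3 → E3) (h : E3) : sqv (fun x => G (x + h)) = sqv G :=
  integral_add_right_eq_self (fun x => ‖G x‖ ^ 2) h

theorem memLp_shift {F : Type*} [NormedAddCommGroup F] (f : E3 → F) (hf : MemLp f 2) (h : E3) :
    MemLp (fun x => f (x + h)) 2 :=
  hf.comp_measurePreserving (measurePreserving_add_right volume h)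

theorem gr_shift (φ : E3 → ℝ) (h x : E3) : gr (fun x => φ (x + h)) x = gr φ (x + h) := by
  ext i
  rw [gr_apply, gr_apply, pd_eq, pd_eq, fderiv_comp_add_right]

theorem Test.shift {φ : E3 → ℝ} (hφ : Test φ) (h : E3) : Test (fun x => φ (x + h)) :=
  ⟨hφ.smooth.comp (contDiff_id.add contDiff_const),
    hφ.cpt.comp_homeomorph (Homeomorph.addRight h)⟩

theorem a2_shift (f : E3 → ℝ) (G : E3 → E3) (hf : H1 f G) (h : E3) :
    H1 (fun x => f (x + h)) (fun x => G (x + h)) := by
  obtain ⟨φ, a1, a2, a3⟩ := hf.approx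
  refine ⟨memLp_shift f hf.memf h, memLp_shift G hf.memG h, fun n x => φ n (x + h),
    fun n => (a1 n).shift h, ?_, ?_⟩
  · refine a2.congr fun n => ?_
    exact (sq_shift (fun x => φ n x - f x) h).symm
  · refine a3.congr fun n => ?_
    have := (sqv_shift (fun x => gr (φ n) x - G x) h).symm
    rw [this]
    congr 1
    ext1 x
    rw [gr_shift]

theorem test_trans (φ : E3 → ℝ) (hφ : Test φ) (h : E3) :
    sq (fun x => φ (x + h) - φ x) ≤ ‖h‖ ^ 2 * sqv (gr φ) := by
  have hd : ∀ x t, HasDerivAt (fun t : ℝ => φ (x + t • h)) (fderiv ℝ φ (x + t • h) h) t := by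
    intro x t
    have h1 : HasFDerivAt φ (fderiv ℝ φ (x + t • h)) (x + t • h) := (hφ.diff _).hasFDerivAt
    have h2 : HasDerivAt (fun t : ℝ => x + t • h) h t := by
      simpa using ((hasDerivAt_id t).smul_const h).const_add x
    exact h1.comp_hasDerivAt t h2
  have hcf : Continuous (fun p : E3 × ℝ => ‖gr φ (p.1 + p.2 • h)‖ ^ 2) := by
    have := gr_cont φ hφ.one
    fun_prop
  -- pointwise bound
  have hp : ∀ x, (φ (x + h) - φ x) ^ 2
      ≤ ‖h‖ ^ 2 * ∫ t in Icc (0 : ℝ) 1, ‖gr φ (x + t • h)‖ ^ 2 := by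
    intro x
    have hc1 : Continuous (fun t : ℝ => fderiv ℝ φ (x + t • h) h) := by
      have := hφ.one.continuous_fderiv (by norm_num)
      fun_prop
    have e1 : φ (x + h) - φ x = ∫ t in (0 : ℝ)..1, fderiv ℝ φ (x + t • h) h := by
      rw [intervalIntegral.integral_eq_sub_of_hasDerivAt (fun t _ => hd x t)
        (hc1.intervalIntegrable _ _)]
      simp
    have e2 : (∫ t in (0 : ℝ)..1, fderiv ℝ φ (x + t • h) h) ^ 2
        ≤ ∫ t in (0 : ℝ)..1, (fderiv ℝ φ (x + t • h) h) ^ 2 := by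
      set m := ∫ t in (0 : ℝ)..1, fderiv ℝ φ (x + t • h) h with hm
      have h0 : 0 ≤ ∫ t in (0 : ℝ)..1, (fderiv ℝ φ (x + t • h) h - m) ^ 2 :=
        intervalIntegral.integral_nonneg (by norm_num) fun t _ => by positivity
      have h1 : ∫ t in (0 : ℝ)..1, (fderiv ℝ φ (x + t • h) h - m) ^ 2
          = (∫ t in (0 : ℝ)..1, (fderiv ℝ φ (x + t • h) h) ^ 2) - 2 * m * m + m ^ 2 := by
        have e : (fun t : ℝ => (fderiv ℝ φ (x + t • h) h - m) ^ 2)
            = fun t : ℝ => ((fderiv ℝ φ (x + t • h) h) ^ 2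
              - 2 * m * (fderiv ℝ φ (x + t • h) h)) + m ^ 2 := by
          ext t
          ring
        rw [e, intervalIntegral.integral_add, intervalIntegral.integral_sub,
          intervalIntegral.integral_const_mul, ← hm]
        · simp
        · exact (hc1.pow 2).intervalIntegrable _ _
        · exact (continuous_const.mul hc1).intervalIntegrable _ _
        · exact ((hc1.pow 2).sub (continuous_const.mul hc1)).intervalIntegrable _ _
        · exact continuous_const.intervalIntegrable _ _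
      nlinarith
    rw [e1]
    refine e2.trans ?_
    rw [← integral_const_mul, integral_Icc_eq_integral_Ioc,
      intervalIntegral.integral_of_le (by norm_num)]
    refine setIntegral_mono ?_ ?_ fun t => ?_
    · exact ((hc1.pow 2).intervalIntegrable 0 1).1
    · have : Continuous (fun t : ℝ => ‖h‖ ^ 2 * ‖gr φ (x + t • h)‖ ^ 2) := by
        have := gr_cont φ hφ.one
        fun_prop
      exact (this.intervalIntegrable 0 1).1
    · show (fderiv ℝ φ (x + t • h) h) ^ 2 ≤ ‖h‖ ^ 2 * ‖gr φ (x + t • h)‖ ^ 2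
      rw [← gr_inner, ← mul_pow, ← sq_abs]
      have := abs_real_inner_le_norm (gr φ (x + t • h)) h
      rw [mul_comm ‖h‖]
      gcongr
  have hInt : Integrable (fun p : E3 × ℝ => ‖gr φ (p.1 + p.2 • h)‖ ^ 2)
      (volume.prod (volume.restrict (Icc (0 : ℝ) 1))) := by
    rw [integrable_prod_iff' hcf.aestronglyMeasurable]
    have hg : Integrable (fun x => ‖gr φ x‖ ^ 2) := int_sq _ (gr_memLp φ hφ.one hφ.cpt)
    constructor
    · refine Eventually.of_forall fun t => ?_
      exact hg.comp_add_right (t • h)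
    · have : (fun t : ℝ => ∫ x : E3, ‖‖gr φ (x + t • h)‖ ^ 2‖) = fun _ => sqv (gr φ) := by
        ext t
        have := integral_add_right_eq_self (μ := (volume : Measure E3))
          (fun x => ‖‖gr φ x‖ ^ 2‖) (t • h)
        rw [this]
        simp [sqv]
      rw [this]
      exact integrable_const _
  have hsw : ∫ x : E3, ∫ t in Icc (0 : ℝ) 1, ‖gr φ (x + t • h)‖ ^ 2 = sqv (gr φ) := by
    rw [integral_integral_swap hInt]
    have : (fun t : ℝ => ∫ x : E3, ‖gr φ (x + t • h)‖ ^ 2) = fun _ => sqv (gr φ) := by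
      ext t
      exact integral_add_right_eq_self (μ := (volume : Measure E3)) (fun x => ‖gr φ x‖ ^ 2) (t • h)
    rw [this]
    simp
  calc sq (fun x => φ (x + h) - φ x)
      ≤ ∫ x : E3, ‖h‖ ^ 2 * ∫ t in Icc (0 : ℝ) 1, ‖gr φ (x + t • h)‖ ^ 2 := by
        refine integral_mono ?_ (hInt.integral_prod_left.const_mul _) hp
        have hm : MemLp (fun x => φ (x + h) - φ x) 2 :=
          (test_memLp _ (hφ.shift h)).sub (test_memLp _ hφ)
        have := int_sq _ hm
        simpa [Real.norm_eq_abs, sq_abs] using this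
    _ = ‖h‖ ^ 2 * sqv (gr φ) := by rw [integral_const_mul, hsw]

theorem sq_tendsto (f : E3 → ℝ) (fn : ℕ → E3 → ℝ) (hf : MemLp f 2) (hn : ∀ n, MemLp (fn n) 2)
    (h : Tendsto (fun n => sq (fun x => fn n x - f x)) atTop (𝓝 0)) :
    Tendsto (fun n => sq (fn n)) atTop (𝓝 (sq f)) := by
  have h1 : Tendsto (fun n => √(sq (fn n))) atTop (𝓝 (√(sq f))) := by
    rw [tendsto_iff_norm_sub_tendsto_zero]
    refine squeeze_zero (fun n => norm_nonneg _) (fun n => ?_)
      (by simpa using (Real.continuous_sqrt.tendsto 0).comp h)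
    rw [Real.norm_eq_abs, abs_le]
    have a1 := sq_add_le (fun x => fn n x - f x) f ((hn n).sub hf) hf
    have a2 := sq_add_le (fun x => f x - fn n x) (fn n) (hf.sub (hn n)) (hn n)
    simp only [sub_add_cancel] at a1 a2
    rw [sq_sub_comm] at a2
    simp only [Function.comp]
    constructor <;> linarith
  have h2 := h1.pow 2
  rw [Real.sq_sqrt (sq_nonneg' f)] at h2
  exact h2.congr fun n => Real.sq_sqrt (sq_nonneg' _)

theorem sqv_tendsto (f : E3 → E3) (fn : ℕ → E3 → E3) (hf : MemLp f 2) (hn : ∀ n, MemLp (fn n) 2)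
    (h : Tendsto (fun n => sqv (fun x => fn n x - f x)) atTop (𝓝 0)) :
    Tendsto (fun n => sqv (fn n)) atTop (𝓝 (sqv f)) := by
  have h1 : Tendsto (fun n => √(sqv (fn n))) atTop (𝓝 (√(sqv f))) := by
    rw [tendsto_iff_norm_sub_tendsto_zero]
    refine squeeze_zero (fun n => norm_nonneg _) (fun n => ?_)
      (by simpa using (Real.continuous_sqrt.tendsto 0).comp h)
    rw [Real.norm_eq_abs, abs_le]
    have a1 := sqv_add_le (fun x => fn n x - f x) f ((hn n).sub hf) hf
    have a2 := sqv_add_le (fun x => f x - fn n x) (fn n) (hf.sub (hn n)) (hn n)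
    simp only [sub_add_cancel] at a1 a2
    rw [sqv_sub_comm] at a2
    simp only [Function.comp]
    constructor <;> linarith
  have h2 := h1.pow 2
  rw [Real.sq_sqrt (sqv_nonneg' f)] at h2
  exact h2.congr fun n => Real.sq_sqrt (sqv_nonneg' _)

theorem tend_sub_sq (f g : E3 → ℝ) (fn gn : ℕ → E3 → ℝ) (hf : MemLp f 2) (hg : MemLp g 2)
    (hfn : ∀ n, MemLp (fn n) 2) (hgn : ∀ n, MemLp (gn n) 2)
    (h1 : Tendsto (fun n => sq (fun x => fn n x - f x)) atTop (𝓝 0))
    (h2 : Tendsto (fun n => sq (fun x => gn n x - g x)) atTop (𝓝 0)) :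
    Tendsto (fun n => sq (fun x => (fn n x - gn n x) - (f x - g x))) atTop (𝓝 0) := by
  have h3 : Tendsto (fun n => sq (fun x => (-gn n x) - (-g x))) atTop (𝓝 0) := by
    refine h2.congr fun n => ?_
    unfold sq
    congr 1
    ext x
    ring
  have := tend_add_sq f (fun x => -g x) fn (fun n x => -gn n x) hf hg.neg hfn
    (fun n => (hgn n).neg) h1 h3
  refine this.congr fun n => ?_
  congr 1

theorem a2_trans (f : E3 → ℝ) (G : E3 → E3) (hf : H1 f G) (h : E3) :
    sq (fun x => f (x + h) - f x) ≤ ‖h‖ ^ 2 * sqv G := by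
  obtain ⟨φ, a1, a2, a3⟩ := hf.approx
  have hfm := fun n => test_memLp _ (a1 n)
  have t1 : Tendsto (fun n => sq (fun x => φ n (x + h) - φ n x)) atTop
      (𝓝 (sq (fun x => f (x + h) - f x))) := by
    refine sq_tendsto _ _ ((memLp_shift f hf.memf h).sub hf.memf)
      (fun n => (memLp_shift _ (hfm n) h).sub (hfm n)) ?_
    refine tend_sub_sq (fun x => f (x + h)) f (fun n x => φ n (x + h)) φ
      (memLp_shift f hf.memf h) hf.memf (fun n => memLp_shift _ (hfm n) h) hfm ?_ a2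
    refine a2.congr fun n => ?_
    exact (sq_shift (fun x => φ n x - f x) h).symm
  have t2 : Tendsto (fun n => ‖h‖ ^ 2 * sqv (gr (φ n))) atTop (𝓝 (‖h‖ ^ 2 * sqv G)) :=
    (sqv_tendsto G (fun n => gr (φ n)) hf.memG (fun n => gr_memLp _ (a1 n).one (a1 n).cpt)
      a3).const_mul _
  exact le_of_tendsto_of_tendsto' t1 t2 fun n => test_trans (φ n) (a1 n) h

theorem a2_ibp (f : E3 → ℝ) (F : E3 → E3) (g : E3 → ℝ) (G : E3 → E3) (hf : H1 f F) (hg : H1 g G)
    (i : Fin 3) : ∫ x, f x * G x i = - ∫ x, F x i * g x := by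
  obtain ⟨φ, a1, a2, a3⟩ := hg.approx
  have hfm := fun n => test_memLp _ (a1 n)
  have hgm := fun n => gr_memLp _ (a1 n).one (a1 n).cpt
  have t1 := tend_mul (fun x => G x i) f (fun n x => gr (φ n) x i) (memLp_comp G hg.memG i)
    (fun n => memLp_comp _ (hgm n) i) hf.memf (tend_comp G (fun n => gr (φ n)) hg.memG hgm a3 i)
  have t2 := tend_mul g (fun x => F x i) φ hg.memf hfm (memLp_comp F hf.memG i) a2
  have hw := a1_wgrad f F hf
  have e : ∀ n, ∫ x, gr (φ n) x i * f x = - ∫ x, φ n x * F x i := by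
    intro n
    have := hw (φ n) (a1 n) i
    simp only [mul_comm (gr (φ n) _ i), mul_comm (φ n _)]
    exact this
  have := tendsto_nhds_unique t1 (t2.neg.congr fun n => (e n).symm)
  simp only [mul_comm (f _), mul_comm (F _ i)]
  exact this

theorem dv_eq (X : E3 → E3) (x : E3) (h : DifferentiableAt ℝ X x) :
    dv X x = ∑ i, pd i (fun y => X y i) x := by
  unfold dv
  refine Finset.sum_congr rfl fun i _ => ?_
  have h1 : HasFDerivAt (fun y => X y i)
      ((EuclideanSpace.proj i : E3 →L[ℝ] ℝ).comp (fderiv ℝ X x)) x :=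
    (EuclideanSpace.proj i : E3 →L[ℝ] ℝ).hasFDerivAt.comp x h.hasFDerivAt
  rw [pd_eq, h1.fderiv]
  simp

theorem comp_C1 (X : E3 → E3) (hX : ContDiff ℝ 1 X) (i : Fin 3) :
    ContDiff ℝ 1 (fun y => X y i) :=
  (EuclideanSpace.proj i : E3 →L[ℝ] ℝ).contDiff.comp hX

theorem comp_cpt (X : E3 → E3) (hX : HasCompactSupport X) (i : Fin 3) :
    HasCompactSupport (fun y => X y i) := by
  refine hX.mono ?_
  intro x hx
  rw [Function.mem_support] at hx ⊢
  intro h0
  apply hx
  simp [h0]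

theorem a2_ibpv (hm : MOLL) (X : E3 → E3) (hX : ContDiff ℝ 1 X) (hc : HasCompactSupport X)
    (φ : E3 → ℝ) (Φ : E3 → E3) (h : H1 φ Φ) : ∫ x, ⟪X x, Φ x⟫ = - ∫ x, dv X x * φ x := by
  have hXi : ∀ i, H1 (fun y => X y i) (gr (fun y => X y i)) := fun i =>
    a2_ofC1 hm _ (comp_C1 X hX i) (comp_cpt X hc i)
  have e1 : ∀ x, ⟪X x, Φ x⟫ = ∑ i, X x i * Φ x i := by
    intro x
    rw [PiLp.inner_apply]
    refine Finset.sum_congr rfl fun i _ => ?_
    simp [mul_comm]
  have e2 : ∀ x, dv X x * φ x = ∑ i, gr (fun y => X y i) x i * φ x := by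
    intro x
    rw [dv_eq X x (hX.differentiable (by norm_num) x), Finset.sum_mul]
    rfl
  simp only [e1, e2]
  rw [integral_finsetSum _ fun i _ => int_mul _ _ (hXi i).memf (memLp_comp Φ h.memG i),
    integral_finsetSum _ fun i _ => int_mul _ _ (memLp_comp _ (hXi i).memG i) h.memf,
    ← Finset.sum_neg_distrib]
  exact Finset.sum_congr rfl fun i _ => a2_ibp _ _ φ Φ (hXi i) h i

theorem api2_thm (hm : MOLL) : API2 where
  ofC1 := a2_ofC1 hm
  mul := a2_mul hm
  shift := a2_shift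
  trans := a2_trans
  ibp := a2_ibp
  ibpv := a2_ibpv hm

end Pool.Agent.PFlow.PB
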