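import Pool.Agent.PFlow.K.KBAR
import Pool.Agent.PFlow.K.KBND
import Pool.Agent.PFlow.K.KCOEF
import Pool.Agent.PFlow.K.KCOR
import Pool.Agent.PFlow.K.KCUT
import Pool.Agent.PFlow.K.KDIV
import Pool.Agent.PFlow.K.KEXP
import Pool.Agent.PFlow.K.KIDV
import Pool.Agent.PFlow.K.KJET
import Pool.Agent.PFlow.K.KLIM
import Pool.Agent.PFlow.K.KLIMJ
import Pool.Agent.PFlow.K.KLIMU
import Pool.Agent.PFlow.K.KLIP
import Pool.Agent.PFlow.K.KMON
import Pool.Agent.PFlow.K.KPOS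
import Pool.Agent.PFlow.K.KSM
import Pool.Agent.PFlow.K.KSMO
import Pool.Agent.PFlow.K.KTN

/-!
# All facts on the coefficients (block K) of the equation
-/

namespace Pool.Agent.PFlow.PB

open Pool.Agent.PFlow

theorem kSM : KSM := KSM_thm
theorem kTN : KTN := KTN_thm
theorem kIDV : KIDV := KIDV_thm
theorem kBND : KBND := KBND_thm kSM kTN
theorem kSMO : KSMO := KSMO_thm kSM
theorem kJET : KJET := KJET_thm kSM kIDV
theorem kMON : KMON := KMON_thm kBND kTN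
theorem kLIP : KLIP := KLIP_thm kSM kSMO kBND kTN kIDV
theorem kCOEF : KCOEF := KCOEF_thm kSMO kMON kLIP
theorem kCOR : KCOR := KCOR_thm kBND kTN
theorem kCUT : KCUT := KCUT_thm
theorem kDIV : KDIV := KDIV_thm kSMO kJET
theorem kEXP : KEXP := KEXP_thm kBND kTN
theorem kBAR : KBAR := KBAR_thm kBND kTN
theorem kLIM : KLIM := KLIM_thm kBND kTN
theorem kLIMJ : KLIMJ := KLIMJ_thm kTN kSM
theorem kLIMU : KLIMU := KLIMU_thm kBND kTN
theorem kPOS : KPOS := KPOS_thm kTN kSM kLIMJ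

end Pool.Agent.PFlow.PB
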