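import Pool.Agent.PFlow.StmtsP

/-!
# Block P, module STEP: the strongly monotone problem
-/

open MeasureTheory Filter Topology Set
open scoped ContDiff RealInnerProductSpace ENNReal

namespace Pool.Agent.PFlow.PB

open Pool.Agent.PenroseSph Pool.Agent.PFlow

namespace Step

/-- The big Hilbert space. -/
abbrev X : Type := WithLp 2 (Lp ℝ 2 (volume : Measure E3) × Lp E3 2 (volume : Measure E3))

lemma sq_lp (f : Lp ℝ 2 (volume : Measure E3)) : sq f = ‖f‖ ^ 2 := by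
  rw [← real_inner_self_eq_norm_sq, L2.inner_def]
  unfold sq
  refine integral_congr_ae (Eventually.of_forall fun x => ?_)
  show (f x) ^ 2 = ⟪f x, f x⟫
  rw [real_inner_self_eq_norm_sq, Real.norm_eq_abs, sq_abs]

lemma sqv_lp (f : Lp E3 2 (volume : Measure E3)) : sqv f = ‖f‖ ^ 2 := by
  rw [← real_inner_self_eq_norm_sq, L2.inner_def]
  unfold sqv
  refine integral_congr_ae (Eventually.of_forall fun x => ?_)
  show ‖f x‖ ^ 2 = ⟪f x, f x⟫
  rw [real_inner_self_eq_norm_sq]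

lemma sq_sub_lp (f g : Lp ℝ 2 (volume : Measure E3)) : sq (fun x => f x - g x) = ‖f - g‖ ^ 2 := by
  rw [← sq_lp]
  unfold sq
  refine integral_congr_ae ?_
  filter_upwards [Lp.coeFn_sub f g] with x hx
  rw [hx, Pi.sub_apply]

lemma sqv_sub_lp (f g : Lp E3 2 (volume : Measure E3)) :
    sqv (fun x => f x - g x) = ‖f - g‖ ^ 2 := by
  rw [← sqv_lp]
  unfold sqv
  refine integral_congr_ae ?_
  filter_upwards [Lp.coeFn_sub f g] with x hx
  rw [hx, Pi.sub_apply]

lemma gr_zero' : gr (fun _ : E3 => (0 : ℝ)) = fun _ => 0 := by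
  funext x
  ext i
  simp [gr, pd]

lemma h1_zero (h1 : API1) : H1 (fun _ => 0) (fun _ => 0) := by
  have h2 := h1.ofTest (fun _ => 0) ⟨contDiff_const, HasCompactSupport.zero⟩
  rwa [gr_zero'] at h2

/-- The closed subspace `H¹`. -/
def S (h1 : API1) : Submodule ℝ X where
  carrier := {p | H1 (p.fst : E3 → ℝ) (p.snd : E3 → E3)}
  zero_mem' := by
    show H1 _ _
    refine h1.congr _ _ _ _ (h1_zero h1) ?_ ?_
    · exact (Lp.coeFn_zero ℝ 2 volume).symm
    · exact (Lp.coeFn_zero E3 2 volume).symm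
  add_mem' := by
    intro p q hp hq
    show H1 _ _
    refine h1.congr _ _ _ _ (h1.add _ _ _ _ hp hq) ?_ ?_
    · exact (Lp.coeFn_add p.fst q.fst).symm
    · exact (Lp.coeFn_add p.snd q.snd).symm
  smul_mem' := by
    intro c p hp
    show H1 _ _
    refine h1.congr _ _ _ _ (h1.smul c _ _ hp) ?_ ?_
    · exact (Lp.coeFn_smul c p.fst).symm
    · exact (Lp.coeFn_smul c p.snd).symm

lemma mem_S (h1 : API1) (p : X) : p ∈ S h1 ↔ H1 (p.fst : E3 → ℝ) (p.snd : E3 → E3) := Iff.rfl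

lemma closed_S (h1 : API1) : IsClosed (S h1 : Set X) := by
  refine IsSeqClosed.isClosed fun p q hp hq => ?_
  show H1 _ _
  have hn : Tendsto (fun n => ‖p n - q‖ ^ 2) atTop (𝓝 0) := by
    have h2 := (tendsto_iff_norm_sub_tendsto_zero.mp hq).pow 2
    simpa using h2
  have hsum : ∀ n, ‖p n - q‖ ^ 2 = ‖(p n).fst - q.fst‖ ^ 2 + ‖(p n).snd - q.snd‖ ^ 2 := by
    intro n
    rw [WithLp.prod_norm_sq_eq_of_L2]
    rfl
  refine h1.closed _ _ (fun n => ((p n).fst : E3 → ℝ)) (fun n => ((p n).snd : E3 → E3)) hp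
    (Lp.memLp _) (Lp.memLp _) ?_ ?_
  · refine squeeze_zero (fun n => integral_nonneg fun x => sq_nonneg _) (fun n => ?_) hn
    rw [hsum n, sq_sub_lp]
    exact le_add_of_nonneg_right (sq_nonneg _)
  · refine squeeze_zero (fun n => integral_nonneg fun x => sq_nonneg _) (fun n => ?_) hn
    rw [hsum n, sqv_sub_lp]
    exact le_add_of_nonneg_left (sq_nonneg _)

section coef

variable {A : E3 → E3 → E3} {B : E3 → E3 → ℝ} {c L r T t₀ : ℝ} {Θ θ : E3 → ℝ}

lemma contA (hP : PCoef A B c L r) : Continuous (fun z : E3 × E3 => A z.1 z.2) :=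
  hP.smoothA.continuous

lemma memA (hP : PCoef A B c L r) {G : E3 → E3} (hG : MemLp G 2) :
    MemLp (fun x => A x (G x)) 2 := by
  have hL : 0 ≤ L := hP.c_pos.le.trans hP.c_le
  have hm : AEStronglyMeasurable (fun x => A x (G x)) volume :=
    hP.smoothA.continuous.comp_aestronglyMeasurable
      (aestronglyMeasurable_id.prodMk hG.aestronglyMeasurable)
  refine hG.of_le_mul (c := L) hm (Eventually.of_forall fun x => ?_)
  have := hP.lipA x (G x) 0
  rwa [hP.A_zero, sub_zero, sub_zero] at this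

lemma memB (hP : PCoef A B c L r) {G : E3 → E3} (hG : MemLp G 2) :
    MemLp (fun x => B x (G x)) 2 := by
  have hm : AEStronglyMeasurable (fun x => B x (G x)) volume :=
    hP.smoothB.continuous.comp_aestronglyMeasurable
      (aestronglyMeasurable_id.prodMk hG.aestronglyMeasurable)
  refine hG.of_le_mul (c := L) hm (Eventually.of_forall fun x => ?_)
  have := hP.lipB x (G x) 0
  rwa [hP.B_zero, sub_zero, sub_zero] at this

lemma memTheta (hp : Pen Θ θ T t₀ r) {u : E3 → ℝ} (hu : MemLp u 2) :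
    MemLp (fun x => Θ x * u x) 2 := by
  refine hu.of_le_mul (c := T) (hp.contΘ.aestronglyMeasurable.mul hu.aestronglyMeasurable)
    (Eventually.of_forall fun x => ?_)
  rw [norm_mul, Real.norm_eq_abs, abs_of_nonneg ((hp.nonneg x).trans (hp.le x))]
  exact mul_le_mul_of_nonneg_right (hp.bdd x) (norm_nonneg _)

lemma memtheta (hp : Pen Θ θ T t₀ r) : MemLp θ 2 := by
  have hc : HasCompactSupport θ := by
    refine HasCompactSupport.intro (isCompact_closedBall (0 : E3) r) fun x hx => ?_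
    rw [mem_closedBall_zero_iff, not_le] at hx
    exact hp.outθ x hx.le
  exact hp.contθ.memLp_of_hasCompactSupport hc

/-- The first component of the nonlinear map. -/
lemma mem1 (hP : PCoef A B c L r) (hp : Pen Θ θ T t₀ r) (m : ℝ) {v u : E3 → ℝ} {G : E3 → E3}
    (hv : MemLp v 2) (hu : MemLp u 2) (hG : MemLp G 2) :
    MemLp (fun x => -(B x (G x) - Θ x * u x + θ x - m * (u x - v x))) 2 :=
  ((((memB hP hG).sub (memTheta hp hu)).add (memtheta hp)).sub ((hu.sub hv).const_mul m)).neg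

/-- The nonlinear map into the big space. -/
noncomputable def N (hP : PCoef A B c L r) (hp : Pen Θ θ T t₀ r) (m : ℝ) {v : E3 → ℝ}
    (hv : MemLp v 2) (p : X) : X :=
  WithLp.toLp 2 ((mem1 hP hp m hv (Lp.memLp p.fst) (Lp.memLp p.snd)).toLp,
    (memA hP (Lp.memLp p.snd)).toLp)

lemma inner_N (hP : PCoef A B c L r) (hp : Pen Θ θ T t₀ r) (m : ℝ) {v : E3 → ℝ}
    (hv : MemLp v 2) (p q : X) :
    ⟪N hP hp m hv p, q⟫ = (∫ x, -(B x (p.snd x) - Θ x * p.fst x + θ x
        - m * (p.fst x - v x)) * q.fst x) + ∫ x, ⟪A x (p.snd x), q.snd x⟫ := by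
  rw [WithLp.prod_inner_apply, L2.inner_def, L2.inner_def]
  congr 1
  · refine integral_congr_ae ?_
    filter_upwards [(mem1 hP hp m hv (Lp.memLp p.fst) (Lp.memLp p.snd)).coeFn_toLp] with x hx
    show ⟪((mem1 hP hp m hv (Lp.memLp p.fst) (Lp.memLp p.snd)).toLp) x, q.fst x⟫ = _
    rw [hx]
    simp only [RCLike.inner_apply, conj_trivial]
    ring
  · refine integral_congr_ae ?_
    filter_upwards [(memA hP (Lp.memLp p.snd)).coeFn_toLp] with x hx
    show ⟪((memA hP (Lp.memLp p.snd)).toLp) x, q.snd x⟫ = _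
    rw [hx]

lemma diff_ae (hP : PCoef A B c L r) (hp : Pen Θ θ T t₀ r) (m : ℝ) {v : E3 → ℝ}
    (hv : MemLp v 2) (p q : X) :
    ∀ᵐ x, (N hP hp m hv p - N hP hp m hv q).fst x
        = -(B x (p.snd x) - B x (q.snd x)) + (Θ x + m) * (p.fst x - q.fst x) ∧
      (N hP hp m hv p - N hP hp m hv q).snd x = A x (p.snd x) - A x (q.snd x) ∧
      (p - q).fst x = p.fst x - q.fst x ∧ (p - q).snd x = p.snd x - q.snd x := by
  filter_upwards [(mem1 hP hp m hv (Lp.memLp p.fst) (Lp.memLp p.snd)).coeFn_toLp,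
    (mem1 hP hp m hv (Lp.memLp q.fst) (Lp.memLp q.snd)).coeFn_toLp,
    (memA hP (Lp.memLp p.snd)).coeFn_toLp, (memA hP (Lp.memLp q.snd)).coeFn_toLp,
    Lp.coeFn_sub (N hP hp m hv p).fst (N hP hp m hv q).fst,
    Lp.coeFn_sub (N hP hp m hv p).snd (N hP hp m hv q).snd,
    Lp.coeFn_sub p.fst q.fst, Lp.coeFn_sub p.snd q.snd] with x e1 e2 e3 e4 e5 e6 e7 e8
  refine ⟨?_, ?_, ?_, ?_⟩
  · rw [WithLp.sub_fst, e5, Pi.sub_apply]
    show ((mem1 hP hp m hv (Lp.memLp p.fst) (Lp.memLp p.snd)).toLp) x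
      - ((mem1 hP hp m hv (Lp.memLp q.fst) (Lp.memLp q.snd)).toLp) x = _
    rw [e1, e2]
    ring
  · rw [WithLp.sub_snd, e6, Pi.sub_apply]
    show ((memA hP (Lp.memLp p.snd)).toLp) x - ((memA hP (Lp.memLp q.snd)).toLp) x = _
    rw [e3, e4]
  · rw [WithLp.sub_fst, e7, Pi.sub_apply]
  · rw [WithLp.sub_snd, e8, Pi.sub_apply]

lemma normsq_X (p : X) : ‖p‖ ^ 2 = ∫ x, (‖p.fst x‖ ^ 2 + ‖p.snd x‖ ^ 2) := by
  have i1 : Integrable (fun x => ‖p.fst x‖ ^ 2) := (Lp.memLp p.fst).integrable_norm_pow (by norm_num)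
  have i2 : Integrable (fun x => ‖p.snd x‖ ^ 2) := (Lp.memLp p.snd).integrable_norm_pow (by norm_num)
  rw [integral_add i1 i2, WithLp.prod_norm_sq_eq_of_L2, ← sqv_lp p.snd]
  congr 1
  show ‖p.fst‖ ^ 2 = _
  rw [← sq_lp]
  unfold sq
  refine integral_congr_ae (Eventually.of_forall fun x => ?_)
  show (p.fst x) ^ 2 = ‖p.fst x‖ ^ 2
  rw [Real.norm_eq_abs, sq_abs]

lemma int_X (p : X) : Integrable (fun x => ‖p.fst x‖ ^ 2 + ‖p.snd x‖ ^ 2) :=
  ((Lp.memLp p.fst).integrable_norm_pow (by norm_num)).add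
    ((Lp.memLp p.snd).integrable_norm_pow (by norm_num))

lemma pt_mono {c L m d w D1 D2 th : ℝ} (hc : 0 < c) (hm : L ^ 2 / c + 1 ≤ m) (hth : 0 ≤ th)
    (h1 : -(L * |d| * |w|) + (th + m) * w ^ 2 ≤ D1) (h2 : c * d ^ 2 ≤ D2) :
    min (c / 2) 1 * (w ^ 2 + d ^ 2) ≤ D1 + D2 := by
  have h3 : L * |d| * |w| ≤ c / 2 * d ^ 2 + L ^ 2 / (2 * c) * w ^ 2 := by
    have h4 : 0 ≤ (c * |d| - L * |w|) ^ 2 / (2 * c) := by positivity
    have h5 : (c * |d| - L * |w|) ^ 2 / (2 * c)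
        = c / 2 * |d| ^ 2 + L ^ 2 / (2 * c) * |w| ^ 2 - L * |d| * |w| := by
      field_simp
      ring
    rw [h5, sq_abs, sq_abs] at h4
    linarith
  have h6 : L ^ 2 / (2 * c) * w ^ 2 ≤ L ^ 2 / c * w ^ 2 := by
    refine mul_le_mul_of_nonneg_right ?_ (sq_nonneg _)
    exact div_le_div_of_nonneg_left (sq_nonneg _) hc (by linarith)
  have h7 : (L ^ 2 / c + 1) * w ^ 2 ≤ m * w ^ 2 := mul_le_mul_of_nonneg_right hm (sq_nonneg _)
  have h8 : 0 ≤ th * w ^ 2 := mul_nonneg hth (sq_nonneg _)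
  have h9 : min (c / 2) 1 * w ^ 2 ≤ 1 * w ^ 2 :=
    mul_le_mul_of_nonneg_right (min_le_right _ _) (sq_nonneg _)
  have h10 : min (c / 2) 1 * d ^ 2 ≤ c / 2 * d ^ 2 :=
    mul_le_mul_of_nonneg_right (min_le_left _ _) (sq_nonneg _)
  nlinarith

lemma mono_N (hP : PCoef A B c L r) (hp : Pen Θ θ T t₀ r) {m : ℝ} (hm : L ^ 2 / c + 1 ≤ m)
    {v : E3 → ℝ} (hv : MemLp v 2) (p q : X) :
    min (c / 2) 1 * ‖p - q‖ ^ 2 ≤ ⟪N hP hp m hv p - N hP hp m hv q, p - q⟫ := by
  rw [WithLp.prod_inner_apply, L2.inner_def, L2.inner_def, normsq_X,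
    ← integral_add (L2.integrable_inner _ _) (L2.integrable_inner _ _), ← integral_const_mul]
  refine integral_mono_ae ((int_X _).const_mul _)
    ((L2.integrable_inner _ _).add (L2.integrable_inner _ _)) ?_
  filter_upwards [diff_ae hP hp m hv p q] with x hx
  obtain ⟨e1, e2, e3, e4⟩ := hx
  show min (c / 2) 1 * (‖(p - q).fst x‖ ^ 2 + ‖(p - q).snd x‖ ^ 2) ≤
    ⟪(N hP hp m hv p - N hP hp m hv q).fst x, (p - q).fst x⟫
      + ⟪(N hP hp m hv p - N hP hp m hv q).snd x, (p - q).snd x⟫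
  rw [e1, e2, e3, e4, Real.norm_eq_abs, sq_abs]
  refine pt_mono (L := L) (m := m) (th := Θ x) hP.c_pos hm ((hp.nonneg x).trans (hp.le x)) ?_
    (hP.mono x _ _)
  have h1 := hP.lipB x (p.snd x) (q.snd x)
  simp only [RCLike.inner_apply, conj_trivial, abs_norm]
  have h2 : (B x (p.snd x) - B x (q.snd x)) * (p.fst x - q.fst x)
      ≤ L * ‖p.snd x - q.snd x‖ * |p.fst x - q.fst x| := by
    calc (B x (p.snd x) - B x (q.snd x)) * (p.fst x - q.fst x)
        ≤ |(B x (p.snd x) - B x (q.snd x)) * (p.fst x - q.fst x)| := le_abs_self _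
      _ = |B x (p.snd x) - B x (q.snd x)| * |p.fst x - q.fst x| := abs_mul _ _
      _ ≤ _ := mul_le_mul_of_nonneg_right h1 (abs_nonneg _)
  nlinarith

lemma lip_N (hP : PCoef A B c L r) (hp : Pen Θ θ T t₀ r) {m : ℝ} (hm : 0 ≤ m)
    {v : E3 → ℝ} (hv : MemLp v 2) (p q : X) :
    ‖N hP hp m hv p - N hP hp m hv q‖ ≤ 2 * (L + T + m) * ‖p - q‖ := by
  have hL : 0 < L := hP.c_pos.trans_le hP.c_le
  have hT : 0 ≤ T := ((hp.nonneg 0).trans (hp.le 0)).trans (hp.bdd 0)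
  set K := L + T + m with hK
  have hK0 : 0 < K := by positivity
  refine abs_le_of_sq_le_sq' (a := ‖N hP hp m hv p - N hP hp m hv q‖) ?_ (by positivity) |>.2
  rw [mul_pow, normsq_X, normsq_X, ← integral_const_mul]
  refine integral_mono_ae (int_X _) ((int_X _).const_mul _) ?_
  filter_upwards [diff_ae hP hp m hv p q] with x hx
  obtain ⟨e1, e2, e3, e4⟩ := hx
  rw [e1, e2, e3, e4]
  have h1 := hP.lipB x (p.snd x) (q.snd x)
  have h2 := hP.lipA x (p.snd x) (q.snd x)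
  set d := ‖p.snd x - q.snd x‖ with hd
  set w := p.fst x - q.fst x with hw
  have hd0 : 0 ≤ d := norm_nonneg _
  have hΘ : 0 ≤ Θ x := (hp.nonneg x).trans (hp.le x)
  have h3 : ‖-(B x (p.snd x) - B x (q.snd x)) + (Θ x + m) * w‖ ≤ K * d + K * |w| := by
    refine (norm_add_le _ _).trans (add_le_add ?_ ?_)
    · rw [norm_neg, Real.norm_eq_abs]
      refine h1.trans (mul_le_mul_of_nonneg_right ?_ hd0)
      linarith
    · rw [norm_mul, Real.norm_eq_abs, Real.norm_eq_abs, abs_of_nonneg (by linarith)]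
      refine mul_le_mul_of_nonneg_right ?_ (abs_nonneg _)
      linarith [hp.bdd x]
  have h4 : ‖A x (p.snd x) - A x (q.snd x)‖ ≤ K * d :=
    h2.trans (mul_le_mul_of_nonneg_right (by linarith) hd0)
  have h5 : ‖-(B x (p.snd x) - B x (q.snd x)) + (Θ x + m) * w‖ ^ 2 ≤ (K * d + K * |w|) ^ 2 :=
    pow_le_pow_left₀ (norm_nonneg _) h3 2
  have h6 : ‖A x (p.snd x) - A x (q.snd x)‖ ^ 2 ≤ (K * d) ^ 2 :=
    pow_le_pow_left₀ (norm_nonneg _) h4 2
  rw [Real.norm_eq_abs w]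
  nlinarith [mul_nonneg (sq_nonneg K) (sq_nonneg (d - |w|)), sq_nonneg (K * |w|),
    sq_nonneg (K * d)]

end coef

end Step

open Step in
/-- Module STEP. -/
theorem step_thm (h1 : API1) (hz : ZAR) : STEP := by
  intro A B c L r Θ θ T t₀ hP hp m hm v hv
  have hL : 0 < L := hP.c_pos.trans_le hP.c_le
  have hT : 0 ≤ T := ((hp.nonneg 0).trans (hp.le 0)).trans (hp.bdd 0)
  have hm0 : 0 ≤ m := by
    have : 0 ≤ L ^ 2 / c := div_nonneg (sq_nonneg _) hP.c_pos.le
    linarith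
  have : CompleteSpace (S h1) := (closed_S h1).completeSpace_coe
  have key : ∀ p q : S h1, ⟪(S h1).orthogonalProjectionOnto (N hP hp m hv p), q⟫
      = ⟪N hP hp m hv p, (q : X)⟫ :=
    fun p q => (S h1).inner_orthogonalProjectionOnto_eq_of_mem_right q _
  obtain ⟨p, hp0⟩ := hz (S h1) (fun p => (S h1).orthogonalProjectionOnto (N hP hp m hv p))
    (min (c / 2) 1) (2 * (L + T + m)) (lt_min (half_pos hP.c_pos) one_pos)
    (by
      intro p q
      have h2 := mono_N hP hp hm hv (p : X) (q : X)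
      rw [inner_sub_left, key, key, ← inner_sub_left]
      exact h2)
    (by
      intro p q
      show ‖(S h1).orthogonalProjectionOnto (N hP hp m hv p)
        - (S h1).orthogonalProjectionOnto (N hP hp m hv q)‖ ≤ _
      rw [← map_sub]
      exact ((S h1).norm_orthogonalProjectionOnto_apply_le _).trans
        (lip_N hP hp hm0 hv (p : X) (q : X))) 0
  refine ⟨(p : X).fst, (p : X).snd, p.2, ?_⟩
  intro φ Φ hφ
  have hq : WithLp.toLp 2 (hφ.memf.toLp, hφ.memG.toLp) ∈ S h1 := by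
    show H1 _ _
    exact h1.congr _ _ _ _ hφ hφ.memf.coeFn_toLp.symm hφ.memG.coeFn_toLp.symm
  have h0 := key p ⟨_, hq⟩
  rw [hp0, inner_zero_left, inner_N] at h0
  have h2 : (∫ x, -(B x ((p : X).snd x) - Θ x * (p : X).fst x + θ x
      - m * ((p : X).fst x - v x)) * (WithLp.toLp 2 (hφ.memf.toLp, hφ.memG.toLp) : X).fst x)
      = - ∫ x, (B x ((p : X).snd x) - Θ x * (p : X).fst x + θ x
      - m * ((p : X).fst x - v x)) * φ x := by
    rw [← integral_neg]
    refine integral_congr_ae ?_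
    filter_upwards [hφ.memf.coeFn_toLp] with x hx
    show _ * (hφ.memf.toLp : Lp ℝ 2 (volume : Measure E3)) x = _
    rw [hx]
    ring
  have h3 : (∫ x, ⟪A x ((p : X).snd x),
      (WithLp.toLp 2 (hφ.memf.toLp, hφ.memG.toLp) : X).snd x⟫)
      = ∫ x, ⟪A x ((p : X).snd x), Φ x⟫ := by
    refine integral_congr_ae ?_
    filter_upwards [hφ.memG.coeFn_toLp] with x hx
    show ⟪_, (hφ.memG.toLp : Lp E3 2 (volume : Measure E3)) x⟫ = _
    rw [hx]
  rw [h2, h3] at h0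
  linarith

end Pool.Agent.PFlow.PB
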