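import Pool.Agent.PFlow.StmtsP
import Pool.Agent.PFlow.P.Step

/-!
# Block P, module BDD: an `L²` bound along increasing sequences
-/

open MeasureTheory Filter Topology Set
open scoped ContDiff RealInnerProductSpace ENNReal

namespace Pool.Agent.PFlow.PB

open Pool.Agent.PenroseSph Pool.Agent.PFlow

namespace Bdd

/-- The pointwise inequality. -/
lemma pt {c L T t m Θ θ u v d a b : ℝ} {s : ℝ} (hc : 0 < c) (ht : 0 < t)
    (hs : s = 1 ∨ (s = 0 ∧ b = 0 ∧ θ = 0 ∧ t ≤ Θ)) (hT : Θ ≤ T) (hθ : 0 ≤ θ) (hθΘ : θ ≤ Θ)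
    (hm : 0 ≤ m) (hvu : v ≤ u) (hu0 : 0 ≤ u) (hu1 : u ≤ 1) (hd : 0 ≤ d) (hL : 0 ≤ L)
    (ha : c * d ^ 2 ≤ a) (hb : |b| ≤ L * d) :
    t * u ^ 2 ≤ (t + T + L ^ 2 / (4 * c)) * s + (a - (b - Θ * u + θ - m * (u - v)) * u) := by
  have h1 : 0 ≤ m * (u - v) * u := by
    have : 0 ≤ u - v := by linarith
    positivity
  have hΘ : 0 ≤ Θ := hθ.trans hθΘ
  have h2 : 0 ≤ Θ * u ^ 2 := by positivity
  rcases hs with rfl | ⟨rfl, rfl, rfl, htΘ⟩
  · have h3 : b * u ≤ c * d ^ 2 + L ^ 2 / (4 * c) := by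
      have h4 : b * u ≤ L * d := by
        calc b * u ≤ |b * u| := le_abs_self _
          _ = |b| * u := by rw [abs_mul, abs_of_nonneg hu0]
          _ ≤ (L * d) * 1 := mul_le_mul hb hu1 hu0 (by positivity)
          _ = L * d := mul_one _
      have h5 : 0 ≤ (2 * c * d - L) ^ 2 / (4 * c) := by positivity
      have h6 : (2 * c * d - L) ^ 2 / (4 * c) = c * d ^ 2 - L * d + L ^ 2 / (4 * c) := by
        field_simp
        ring
      linarith
    have h7 : θ * u ≤ T := by nlinarith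
    have h8 : t * u ^ 2 ≤ t := by nlinarith [mul_nonneg ht.le hu0]
    nlinarith
  · have h3 : t * u ^ 2 ≤ Θ * u ^ 2 := mul_le_mul_of_nonneg_right htΘ (sq_nonneg _)
    have h4 : 0 ≤ c * d ^ 2 := by positivity
    nlinarith

end Bdd

open Step Bdd in
/-- Module BDD. -/
theorem bdd_thm (h1 : API1) : BDD := by
  intro A B c L r Θ θ T t₀ hP hp
  have hL : 0 < L := hP.c_pos.trans_le hP.c_le
  set K : ℝ := t₀ + T + L ^ 2 / (4 * c) with hK
  set S : Set E3 := Metric.ball (0 : E3) r with hS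
  have hSm : MeasurableSet S := Metric.isOpen_ball.measurableSet
  have hSf : volume S ≠ ⊤ := Metric.isBounded_ball.measure_lt_top.ne
  have hSi : Integrable (S.indicator (fun _ : E3 => (1 : ℝ))) :=
    (integrable_indicator_iff hSm).2 (integrableOn_const hSf)
  refine ⟨K * (∫ x, S.indicator (fun _ : E3 => (1 : ℝ)) x) / t₀, ?_⟩
  intro m hm v u G hv hSt hvu hu0 hu1
  obtain ⟨hH, hE⟩ := hSt
  have hu : MemLp u 2 := hH.memf
  have hG : MemLp G 2 := hH.memG
  have hF : MemLp (fun x => B x (G x) - Θ x * u x + θ x - m * (u x - v x)) 2 :=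
    (((memB hP hG).sub (memTheta hp hu)).add (memtheta hp)).sub ((hu.sub hv).const_mul m)
  have i1 : Integrable (fun x => ⟪A x (G x), G x⟫) := by
    have h2 := L2.integrable_inner (𝕜 := ℝ) (memA hP hG).toLp hG.toLp
    refine h2.congr ?_
    filter_upwards [(memA hP hG).coeFn_toLp, hG.coeFn_toLp] with x e1 e2
    rw [e1, e2]
  have i2 : Integrable (fun x => (B x (G x) - Θ x * u x + θ x - m * (u x - v x)) * u x) :=
    hF.integrable_mul hu
  have i3 : Integrable (fun x => t₀ * u x ^ 2) := by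
    have := (memLp_two_iff_integrable_sq hu.1).1 hu
    exact this.const_mul _
  have h0 := hE u G hH
  have key : t₀ * sq u ≤ K * (∫ x, S.indicator (fun _ : E3 => (1 : ℝ)) x) := by
    calc t₀ * sq u = ∫ x, t₀ * u x ^ 2 := by rw [sq, integral_const_mul]
      _ ≤ ∫ x, (K * S.indicator (fun _ : E3 => (1 : ℝ)) x + (⟪A x (G x), G x⟫
          - (B x (G x) - Θ x * u x + θ x - m * (u x - v x)) * u x)) := by
        refine integral_mono_ae i3 ((hSi.const_mul K).add (i1.sub i2)) ?_
        filter_upwards [hvu, hu0, hu1] with x hx1 hx2 hx3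
        have hmono := hP.mono x (G x) 0
        rw [hP.A_zero, sub_zero, sub_zero] at hmono
        have hB := hP.lipB x (G x) 0
        rw [hP.B_zero, sub_zero, sub_zero] at hB
        refine pt (d := ‖G x‖) hP.c_pos hp.t₀_pos ?_ (hp.bdd x) (hp.nonneg x) (hp.le x) hm hx1 hx2
          hx3 (norm_nonneg _) hL.le hmono hB
        by_cases hx : x ∈ S
        · left
          simp [hx]
        · right
          have hr : r ≤ ‖x‖ := by
            rw [hS, mem_ball_zero_iff, not_lt] at hx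
            exact hx
          exact ⟨by simp [hx], hP.suppB x _ hr, hp.outθ x hr, hp.outΘ x hr⟩
      _ = K * (∫ x, S.indicator (fun _ : E3 => (1 : ℝ)) x) := by
        have e1 : ∫ x, (⟪A x (G x), G x⟫
            - (B x (G x) - Θ x * u x + θ x - m * (u x - v x)) * u x) = 0 := by
          rw [integral_sub i1 i2, h0, sub_self]
        have e2 := integral_add (hSi.const_mul K) (i1.sub i2)
        simp only [Pi.sub_apply] at e2
        rw [e2, e1, integral_const_mul, add_zero]
  rw [le_div_iff₀ hp.t₀_pos]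
  linarith

end Pool.Agent.PFlow.PB
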