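import Pool.Agent.PFlow.StmtsPF

/-!
# Block P: the dictionary between `StmtsK` and `StmtsP`
-/

open MeasureTheory Filter Topology Set
open scoped ContDiff RealInnerProductSpace

namespace Pool.Agent.PFlow.PB

open Pool.Agent.PenroseSph Pool.Agent.PFlow

namespace Brid

/-- Derivatives of components. -/
theorem fderiv_comp_apply {F : E3 → E3} {x : E3} (hF : DifferentiableAt ℝ F x) (v : E3)
    (i : Fin 3) : fderiv ℝ (fun y => F y i) x v = (fderiv ℝ F x v) i := by
  have h := ((EuclideanSpace.proj i : E3 →L[ℝ] ℝ).hasFDerivAt.comp x hF.hasFDerivAt).fderiv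
  have e : (fun y => F y i) = (EuclideanSpace.proj i : E3 →L[ℝ] ℝ) ∘ F := rfl
  rw [e, h]
  rfl

theorem sum_ee (v : E3) : v = ∑ j, v j • (EuclideanSpace.single j (1 : ℝ) : E3) := by
  ext k
  simp only [WithLp.ofLp_sum, WithLp.ofLp_smul, Finset.sum_apply, Pi.smul_apply, smul_eq_mul]
  rw [Finset.sum_eq_single k]
  · simp
  · intro j _ hj
    simp [Ne.symm hj]
  · simp

theorem fderiv_sum (f : E3 → ℝ) (x v : E3) : fderiv ℝ f x v = ∑ j, v j * pd j f x := by
  conv_lhs => rw [sum_ee v]
  rw [map_sum]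
  refine Finset.sum_congr rfl fun j _ => ?_
  rw [map_smul, smul_eq_mul]
  rfl

theorem pd_comm {f : E3 → ℝ} {x : E3} (hf : ContDiffAt ℝ 2 f x) (i j : Fin 3) :
    pd j (pd i f) x = pd i (pd j f) x := by
  have hs : IsSymmSndFDerivAt ℝ f x := hf.isSymmSndFDerivAt (by simp)
  have hd : DifferentiableAt ℝ (fderiv ℝ f) x :=
    (hf.fderiv_right (m := 1) (by norm_num)).differentiableAt (by norm_num)
  have key : ∀ k l : Fin 3, pd l (pd k f) x =
      fderiv ℝ (fderiv ℝ f) x (EuclideanSpace.single l 1) (EuclideanSpace.single k 1) := by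
    intro k l
    unfold pd
    rw [fderiv_clm_apply hd (differentiableAt_const _)]
    simp
  rw [key, key, hs]

end Brid

open Brid in
theorem brid_thm (hc : KCOEF) (hj : KJET) (hs : KSMO) : BRID where
  coef := by
    intro ε δ κ g h r he he1 hd hk hr hg
    obtain ⟨c, L, hc0, C⟩ := hc ε δ κ g h r he he1 hd hk hg
    have hL : L ≤ max L c := le_max_left L c
    refine ⟨c, max L c, hc0, le_max_right L c, hr, C.smoothA, C.smoothB, C.A0, C.B0, C.mono,
      fun x ξ η => (C.lipA x ξ η).trans ?_, fun x ξ η => (C.lipB x ξ η).trans ?_,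
      fun x y ξ => (C.lipX x y ξ).trans ?_, C.supp⟩
    · gcongr
    · gcongr
    · gcongr
  op := by
    intro ε δ κ g h r he he1 hd hk hg x ξ M
    obtain ⟨s1, -, -, -, -⟩ := hs ε δ κ g h r he he1 hd hk hg
    have h1 : DifferentiableAt ℝ (fun y => cA ε δ κ g y ξ) x := by
      have : ContDiff ℝ ∞ (fun y : E3 => cA ε δ κ g y ξ) :=
        s1.comp (contDiff_id.prodMk contDiff_const)
      exact (this.differentiable (by simp)) x
    have h2 : DifferentiableAt ℝ (cA ε δ κ g x) ξ := by
      have : ContDiff ℝ ∞ (fun η : E3 => cA ε δ κ g x η) :=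
        s1.comp (contDiff_const.prodMk contDiff_id)
      exact (this.differentiable (by simp)) ξ
    rw [← hj ε δ κ g h r he he1 hd hk hg x ξ (mt M)]
    unfold opA
    congr 1
    · refine Finset.sum_congr rfl fun i _ => ?_
      rw [← fderiv_comp_apply h1]
      rfl
    · refine Finset.sum_congr rfl fun i _ => ?_
      rw [← fderiv_comp_apply h2, fderiv_sum]
      rfl
  jet := by
    intro f x hf
    refine ⟨rfl, ?_⟩
    ext i j
    exact pd_comm hf i j

end Pool.Agent.PFlow.PB
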