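import Pool.Agent.PFlow.StmtsP

set_option autoImplicit false

open MeasureTheory Filter Topology Set
open scoped ContDiff RealInnerProductSpace

namespace Pool.Agent.PFlow.PB

open Pool.Agent.PenroseSph Pool.Agent.PFlow

/-- The truncation. -/
private theorem cglo_psi (m : ℝ) (hm : 0 ≤ m) : ∃ Ψ : ℝ → ℝ, ContDiff ℝ 1 Ψ ∧ Ψ 0 = 0 ∧
    (∀ t, m < t → Ψ t = t - m ∧ deriv Ψ t = 1) ∧ (∀ t, t ≤ m → Ψ t ≤ 0) := by
  rcases hm.eq_or_lt with h0 | h0
  · subst h0
    refine ⟨id, contDiff_id, rfl, ?_, ?_⟩
    · intro t _
      refine ⟨by simp, ?_⟩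
      exact deriv_id t
    · intro t ht
      exact ht
  · refine ⟨fun t => Real.smoothTransition (4 * t / m - 1) * (t - m), ?_, ?_, ?_, ?_⟩
    · refine ContDiff.mul ?_ (contDiff_id.sub contDiff_const)
      refine (Real.smoothTransition.contDiff (n := 1)).comp ?_
      exact ((contDiff_const.mul contDiff_id).div_const m).sub contDiff_const
    · have : Real.smoothTransition (4 * 0 / m - 1) = 0 := by
        apply Real.smoothTransition.zero_of_nonpos
        simp
      show Real.smoothTransition (4 * 0 / m - 1) * (0 - m) = 0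
      rw [this, zero_mul]
    · intro t ht
      have h1 : ∀ y, m / 2 < y → Real.smoothTransition (4 * y / m - 1) = 1 := by
        intro y hy
        apply Real.smoothTransition.one_of_one_le
        rw [le_sub_iff_add_le, le_div_iff₀ h0]
        linarith
      refine ⟨?_, ?_⟩
      · show Real.smoothTransition (4 * t / m - 1) * (t - m) = t - m
        rw [h1 t (by linarith), one_mul]
      · have h2 : (fun y => Real.smoothTransition (4 * y / m - 1) * (y - m)) =ᶠ[𝓝 t]
            fun y => y - m := by
          filter_upwards [lt_mem_nhds (show m / 2 < t by linarith)] with y hy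
          rw [h1 y hy, one_mul]
        rw [h2.deriv_eq]
        simp
    · intro t ht
      exact mul_nonpos_of_nonneg_of_nonpos (Real.smoothTransition.nonneg _) (by linarith)

theorem cglo_thm (h1 : API1) (h2 : API2) (hc : CHAIN) (hk : CKEY) : CGLO := by
  intro A B c L r Θ θ T t₀ hP hPen u G hsol hu hu01 s hs f c₁ hf hfc hsc σ hσ hop
  have hs2 : s * s = 1 := by rcases hs with rfl | rfl <;> norm_num
  have hsabs : |s| = 1 := by rcases hs with rfl | rfl <;> norm_num
  have hf1 : ContDiff ℝ 1 f := hf.of_le (by norm_num)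
  have hfc1 : ContDiff ℝ 1 (fun x => f x - c₁) := hf1.sub contDiff_const
  have hgr : gr (fun x => f x - c₁) = gr f := by
    funext x
    unfold gr pd
    congr 1
    funext i
    rw [fderiv_sub_const]
  have hH1 : H1 (fun x => f x - c₁) (gr f) := by
    have := h2.ofC1 _ hfc1 hfc
    rwa [hgr] at this
  have hH2 : H1 (fun x => s * (f x - c₁) - s * u x) (fun x => s • gr f x - s • G x) :=
    h1.sub _ _ _ _ (h1.smul s _ _ hH1) (h1.smul s _ _ hsol.1)
  obtain ⟨Ψ, hΨ, hΨ0, hΨ1, hΨ2⟩ := cglo_psi (-(s * c₁)) (by linarith)
  -- bounds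
  obtain ⟨C, hC⟩ := hfc.exists_bound_of_continuous hfc1.continuous
  have hbd : ∀ x, |s * (f x - c₁) - s * u x| ≤ C + 1 := by
    intro x
    have h3 := hC x
    rw [Real.norm_eq_abs] at h3
    have h4 : |u x| ≤ 1 := by
      rw [abs_le]
      have := hu01 x
      constructor <;> linarith [this.1, this.2]
    calc |s * (f x - c₁) - s * u x| ≤ |s * (f x - c₁)| + |s * u x| := abs_sub _ _
      _ = |f x - c₁| + |u x| := by rw [abs_mul, abs_mul, hsabs, one_mul, one_mul]
      _ ≤ C + 1 := add_le_add h3 h4
  have hV := hc.bdd _ _ Ψ (C + 1) hH2 (Eventually.of_forall hbd) hΨ hΨ0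
  obtain ⟨T', hT'⟩ := (isCompact_Icc (a := -(C + 1)) (b := C + 1)).exists_bound_of_continuousOn
    hΨ.continuous.continuousOn
  have hiff : ∀ x, 0 < Ψ (s * (f x - c₁) - s * u x) → -(s * c₁) < s * (f x - c₁) - s * u x := by
    intro x hx
    by_contra hcon
    push Not at hcon
    exact absurd (hΨ2 _ hcon) (not_le.2 hx)
  have key := hk A B c L r Θ θ T t₀ hP hPen u G hsol s hs f hf (by
      rw [← hgr]
      have h5 : tsupport (gr (fun x => f x - c₁)) ⊆ tsupport (fun x => f x - c₁) := by
        apply closure_minimal _ (isClosed_tsupport _)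
        intro x hx
        by_contra hcon
        apply hx
        have h6 : (fun x => f x - c₁) =ᶠ[𝓝 x] fun _ => 0 := by
          have := (isClosed_tsupport (fun x => f x - c₁)).isOpen_compl.mem_nhds hcon
          filter_upwards [this] with y hy
          exact image_eq_zero_of_notMem_tsupport (f := fun x => f x - c₁) hy
        have h7 : ∀ i, pd i (fun x => f x - c₁) x = 0 := by
          intro i
          unfold pd
          rw [h6.fderiv_eq]
          simp
        unfold gr
        simp only [h7]
        rfl
      exact HasCompactSupport.intro' hfc (isClosed_tsupport _) (fun x hx => by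
        by_contra h8
        exact hx (h5 (subset_closure h8))))
    (fun x => Ψ (s * (f x - c₁) - s * u x)) _ hV T' (Eventually.of_forall fun x => by
      have := hT' _ (abs_le.1 (hbd x))
      rwa [Real.norm_eq_abs] at this)
    (Eventually.of_forall fun x hx => by
      have h9 := (hΨ1 _ (hiff x hx)).2
      show deriv Ψ (s * (f x - c₁) - s * u x) • (s • gr f x - s • G x) = s • (gr f x - G x)
      rw [h9, one_smul, smul_sub])
    σ hσ
    (Eventually.of_forall fun x hx => by
      apply hop x
      have := hiff x hx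
      linarith)
  -- continuity
  have hcont : Continuous (fun x => Ψ (s * (f x - c₁) - s * u x)) := by
    refine hΨ.continuous.comp ?_
    exact (continuous_const.mul (hf.continuous.sub continuous_const)).sub
      (continuous_const.mul hu)
  intro x
  by_contra hcon
  push Not at hcon
  have h10 : -(s * c₁) < s * (f x - c₁) - s * u x := by linarith
  have h11 : 0 < Ψ (s * (f x - c₁) - s * u x) := by
    rw [(hΨ1 _ h10).1]
    linarith
  have hopen : IsOpen {y | 0 < Ψ (s * (f y - c₁) - s * u y)} := isOpen_lt continuous_const hcont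
  have hpos : 0 < volume {y | 0 < Ψ (s * (f y - c₁) - s * u y)} :=
    hopen.measure_pos volume ⟨x, h11⟩
  have hzero : volume {y | 0 < Ψ (s * (f y - c₁) - s * u y)} = 0 := by
    have := ae_iff.1 key
    simp only [not_le] at this
    exact this
  exact absurd hzero hpos.ne'

end Pool.Agent.PFlow.PB
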