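import Pool.Agent.PFlow.StmtsP
import Pool.Agent.PFlow.P.API2

/-!
# Block P, module CID: integration by parts for the quadratic form of second derivatives
-/

set_option autoImplicit false

open MeasureTheory Filter Topology Set
open scoped ContDiff RealInnerProductSpace ENNReal

namespace Pool.Agent.PFlow.PB

open Pool.Agent.PenroseSph Pool.Agent.PFlow

namespace CIDaux

/-- second partial derivatives commute -/
theorem pd_comm (f : E3 → ℝ) (hf : ContDiff ℝ ∞ f) (i j : Fin 3) :
    pd i (pd j f) = pd j (pd i f) := by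
  have hd : Differentiable ℝ (fderiv ℝ f) :=
    (hf.fderiv_right (m := ∞) (by simp)).differentiable (by norm_num)
  have key : ∀ i j x, pd i (pd j f) x = fderiv ℝ (fderiv ℝ f) x (ee i) (ee j) := by
    intro i j x
    have h1 : pd j f = fun y => fderiv ℝ f y (ee j) := rfl
    rw [pd_eq, h1, fderiv_clm_apply (hd x) (differentiableAt_const _)]
    simp
  funext x
  rw [key i j x, key j i x]
  have hs : IsSymmSndFDerivAt ℝ f x :=
    (hf.contDiffAt (x := x)).isSymmSndFDerivAt (by simp; norm_cast)
  exact hs (ee i) (ee j)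

theorem pd_smooth (f : E3 → ℝ) (hf : ContDiff ℝ ∞ f) (i : Fin 3) : ContDiff ℝ ∞ (pd i f) :=
  (hf.fderiv_right (m := ∞) (by simp)).clm_apply contDiff_const

theorem pd_mul (f g : E3 → ℝ) (hf : ContDiff ℝ ∞ f) (hg : ContDiff ℝ ∞ g) (i : Fin 3) (x : E3) :
    pd i (fun y => f y * g y) x = pd i f x * g x + f x * pd i g x := by
  rw [pd_eq, fderiv_fun_mul (hf.differentiable (by norm_num) x)
    (hg.differentiable (by norm_num) x)]
  simp [pd_eq]
  ring

/-- the identity for test functions -/
theorem test_id (φ : E3 → ℝ) (hφ : Test φ) (q : E3 → ℝ) (hq : ContDiff ℝ 1 q)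
    (i k j l : Fin 3) :
    ∫ x, q x * (hs φ i x j * hs φ k x l - hs φ i x k * hs φ j x l)
      = - ∫ x, (pd j q x * gr φ x i * hs φ k x l - pd k q x * gr φ x i * hs φ j x l) := by
  have hi := pd_smooth φ hφ.smooth i
  have hkl := pd_smooth _ (pd_smooth φ hφ.smooth k) l
  have hjl := pd_smooth _ (pd_smooth φ hφ.smooth j) l
  have hci := pd_cpt φ hφ.cpt i
  have one : ∀ f : E3 → ℝ, ContDiff ℝ ∞ f → ContDiff ℝ 1 f := fun f h =>
    h.of_le (by exact_mod_cast le_top)
  have c1 : HasCompactSupport fun x => pd i φ x * pd l (pd k φ) x := hci.mul_right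
  have c2 : HasCompactSupport fun x => pd i φ x * pd l (pd j φ) x := hci.mul_right
  have s1 := one _ (hi.mul hkl)
  have s2 := one _ (hi.mul hjl)
  have e1 := ibp_C1 q _ hq s1 c1 j
  have e2 := ibp_C1 q _ hq s2 c2 k
  have i1 : Integrable fun x => q x * pd j (fun x => pd i φ x * pd l (pd k φ) x) x :=
    (hq.continuous.mul (pd_cont _ s1 j)).integrable_of_hasCompactSupport (pd_cpt _ c1 j).mul_left
  have i2 : Integrable fun x => q x * pd k (fun x => pd i φ x * pd l (pd j φ) x) x :=
    (hq.continuous.mul (pd_cont _ s2 k)).integrable_of_hasCompactSupport (pd_cpt _ c2 k).mul_left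
  have i3 : Integrable fun x => pd j q x * (pd i φ x * pd l (pd k φ) x) :=
    ((pd_cont q hq j).mul s1.continuous).integrable_of_hasCompactSupport c1.mul_left
  have i4 : Integrable fun x => pd k q x * (pd i φ x * pd l (pd j φ) x) :=
    ((pd_cont q hq k).mul s2.continuous).integrable_of_hasCompactSupport c2.mul_left
  have hsym : pd j (pd l (pd k φ)) = pd k (pd l (pd j φ)) := by
    rw [pd_comm φ hφ.smooth l k, pd_comm _ (pd_smooth φ hφ.smooth l) j k,
      pd_comm φ hφ.smooth j l]
  have l1 : (fun x => q x * (hs φ i x j * hs φ k x l - hs φ i x k * hs φ j x l)) =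
      fun x => q x * pd j (fun x => pd i φ x * pd l (pd k φ) x) x -
        q x * pd k (fun x => pd i φ x * pd l (pd j φ) x) x := by
    funext x
    rw [pd_mul _ _ hi hkl, pd_mul _ _ hi hjl, hsym]
    show q x * (pd j (pd i φ) x * pd l (pd k φ) x - pd k (pd i φ) x * pd l (pd j φ) x) = _
    ring
  have l2 : (fun x => pd j q x * gr φ x i * hs φ k x l - pd k q x * gr φ x i * hs φ j x l) =
      fun x => pd j q x * (pd i φ x * pd l (pd k φ) x) -
        pd k q x * (pd i φ x * pd l (pd j φ) x) := by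
    funext x
    show pd j q x * pd i φ x * pd l (pd k φ) x - pd k q x * pd i φ x * pd l (pd j φ) x = _
    ring
  rw [l1, l2, integral_sub i1 i2, integral_sub i3 i4, e1, e2]
  ring

/-- limits of products -/
theorem bil (a b : E3 → ℝ) (an bn : ℕ → E3 → ℝ) (ha : MemLp a 2) (hb : MemLp b 2)
    (han : ∀ n, MemLp (an n) 2) (hbn : ∀ n, MemLp (bn n) 2)
    (h1 : Tendsto (fun n => sq (fun x => an n x - a x)) atTop (𝓝 0))
    (h2 : Tendsto (fun n => sq (fun x => bn n x - b x)) atTop (𝓝 0)) :
    Tendsto (fun n => ∫ x, an n x * bn n x) atTop (𝓝 (∫ x, a x * b x)) := by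
  have t1 : Tendsto (fun n => ∫ x, (an n x - a x) * bn n x) atTop (𝓝 0) := by
    have h3 : Tendsto (fun n => √(sq (fun x => an n x - a x)) * √(sq (bn n))) atTop (𝓝 0) := by
      have h4 := ((Real.continuous_sqrt.tendsto 0).comp h1).mul
        ((Real.continuous_sqrt.tendsto _).comp (sq_tendsto b bn hb hbn h2))
      simpa using h4
    refine squeeze_zero_norm (fun n => ?_) h3
    rw [Real.norm_eq_abs]
    exact cs _ _ ((han n).sub ha) (hbn n)
  have t2 := tend_mul b a bn hb hbn ha h2
  have t3 := t1.add t2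
  rw [zero_add] at t3
  have e : ∫ x, b x * a x = ∫ x, a x * b x := by
    congr 1
    funext x
    ring
  rw [e] at t3
  refine t3.congr fun n => ?_
  have i1 : Integrable fun x => (an n x - a x) * bn n x := int_mul _ _ ((han n).sub ha) (hbn n)
  have i2 : Integrable fun x => bn n x * a x := int_mul _ _ (hbn n) ha
  rw [← integral_add i1 i2]
  congr 1
  funext x
  ring

/-- the identity for one coefficient -/
theorem one_id (hd : DENS) (q : E3 → ℝ) (C : ℝ) (hq : ContDiff ℝ 1 q) (hqC : ∀ x, |q x| ≤ C)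
    (hqD : ∀ x, ‖gr q x‖ ≤ C) (u : E3 → ℝ) (G : E3 → E3) (M : Fin 3 → E3 → E3) (hu : H2 u G M)
    (i k j l : Fin 3) :
    Integrable (fun x => q x * (M i x j * M k x l - M i x k * M j x l)) ∧
    Integrable (fun x => pd j q x * G x i * M k x l - pd k q x * G x i * M j x l) ∧
    ∫ x, q x * (M i x j * M k x l - M i x k * M j x l)
      = - ∫ x, (pd j q x * G x i * M k x l - pd k q x * G x i * M j x l) := by
  obtain ⟨φ, hφ, -, cG, cM, -⟩ := hd u G M hu
  have hM : ∀ i, MemLp (M i) 2 := fun i => (hu.h2 i).memG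
  have hG : MemLp G 2 := hu.h1.memG
  have hMn : ∀ n i, MemLp (hs (φ n) i) 2 := fun n i =>
    gr_memLp _ ((pd_smooth _ (hφ n).smooth i).of_le (by exact_mod_cast le_top))
      (pd_cpt _ (hφ n).cpt i)
  have hGn : ∀ n, MemLp (gr (φ n)) 2 := fun n => gr_memLp _ (hφ n).one (hφ n).cpt
  have hp : ∀ j x, |pd j q x| ≤ C := fun j x => by
    rw [← gr_apply]
    exact (abs_comp_le _ _).trans (hqD x)
  -- products with a bounded coefficient
  have key : ∀ (p : E3 → ℝ) (a b : E3 → ℝ) (an bn : ℕ → E3 → ℝ), Continuous p →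
      (∀ x, |p x| ≤ C) → MemLp a 2 → MemLp b 2 → (∀ n, MemLp (an n) 2) → (∀ n, MemLp (bn n) 2) →
      Tendsto (fun n => sq (fun x => an n x - a x)) atTop (𝓝 0) →
      Tendsto (fun n => sq (fun x => bn n x - b x)) atTop (𝓝 0) →
      Integrable (fun x => p x * a x * b x) ∧ (∀ n, Integrable (fun x => p x * an n x * bn n x)) ∧
      Tendsto (fun n => ∫ x, p x * an n x * bn n x) atTop (𝓝 (∫ x, p x * a x * b x)) := by
    intro p a b an bn hp hpC ha hb han hbn t1 t2
    have m1 := memLp_mul_bdd p a C ha hp hpC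
    have m2 := fun n => memLp_mul_bdd p (an n) C (han n) hp hpC
    refine ⟨int_mul _ _ m1 hb, fun n => int_mul _ _ (m2 n) (hbn n), ?_⟩
    refine bil _ b _ bn m1 hb m2 hbn ?_ t2
    have t3 := t1.const_mul (C ^ 2)
    rw [mul_zero] at t3
    refine squeeze_zero (fun n => sq_nonneg' _) (fun n => ?_) t3
    have e : (fun x => p x * an n x - p x * a x) = fun x => p x * (an n x - a x) := by
      funext x; ring
    rw [e]
    exact sq_mul_le p (fun x => an n x - a x) C ((han n).sub ha) hpC
  have cMc : ∀ i j, Tendsto (fun n => sq (fun x => hs (φ n) i x j - M i x j)) atTop (𝓝 0) :=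
    fun i j => tend_comp (M i) (fun n => hs (φ n) i) (hM i) (fun n => hMn n i) (cM i) j
  have cGc : ∀ i, Tendsto (fun n => sq (fun x => gr (φ n) x i - G x i)) atTop (𝓝 0) :=
    fun i => tend_comp G (fun n => gr (φ n)) hG hGn cG i
  have k1 := key q (fun x => M i x j) (fun x => M k x l) (fun n x => hs (φ n) i x j)
    (fun n x => hs (φ n) k x l) hq.continuous hqC (memLp_comp _ (hM i) j) (memLp_comp _ (hM k) l)
    (fun n => memLp_comp _ (hMn n i) j) (fun n => memLp_comp _ (hMn n k) l) (cMc i j) (cMc k l)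
  have k2 := key q (fun x => M i x k) (fun x => M j x l) (fun n x => hs (φ n) i x k)
    (fun n x => hs (φ n) j x l) hq.continuous hqC (memLp_comp _ (hM i) k) (memLp_comp _ (hM j) l)
    (fun n => memLp_comp _ (hMn n i) k) (fun n => memLp_comp _ (hMn n j) l) (cMc i k) (cMc j l)
  have k3 := key (pd j q) (fun x => G x i) (fun x => M k x l) (fun n x => gr (φ n) x i)
    (fun n x => hs (φ n) k x l) (pd_cont q hq j) (hp j) (memLp_comp _ hG i)
    (memLp_comp _ (hM k) l) (fun n => memLp_comp _ (hGn n) i) (fun n => memLp_comp _ (hMn n k) l)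
    (cGc i) (cMc k l)
  have k4 := key (pd k q) (fun x => G x i) (fun x => M j x l) (fun n x => gr (φ n) x i)
    (fun n x => hs (φ n) j x l) (pd_cont q hq k) (hp k) (memLp_comp _ hG i)
    (memLp_comp _ (hM j) l) (fun n => memLp_comp _ (hGn n) i) (fun n => memLp_comp _ (hMn n j) l)
    (cGc i) (cMc j l)
  have e1 : ∀ (A B D E : E3 → ℝ), (fun x => q x * (A x * B x - D x * E x)) =
      fun x => q x * A x * B x - q x * D x * E x := fun A B D E => by
    funext x; ring
  have t1 := (k1.2.2.sub k2.2.2)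
  have t2 := (k3.2.2.sub k4.2.2).neg
  have t3 : (fun n => (∫ x, q x * hs (φ n) i x j * hs (φ n) k x l) -
      ∫ x, q x * hs (φ n) i x k * hs (φ n) j x l) =
      fun n => -((∫ x, pd j q x * gr (φ n) x i * hs (φ n) k x l) -
        ∫ x, pd k q x * gr (φ n) x i * hs (φ n) j x l) := by
    funext n
    have h := test_id (φ n) (hφ n) q hq i k j l
    rw [e1, integral_sub (k1.2.1 n) (k2.2.1 n), integral_sub (k3.2.1 n) (k4.2.1 n)] at h
    exact h
  rw [t3] at t1
  have t4 := tendsto_nhds_unique t1 t2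
  refine ⟨?_, k3.1.sub k4.1, ?_⟩
  · rw [e1]
    exact k1.1.sub k2.1
  · rw [e1, integral_sub k1.1 k2.1, integral_sub k3.1 k4.1]
    exact t4

end CIDaux

open CIDaux in
/-- U2 (CID) -/
theorem cid_thm (_h1 : API1) (hd : DENS) : CID := by
  intro q C hq hqC hqD u G M hu
  have key := fun i k j l =>
    one_id hd (q i k j l) C (hq i k j l) (hqC i k j l) (hqD i k j l) u G M hu i k j l
  have s1 : ∫ x, ∑ i, ∑ k, ∑ j, ∑ l, q i k j l x * (M i x j * M k x l - M i x k * M j x l) =
      ∑ i, ∑ k, ∑ j, ∑ l, ∫ x, q i k j l x * (M i x j * M k x l - M i x k * M j x l) := by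
    rw [integral_finsetSum _ fun i _ => integrable_finsetSum _ fun k _ =>
      integrable_finsetSum _ fun j _ => integrable_finsetSum _ fun l _ => (key i k j l).1]
    refine Finset.sum_congr rfl fun i _ => ?_
    rw [integral_finsetSum _ fun k _ =>
      integrable_finsetSum _ fun j _ => integrable_finsetSum _ fun l _ => (key i k j l).1]
    refine Finset.sum_congr rfl fun k _ => ?_
    rw [integral_finsetSum _ fun j _ => integrable_finsetSum _ fun l _ => (key i k j l).1]
    refine Finset.sum_congr rfl fun j _ => ?_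
    rw [integral_finsetSum _ fun l _ => (key i k j l).1]
  have s2 : ∫ x, ∑ i, ∑ k, ∑ j, ∑ l, (pd j (q i k j l) x * G x i * M k x l
        - pd k (q i k j l) x * G x i * M j x l) =
      ∑ i, ∑ k, ∑ j, ∑ l, ∫ x, (pd j (q i k j l) x * G x i * M k x l
        - pd k (q i k j l) x * G x i * M j x l) := by
    rw [integral_finsetSum _ fun i _ => integrable_finsetSum _ fun k _ =>
      integrable_finsetSum _ fun j _ => integrable_finsetSum _ fun l _ => (key i k j l).2.1]
    refine Finset.sum_congr rfl fun i _ => ?_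
    rw [integral_finsetSum _ fun k _ =>
      integrable_finsetSum _ fun j _ => integrable_finsetSum _ fun l _ => (key i k j l).2.1]
    refine Finset.sum_congr rfl fun k _ => ?_
    rw [integral_finsetSum _ fun j _ => integrable_finsetSum _ fun l _ => (key i k j l).2.1]
    refine Finset.sum_congr rfl fun j _ => ?_
    rw [integral_finsetSum _ fun l _ => (key i k j l).2.1]
  rw [s1, s2]
  simp only [← Finset.sum_neg_distrib]
  refine Finset.sum_congr rfl fun i _ => Finset.sum_congr rfl fun k _ =>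
    Finset.sum_congr rfl fun j _ => Finset.sum_congr rfl fun l _ => (key i k j l).2.2

end Pool.Agent.PFlow.PB
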