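import Pool.Agent.PFlow.StmtsP

/-!
# CKEY: the main comparison lemma
-/

open MeasureTheory Filter Topology Set
open scoped ContDiff RealInnerProductSpace

namespace Pool.Agent.PFlow.PB

open Pool.Agent.PenroseSph Pool.Agent.PFlow

namespace CKEYP

/-! ### The test function -/

lemma hasDerivAt_sq (t : ℝ) : HasDerivAt (fun t : ℝ => (max t 0) ^ 2) (2 * max t 0) t := by
  rcases lt_trichotomy t 0 with ht | ht | ht
  · rw [max_eq_right ht.le, mul_zero]
    refine (hasDerivAt_const t (0 : ℝ)).congr_of_eventuallyEq ?_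
    filter_upwards [eventually_lt_nhds ht] with s hs
    rw [max_eq_right hs.le, zero_pow two_ne_zero]
  · subst ht
    rw [max_self, mul_zero, hasDerivAt_iff_isLittleO_nhds_zero]
    have h1 : (fun h : ℝ => (max (0 + h) 0) ^ 2 - (max (0 : ℝ) 0) ^ 2 - h • (0 : ℝ)) =
        fun h => (max h 0) ^ 2 := by
      funext h
      rw [zero_add, max_self, zero_pow two_ne_zero, sub_zero, smul_zero, sub_zero]
    rw [h1]
    have h2 : (fun h : ℝ => (max h 0) ^ 2) =O[𝓝 0] (fun h : ℝ => h ^ 2) := by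
      refine Asymptotics.IsBigO.of_bound 1 (Eventually.of_forall fun h => ?_)
      rw [one_mul, Real.norm_eq_abs, Real.norm_eq_abs, abs_of_nonneg (sq_nonneg _), abs_pow]
      refine pow_le_pow_left₀ (le_max_right _ _) ?_ 2
      exact max_le (le_abs_self h) (abs_nonneg h)
    exact h2.trans_isLittleO (Asymptotics.isLittleO_pow_id (by norm_num))
  · rw [max_eq_left ht.le]
    have h := hasDerivAt_pow 2 t
    norm_num at h
    refine h.congr_of_eventuallyEq ?_
    filter_upwards [eventually_gt_nhds ht] with s hs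
    rw [max_eq_left hs.le]

/-- the test function -/
noncomputable def psi (β t : ℝ) : ℝ := (max t 0) ^ 2 * Real.exp (β * t)

/-- its derivative -/
noncomputable def psi' (β t : ℝ) : ℝ :=
  2 * max t 0 * Real.exp (β * t) + β * psi β t

lemma hasDerivAt_psi (β t : ℝ) : HasDerivAt (psi β) (psi' β t) t := by
  have h1 : HasDerivAt (fun t : ℝ => Real.exp (β * t)) (Real.exp (β * t) * β) t := by
    have := ((hasDerivAt_id t).const_mul β).exp
    simpa using this
  have h2 := (hasDerivAt_sq t).mul h1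
  refine h2.congr_deriv ?_
  simp only [psi', psi]
  ring

lemma contDiff_psi (β : ℝ) : ContDiff ℝ 1 (psi β) := by
  rw [contDiff_one_iff_deriv]
  refine ⟨fun t => (hasDerivAt_psi β t).differentiableAt, ?_⟩
  have : deriv (psi β) = psi' β := by
    funext t
    exact (hasDerivAt_psi β t).deriv
  rw [this]
  unfold psi' psi
  fun_prop

lemma psi_nonneg (β t : ℝ) : 0 ≤ psi β t := by
  unfold psi
  positivity

lemma psi_of_nonpos (β : ℝ) {t : ℝ} (ht : t ≤ 0) : psi β t = 0 := by
  rw [psi, max_eq_right ht, zero_pow two_ne_zero, zero_mul]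

lemma psi'_of_nonpos (β : ℝ) {t : ℝ} (ht : t ≤ 0) : psi' β t = 0 := by
  rw [psi', psi_of_nonpos β ht, max_eq_right ht]
  ring

lemma psi_pos (β : ℝ) {t : ℝ} (ht : 0 < t) : 0 < psi β t := by
  rw [psi, max_eq_left ht.le]
  positivity

lemma psi'_ge (β t : ℝ) : β * psi β t ≤ psi' β t := by
  have : 0 ≤ 2 * max t 0 * Real.exp (β * t) := by positivity
  rw [psi']
  linarith

/-! ### Calculus -/

lemma contDiff_pd {f : E3 → ℝ} (hf : ContDiff ℝ 2 f) (i : Fin 3) : ContDiff ℝ 1 (pd i f) := by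
  have h1 : ContDiff ℝ 1 (fderiv ℝ f) := hf.fderiv_right (by norm_num)
  exact h1.clm_apply contDiff_const

lemma contDiff_gr {f : E3 → ℝ} (hf : ContDiff ℝ 2 f) : ContDiff ℝ 1 (gr f) := by
  rw [contDiff_euclidean]
  intro i
  exact contDiff_pd hf i

lemma pd_symm {f : E3 → ℝ} (hf : ContDiff ℝ 2 f) (x : E3) (i j : Fin 3) :
    pd i (pd j f) x = pd j (pd i f) x := by
  have h1 : ContDiff ℝ 1 (fderiv ℝ f) := hf.fderiv_right (by norm_num)
  have h2 : DifferentiableAt ℝ (fderiv ℝ f) x := (h1.differentiable (by norm_num)) x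
  have key : ∀ i j : Fin 3, pd i (pd j f) x =
      fderiv ℝ (fderiv ℝ f) x (EuclideanSpace.single i 1) (EuclideanSpace.single j 1) := by
    intro i j
    have h3 : HasFDerivAt (pd j f)
        ((fderiv ℝ (fderiv ℝ f) x).flip (EuclideanSpace.single j 1)) x := by
      have := h2.hasFDerivAt.clm_apply (hasFDerivAt_const (EuclideanSpace.single j (1 : ℝ)) x)
      simp only [ContinuousLinearMap.comp_zero, zero_add] at this
      exact this
    rw [pd, h3.fderiv]
    rfl
  have hs : IsSymmSndFDerivAt ℝ f x :=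
    hf.contDiffAt.isSymmSndFDerivAt (by simp)
  rw [key, key]
  exact hs _ _

lemma fderiv_gr {f : E3 → ℝ} (hf : ContDiff ℝ 2 f) (x : E3) (i : Fin 3) :
    fderiv ℝ (gr f) x (ee i) = hs f i x := by
  have h1 : DifferentiableAt ℝ (gr f) x := ((contDiff_gr hf).differentiable (by norm_num)) x
  ext j
  have h2 : HasFDerivAt (fun y => gr f y j)
      ((EuclideanSpace.proj j : E3 →L[ℝ] ℝ).comp (fderiv ℝ (gr f) x)) x :=
    (EuclideanSpace.proj j : E3 →L[ℝ] ℝ).hasFDerivAt.comp x h1.hasFDerivAt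
  have h3 : (fun y => gr f y j) = pd j f := rfl
  rw [h3] at h2
  have h4 : (fderiv ℝ (gr f) x (ee i)) j = pd i (pd j f) x := by
    rw [pd, h2.fderiv]
    rfl
  rw [h4, pd_symm hf x i j]
  rfl

lemma contDiff_field {A : E3 → E3 → E3} (hA : ContDiff ℝ ∞ (fun z : E3 × E3 => A z.1 z.2))
    {f : E3 → ℝ} (hf : ContDiff ℝ 2 f) : ContDiff ℝ 1 (fun x => A x (gr f x)) := by
  have h1 : ContDiff ℝ 1 (fun x : E3 => (x, gr f x)) := contDiff_id.prodMk (contDiff_gr hf)
  have h2 : ContDiff ℝ 1 (fun z : E3 × E3 => A z.1 z.2) := hA.of_le (by norm_cast)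
  exact h2.comp h1

lemma dv_field {A : E3 → E3 → E3} (hA : ContDiff ℝ ∞ (fun z : E3 × E3 => A z.1 z.2))
    {f : E3 → ℝ} (hf : ContDiff ℝ 2 f) (x : E3) :
    dv (fun x => A x (gr f x)) x = opA A x (gr f x) (fun i => hs f i x) := by
  have h1 : DifferentiableAt ℝ (gr f) x := ((contDiff_gr hf).differentiable (by norm_num)) x
  have h2 : DifferentiableAt ℝ (fun z : E3 × E3 => A z.1 z.2) (x, gr f x) :=
    (hA.differentiable (by simp)) _
  set U := fderiv ℝ (fun z : E3 × E3 => A z.1 z.2) (x, gr f x) with hU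
  have q3 : HasFDerivAt (fun y : E3 => (y, gr f y))
      ((ContinuousLinearMap.id ℝ E3).prod (fderiv ℝ (gr f) x)) x :=
    (hasFDerivAt_id x).prodMk h1.hasFDerivAt
  have q4 : HasFDerivAt (fun y : E3 => (y, gr f x))
      ((ContinuousLinearMap.id ℝ E3).prod (0 : E3 →L[ℝ] E3)) x :=
    (hasFDerivAt_id x).prodMk (hasFDerivAt_const (gr f x) x)
  have q5 : HasFDerivAt (fun ξ : E3 => (x, ξ))
      ((0 : E3 →L[ℝ] E3).prod (ContinuousLinearMap.id ℝ E3)) (gr f x) :=
    (hasFDerivAt_const x (gr f x)).prodMk (hasFDerivAt_id (gr f x))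
  have h3 : HasFDerivAt (fun y => A y (gr f y))
      (U.comp ((ContinuousLinearMap.id ℝ E3).prod (fderiv ℝ (gr f) x))) x :=
    HasFDerivAt.comp (g := fun z : E3 × E3 => A z.1 z.2) x h2.hasFDerivAt q3
  have h4 : HasFDerivAt (fun y => A y (gr f x))
      (U.comp ((ContinuousLinearMap.id ℝ E3).prod (0 : E3 →L[ℝ] E3))) x :=
    HasFDerivAt.comp (g := fun z : E3 × E3 => A z.1 z.2) (f := fun y : E3 => (y, gr f x)) x
      h2.hasFDerivAt q4
  have h5 : HasFDerivAt (A x)
      (U.comp ((0 : E3 →L[ℝ] E3).prod (ContinuousLinearMap.id ℝ E3))) (gr f x) :=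
    HasFDerivAt.comp (g := fun z : E3 × E3 => A z.1 z.2) (f := fun ξ : E3 => (x, ξ)) (gr f x)
      h2.hasFDerivAt q5
  rw [dv, opA, h3.fderiv, h4.fderiv, h5.fderiv, ← Finset.sum_add_distrib]
  refine Finset.sum_congr rfl fun i _ => ?_
  have h6 : (U.comp ((ContinuousLinearMap.id ℝ E3).prod (fderiv ℝ (gr f) x))) (ee i) =
      (U.comp ((ContinuousLinearMap.id ℝ E3).prod (0 : E3 →L[ℝ] E3))) (ee i) +
      (U.comp ((0 : E3 →L[ℝ] E3).prod (ContinuousLinearMap.id ℝ E3))) (hs f i x) := by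
    rw [← fderiv_gr hf x i]
    show U (ee i, fderiv ℝ (gr f) x (ee i)) = U (ee i, 0) + U (0, fderiv ℝ (gr f) x (ee i))
    rw [← map_add]
    congr 1
    simp
  rw [h6]
  rfl

/-! ### Integrability -/

lemma integrable_inner {X Y : E3 → E3} (hX : MemLp X 2) (hY : MemLp Y 2) :
    Integrable (fun x => ⟪X x, Y x⟫) := by
  refine (hX.norm.integrable_mul hY.norm).mono' (hX.1.inner hY.1) (ae_of_all _ fun x => ?_)
  exact norm_inner_le_norm (X x) (Y x)

lemma memLp_A {A : E3 → E3 → E3} {B : E3 → E3 → ℝ} {c L r : ℝ} (hP : PCoef A B c L r)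
    {G : E3 → E3} (hG : MemLp G 2) : MemLp (fun x => A x (G x)) 2 := by
  refine hG.of_le_mul (c := L) ?_ (ae_of_all _ fun x => ?_)
  · exact hP.smoothA.continuous.comp_aestronglyMeasurable
      (aestronglyMeasurable_id.prodMk hG.1)
  · have := hP.lipA x (G x) 0
    rwa [hP.A_zero x, sub_zero, sub_zero] at this

lemma memLp_B {A : E3 → E3 → E3} {B : E3 → E3 → ℝ} {c L r : ℝ} (hP : PCoef A B c L r)
    {G : E3 → E3} (hG : MemLp G 2) : MemLp (fun x => B x (G x)) 2 := by
  refine hG.of_le_mul (c := L) ?_ (ae_of_all _ fun x => ?_)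
  · exact hP.smoothB.continuous.comp_aestronglyMeasurable
      (aestronglyMeasurable_id.prodMk hG.1)
  · have := hP.lipB x (G x) 0
    rwa [hP.B_zero x, sub_zero, sub_zero] at this

lemma memLp_pen {Θ θ : E3 → ℝ} {T t₀ r : ℝ} (hP : Pen Θ θ T t₀ r) {u : E3 → ℝ}
    (hu : MemLp u 2) : MemLp (fun x => Θ x * u x) 2 ∧ MemLp θ 2 := by
  constructor
  · refine hu.of_le_mul (c := T) (hP.contΘ.aestronglyMeasurable.mul hu.1)
      (ae_of_all _ fun x => ?_)
    rw [norm_mul]
    refine mul_le_mul_of_nonneg_right ?_ (norm_nonneg _)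
    rw [Real.norm_eq_abs, abs_of_nonneg ((hP.nonneg x).trans (hP.le x))]
    exact hP.bdd x
  · refine hP.contθ.memLp_of_hasCompactSupport ?_
    refine HasCompactSupport.intro (isCompact_closedBall (0 : E3) r) fun x hx => ?_
    refine hP.outθ x ?_
    rw [mem_closedBall_zero_iff, not_le] at hx
    exact hx.le

end CKEYP

open CKEYP in
theorem ckey_thm (_h1 : API1) (h2 : API2) (hc : CHAIN) : CKEY := by
  intro A B c L r Θ θ T t₀ hP hPen u G hsol s hs f hf hfc v V hv T' hT' hV σ hσ hσv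
  have hcpos := hP.c_pos
  set β : ℝ := L ^ 2 / (2 * c * σ) with hβ
  have hβ0 : 0 ≤ β := by positivity
  have hs2 : s * s = 1 := by rcases hs with rfl | rfl <;> norm_num
  -- the test function
  have hφ : H1 (fun x => psi β (v x)) (fun x => deriv (psi β) (v x) • V x) :=
    hc.bdd v V (psi β) T' hv hT' (contDiff_psi β) (psi_of_nonpos β le_rfl)
  have hd : ∀ t, deriv (psi β) t = psi' β t := fun t => (hasDerivAt_psi β t).deriv
  simp only [hd] at hφ
  set φ : E3 → ℝ := fun x => psi β (v x) with hφdef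
  set Φ : E3 → E3 := fun x => psi' β (v x) • V x with hΦdef
  have e1 := hsol.2 φ Φ hφ
  -- the field
  set X : E3 → E3 := fun x => A x (gr f x) with hX
  have hXd : ContDiff ℝ 1 X := contDiff_field hP.smoothA hf
  have hXc : HasCompactSupport X := by
    refine hfc.mono fun x hx => ?_
    rw [Function.mem_support] at hx ⊢
    intro h
    apply hx
    rw [hX]
    show A x (gr f x) = 0
    rw [h, hP.A_zero]
  have e2 := h2.ibpv X hXd hXc φ Φ hφ
  have hdvc : Continuous (dv X) := by
    have h := hXd.continuous_fderiv (by norm_num)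
    unfold dv
    refine continuous_finsetSum _ fun i _ => ?_
    exact (EuclideanSpace.proj i : E3 →L[ℝ] ℝ).continuous.comp (h.clm_apply continuous_const)
  have hdvs : HasCompactSupport (dv X) := by
    refine (hXc.fderiv ℝ).mono fun x hx => ?_
    rw [Function.mem_support] at hx ⊢
    intro h
    apply hx
    unfold dv
    refine Finset.sum_eq_zero fun i _ => ?_
    rw [h]
    rfl
  -- integrability
  have m1 : MemLp X 2 := hXd.continuous.memLp_of_hasCompactSupport hXc
  have m2 : MemLp (dv X) 2 := hdvc.memLp_of_hasCompactSupport hdvs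
  have m3 := memLp_A hP hsol.1.memG
  have m4 := memLp_B hP hsol.1.memG
  obtain ⟨m5, m6⟩ := memLp_pen hPen hsol.1.memf
  have i1 : Integrable (fun x => ⟪X x, Φ x⟫) := integrable_inner m1 hφ.memG
  have i2 : Integrable (fun x => ⟪A x (G x), Φ x⟫) := integrable_inner m3 hφ.memG
  have i3 : Integrable (fun x => dv X x * φ x) := m2.integrable_mul hφ.memf
  have i4 : Integrable (fun x => (B x (G x) - Θ x * u x + θ x) * φ x) :=
    ((m4.sub m5).add m6).integrable_mul hφ.memf
  -- the function with integral zero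
  set P : E3 → ℝ := fun x => s * ((⟪X x, Φ x⟫ - ⟪A x (G x), Φ x⟫) +
    (dv X x * φ x + (B x (G x) - Θ x * u x + θ x) * φ x)) with hPdef
  have iP : Integrable P := ((i1.sub i2).add (i3.add i4)).const_mul s
  have hP0 : ∫ x, P x = 0 := by
    have j1 : ∫ x, (⟪X x, Φ x⟫ - ⟪A x (G x), Φ x⟫) =
        (∫ x, ⟪X x, Φ x⟫) - ∫ x, ⟪A x (G x), Φ x⟫ := integral_sub i1 i2
    have j2 : ∫ x, (dv X x * φ x + (B x (G x) - Θ x * u x + θ x) * φ x) =
        (∫ x, dv X x * φ x) + ∫ x, (B x (G x) - Θ x * u x + θ x) * φ x := integral_add i3 i4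
    have j3 : ∫ x, ((⟪X x, Φ x⟫ - ⟪A x (G x), Φ x⟫) +
        (dv X x * φ x + (B x (G x) - Θ x * u x + θ x) * φ x)) =
        (∫ x, (⟪X x, Φ x⟫ - ⟪A x (G x), Φ x⟫)) +
        ∫ x, (dv X x * φ x + (B x (G x) - Θ x * u x + θ x) * φ x) :=
      integral_add (i1.sub i2) (i3.add i4)
    rw [hPdef, integral_const_mul, j3, j1, j2, e1, e2]
    ring
  -- the pointwise inequality
  have hpt : ∀ᵐ x, σ / 2 * φ x ≤ P x := by
    filter_upwards [hV, hσv] with x hVx hσx
    rcases le_or_gt (v x) 0 with h | h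
    · have h3 : φ x = 0 := psi_of_nonpos β h
      have h4 : Φ x = 0 := by
        rw [hΦdef]
        show psi' β (v x) • V x = 0
        rw [psi'_of_nonpos β h, zero_smul]
      rw [hPdef]
      show σ / 2 * φ x ≤ s * ((⟪X x, Φ x⟫ - ⟪A x (G x), Φ x⟫) +
        (dv X x * φ x + (B x (G x) - Θ x * u x + θ x) * φ x))
      rw [h3, h4, inner_zero_right, inner_zero_right]
      simp
    · have hVx := hVx h
      have hσx := hσx h
      have h0 : 0 ≤ φ x := psi_nonneg β _
      have h3 : Φ x = psi' β (v x) • (s • (gr f x - G x)) := by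
        rw [hΦdef]
        show psi' β (v x) • V x = _
        rw [hVx]
      have h4 : s * (⟪X x, Φ x⟫ - ⟪A x (G x), Φ x⟫) =
          psi' β (v x) * ⟪A x (gr f x) - A x (G x), gr f x - G x⟫ := by
        rw [← inner_sub_left, h3, inner_smul_right, inner_smul_right]
        calc s * (psi' β (v x) * (s * ⟪A x (gr f x) - A x (G x), gr f x - G x⟫)) =
            (s * s) * (psi' β (v x) * ⟪A x (gr f x) - A x (G x), gr f x - G x⟫) := by ring
          _ = _ := by rw [hs2, one_mul]
      have h5 := hP.mono x (gr f x) (G x)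
      have h6 : |s * (B x (gr f x) - B x (G x))| ≤ L * ‖gr f x - G x‖ := by
        rw [abs_mul]
        have : |s| = 1 := by rcases hs with rfl | rfl <;> simp
        rw [this, one_mul]
        exact hP.lipB x _ _
      have h7 := (abs_le.1 h6).2
      have h8 := psi'_ge β (v x)
      have h9 : 0 ≤ psi' β (v x) := le_trans (mul_nonneg hβ0 (psi_nonneg β _)) h8
      rw [← dv_field hP.smoothA hf x] at hσx
      show σ / 2 * φ x ≤ s * ((⟪X x, Φ x⟫ - ⟪A x (G x), Φ x⟫) +
        (dv X x * φ x + (B x (G x) - Θ x * u x + θ x) * φ x))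
      rw [mul_add, h4]
      set d := ‖gr f x - G x‖ with hd'
      have f1 : c * d ^ 2 * (β * φ x) ≤
          psi' β (v x) * ⟪A x (gr f x) - A x (G x), gr f x - G x⟫ := by
        calc c * d ^ 2 * (β * φ x) ≤ c * d ^ 2 * psi' β (v x) :=
              mul_le_mul_of_nonneg_left h8 (by positivity)
          _ ≤ ⟪A x (gr f x) - A x (G x), gr f x - G x⟫ * psi' β (v x) :=
              mul_le_mul_of_nonneg_right h5 h9
          _ = _ := mul_comm _ _
      have f2 : (σ - L * d) * φ x ≤
          s * (dv X x * φ x + (B x (G x) - Θ x * u x + θ x) * φ x) := by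
        have : s * (dv X x * φ x + (B x (G x) - Θ x * u x + θ x) * φ x) =
            (s * (dv X x + B x (gr f x) - (Θ x * u x - θ x)) -
              s * (B x (gr f x) - B x (G x))) * φ x := by ring
        rw [this]
        refine mul_le_mul_of_nonneg_right ?_ h0
        linarith
      have f3 : σ / 2 ≤ c * d ^ 2 * β + (σ - L * d) := by
        have : c * d ^ 2 * β + (σ - L * d) - σ / 2 = (L * d - σ) ^ 2 / (2 * σ) := by
          rw [hβ]
          field_simp
          ring
        have h10 : 0 ≤ (L * d - σ) ^ 2 / (2 * σ) := by positivity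
        linarith
      calc σ / 2 * φ x ≤ (c * d ^ 2 * β + (σ - L * d)) * φ x :=
            mul_le_mul_of_nonneg_right f3 h0
        _ = c * d ^ 2 * (β * φ x) + (σ - L * d) * φ x := by ring
        _ ≤ _ := add_le_add f1 f2
  have hPnn : 0 ≤ᵐ[volume] P := by
    filter_upwards [hpt] with x hx
    have : 0 ≤ σ / 2 * φ x := mul_nonneg (by linarith) (psi_nonneg β _)
    exact this.trans hx
  have hPz := (integral_eq_zero_iff_of_nonneg_ae hPnn iP).1 hP0
  filter_upwards [hpt, hPz] with x hx hz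
  by_contra h
  push Not at h
  have h3 : 0 < φ x := psi_pos β h
  have h4 : P x = 0 := hz
  rw [h4] at hx
  have h5 : 0 < σ / 2 * φ x := by positivity
  linarith

end Pool.Agent.PFlow.PB
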