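import Pool.Agent.PFlow.P.Cutoff

/-!
# Block P, module WH: weak gradients in `L²`
-/

open MeasureTheory Filter Topology Set Metric
open scoped ContDiff RealInnerProductSpace ENNReal

namespace Pool.Agent.PFlow.PB

open Pool.Agent.PenroseSph Pool.Agent.PFlow

theorem tend_add_zero (fn gn : ℕ → E3 → E3) (hfn : ∀ n, MemLp (fn n) 2)
    (hgn : ∀ n, MemLp (gn n) 2) (h1 : Tendsto (fun n => sqv (fn n)) atTop (𝓝 0))
    (h2 : Tendsto (fun n => sqv (gn n)) atTop (𝓝 0)) :
    Tendsto (fun n => sqv (fun x => fn n x + gn n x)) atTop (𝓝 0) := by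
  have := tend_add_sqv (fun _ => 0) (fun _ => 0) fn gn MemLp.zero' MemLp.zero' hfn hgn
    (by simpa using h1) (by simpa using h2)
  simpa using this

theorem tend_add_zero' (fn gn : ℕ → E3 → ℝ) (hfn : ∀ n, MemLp (fn n) 2)
    (hgn : ∀ n, MemLp (gn n) 2) (h1 : Tendsto (fun n => sq (fn n)) atTop (𝓝 0))
    (h2 : Tendsto (fun n => sq (gn n)) atTop (𝓝 0)) :
    Tendsto (fun n => sq (fun x => fn n x + gn n x)) atTop (𝓝 0) := by
  have := tend_add_sq (fun _ => 0) (fun _ => 0) fn gn MemLp.zero' MemLp.zero' hfn hgn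
    (by simpa using h1) (by simpa using h2)
  simpa using this

/-- `C¹` functions in `L²` with gradient in `L²` belong to `H¹` -/
theorem C1_H1 (h2 : API2) (v : E3 → ℝ) (hv : ContDiff ℝ 1 v) (hm : MemLp v 2)
    (hg : MemLp (gr v) 2) : H1 v (gr v) := by
  obtain ⟨C, hC0, hC1, _⟩ := zc_bounds
  have hd := hv.differentiable (by norm_num)
  have hzd : ∀ n, Differentiable ℝ (zc n) := fun n => (zc_smooth n).differentiable (by simp)
  have hz1 : ∀ n, ContDiff ℝ 1 (zc n) := fun n => (zc_smooth n).of_le (by exact_mod_cast le_top)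
  have hgz : ∀ n x, ‖gr (zc n) x‖ ≤ C := by
    intro n x
    refine (hC1 n x).trans ?_
    have : ((n : ℝ) + 1)⁻¹ ≤ 1 := by
      rw [inv_le_one₀ (by positivity)]
      have : (0 : ℝ) ≤ n := Nat.cast_nonneg n
      linarith
    nlinarith
  have hza : ∀ n x, |zc n x| ≤ 1 := fun n x => by
    rw [abs_of_nonneg (zc_nonneg n x)]
    exact zc_le_one n x
  refine a1_closed v (gr v) (fun n x => zc n x * v x) (fun n => gr (fun x => zc n x * v x))
    (fun n => h2.ofC1 _ ((hz1 n).mul hv) (zc_cpt n).mul_right) hm hg ?_ ?_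
  · have := zc_tend v hm
    simp only [sq_eq]
    simpa using this
  · have e : ∀ n, sqv (fun x => gr (fun x => zc n x * v x) x - gr v x)
        = sqv (fun x => (zc n x • gr v x - gr v x) + v x • gr (zc n) x) := by
      intro n
      congr 1
      ext1 x
      rw [gr_mul _ _ x (hzd n x) (hd x)]
      abel
    simp only [e]
    refine tend_add_zero _ _ (fun n => ?_) (fun n => ?_) ?_ ?_
    · exact (memLp_smul_bdd (zc n) (gr v) 1 hg (zc_smooth n).continuous (hza n)).sub hg
    · exact memLp_smul_bdd' v _ C hm (gr_cont _ (hz1 n)) (hgz n)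
    · exact zc_tend (gr v) hg
    · exact small_tend v (fun n => gr (zc n)) C hm hC1

theorem wh_thm (_h1 : API1) (h2 : API2) (hm : MOLL) : WH := by
  obtain ⟨J, hJ⟩ := hm
  intro f G hf hG hw
  have hgr : ∀ n, gr (J n f) = fun x => WithLp.toLp 2 (fun i => J n (fun y => G y i) x) := by
    intro n
    ext x i
    exact hJ.grad f G hf hG hw n x i
  have hgm : ∀ n, MemLp (gr (J n f)) 2 := by
    intro n
    refine memLp_of_comp _ fun i => ?_
    rw [hgr]
    exact hJ.mem n _ (memLp_comp G hG i)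
  refine a1_closed f G (fun n => J n f) (fun n => gr (J n f)) (fun n => ?_) hf hG (hJ.tend f hf) ?_
  · exact C1_H1 h2 _ ((hJ.smooth n f hf).of_le (by exact_mod_cast le_top)) (hJ.mem n f hf) (hgm n)
  · refine tend_of_comp G (fun n => gr (J n f)) hG hgm fun i => ?_
    have := hJ.tend (fun y => G y i) (memLp_comp G hG i)
    refine this.congr fun n => ?_
    rw [hgr]

end Pool.Agent.PFlow.PB
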