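import Pool.Agent.PFlow.StmtsP
import Pool.Agent.PFlow.P.WH

/-!
# Block P, module CHAIN: the chain rule in `H¹`
-/

open MeasureTheory Filter Topology Set Metric
open scoped ContDiff RealInnerProductSpace ENNReal

namespace Pool.Agent.PFlow.PB

open Pool.Agent.PenroseSph Pool.Agent.PFlow

/-- dominated convergence in `L²` -/
theorem dom_tend {F : Type*} [NormedAddCommGroup F] (Fn : ℕ → E3 → F) (g : E3 → ℝ)
    (hm : ∀ n, AEStronglyMeasurable (Fn n) volume) (hg : MemLp g 2)
    (hb : ∀ n, ∀ᵐ x, ‖Fn n x‖ ≤ g x) (ht : ∀ᵐ x, Tendsto (fun n => Fn n x) atTop (𝓝 0)) :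
    Tendsto (fun n => ∫ x, ‖Fn n x‖ ^ 2) atTop (𝓝 0) := by
  have h0 : (0 : ℝ) = ∫ _ : E3, (0 : ℝ) := by simp
  rw [h0]
  refine tendsto_integral_of_dominated_convergence (fun x => ‖g x‖ ^ 2)
    (fun n => (hm n).norm.pow 2) (int_sq g hg) (fun n => ?_) ?_
  · filter_upwards [hb n] with x hx
    rw [Real.norm_eq_abs, abs_of_nonneg (by positivity), Real.norm_eq_abs]
    have := norm_nonneg (Fn n x)
    have h2 := le_abs_self (g x)
    gcongr
    exact hx.trans h2
  · filter_upwards [ht] with x hx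
    have := (hx.norm).pow 2
    simpa using this

theorem lip_of_deriv (Ψ : ℝ → ℝ) (C : ℝ) (hΨ : ContDiff ℝ 1 Ψ) (hC : ∀ t, |deriv Ψ t| ≤ C)
    (s t : ℝ) : |Ψ s - Ψ t| ≤ C * |s - t| := by
  have h := Convex.norm_image_sub_le_of_norm_deriv_le (f := Ψ) (s := Set.univ) (C := C)
    (x := t) (y := s) (fun x _ => hΨ.differentiable (by norm_num) x) (fun x _ => hC x)
    convex_univ (mem_univ _) (mem_univ _)
  simpa [Real.norm_eq_abs] using h

theorem gr_comp (Ψ : ℝ → ℝ) (hΨ : ContDiff ℝ 1 Ψ) (φ : E3 → ℝ) (x : E3)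
    (h : DifferentiableAt ℝ φ x) :
    gr (fun x => Ψ (φ x)) x = deriv Ψ (φ x) • gr φ x := by
  ext i
  have h1 : HasDerivAt Ψ (deriv Ψ (φ x)) (φ x) := (hΨ.differentiable (by norm_num) _).hasDerivAt
  have h2 := h1.comp_hasFDerivAt x h.hasFDerivAt
  simp only [gr_apply, pd_eq, PiLp.smul_apply, smul_eq_mul]
  have h3 : fderiv ℝ (fun x => Ψ (φ x)) x = deriv Ψ (φ x) • fderiv ℝ φ x := h2.fderiv
  rw [h3]
  rfl

theorem exists_ae_sub (f : E3 → ℝ) (fn : ℕ → E3 → ℝ) (hf : MemLp f 2) (hn : ∀ n, MemLp (fn n) 2)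
    (h : Tendsto (fun n => sq (fun x => fn n x - f x)) atTop (𝓝 0)) :
    ∃ ns : ℕ → ℕ, StrictMono ns ∧ ∀ᵐ x, Tendsto (fun k => fn (ns k) x) atTop (𝓝 (f x)) := by
  simp only [sq_eq] at h
  rw [tend_iff f fn hf hn] at h
  have h2 := tendstoInMeasure_of_tendsto_eLpNorm (by norm_num) (fun n => (hn n).1) hf.1 h
  obtain ⟨ns, h3, h4⟩ := h2.exists_seq_tendsto_ae
  exact ⟨ns, h3, h4⟩

theorem chain_lip (h2 : API2) (f : E3 → ℝ) (G : E3 → E3) (Ψ : ℝ → ℝ) (C : ℝ) (h : H1 f G)
    (hΨ : ContDiff ℝ 1 Ψ) (h0 : Ψ 0 = 0) (hC : ∀ t, |deriv Ψ t| ≤ C) :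
    H1 (fun x => Ψ (f x)) (fun x => deriv Ψ (f x) • G x) := by
  have hC0 : 0 ≤ C := (abs_nonneg _).trans (hC 0)
  obtain ⟨φ', a1', a2', a3'⟩ := h.approx
  obtain ⟨ns, hs, hae⟩ := exists_ae_sub f φ' h.memf (fun n => test_memLp _ (a1' n)) a2'
  set φ : ℕ → E3 → ℝ := fun k => φ' (ns k) with hφ
  have a1 : ∀ n, Test (φ n) := fun n => a1' _
  have a2 : Tendsto (fun n => sq (fun x => φ n x - f x)) atTop (𝓝 0) := a2'.comp hs.tendsto_atTop
  have a3 : Tendsto (fun n => sqv (fun x => gr (φ n) x - G x)) atTop (𝓝 0) :=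
    a3'.comp hs.tendsto_atTop
  have hcΨ : Continuous Ψ := hΨ.continuous
  have hcd : Continuous (deriv Ψ) := hΨ.continuous_deriv (by norm_num)
  have hlip := lip_of_deriv Ψ C hΨ hC
  have hφm : ∀ n, MemLp (φ n) 2 := fun n => test_memLp _ (a1 n)
  have hgm : ∀ n, MemLp (gr (φ n)) 2 := fun n => gr_memLp _ (a1 n).one (a1 n).cpt
  -- membership
  have hm1 : MemLp (fun x => Ψ (f x)) 2 := by
    refine h.memf.of_le_mul (c := C) (hcΨ.comp_aestronglyMeasurable h.memf.1)
      (Eventually.of_forall fun x => ?_)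
    have := hlip (f x) 0
    rw [h0, sub_zero, sub_zero] at this
    exact this
  have hm2 : ∀ (g : E3 → ℝ) (F : E3 → E3), MemLp g 2 → MemLp F 2 →
      MemLp (fun x => deriv Ψ (g x) • F x) 2 := by
    intro g F hg hF
    refine hF.of_le_mul (c := C) ((hcd.comp_aestronglyMeasurable hg.1).smul hF.1)
      (Eventually.of_forall fun x => ?_)
    rw [norm_smul]
    exact mul_le_mul_of_nonneg_right (hC _) (norm_nonneg _)
  refine a1_closed _ _ (fun n x => Ψ (φ n x)) (fun n x => deriv Ψ (φ n x) • gr (φ n) x)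
    (fun n => ?_) hm1 (hm2 f G h.memf h.memG) ?_ ?_
  · have := h2.ofC1 (fun x => Ψ (φ n x)) (hΨ.comp (a1 n).one) ((a1 n).cpt.comp_left h0)
    have e : gr (fun x => Ψ (φ n x)) = fun x => deriv Ψ (φ n x) • gr (φ n) x := by
      ext1 x
      exact gr_comp Ψ hΨ (φ n) x ((a1 n).diff x)
    rwa [e] at this
  · have h3 := a2.const_mul (C ^ 2)
    rw [mul_zero] at h3
    refine squeeze_zero (fun n => sq_nonneg' _) (fun n => ?_) h3
    unfold sq
    rw [← integral_const_mul]
    refine integral_mono_of_nonneg (Eventually.of_forall fun x => by positivity) ?_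
      (Eventually.of_forall fun x => ?_)
    · have := (int_sq _ ((hφm n).sub h.memf)).const_mul (C ^ 2)
      simpa [Real.norm_eq_abs, sq_abs] using this
    · show (Ψ (φ n x) - Ψ (f x)) ^ 2 ≤ C ^ 2 * (φ n x - f x) ^ 2
      have h4 := hlip (φ n x) (f x)
      rw [← sq_abs, ← sq_abs (φ n x - f x), ← mul_pow]
      have := abs_nonneg (Ψ (φ n x) - Ψ (f x))
      gcongr
  · have e : ∀ n, sqv (fun x => deriv Ψ (φ n x) • gr (φ n) x - deriv Ψ (f x) • G x)
        = sqv (fun x => deriv Ψ (φ n x) • (gr (φ n) x - G x)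
          + (deriv Ψ (φ n x) - deriv Ψ (f x)) • G x) := by
      intro n
      congr 1
      ext1 x
      rw [smul_sub, sub_smul]
      abel
    simp only [e]
    have hm3 : ∀ n, MemLp (fun x => (deriv Ψ (φ n x) - deriv Ψ (f x)) • G x) 2 := by
      intro n
      have := (hm2 (φ n) G (hφm n) h.memG).sub (hm2 f G h.memf h.memG)
      refine this.congr_norm ?_ (Eventually.of_forall fun x => ?_) 
      · exact ((hcd.comp_aestronglyMeasurable (hφm n).1).sub
          (hcd.comp_aestronglyMeasurable h.memf.1)).smul h.memG.1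
      · simp only [Pi.sub_apply]
        rw [sub_smul]
    refine tend_add_zero _ _ (fun n => hm2 _ _ (hφm n) ((hgm n).sub h.memG)) hm3 ?_ ?_
    · have h3 := a3.const_mul (C ^ 2)
      rw [mul_zero] at h3
      refine squeeze_zero (fun n => sqv_nonneg' _) (fun n => ?_) h3
      unfold sqv
      rw [← integral_const_mul]
      refine integral_mono_of_nonneg (Eventually.of_forall fun x => by positivity)
        ((int_sq _ ((hgm n).sub h.memG)).const_mul (C ^ 2)) (Eventually.of_forall fun x => ?_)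
      show ‖deriv Ψ (φ n x) • (gr (φ n) x - G x)‖ ^ 2 ≤ C ^ 2 * ‖gr (φ n) x - G x‖ ^ 2
      rw [norm_smul, mul_pow, Real.norm_eq_abs]
      have h4 := hC (φ n x)
      have := abs_nonneg (deriv Ψ (φ n x))
      gcongr
    · refine dom_tend _ (fun x => (2 * C) * ‖G x‖) (fun n => (hm3 n).1)
        (h.memG.norm.const_mul _) (fun n => Eventually.of_forall fun x => ?_) ?_
      · rw [norm_smul, Real.norm_eq_abs]
        refine mul_le_mul_of_nonneg_right ?_ (norm_nonneg _)
        refine (abs_sub _ _).trans ?_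
        have := hC (φ n x)
        have := hC (f x)
        linarith
      · filter_upwards [hae] with x hx
        have h5 : Tendsto (fun n => deriv Ψ (φ n x) - deriv Ψ (f x)) atTop (𝓝 0) := by
          have := ((hcd.tendsto (f x)).comp hx).sub_const (deriv Ψ (f x))
          simpa using this
        simpa using h5.smul_const (G x)

theorem chain_bdd (h2 : API2) (f : E3 → ℝ) (G : E3 → E3) (Ψ : ℝ → ℝ) (T : ℝ) (h : H1 f G)
    (hT : ∀ᵐ x, |f x| ≤ T) (hΨ : ContDiff ℝ 1 Ψ) (h0 : Ψ 0 = 0) :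
    H1 (fun x => Ψ (f x)) (fun x => deriv Ψ (f x) • G x) := by
  set T' := max T 0 with hT'
  have hT0 : 0 ≤ T' := le_max_right _ _
  set cl : ℝ → ℝ := fun s => max (-T') (min T' s) with hcl
  have hclc : Continuous cl := continuous_const.max (continuous_const.min continuous_id)
  have hcl1 : ∀ s, cl s ∈ Icc (-T') T' := by
    intro s
    refine ⟨le_max_left _ _, max_le (by linarith) (min_le_left _ _)⟩
  have hcl2 : ∀ s, |s| ≤ T' → cl s = s := by
    intro s hs
    have := abs_le.1 hs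
    simp only [hcl]
    rw [min_eq_right this.2, max_eq_right this.1]
  have hcd : Continuous (deriv Ψ) := hΨ.continuous_deriv (by norm_num)
  have hdc : Continuous (fun s => deriv Ψ (cl s)) := hcd.comp hclc
  set Φ : ℝ → ℝ := fun t => ∫ s in (0:ℝ)..t, deriv Ψ (cl s) with hΦ
  have hder : ∀ t, HasDerivAt Φ (deriv Ψ (cl t)) t := fun t =>
    intervalIntegral.integral_hasDerivAt_right (hdc.intervalIntegrable _ _)
      (hdc.stronglyMeasurableAtFilter _ _) hdc.continuousAt
  have hderiv : deriv Φ = fun s => deriv Ψ (cl s) := by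
    ext t
    exact (hder t).deriv
  have hΦC : ContDiff ℝ 1 Φ := by
    rw [contDiff_one_iff_deriv]
    exact ⟨fun t => (hder t).differentiableAt, by rw [hderiv]; exact hdc⟩
  obtain ⟨C, hC⟩ := (isCompact_Icc (a := -T') (b := T')).exists_bound_of_continuousOn
    (f := deriv Ψ) hcd.continuousOn
  have h3 := chain_lip h2 f G Φ C h hΦC (by simp [hΦ])
    (fun t => by rw [hderiv]; exact hC _ (hcl1 t))
  have heq : ∀ t, |t| ≤ T' → Φ t = Ψ t := by
    intro t ht
    have h4 : Φ t = ∫ s in (0:ℝ)..t, deriv Ψ s := by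
      apply intervalIntegral.integral_congr
      intro s hs
      show deriv Ψ (cl s) = deriv Ψ s
      rw [hcl2]
      have : |s| ≤ |t| := by
        rcases le_total 0 t with h5 | h5
        · rw [uIcc_of_le h5] at hs
          rw [abs_of_nonneg hs.1, abs_of_nonneg h5]
          exact hs.2
        · rw [uIcc_of_ge h5] at hs
          rw [abs_of_nonpos hs.2, abs_of_nonpos h5]
          linarith [hs.1]
      exact this.trans ht
    rw [h4, intervalIntegral.integral_deriv_eq_sub
      (fun s _ => hΨ.differentiable (by norm_num) s) (hcd.intervalIntegrable _ _), h0, sub_zero]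
  refine a1_congr _ _ _ _ h3 ?_ ?_
  · filter_upwards [hT] with x hx
    exact heq _ (hx.trans (le_max_left _ _))
  · filter_upwards [hT] with x hx
    rw [hderiv]
    show deriv Ψ (cl (f x)) • G x = deriv Ψ (f x) • G x
    rw [hcl2 _ (hx.trans (le_max_left _ _))]

/-- `arctan (k t) / k` -/
noncomputable def at' (k : ℕ) (t : ℝ) : ℝ := ((k : ℝ) + 1)⁻¹ * Real.arctan (((k : ℝ) + 1) * t)

theorem at_smooth (k : ℕ) : ContDiff ℝ 1 (at' k) := by
  unfold at'
  exact contDiff_const.mul (Real.contDiff_arctan.comp (contDiff_const.mul contDiff_id))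

theorem at_deriv (k : ℕ) (t : ℝ) : deriv (at' k) t = 1 / (1 + (((k : ℝ) + 1) * t) ^ 2) := by
  have hk : ((k : ℝ) + 1) ≠ 0 := by positivity
  have h1 : HasDerivAt (fun t : ℝ => ((k : ℝ) + 1) * t) ((k : ℝ) + 1) t := by
    simpa using (hasDerivAt_id t).const_mul ((k : ℝ) + 1)
  have h2 := (h1.arctan).const_mul (((k : ℝ) + 1)⁻¹)
  have h3 : deriv (at' k) t
      = ((k : ℝ) + 1)⁻¹ * (1 / (1 + (((k : ℝ) + 1) * t) ^ 2) * ((k : ℝ) + 1)) := h2.deriv
  rw [h3]
  field_simp

theorem at_deriv_le (k : ℕ) (t : ℝ) : |deriv (at' k) t| ≤ 1 := by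
  rw [at_deriv, abs_of_nonneg (by positivity), div_le_one (by positivity)]
  have : 0 ≤ (((k : ℝ) + 1) * t) ^ 2 := by positivity
  linarith

theorem at_zero (k : ℕ) : at' k 0 = 0 := by simp [at']

theorem at_tend (t : ℝ) : Tendsto (fun k => at' k t) atTop (𝓝 0) := by
  have h1 : Tendsto (fun k : ℕ => ((k : ℝ) + 1)⁻¹ * (Real.pi / 2)) atTop (𝓝 0) := by
    simpa using inv_tend.mul_const (Real.pi / 2)
  refine squeeze_zero_norm (fun k => ?_) h1
  rw [Real.norm_eq_abs, at', abs_mul, abs_of_nonneg (by positivity)]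
  refine mul_le_mul_of_nonneg_left ?_ (by positivity)
  rw [abs_le]
  exact ⟨(Real.neg_pi_div_two_lt_arctan _).le, (Real.arctan_lt_pi_div_two _).le⟩

theorem at_deriv_tend (t : ℝ) (ht : t ≠ 0) : Tendsto (fun k => deriv (at' k) t) atTop (𝓝 0) := by
  simp only [at_deriv]
  have h1 : Tendsto (fun k : ℕ => ((k : ℝ) + 1)⁻¹ * (1 / |t|)) atTop (𝓝 0) := by
    simpa using inv_tend.mul_const (1 / |t|)
  refine squeeze_zero (fun k => by positivity) (fun k => ?_) h1
  have ht' : 0 < |t| := abs_pos.2 ht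
  have hk : (0 : ℝ) < (k : ℝ) + 1 := by positivity
  rw [← one_div, one_div_mul_one_div]
  apply one_div_le_one_div_of_le (by positivity)
  rw [← sq_abs, abs_mul, abs_of_pos hk]
  nlinarith [sq_nonneg (((k : ℝ) + 1) * |t| - 1)]

theorem chain_zero (h2 : API2) (f : E3 → ℝ) (G : E3 → E3) (h : H1 f G) :
    ∀ᵐ x, f x = 0 → G x = 0 := by
  classical
  set P : E3 → E3 := fun x => if f x = 0 then G x else 0 with hP
  have hk : ∀ k, H1 (fun x => at' k (f x)) (fun x => deriv (at' k) (f x) • G x) := fun k =>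
    chain_lip h2 f G (at' k) 1 h (at_smooth k) (at_zero k) (at_deriv_le k)
  have ht : ∀ x, Tendsto (fun k => deriv (at' k) (f x) • G x) atTop (𝓝 (P x)) := by
    intro x
    by_cases hx : f x = 0
    · have e : ∀ k, deriv (at' k) (f x) • G x = P x := by
        intro k
        rw [at_deriv, hx]
        simp [hP, hx]
      simp only [e]
      exact tendsto_const_nhds
    · have := (at_deriv_tend (f x) hx).smul_const (G x)
      simpa [hP, hx] using this
  have hPm : AEStronglyMeasurable P volume :=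
    aestronglyMeasurable_of_tendsto_ae atTop (fun k => (hk k).memG.1)
      (Eventually.of_forall ht)
  have hPL : MemLp P 2 := by
    refine h.memG.mono hPm (Eventually.of_forall fun x => ?_)
    by_cases hx : f x = 0
    · simp [hP, hx]
    · simp [hP, hx]
  have h0P : H1 (fun _ => 0) P := by
    refine a1_closed _ _ (fun k x => at' k (f x)) (fun k x => deriv (at' k) (f x) • G x)
      hk MemLp.zero' hPL ?_ ?_
    · simp only [sub_zero, sq_eq]
      refine dom_tend _ (fun x => ‖f x‖) (fun k => (hk k).memf.1) h.memf.norm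
        (fun k => Eventually.of_forall fun x => ?_) (Eventually.of_forall fun x => at_tend _)
      have := lip_of_deriv (at' k) 1 (at_smooth k) (at_deriv_le k) (f x) 0
      rw [at_zero, sub_zero, sub_zero, one_mul] at this
      exact this
    · refine dom_tend _ (fun x => ‖G x‖ + ‖G x‖) (fun k => ((hk k).memG.sub hPL).1)
        (h.memG.norm.add h.memG.norm) (fun k => Eventually.of_forall fun x => ?_)
        (Eventually.of_forall fun x => ?_)
      · refine (norm_sub_le _ _).trans (add_le_add ?_ ?_)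
        · rw [norm_smul, Real.norm_eq_abs]
          exact mul_le_of_le_one_left (norm_nonneg _) (at_deriv_le _ _)
        · by_cases hx : f x = 0
          · simp [hP, hx]
          · simp [hP, hx]
      · have := (ht x).sub_const (P x)
        simpa using this
  have h00 : H1 (fun _ => 0) (fun _ => (0 : E3)) := by
    have := a1_smul 0 f G h
    simpa using this
  filter_upwards [a1_unique _ _ _ h0P h00] with x hx hfx
  simpa [hP, hfx] using hx

theorem chain_thm (_h1 : API1) (h2 : API2) : CHAIN where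
  lip f G Ψ C h hΨ h0 hC := chain_lip h2 f G Ψ C h hΨ h0 hC
  bdd f G Ψ T h hT hΨ h0 := chain_bdd h2 f G Ψ T h hT hΨ h0
  zero f G h := chain_zero h2 f G h

end Pool.Agent.PFlow.PB
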