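import Pool.Agent.PFlow.StmtsPF

/-!
# Block P, module F5 (CLOSE)

For a strong penalty the solution is close to `1` inside and to `0` outside, uniformly in `δ, κ`.
-/

open MeasureTheory Filter Topology Set
open scoped ContDiff RealInnerProductSpace

namespace Pool.Agent.PFlow.PB

open Pool.Agent.PenroseSph Pool.Agent.PFlow

namespace Close

/-- The inner cut-off of the penalty. -/
noncomputable def chi1 (a : ℝ) (x : E3) : ℝ := max 0 (min 1 ((a - ‖x‖) / (a / 4)))

/-- The outer cut-off of the penalty. -/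
noncomputable def chi2 (b : ℝ) (x : E3) : ℝ := max 0 (min 1 ((‖x‖ - b) / (b / 2)))

theorem chi1_cont (a : ℝ) : Continuous (chi1 a) := by
  unfold chi1
  fun_prop

theorem chi2_cont (b : ℝ) : Continuous (chi2 b) := by
  unfold chi2
  fun_prop

theorem chi1_nonneg (a : ℝ) (x : E3) : 0 ≤ chi1 a x := le_max_left _ _

theorem chi2_nonneg (a : ℝ) (x : E3) : 0 ≤ chi2 a x := le_max_left _ _

theorem chi1_le (a : ℝ) (x : E3) : chi1 a x ≤ 1 := max_le zero_le_one (min_le_left _ _)

theorem chi2_le (a : ℝ) (x : E3) : chi2 a x ≤ 1 := max_le zero_le_one (min_le_left _ _)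

theorem chi1_in {a : ℝ} (ha : 0 < a) {x : E3} (hx : ‖x‖ ≤ 3 * a / 4) : chi1 a x = 1 := by
  have h : 1 ≤ (a - ‖x‖) / (a / 4) := by
    rw [le_div_iff₀ (by positivity)]
    linarith
  unfold chi1
  rw [min_eq_left h]
  exact max_eq_right zero_le_one

theorem chi1_out {a : ℝ} (ha : 0 < a) {x : E3} (hx : a ≤ ‖x‖) : chi1 a x = 0 := by
  have h : (a - ‖x‖) / (a / 4) ≤ 0 := div_nonpos_of_nonpos_of_nonneg (by linarith) (by positivity)
  unfold chi1
  exact max_eq_left ((min_le_right _ _).trans h)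

theorem chi2_in {b : ℝ} (hb : 0 < b) {x : E3} (hx : ‖x‖ ≤ b) : chi2 b x = 0 := by
  have h : (‖x‖ - b) / (b / 2) ≤ 0 := div_nonpos_of_nonpos_of_nonneg (by linarith) (by positivity)
  unfold chi2
  exact max_eq_left ((min_le_right _ _).trans h)

theorem chi2_out {b : ℝ} (hb : 0 < b) {x : E3} (hx : 3 * b / 2 ≤ ‖x‖) : chi2 b x = 1 := by
  have h : 1 ≤ (‖x‖ - b) / (b / 2) := by
    rw [le_div_iff₀ (by positivity)]
    linarith
  unfold chi2
  rw [min_eq_left h]
  exact max_eq_right zero_le_one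

theorem pen2 {a b lam : ℝ} (ha : 0 < a) (hab : 8 * a ≤ b) (hl : 0 < lam) :
    Pen2 a b (fun x => lam * (chi1 a x + chi2 b x)) (fun x => lam * chi1 a x) (2 * lam) lam where
  pen :=
    { contΘ := continuous_const.mul ((chi1_cont a).add (chi2_cont b))
      contθ := continuous_const.mul (chi1_cont a)
      nonneg := fun x => mul_nonneg hl.le (chi1_nonneg a x)
      le := fun x => by
        have := mul_nonneg hl.le (chi2_nonneg b x)
        show lam * chi1 a x ≤ lam * (chi1 a x + chi2 b x)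
        linarith
      bdd := fun x => by
        have h1 := chi1_le a x
        have h2 := chi2_le b x
        have := mul_le_mul_of_nonneg_left (add_le_add h1 h2) hl.le
        show lam * (chi1 a x + chi2 b x) ≤ 2 * lam
        linarith
      t₀_pos := hl
      outΘ := fun x hx => by
        have h2 := chi2_out (by linarith) hx
        have := mul_nonneg hl.le (chi1_nonneg a x)
        show lam ≤ lam * (chi1 a x + chi2 b x)
        rw [h2]
        linarith
      outθ := fun x hx => by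
        show lam * chi1 a x = 0
        rw [chi1_out ha (by linarith), mul_zero] }
  mid := fun x hx hx2 => by
    show lam * (chi1 a x + chi2 b x) = 0
    rw [chi1_out ha hx, chi2_in (by linarith) hx2]
    ring
  inn := fun x hx => by
    show lam * (chi1 a x + chi2 b x) = lam * chi1 a x
    rw [chi2_in (by linarith) hx, add_zero]
  out := fun x hx => by
    show lam * chi1 a x = 0
    rw [chi1_out ha hx, mul_zero]

theorem pd_aff {ζ : E3 → ℝ} {x : E3} (hζ : DifferentiableAt ℝ ζ x) (c τ : ℝ) (i : Fin 3) :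
    pd i (fun y => c + τ * ζ y) x = τ * pd i ζ x := by
  unfold pd
  have h : fderiv ℝ (fun y => c + τ * ζ y) x = τ • fderiv ℝ ζ x :=
    ((hζ.hasFDerivAt.const_mul τ).const_add c).fderiv
  rw [h]
  simp

theorem diff_pd {ζ : E3 → ℝ} (hζ : ContDiff ℝ 2 ζ) (i : Fin 3) : Differentiable ℝ (pd i ζ) := by
  unfold pd
  have h : ContDiff ℝ 1 (fderiv ℝ ζ) := hζ.fderiv_right (by norm_num)
  exact (h.clm_apply contDiff_const).differentiable one_ne_zero

theorem grad_aff {ζ : E3 → ℝ} (hζ : ContDiff ℝ 2 ζ) (c τ : ℝ) (x : E3) :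
    vec (grad (fun y => c + τ * ζ y) x) = τ • vec (grad ζ x) := by
  ext i
  show pd i (fun y => c + τ * ζ y) x = τ * pd i ζ x
  exact pd_aff (hζ.differentiable two_ne_zero x) c τ i

theorem hess_aff {ζ : E3 → ℝ} (hζ : ContDiff ℝ 2 ζ) (c τ : ℝ) (x : E3) (i j : Fin 3) :
    hess2 (fun y => c + τ * ζ y) x i j = τ * hess2 ζ x i j := by
  show pd i (pd j (fun y => c + τ * ζ y)) x = τ * pd i (pd j ζ) x
  have e : pd j (fun y => c + τ * ζ y) = fun y => 0 + τ * pd j ζ y := by
    funext y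
    rw [pd_aff (hζ.differentiable two_ne_zero y) c τ j, zero_add]
  rw [e]
  exact pd_aff (diff_pd hζ j x) 0 τ i

/-- The scaled cut-off functions satisfy the hypothesis of KBAR. -/
theorem bar_aff {ε C₁ τ : ℝ} (hε : 0 < ε) (_hε1 : ε < 1) (hτ : 0 < τ) (hτ1 : τ ≤ 1)
    {ζ : E3 → ℝ} (hζ : ContDiff ℝ 2 ζ) (hg : ∀ x, ‖vec (grad ζ x)‖ ≤ C₁)
    (hh : ∀ x i j, |hess2 ζ x i j| ≤ C₁ * ‖vec (grad ζ x)‖ ^ (1 - ε)) (c : ℝ) (x : E3) :
    ‖vec (grad (fun y => c + τ * ζ y) x)‖ ≤ C₁ ∧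
    ∀ i j, |hess2 (fun y => c + τ * ζ y) x i j| ≤
      C₁ * ‖vec (grad (fun y => c + τ * ζ y) x)‖ ^ (1 - ε) := by
  have hC : 0 ≤ C₁ := (norm_nonneg _).trans (hg x)
  rw [grad_aff hζ]
  constructor
  · rw [norm_smul, Real.norm_eq_abs, abs_of_pos hτ]
    calc τ * ‖vec (grad ζ x)‖ ≤ 1 * ‖vec (grad ζ x)‖ :=
          mul_le_mul_of_nonneg_right hτ1 (norm_nonneg _)
      _ ≤ C₁ := by rw [one_mul]; exact hg x
  · intro i j
    rw [hess_aff hζ, abs_mul, abs_of_pos hτ, norm_smul, Real.norm_eq_abs, abs_of_pos hτ,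
      Real.mul_rpow hτ.le (norm_nonneg _)]
    have h1 : τ ≤ τ ^ (1 - ε) := by
      calc τ = τ ^ (1 : ℝ) := (Real.rpow_one τ).symm
        _ ≤ τ ^ (1 - ε) := Real.rpow_le_rpow_of_exponent_ge hτ hτ1 (by linarith)
    have h2 : 0 ≤ C₁ * ‖vec (grad ζ x)‖ ^ (1 - ε) :=
      mul_nonneg hC (Real.rpow_nonneg (norm_nonneg _) _)
    calc τ * |hess2 ζ x i j| ≤ τ * (C₁ * ‖vec (grad ζ x)‖ ^ (1 - ε)) :=
          mul_le_mul_of_nonneg_left (hh x i j) hτ.le
      _ ≤ τ ^ (1 - ε) * (C₁ * ‖vec (grad ζ x)‖ ^ (1 - ε)) := mul_le_mul_of_nonneg_right h1 h2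
      _ = C₁ * (τ ^ (1 - ε) * ‖vec (grad ζ x)‖ ^ (1 - ε)) := by ring

end Close

theorem close_thm (hb : BRID) (hk : KBAR) (hc : KCUT) (hg : CGLO) : CLOSE := by
  intro ε a b η g h hε hε1 ha hab hη hd
  have hb0 : 0 < b := by linarith
  obtain ⟨ζ₁, C₁, z1s, z1r, z1i, z1o, z1g, z1h⟩ :=
    hc ε (a / 2) (3 * a / 4) hε hε1 (by positivity) (by linarith)
  obtain ⟨ζ₂, C₂, z2s, z2r, z2i, z2o, z2g, z2h⟩ :=
    hc ε (3 * b / 2) (2 * b) hε hε1 (by positivity) (by linarith)
  obtain ⟨C₃, hC₃⟩ := hk ε g h (b / 2) C₁ hε hε1 hd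
  obtain ⟨C₄, hC₄⟩ := hk ε g h (b / 2) C₂ hε hε1 hd
  -- the data with a larger radius
  have hd2 : GData g h (3 * b / 2) :=
    ⟨hd.met, hd.ten, fun x hx => hd.flat x (by linarith)⟩
  obtain ⟨η', hη0, hη1, hη2⟩ : ∃ η' : ℝ, 0 < η' ∧ η' ≤ 1 / 2 ∧ η' ≤ η :=
    ⟨min η (1 / 2), lt_min hη (by norm_num), min_le_right _ _, min_le_left _ _⟩
  set lam : ℝ := (|C₃| + |C₄| + 1) / η' with hlam
  have hl : 0 < lam := by positivity
  have hlη : lam * η' = |C₃| + |C₄| + 1 := by
    rw [hlam]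
    field_simp
  refine ⟨_, _, _, _, Close.pen2 ha hab hl, ?_⟩
  intro δ κ hδ hδ1 hκ hκ1 u G hsol hcont hu
  obtain ⟨c, L, hPC⟩ := hb.coef ε δ κ g h (3 * b / 2) hε hε1 hδ hκ (by positivity) hd2
  have hPen := (Close.pen2 ha hab hl).pen
  have hop : ∀ (f : E3 → ℝ), ContDiff ℝ 2 f → ∀ x,
      opA (cA ε δ κ g) x (gr f x) (fun i => hs f i x) + cB ε δ g h x (gr f x) =
        opL ε δ κ g x (grad f x) (hess2 f x) + cB ε δ g h x (vec (grad f x)) := by
    intro f hf x
    obtain ⟨j1, j2⟩ := hb.jet f x hf.contDiffAt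
    rw [hb.op ε δ κ g h (3 * b / 2) hε hε1 hδ hκ hd2, j2, j1]
  constructor
  · -- lower bound inside
    have hτ : 0 < 1 - η' := by linarith
    have hf : ContDiff ℝ 2 (fun y => 0 + (1 - η') * ζ₁ y) :=
      contDiff_const.add (contDiff_const.mul z1s)
    have hcs : HasCompactSupport (fun x => (0 + (1 - η') * ζ₁ x) - 0) := by
      refine HasCompactSupport.intro (isCompact_closedBall (0 : E3) (3 * a / 4)) fun x hx => ?_
      have hx2 : 3 * a / 4 ≤ ‖x‖ := by
        have : ¬ ‖x‖ ≤ 3 * a / 4 := by simpa using hx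
        linarith [not_le.mp this]
      rw [z1o x hx2]
      ring
    have key := hg _ _ c L (3 * b / 2) _ _ _ _ hPC hPen u G hsol hcont hu 1 (Or.inl rfl)
      (fun y => 0 + (1 - η') * ζ₁ y) 0 hf hcs (by simp) 1 one_pos ?_
    · intro x hx
      have h1 := key x
      rw [z1i x hx] at h1
      linarith
    · intro x hx
      have hx1 : u x < 0 + (1 - η') * ζ₁ x := by linarith
      have hζ0 : ζ₁ x ≠ 0 := by
        intro h0
        rw [h0] at hx1
        linarith [(hu x).1]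
      have hxa : ‖x‖ ≤ 3 * a / 4 := by
        by_contra hcon
        exact hζ0 (z1o x (le_of_not_ge hcon))
      have hbar := Close.bar_aff hε hε1 hτ (by linarith) z1s z1g z1h 0 x
      have hK := hC₃ δ κ hδ hδ1 hκ hκ1 x (grad (fun y => 0 + (1 - η') * ζ₁ y) x)
        (hess2 (fun y => 0 + (1 - η') * ζ₁ y) x) hbar.1 hbar.2
      rw [hop _ hf x, Close.chi1_in ha hxa, Close.chi2_in hb0 (by linarith)]
      have hA := abs_le.mp (le_refl |opL ε δ κ g x (grad (fun y => 0 + (1 - η') * ζ₁ y) x)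
        (hess2 (fun y => 0 + (1 - η') * ζ₁ y) x)|)
      have hB := abs_le.mp (le_refl |cB ε δ g h x (vec (grad (fun y => 0 + (1 - η') * ζ₁ y) x))|)
      have hu1 : u x ≤ 1 - η' := by
        have h3 : (1 - η') * ζ₁ x ≤ (1 - η') * 1 :=
          mul_le_mul_of_nonneg_left (z1r x).2 hτ.le
        linarith
      have hpen : lam * η' ≤ lam * (1 - u x) := mul_le_mul_of_nonneg_left (by linarith) hl.le
      have := le_abs_self C₃
      have := abs_nonneg C₄
      rw [hlη] at hpen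
      have e : (1 : ℝ) * (opL ε δ κ g x (grad (fun y => 0 + (1 - η') * ζ₁ y) x)
          (hess2 (fun y => 0 + (1 - η') * ζ₁ y) x) +
          cB ε δ g h x (vec (grad (fun y => 0 + (1 - η') * ζ₁ y) x)) -
          (lam * (1 + 0) * u x - lam * 1)) =
          opL ε δ κ g x (grad (fun y => 0 + (1 - η') * ζ₁ y) x)
          (hess2 (fun y => 0 + (1 - η') * ζ₁ y) x) +
          cB ε δ g h x (vec (grad (fun y => 0 + (1 - η') * ζ₁ y) x)) + lam * (1 - u x) := by ring
      rw [e]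
      linarith [hA.1, hB.1]
  · -- upper bound outside
    have hτ : 0 < 1 - η' := by linarith
    have hf : ContDiff ℝ 2 (fun y => η' + (1 - η') * ζ₂ y) :=
      contDiff_const.add (contDiff_const.mul z2s)
    have hcs : HasCompactSupport (fun x => (η' + (1 - η') * ζ₂ x) - η') := by
      refine HasCompactSupport.intro (isCompact_closedBall (0 : E3) (2 * b)) fun x hx => ?_
      have hx2 : 2 * b ≤ ‖x‖ := by
        have : ¬ ‖x‖ ≤ 2 * b := by simpa using hx
        linarith [not_le.mp this]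
      rw [z2o x hx2]
      ring
    have key := hg _ _ c L (3 * b / 2) _ _ _ _ hPC hPen u G hsol hcont hu (-1) (Or.inr rfl)
      (fun y => η' + (1 - η') * ζ₂ y) η' hf hcs (by linarith) 1 one_pos ?_
    · intro x hx
      have h1 := key x
      rw [z2o x hx] at h1
      linarith
    · intro x hx
      have hx1 : η' + (1 - η') * ζ₂ x < u x := by linarith
      have hxb : 3 * b / 2 ≤ ‖x‖ := by
        by_contra hcon
        rw [z2i x (le_of_not_ge hcon)] at hx1
        linarith [(hu x).2]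
      have hbar := Close.bar_aff hε hε1 hτ (by linarith) z2s z2g z2h η' x
      have hK := hC₄ δ κ hδ hδ1 hκ hκ1 x (grad (fun y => η' + (1 - η') * ζ₂ y) x)
        (hess2 (fun y => η' + (1 - η') * ζ₂ y) x) hbar.1 hbar.2
      rw [hop _ hf x, Close.chi1_out ha (by linarith), Close.chi2_out hb0 hxb]
      have hA := abs_le.mp (le_refl |opL ε δ κ g x (grad (fun y => η' + (1 - η') * ζ₂ y) x)
        (hess2 (fun y => η' + (1 - η') * ζ₂ y) x)|)
      have hB := abs_le.mp (le_refl |cB ε δ g h x (vec (grad (fun y => η' + (1 - η') * ζ₂ y) x))|)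
      have hu1 : η' ≤ u x := by
        have h3 : 0 ≤ (1 - η') * ζ₂ x := mul_nonneg hτ.le (z2r x).1
        linarith
      have hpen : lam * η' ≤ lam * u x := mul_le_mul_of_nonneg_left hu1 hl.le
      have := le_abs_self C₄
      have := abs_nonneg C₃
      rw [hlη] at hpen
      have e : (-1 : ℝ) * (opL ε δ κ g x (grad (fun y => η' + (1 - η') * ζ₂ y) x)
          (hess2 (fun y => η' + (1 - η') * ζ₂ y) x) +
          cB ε δ g h x (vec (grad (fun y => η' + (1 - η') * ζ₂ y) x)) -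
          (lam * (0 + 1) * u x - lam * 0)) =
          -(opL ε δ κ g x (grad (fun y => η' + (1 - η') * ζ₂ y) x)
          (hess2 (fun y => η' + (1 - η') * ζ₂ y) x) +
          cB ε δ g h x (vec (grad (fun y => η' + (1 - η') * ζ₂ y) x))) + lam * u x := by ring
      rw [e]
      linarith [hA.2, hB.2]

end Pool.Agent.PFlow.PB
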