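import Pool.Agent.PFlow.StmtsP
import Pool.Agent.PFlow.P.Base
import Pool.Agent.PenroseSph.Calc

/-!
# Block P: functions of class `H²` are continuous (CONT)
-/

open MeasureTheory Filter Topology Set
open scoped ContDiff RealInnerProductSpace ENNReal

namespace Pool.Agent.PFlow.PB

open Pool.Agent.PenroseSph Pool.Agent.PFlow

namespace ContAux

/-! ### Convergence in `L²` -/

section general
variable {F : Type*} [NormedAddCommGroup F]

theorem tend_norm (f : E3 → F) (fn : ℕ → E3 → F) (hf : MemLp f 2) (hn : ∀ n, MemLp (fn n) 2)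
    (h : Tendsto (fun n => ∫ x, ‖fn n x - f x‖ ^ 2) atTop (𝓝 0)) :
    Tendsto (fun n => ∫ x, ‖fn n x‖ ^ 2) atTop (𝓝 (∫ x, ‖f x‖ ^ 2)) := by
  have hs : Tendsto (fun n => √(∫ x, ‖fn n x - f x‖ ^ 2)) atTop (𝓝 0) := by
    have := (Real.continuous_sqrt.tendsto 0).comp h
    rwa [Real.sqrt_zero] at this
  have key : Tendsto (fun n => √(∫ x, ‖fn n x‖ ^ 2)) atTop (𝓝 (√(∫ x, ‖f x‖ ^ 2))) := by
    rw [tendsto_iff_norm_sub_tendsto_zero]
    refine squeeze_zero (fun n => norm_nonneg _) (fun n => ?_) hs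
    rw [Real.norm_eq_abs, abs_le]
    have h1 := sqrt_add_le' (fun x => fn n x - f x) f ((hn n).sub hf) hf
    have h2 := sqrt_add_le' (fun x => f x - fn n x) (fn n) (hf.sub (hn n)) (hn n)
    have e1 : (fun x => ‖fn n x - f x + f x‖ ^ 2) = fun x => ‖fn n x‖ ^ 2 := by
      ext x; simp
    have e2 : (fun x => ‖f x - fn n x + fn n x‖ ^ 2) = fun x => ‖f x‖ ^ 2 := by
      ext x; simp
    have e3 : (fun x => ‖f x - fn n x‖ ^ 2) = fun x => ‖fn n x - f x‖ ^ 2 := by
      ext x; rw [norm_sub_rev]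
    rw [e1] at h1
    rw [e2, e3] at h2
    constructor
    · linarith
    · linarith
  have h2 := key.pow 2
  rw [Real.sq_sqrt (integral_nonneg fun x => by positivity)] at h2
  refine h2.congr fun n => Real.sq_sqrt ?_
  exact integral_nonneg fun x => by positivity

theorem exists_ae (f : E3 → F) (fn : ℕ → E3 → F) (hf : MemLp f 2) (hn : ∀ n, MemLp (fn n) 2)
    (h : Tendsto (fun n => ∫ x, ‖fn n x - f x‖ ^ 2) atTop (𝓝 0)) :
    ∃ s : ℕ → ℕ, StrictMono s ∧ ∀ᵐ x, Tendsto (fun n => fn (s n) x) atTop (𝓝 (f x)) := by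
  have h1 := (tend_iff f fn hf hn).1 h
  have h2 : TendstoInMeasure volume fn atTop f :=
    tendstoInMeasure_of_tendsto_eLpNorm (by norm_num) (fun n => (hn n).1) hf.1 h1
  exact h2.exists_seq_tendsto_ae

end general

/-! ### Derivatives of translates and differences -/

theorem pd_shift (φ : E3 → ℝ) (h : E3) (i : Fin 3) :
    pd i (fun x => φ (x + h)) = fun x => pd i φ (x + h) := by
  funext x
  unfold pd
  rw [fderiv_comp_add_right]

theorem gr_shift (φ : E3 → ℝ) (h : E3) : gr (fun x => φ (x + h)) = fun x => gr φ (x + h) := by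
  funext x
  ext i
  simp only [gr_apply, pd_shift]

theorem hs_shift (φ : E3 → ℝ) (h : E3) (i : Fin 3) :
    hs (fun x => φ (x + h)) i = fun x => hs φ i (x + h) := by
  funext x
  unfold hs
  rw [pd_shift, gr_shift]

theorem pd_sub' {f g : E3 → ℝ} (hf : ContDiff ℝ 1 f) (hg : ContDiff ℝ 1 g) (i : Fin 3) :
    pd i (fun x => f x - g x) = fun x => pd i f x - pd i g x := by
  funext x
  exact pd_sub (hf.differentiable (by norm_num) x) (hg.differentiable (by norm_num) x)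

theorem gr_sub' {f g : E3 → ℝ} (hf : ContDiff ℝ 1 f) (hg : ContDiff ℝ 1 g) :
    gr (fun x => f x - g x) = fun x => gr f x - gr g x := by
  funext x
  ext i
  simp only [gr_apply, pd_sub' hf hg, PiLp.sub_apply]

theorem pd_one {f : E3 → ℝ} (hf : Test f) (i : Fin 3) : ContDiff ℝ 1 (pd i f) := by
  have h1 : ContDiff ℝ 1 (fderiv ℝ f) :=
    hf.smooth.fderiv_right (m := 1) (by
      rw [one_add_one_eq_two]
      exact WithTop.coe_le_coe.2 le_top)
  exact h1.clm_apply contDiff_const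

theorem pd_cpt {f : E3 → ℝ} (hf : Test f) (i : Fin 3) : HasCompactSupport (pd i f) :=
  hf.cpt.fderiv_apply (𝕜 := ℝ) _

theorem hs_sub {f g : E3 → ℝ} (hf : Test f) (hg : Test g) (i : Fin 3) :
    hs (fun x => f x - g x) i = fun x => hs f i x - hs g i x := by
  funext x
  unfold hs
  rw [pd_sub' hf.one hg.one, gr_sub' (pd_one hf i) (pd_one hg i)]

theorem hs_memLp {f : E3 → ℝ} (hf : Test f) (i : Fin 3) : MemLp (hs f i) 2 :=
  gr_memLp (pd i f) (pd_one hf i) (pd_cpt hf i)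

theorem test_sub {f g : E3 → ℝ} (hf : Test f) (hg : Test g) : Test (fun x => f x - g x) :=
  ⟨hf.smooth.sub hg.smooth, hf.cpt.sub hg.cpt⟩

theorem test_shift {f : E3 → ℝ} (hf : Test f) (h : E3) : Test (fun x => f (x + h)) := by
  refine ⟨hf.smooth.comp (contDiff_id.add contDiff_const), ?_⟩
  exact hf.cpt.comp_homeomorph (Homeomorph.addRight h)

theorem memLp_shift {F : Type*} [NormedAddCommGroup F] {G : E3 → F} (hG : MemLp G 2) (h : E3) :
    MemLp (fun x => G (x + h)) 2 :=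
  hG.comp_measurePreserving (measurePreserving_add_right volume h)

theorem sqv_shift (G : E3 → E3) (h : E3) : sqv (fun x => G (x + h)) = sqv G := by
  unfold sqv
  exact integral_add_right_eq_self (fun x => ‖G x‖ ^ 2) h

theorem sqv_sub_le {F G : E3 → E3} (hF : MemLp F 2) (hG : MemLp G 2) :
    sqv (fun x => F x - G x) ≤ 2 * sqv F + 2 * sqv G := by
  unfold sqv
  rw [← integral_const_mul, ← integral_const_mul, ← integral_add ((int_sq F hF).const_mul 2)
    ((int_sq G hG).const_mul 2)]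
  refine integral_mono (int_sq _ (hF.sub hG)) (((int_sq F hF).const_mul 2).add
    ((int_sq G hG).const_mul 2)) fun x => ?_
  have h1 := norm_sub_le (F x) (G x)
  have h2 := norm_nonneg (F x - G x)
  show ‖F x - G x‖ ^ 2 ≤ 2 * ‖F x‖ ^ 2 + 2 * ‖G x‖ ^ 2
  nlinarith [sq_nonneg (‖F x‖ - ‖G x‖), norm_nonneg (F x), norm_nonneg (G x)]

theorem sq_sub_le {f g : E3 → ℝ} (hf : MemLp f 2) (hg : MemLp g 2) :
    sq (fun x => f x - g x) ≤ 2 * sq f + 2 * sq g := by
  have i1 : Integrable (fun x => f x ^ 2) := by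
    simpa [Real.norm_eq_abs, sq_abs] using int_sq f hf
  have i2 : Integrable (fun x => g x ^ 2) := by
    simpa [Real.norm_eq_abs, sq_abs] using int_sq g hg
  have i3 : Integrable (fun x => (f x - g x) ^ 2) := by
    simpa [Real.norm_eq_abs, sq_abs] using int_sq _ (hf.sub hg)
  unfold sq
  rw [← integral_const_mul, ← integral_const_mul, ← integral_add (i1.const_mul 2)
    (i2.const_mul 2)]
  refine integral_mono i3 ((i1.const_mul 2).add (i2.const_mul 2)) fun x => ?_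
  show (f x - g x) ^ 2 ≤ 2 * f x ^ 2 + 2 * g x ^ 2
  nlinarith [sq_nonneg (f x + g x)]

/-- The square of the `H²` norm. -/
noncomputable def En (u : E3 → ℝ) (G : E3 → E3) (M : Fin 3 → E3 → E3) : ℝ :=
  sq u + sqv G + ∑ i, sqv (M i)

theorem sum_nonneg' (M : Fin 3 → E3 → E3) : 0 ≤ ∑ i, sqv (M i) :=
  Finset.sum_nonneg fun _ _ => sqv_nonneg' _

/-- The bounds for test functions. -/
theorem bound_sup {C : ℝ} (hC : 0 < C)
    (hS : ∀ φ, Test φ → ∀ r > 0, ∀ x,
      |φ x| ≤ C * (r ^ (-(3 / 2) : ℝ) * √(sq φ) + r ^ (1 / 2 : ℝ) * √(∑ i, sqv (hs φ i))))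
    {φ : E3 → ℝ} (hφ : Test φ) (x : E3) :
    |φ x| ≤ 3 * C * √(En φ (gr φ) (hs φ)) := by
  have h := hS φ hφ 1 one_pos x
  rw [Real.one_rpow, Real.one_rpow, one_mul, one_mul] at h
  have a1 := sq_nonneg' φ
  have a2 := sqv_nonneg' (gr φ)
  have a3 := sum_nonneg' (hs φ)
  have h1 : √(sq φ) ≤ √(En φ (gr φ) (hs φ)) := Real.sqrt_le_sqrt (by unfold En; linarith)
  have h2 : √(∑ i, sqv (hs φ i)) ≤ √(En φ (gr φ) (hs φ)) :=
    Real.sqrt_le_sqrt (by unfold En; linarith)
  have h3 := Real.sqrt_nonneg (En φ (gr φ) (hs φ))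
  nlinarith

theorem bound_holder {C : ℝ} (hC : 0 < C) (h1 : API1) (h2 : API2)
    (hS : ∀ φ, Test φ → ∀ r > 0, ∀ x,
      |φ x| ≤ C * (r ^ (-(3 / 2) : ℝ) * √(sq φ) + r ^ (1 / 2 : ℝ) * √(∑ i, sqv (hs φ i))))
    {φ : E3 → ℝ} (hφ : Test φ) (x y : E3) :
    |φ x - φ y| ≤ 3 * C * √(En φ (gr φ) (hs φ)) * ‖x - y‖ ^ (1 / 4 : ℝ) := by
  rcases eq_or_ne x y with rfl | hne
  · simp
  obtain ⟨h, rfl⟩ : ∃ h, x = y + h := ⟨x - y, by abel⟩
  have hh : h ≠ 0 := fun h0 => hne (by rw [h0, add_zero])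
  have hpos : 0 < ‖h‖ := norm_pos_iff.2 hh
  rw [add_sub_cancel_left]
  have ht : Test (fun x => φ (x + h) - φ x) := test_sub (test_shift hφ h) hφ
  have hb := hS _ ht (‖h‖ ^ (1 / 2 : ℝ)) (by positivity) y
  have e1 : √(sq (fun x => φ (x + h) - φ x)) ≤ ‖h‖ * √(En φ (gr φ) (hs φ)) := by
    have h3 := h2.trans φ (gr φ) (h1.ofTest φ hφ) h
    calc √(sq (fun x => φ (x + h) - φ x)) ≤ √(‖h‖ ^ 2 * sqv (gr φ)) := Real.sqrt_le_sqrt h3
      _ = ‖h‖ * √(sqv (gr φ)) := by
        rw [Real.sqrt_mul (by positivity), Real.sqrt_sq hpos.le]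
      _ ≤ ‖h‖ * √(En φ (gr φ) (hs φ)) := by
        refine mul_le_mul_of_nonneg_left (Real.sqrt_le_sqrt ?_) hpos.le
        have a1 := sq_nonneg' φ
        have a3 := sum_nonneg' (hs φ)
        unfold En
        linarith
  have e2 : √(∑ i, sqv (hs (fun x => φ (x + h) - φ x) i)) ≤ 2 * √(En φ (gr φ) (hs φ)) := by
    have h3 : ∑ i, sqv (hs (fun x => φ (x + h) - φ x) i) ≤ 2 ^ 2 * ∑ i, sqv (hs φ i) := by
      rw [Finset.mul_sum]
      refine Finset.sum_le_sum fun i _ => ?_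
      rw [hs_sub (test_shift hφ h) hφ, hs_shift]
      have h4 := sqv_sub_le (memLp_shift (hs_memLp hφ i) h) (hs_memLp hφ i)
      rw [sqv_shift] at h4
      linarith
    calc √(∑ i, sqv (hs (fun x => φ (x + h) - φ x) i)) ≤ √(2 ^ 2 * ∑ i, sqv (hs φ i)) :=
        Real.sqrt_le_sqrt h3
      _ = 2 * √(∑ i, sqv (hs φ i)) := by
        rw [Real.sqrt_mul (by positivity), Real.sqrt_sq (by norm_num)]
      _ ≤ 2 * √(En φ (gr φ) (hs φ)) := by
        refine mul_le_mul_of_nonneg_left (Real.sqrt_le_sqrt ?_) (by norm_num)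
        have a1 := sq_nonneg' φ
        have a2 := sqv_nonneg' (gr φ)
        unfold En
        linarith
  have e3 : (‖h‖ ^ (1 / 2 : ℝ)) ^ (-(3 / 2) : ℝ) * ‖h‖ = ‖h‖ ^ (1 / 4 : ℝ) := by
    rw [← Real.rpow_mul hpos.le]
    nth_rewrite 2 [← Real.rpow_one ‖h‖]
    rw [← Real.rpow_add hpos]
    norm_num
  have e4 : (‖h‖ ^ (1 / 2 : ℝ)) ^ (1 / 2 : ℝ) = ‖h‖ ^ (1 / 4 : ℝ) := by
    rw [← Real.rpow_mul hpos.le]
    norm_num
  rw [e4] at hb
  have p1 : 0 ≤ (‖h‖ ^ (1 / 2 : ℝ)) ^ (-(3 / 2) : ℝ) := by positivity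
  have p2 : 0 ≤ ‖h‖ ^ (1 / 4 : ℝ) := by positivity
  calc |φ (y + h) - φ y| ≤ _ := hb
    _ ≤ C * ((‖h‖ ^ (1 / 2 : ℝ)) ^ (-(3 / 2) : ℝ) * (‖h‖ * √(En φ (gr φ) (hs φ)))
        + ‖h‖ ^ (1 / 4 : ℝ) * (2 * √(En φ (gr φ) (hs φ)))) := by gcongr
    _ = 3 * C * √(En φ (gr φ) (hs φ)) * ‖h‖ ^ (1 / 4 : ℝ) := by
      rw [← mul_assoc (_ ^ (-(3 / 2) : ℝ)), e3]
      ring

end ContAux

open ContAux

/-- **(CONT)** Functions of class `H²` are continuous. -/
theorem cont_thm (h1 : API1) (h2 : API2) (hd : DENS) (hs : SUPB) : CONT := by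
  obtain ⟨C, hC, hS⟩ := hs
  refine ⟨3 * C, by positivity, ?_⟩
  intro u G M hu
  obtain ⟨φ, hφ, t0, t1, t2, -⟩ := hd u G M hu
  have mu : MemLp u 2 := hu.h1.memf
  have mG : MemLp G 2 := hu.h1.memG
  have mM : ∀ i, MemLp (M i) 2 := fun i => (hu.h2 i).memG
  have mφ : ∀ n, MemLp (φ n) 2 := fun n => test_memLp _ (hφ n)
  have mg : ∀ n, MemLp (gr (φ n)) 2 := fun n => gr_memLp _ (hφ n).one (hφ n).cpt
  have mh : ∀ n i, MemLp (PB.hs (φ n) i) 2 := fun n i => hs_memLp (hφ n) i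
  -- convergence of the norms
  have c0 : Tendsto (fun n => sq (φ n)) atTop (𝓝 (sq u)) := by
    simp only [sq_eq] at t0 ⊢
    exact tend_norm u φ mu mφ t0
  have c1 : Tendsto (fun n => sqv (gr (φ n))) atTop (𝓝 (sqv G)) :=
    tend_norm G (fun n => gr (φ n)) mG mg t1
  have c2 : ∀ i, Tendsto (fun n => sqv (PB.hs (φ n) i)) atTop (𝓝 (sqv (M i))) := fun i =>
    tend_norm (M i) (fun n => PB.hs (φ n) i) (mM i) (fun n => mh n i) (t2 i)
  have cE : Tendsto (fun n => √(En (φ n) (gr (φ n)) (PB.hs (φ n)))) atTop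
      (𝓝 (√(sq u + sqv G + ∑ i, sqv (M i)))) := by
    unfold En
    exact (Real.continuous_sqrt.tendsto _).comp
      ((c0.add c1).add (tendsto_finsetSum _ fun i _ => c2 i))
  -- pointwise Cauchy
  have hdiff : ∀ n m, En (fun x => φ n x - φ m x) (gr (fun x => φ n x - φ m x))
      (PB.hs (fun x => φ n x - φ m x)) ≤
      2 * (sq (fun x => φ n x - u x) + sqv (fun x => gr (φ n) x - G x)
          + ∑ i, sqv (fun x => PB.hs (φ n) i x - M i x))
      + 2 * (sq (fun x => φ m x - u x) + sqv (fun x => gr (φ m) x - G x)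
          + ∑ i, sqv (fun x => PB.hs (φ m) i x - M i x)) := by
    intro n m
    have b0 : sq (fun x => φ n x - φ m x)
        ≤ 2 * sq (fun x => φ n x - u x) + 2 * sq (fun x => φ m x - u x) := by
      have := sq_sub_le ((mφ n).sub mu) ((mφ m).sub mu)
      have e : (fun x => (φ n - u) x - (φ m - u) x) = fun x => φ n x - φ m x := by
        ext x
        simp
      rw [e] at this
      exact this
    have b1 : sqv (gr (fun x => φ n x - φ m x))
        ≤ 2 * sqv (fun x => gr (φ n) x - G x) + 2 * sqv (fun x => gr (φ m) x - G x) := by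
      rw [gr_sub' (hφ n).one (hφ m).one]
      have := sqv_sub_le ((mg n).sub mG) ((mg m).sub mG)
      have e : (fun x => (gr (φ n) - G) x - (gr (φ m) - G) x)
          = fun x => gr (φ n) x - gr (φ m) x := by
        ext x
        simp
      rw [e] at this
      exact this
    have b2 : ∀ i, sqv (PB.hs (fun x => φ n x - φ m x) i)
        ≤ 2 * sqv (fun x => PB.hs (φ n) i x - M i x)
          + 2 * sqv (fun x => PB.hs (φ m) i x - M i x) := by
      intro i
      rw [hs_sub (hφ n) (hφ m)]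
      have := sqv_sub_le ((mh n i).sub (mM i)) ((mh m i).sub (mM i))
      have e : (fun x => (PB.hs (φ n) i - M i) x - (PB.hs (φ m) i - M i) x)
          = fun x => PB.hs (φ n) i x - PB.hs (φ m) i x := by
        ext x
        simp
      rw [e] at this
      exact this
    have b3 := Finset.sum_le_sum fun i (_ : i ∈ Finset.univ) => b2 i
    rw [Finset.sum_add_distrib, ← Finset.mul_sum, ← Finset.mul_sum] at b3
    unfold En
    linarith
  have tE : Tendsto (fun n => sq (fun x => φ n x - u x) + sqv (fun x => gr (φ n) x - G x)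
          + ∑ i, sqv (fun x => PB.hs (φ n) i x - M i x)) atTop (𝓝 0) := by
    have := (t0.add t1).add (tendsto_finsetSum Finset.univ fun i _ => t2 i)
    simpa using this
  have hcau : ∀ x, CauchySeq (fun n => φ n x) := by
    intro x
    rw [Metric.cauchySeq_iff']
    intro ε hε
    have hδ : 0 < (ε / (3 * C)) ^ 2 / 4 := by positivity
    obtain ⟨N, hN⟩ := eventually_atTop.1 (tE.eventually (gt_mem_nhds hδ))
    refine ⟨N, fun n hn => ?_⟩
    rw [Real.dist_eq]
    have hb := bound_sup hC hS (test_sub (hφ n) (hφ N)) x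
    refine hb.trans_lt ?_
    have h3 := hdiff n N
    have h4 := hN n hn
    have h5 := hN N le_rfl
    have h6 : √(En (fun x => φ n x - φ N x) (gr (fun x => φ n x - φ N x))
      (PB.hs (fun x => φ n x - φ N x))) < ε / (3 * C) := by
      rw [Real.sqrt_lt' (by positivity)]
      linarith
    calc 3 * C * _ < 3 * C * (ε / (3 * C)) := by gcongr
      _ = ε := by field_simp
  choose w hw using fun x => cauchySeq_tendsto_of_complete (hcau x)
  refine ⟨w, ?_, ?_, ?_⟩
  · have t0' : Tendsto (fun n => ∫ x, ‖φ n x - u x‖ ^ 2) atTop (𝓝 0) := by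
      simpa only [sq_eq] using t0
    obtain ⟨s, hs1, hs2⟩ := exists_ae u φ mu mφ t0'
    filter_upwards [hs2] with x hx
    exact tendsto_nhds_unique ((hw x).comp hs1.tendsto_atTop) hx
  · intro x
    exact le_of_tendsto_of_tendsto' (hw x).abs (cE.const_mul (3 * C))
      fun n => bound_sup hC hS (hφ n) x
  · intro x y _
    exact le_of_tendsto_of_tendsto' ((hw x).sub (hw y)).abs
      ((cE.const_mul (3 * C)).mul_const _) fun n => bound_holder hC h1 h2 hS (hφ n) x y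

end Pool.Agent.PFlow.PB
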