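import Pool.Agent.PFlow.StmtsP
import Pool.Agent.PFlow.P.API1

/-!
# Block P: bounded sequences in `H²` (CPT)
-/

open MeasureTheory Filter Topology Set
open scoped ContDiff RealInnerProductSpace

namespace Pool.Agent.PFlow.PB

open Pool.Agent.PenroseSph Pool.Agent.PFlow

namespace CptAux

lemma loc_tend (G : ℕ → E3 → E3) (F : E3 → E3) (hG : ∀ n, MemLp (G n) 2) (hF : MemLp F 2)
    (hK : ∀ K : Set E3, IsCompact K →
      Tendsto (fun n => ∫ x in K, ‖G n x - F x‖ ^ 2) atTop (𝓝 0))
    (ψ : E3 → ℝ) (hψ : Continuous ψ) (hc : HasCompactSupport ψ) (i : Fin 3) :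
    Tendsto (fun n => ∫ x, G n x i * ψ x) atTop (𝓝 (∫ x, F x i * ψ x)) := by
  have hψ2 : MemLp ψ 2 := hψ.memLp_of_hasCompactSupport hc
  set K := tsupport ψ with hKd
  have hKm : MeasurableSet K := (isClosed_tsupport ψ).measurableSet
  rw [tendsto_iff_norm_sub_tendsto_zero]
  have h1 : Tendsto (fun n => √(∫ x in K, ‖G n x - F x‖ ^ 2) * √(sq ψ)) atTop (𝓝 0) := by
    have := ((Real.continuous_sqrt.tendsto 0).comp (hK K hc)).mul_const (√(sq ψ))
    simpa using this
  refine squeeze_zero (fun n => norm_nonneg _) (fun n => ?_) h1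
  have hd : MemLp (fun x => G n x - F x) 2 := (hG n).sub hF
  have hdi : MemLp (fun x => G n x i - F x i) 2 := (memLp_comp _ (hG n) i).sub (memLp_comp _ hF i)
  have hind : MemLp (K.indicator fun x => G n x i - F x i) 2 := hdi.indicator hKm
  have e1 : (∫ x, G n x i * ψ x) - ∫ x, F x i * ψ x
      = ∫ x, K.indicator (fun x => G n x i - F x i) x * ψ x := by
    rw [← integral_sub (int_mul _ _ (memLp_comp _ (hG n) i) hψ2)
      (int_mul _ _ (memLp_comp _ hF i) hψ2)]
    refine integral_congr_ae (Filter.Eventually.of_forall fun x => ?_)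
    simp only []
    by_cases hx : x ∈ K
    · rw [Set.indicator_of_mem hx]
      ring
    · rw [Set.indicator_of_notMem hx, image_eq_zero_of_notMem_tsupport hx]
      ring
  rw [e1, Real.norm_eq_abs]
  refine (cs _ _ hind hψ2).trans ?_
  refine mul_le_mul_of_nonneg_right (Real.sqrt_le_sqrt ?_) (Real.sqrt_nonneg _)
  have e2 : sq (K.indicator fun x => G n x i - F x i) = ∫ x in K, (G n x i - F x i) ^ 2 := by
    unfold sq
    rw [← integral_indicator hKm]
    refine integral_congr_ae (Filter.Eventually.of_forall fun x => ?_)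
    simp only []
    by_cases hx : x ∈ K
    · rw [Set.indicator_of_mem hx, Set.indicator_of_mem hx]
    · rw [Set.indicator_of_notMem hx, Set.indicator_of_notMem hx]
      ring
  rw [e2]
  refine integral_mono (hdi.integrable_sq.integrableOn) ((int_sq _ hd).integrableOn) fun x => ?_
  have := abs_comp_le (G n x - F x) i
  have h3 : (G n x - F x) i = G n x i - F x i := rfl
  rw [h3] at this
  have h4 : (G n x i - F x i) ^ 2 = |G n x i - F x i| ^ 2 := (sq_abs _).symm
  simp only []
  rw [h4]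
  exact pow_le_pow_left₀ (abs_nonneg _) this 2

lemma bdd_tend (u : ℕ → E3 → ℝ) (v : E3 → ℝ) (C : ℝ) (hu : ∀ n x, |u n x| ≤ C)
    (huc : ∀ n, Continuous (u n)) (hp : ∀ x, Tendsto (fun n => u n x) atTop (𝓝 (v x)))
    (ψ : E3 → ℝ) (hψ : Continuous ψ) (hc : HasCompactSupport ψ) :
    Tendsto (fun n => ∫ x, u n x * ψ x) atTop (𝓝 (∫ x, v x * ψ x)) := by
  refine tendsto_integral_of_dominated_convergence (fun x => C * ‖ψ x‖) ?_ ?_ ?_ ?_
  · exact fun n => ((huc n).mul hψ).aestronglyMeasurable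
  · exact (hψ.integrable_of_hasCompactSupport hc).norm.const_mul C
  · intro n
    refine Filter.Eventually.of_forall fun x => ?_
    rw [norm_mul, Real.norm_eq_abs (u n x)]
    exact mul_le_mul_of_nonneg_right (hu n x) (norm_nonneg _)
  · exact Filter.Eventually.of_forall fun x => (hp x).mul_const _

lemma holder_cont {w : E3 → ℝ} {K : ℝ}
    (h : ∀ x y, ‖x - y‖ ≤ 1 → |w x - w y| ≤ K * ‖x - y‖ ^ (1 / 4 : ℝ)) : Continuous w := by
  rw [continuous_iff_continuousAt]
  intro x
  unfold ContinuousAt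
  rw [tendsto_iff_norm_sub_tendsto_zero]
  have h1 : Tendsto (fun y => K * ‖y - x‖ ^ (1 / 4 : ℝ)) (𝓝 x) (𝓝 0) := by
    have h2 : Tendsto (fun y : E3 => ‖y - x‖) (𝓝 x) (𝓝 0) := by
      have : Continuous fun y : E3 => ‖y - x‖ := by fun_prop
      have := this.tendsto x
      simpa using this
    have h3 := (h2.rpow_const (p := (1 / 4 : ℝ)) (Or.inr (by norm_num))).const_mul K
    have e : K * (0 : ℝ) ^ (1 / 4 : ℝ) = 0 := by
      rw [Real.zero_rpow (by norm_num), mul_zero]
    rw [e] at h3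
    exact h3
  refine squeeze_zero' (Filter.Eventually.of_forall fun y => norm_nonneg _) ?_ h1
  have h4 : ∀ᶠ y in 𝓝 x, ‖y - x‖ ≤ 1 := by
    filter_upwards [Metric.ball_mem_nhds x one_pos] with y hy
    rw [Metric.mem_ball, dist_eq_norm] at hy
    exact hy.le
  filter_upwards [h4] with y hy
  exact h y x hy

lemma memLp_vec (N : Fin 3 → E3 → ℝ) (h : ∀ j, MemLp (N j) 2) :
    MemLp (fun x => (WithLp.toLp 2 (fun j => N j x) : E3)) 2 := by
  have e : (fun x => (WithLp.toLp 2 (fun j => N j x) : E3)) = fun x => ∑ j, N j x • ee j := by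
    funext x
    exact sum_ee _
  rw [e]
  refine memLp_finsetSum _ fun j _ => ?_
  exact (ContinuousLinearMap.toSpanSingleton ℝ (ee j)).comp_memLp' (h j)

end CptAux

open CptAux in
/-- CPT: bounded sequences in `H²`. -/
theorem cpt_thm (_h1 : API1) (hc : CONT) (hu : CPTU) (hg : CPTG) (ha : CPTA) (hk : WEAKL)
    (hw : WH) : CPT := by
  intro u G M C hH hcont hC
  -- the single bounds
  have hsq : ∀ n, sq (u n) ≤ C := by
    intro n
    have h2 := sqv_nonneg' (G n)
    have h3 : 0 ≤ ∑ i, sqv (M n i) := Finset.sum_nonneg fun i _ => sqv_nonneg' _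
    linarith [hC n]
  have hsqG : ∀ n, sqv (G n) ≤ C := by
    intro n
    have h2 := sq_nonneg' (u n)
    have h3 : 0 ≤ ∑ i, sqv (M n i) := Finset.sum_nonneg fun i _ => sqv_nonneg' _
    linarith [hC n]
  have hsqM : ∀ n i, sqv (M n i) ≤ C := by
    intro n i
    have h2 := sq_nonneg' (u n)
    have h3 := sqv_nonneg' (G n)
    have h4 : sqv (M n i) ≤ ∑ i, sqv (M n i) :=
      Finset.single_le_sum (f := fun i => sqv (M n i)) (fun i _ => sqv_nonneg' _)
        (Finset.mem_univ i)
    linarith [hC n]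
  have hGm : ∀ n, MemLp (G n) 2 := fun n => (hH n).h1.memG
  have hMm : ∀ n i, MemLp (M n i) 2 := fun n i => ((hH n).h2 i).memG
  -- pointwise bounds
  obtain ⟨C0, hC0, hcont0⟩ := hc
  set C1 := C0 * √C with hC1
  have hb : ∀ n, (∀ x, |u n x| ≤ C1) ∧
      ∀ x y, ‖x - y‖ ≤ 1 → |u n x - u n y| ≤ C1 * ‖x - y‖ ^ (1 / 4 : ℝ) := by
    intro n
    obtain ⟨w, hwu, hw1, hw2⟩ := hcont0 (u n) (G n) (M n) (hH n)
    have hle : C0 * √(sq (u n) + sqv (G n) + ∑ i, sqv (M n i)) ≤ C1 :=
      mul_le_mul_of_nonneg_left (Real.sqrt_le_sqrt (hC n)) hC0.le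
    have hwc : Continuous w := holder_cont hw2
    have heq : w = u n := (Continuous.ae_eq_iff_eq volume hwc (hcont n)).mp hwu
    rw [heq] at hw1 hw2
    refine ⟨fun x => (hw1 x).trans hle, fun x y hxy => (hw2 x y hxy).trans ?_⟩
    exact mul_le_mul_of_nonneg_right hle (Real.rpow_nonneg (norm_nonneg _) _)
  obtain ⟨s1, v, hs1, hvc, hv⟩ := hu u C1 (fun n => (hb n).1) (fun n => (hb n).2)
  have hcau := hg (fun n => u (s1 n)) (fun n => G (s1 n)) (fun n => M (s1 n)) C v
    (fun n => hH (s1 n)) (fun n => hC (s1 n)) hv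
  obtain ⟨F, s2, hF, hs2, hFl, hFa⟩ := ha (fun n => G (s1 n)) C (fun n => hGm (s1 n))
    (fun n => hsqG (s1 n)) hcau
  set s : ℕ → ℕ := fun n => s1 (s2 n) with hs
  have hsm : StrictMono s := hs1.comp hs2
  -- convergence along the subsequence
  have hvU : ∀ K : Set E3, IsCompact K → TendstoUniformlyOn (fun n => u (s n)) v atTop K := by
    intro K hK
    have h := hv K hK
    intro W hW
    exact hs2.tendsto_atTop.eventually (h W hW)
  have hvp : ∀ x, Tendsto (fun n => u (s n) x) atTop (𝓝 (v x)) := fun x =>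
    (hvU {x} isCompact_singleton).tendsto_at (Set.mem_singleton x)
  have hFl' : ∀ K : Set E3, IsCompact K →
      Tendsto (fun n => ∫ x in K, ‖G (s n) x - F x‖ ^ 2) atTop (𝓝 0) := fun K hK =>
    (hFl K hK).comp hs2.tendsto_atTop
  have hGt : ∀ ψ : E3 → ℝ, Continuous ψ → HasCompactSupport ψ → ∀ i,
      Tendsto (fun n => ∫ x, G (s n) x i * ψ x) atTop (𝓝 (∫ x, F x i * ψ x)) :=
    fun ψ hψ hψc i => loc_tend _ F (fun n => hGm (s n)) hF hFl' ψ hψ hψc i
  -- the second derivatives
  have hweak : ∀ i j, ∃ g : E3 → ℝ, MemLp g 2 ∧ sq g ≤ C ∧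
      ∀ ψ : E3 → ℝ, MemLp ψ 2 →
        Tendsto (fun n => ∫ x, ψ x * M (s n) i x j) atTop (𝓝 (∫ x, ψ x * g x)) := by
    intro i j
    refine hk (fun n x => M (s n) i x j) C (fun n => memLp_comp _ (hMm (s n) i) j)
      (fun n => (sq_comp_le _ (hMm (s n) i) j).trans (hsqM (s n) i)) ?_
    intro ψ hψ
    refine ⟨-∫ x, F x i * pd j ψ x, ?_⟩
    have h2 := (hGt (pd j ψ) (pd_cont ψ hψ.one j) (pd_cpt ψ hψ.cpt j) i).neg
    refine h2.congr fun n => ?_
    have h3 := a1_wgrad _ _ ((hH (s n)).h2 i) ψ hψ j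
    rw [h3, neg_neg]
    refine integral_congr_ae (Filter.Eventually.of_forall fun x => ?_)
    simp only []
    ring
  choose Nij hN1 hN2 hN3 using hweak
  refine ⟨s, v, F, fun i x => WithLp.toLp 2 (fun j => Nij i j x), hsm, ?_, hvc, hvU, hFl', hFa, ?_⟩
  · have hvm : MemLp v 2 := by
      refine ⟨hvc.aestronglyMeasurable, ?_⟩
      have h2 := Lp.eLpNorm_lim_le_liminf_eLpNorm (p := 2) (μ := (volume : Measure E3))
        (fun n => (hcont (s n)).aestronglyMeasurable) v (Filter.Eventually.of_forall hvp)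
      refine lt_of_le_of_lt h2 ?_
      have h3 : ∀ n, eLpNorm (u (s n)) 2 volume ≤ ENNReal.ofReal (√C) := by
        intro n
        rw [eLpNorm_two _ (hH (s n)).h1.memf, ← sq_eq]
        exact ENNReal.ofReal_le_ofReal (Real.sqrt_le_sqrt (hsq (s n)))
      have h4 : Filter.liminf (fun n => eLpNorm (u (s n)) 2 volume) atTop
          ≤ ENNReal.ofReal (√C) := by
        have := Filter.liminf_le_liminf (f := atTop)
          (u := fun n => eLpNorm (u (s n)) 2 (volume : Measure E3))
          (v := fun _ => ENNReal.ofReal (√C)) (Filter.Eventually.of_forall h3)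
        simpa using this
      exact lt_of_le_of_lt h4 ENNReal.ofReal_lt_top
    refine ⟨hw v F hvm hF ?_, fun i => hw _ _ (memLp_comp F hF i)
      (memLp_vec (Nij i) (hN1 i)) ?_⟩
    · intro φ hφ i
      have t1 := bdd_tend (fun n => u (s n)) v C1 (fun n => (hb (s n)).1) (fun n => hcont (s n)) hvp
        (pd i φ) (pd_cont φ hφ.one i) (pd_cpt φ hφ.cpt i)
      have t2 := (hGt φ hφ.one.continuous hφ.cpt i).neg
      refine tendsto_nhds_unique t1 (t2.congr fun n => ?_)
      exact (a1_wgrad _ _ (hH (s n)).h1 φ hφ i).symm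
    · intro φ hφ j
      have t1 := hGt (pd j φ) (pd_cont φ hφ.one j) (pd_cpt φ hφ.cpt j) i
      have t2 := (hN3 i j φ (hφ.one.continuous.memLp_of_hasCompactSupport hφ.cpt)).neg
      have e : (-∫ x, φ x * Nij i j x) = -∫ x, (WithLp.toLp 2 (fun j => Nij i j x) : E3) j * φ x := by
        congr 1
        refine integral_congr_ae (Filter.Eventually.of_forall fun x => ?_)
        simp only []
        ring
      rw [e] at t2
      refine tendsto_nhds_unique t1 (t2.congr fun n => ?_)
      rw [a1_wgrad _ _ ((hH (s n)).h2 i) φ hφ j]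
      congr 1
      refine integral_congr_ae (Filter.Eventually.of_forall fun x => ?_)
      simp only []
      ring
  · intro ψ hψ i j
    exact hN3 i j ψ hψ

end Pool.Agent.PFlow.PB
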