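import Pool.Agent.PFlow.StmtsP

/-!
# Block P: (CPTA), Cauchy sequences in `L²_loc`
-/

open MeasureTheory Filter Topology Set
open scoped ContDiff RealInnerProductSpace

namespace Pool.Agent.PFlow.PB

open Pool.Agent.PenroseSph Pool.Agent.PFlow

namespace CptA

/-- The square of the norm in `L²`. -/
lemma norm_sq_Lp (u : Lp E3 2 (volume : Measure E3)) : ‖u‖ ^ 2 = ∫ x, ‖u x‖ ^ 2 := by
  rw [← real_inner_self_eq_norm_sq, L2.inner_def]
  simp only [real_inner_self_eq_norm_sq]

lemma norm_sq_toLp {f : E3 → E3} (hf : MemLp f 2 (volume : Measure E3)) : ‖hf.toLp f‖ ^ 2 = ∫ x, ‖f x‖ ^ 2 := by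
  rw [norm_sq_Lp]
  refine integral_congr_ae ?_
  filter_upwards [hf.coeFn_toLp] with x hx
  rw [hx]

lemma norm_sub_toLp {f : E3 → E3} (hf : MemLp f 2 (volume : Measure E3)) (u : Lp E3 2 (volume : Measure E3)) :
    ‖hf.toLp f - u‖ ^ 2 = ∫ x, ‖f x - u x‖ ^ 2 := by
  rw [norm_sq_Lp]
  refine integral_congr_ae ?_
  filter_upwards [hf.coeFn_toLp, Lp.coeFn_sub (hf.toLp f) u] with x hx hx2
  rw [hx2, Pi.sub_apply, hx]

lemma norm_sub_toLp' {f g : E3 → E3} (hf : MemLp f 2 (volume : Measure E3))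
    (hg : MemLp g 2 (volume : Measure E3)) :
    ‖hf.toLp f - hg.toLp g‖ ^ 2 = ∫ x, ‖f x - g x‖ ^ 2 := by
  rw [norm_sub_toLp]
  refine integral_congr_ae ?_
  filter_upwards [hg.coeFn_toLp] with x hx
  rw [hx]

lemma integrable_sq {f : E3 → E3} (hf : MemLp f 2) : Integrable (fun x => ‖f x‖ ^ 2) :=
  hf.norm.integrable_sq

/-- The weight. -/
noncomputable def wt (x : E3) : ℝ := (1 + ‖x‖)⁻¹

lemma wt_pos (x : E3) : 0 < wt x := by
  unfold wt
  positivity

lemma wt_le (x : E3) : wt x ≤ 1 := by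
  unfold wt
  rw [inv_le_one_iff₀]
  right
  linarith [norm_nonneg x]

lemma wt_cont : Continuous wt := by
  unfold wt
  refine Continuous.inv₀ (by fun_prop) fun x => ?_
  have := norm_nonneg x
  positivity

lemma memLp_wt {f : E3 → E3} (hf : MemLp f 2) : MemLp (fun x => wt x • f x) 2 := by
  refine hf.mono (wt_cont.aestronglyMeasurable.smul hf.1) (Eventually.of_forall fun x => ?_)
  rw [norm_smul, Real.norm_eq_abs, abs_of_pos (wt_pos x)]
  exact mul_le_of_le_one_left (norm_nonneg _) (wt_le x)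

end CptA

open CptA

theorem cpta_thm : CPTA := by
  intro G C hG hC hcau
  have hC0 : 0 ≤ C := le_trans (integral_nonneg fun x => by positivity) (hC 0)
  have hH : ∀ n, MemLp (fun x => wt x • G n x) 2 := fun n => memLp_wt (hG n)
  set h : ℕ → Lp E3 2 (volume : Measure E3) := fun n => (hH n).toLp _ with hh
  have hdiff : ∀ m n, ∫ x, ‖G m x - G n x‖ ^ 2 ≤ 4 * C := by
    intro m n
    have h1 : ∫ x, ‖G m x - G n x‖ ^ 2 ≤ ∫ x, (2 * ‖G m x‖ ^ 2 + 2 * ‖G n x‖ ^ 2) := by
      refine integral_mono (integrable_sq ((hG m).sub (hG n)))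
        (((integrable_sq (hG m)).const_mul 2).add ((integrable_sq (hG n)).const_mul 2))
        fun x => ?_
      have h2 := norm_sub_le (G m x) (G n x)
      have h3 := norm_nonneg (G m x - G n x)
      have h4 : ‖G m x - G n x‖ ^ 2 ≤ (‖G m x‖ + ‖G n x‖) ^ 2 := by
        exact pow_le_pow_left₀ h3 h2 2
      change ‖G m x - G n x‖ ^ 2 ≤ 2 * ‖G m x‖ ^ 2 + 2 * ‖G n x‖ ^ 2
      nlinarith [sq_nonneg (‖G m x‖ - ‖G n x‖)]
    rw [integral_add ((integrable_sq (hG m)).const_mul 2) ((integrable_sq (hG n)).const_mul 2),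
      integral_const_mul, integral_const_mul] at h1
    have h5 := hC m
    have h6 := hC n
    unfold sqv at h5 h6
    linarith
  have hcs : CauchySeq h := by
    rw [Metric.cauchySeq_iff]
    intro ε hε
    -- radius
    obtain ⟨k, hk⟩ : ∃ k : ℕ, 4 * C * (1 / ((k : ℝ) + 1)) < ε ^ 2 / 2 := by
      have ht : Tendsto (fun k : ℕ => 4 * C * (1 / ((k : ℝ) + 1))) atTop (𝓝 (4 * C * 0)) :=
        tendsto_one_div_add_atTop_nhds_zero_nat.const_mul _
      rw [mul_zero] at ht
      exact (ht.eventually (gt_mem_nhds (by positivity))).exists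
    obtain ⟨N, hN⟩ := hcau (Metric.closedBall 0 k) (isCompact_closedBall _ _) (ε ^ 2 / 2)
      (by positivity)
    refine ⟨N, fun m hm n hn => ?_⟩
    rw [dist_eq_norm]
    have hsq : ‖h m - h n‖ ^ 2 < ε ^ 2 := by
      rw [hh, norm_sub_toLp' (hH m) (hH n)]
      have hint : Integrable (fun x => ‖wt x • G m x - wt x • G n x‖ ^ 2) :=
        integrable_sq ((hH m).sub (hH n))
      have hint2 : Integrable (fun x => ‖G m x - G n x‖ ^ 2) :=
        integrable_sq ((hG m).sub (hG n))
      have heq : ∀ x, ‖wt x • G m x - wt x • G n x‖ ^ 2 = wt x ^ 2 * ‖G m x - G n x‖ ^ 2 := by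
        intro x
        rw [← smul_sub, norm_smul, mul_pow, Real.norm_eq_abs, sq_abs]
      rw [← integral_add_compl (Metric.isClosed_closedBall (x := (0 : E3))
        (ε := (k : ℝ))).measurableSet hint]
      have e1 : ∫ x in Metric.closedBall (0 : E3) k, ‖wt x • G m x - wt x • G n x‖ ^ 2 ≤
          ∫ x in Metric.closedBall (0 : E3) k, ‖G m x - G n x‖ ^ 2 := by
        refine setIntegral_mono hint.integrableOn hint2.integrableOn fun x => ?_
        change ‖wt x • G m x - wt x • G n x‖ ^ 2 ≤ ‖G m x - G n x‖ ^ 2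
        rw [heq]
        exact mul_le_of_le_one_left (by positivity)
          (pow_le_one₀ (wt_pos x).le (wt_le x))
      have e2 : ∫ x in (Metric.closedBall (0 : E3) k)ᶜ, ‖wt x • G m x - wt x • G n x‖ ^ 2 ≤
          ∫ x in (Metric.closedBall (0 : E3) k)ᶜ,
            1 / ((k : ℝ) + 1) * ‖G m x - G n x‖ ^ 2 := by
        refine setIntegral_mono_on hint.integrableOn (hint2.const_mul _).integrableOn
          Metric.isClosed_closedBall.measurableSet.compl fun x hx => ?_
        rw [heq]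
        refine mul_le_mul_of_nonneg_right ?_ (by positivity)
        have hx2 : (k : ℝ) < ‖x‖ := by
          simpa using hx
        have h7 : wt x ≤ 1 / ((k : ℝ) + 1) := by
          unfold wt
          rw [inv_eq_one_div]
          refine one_div_le_one_div_of_le (by positivity) (by linarith)
        nlinarith [wt_pos x, wt_le x]
      have e3 : ∫ x in (Metric.closedBall (0 : E3) k)ᶜ,
            1 / ((k : ℝ) + 1) * ‖G m x - G n x‖ ^ 2 ≤ 4 * C * (1 / ((k : ℝ) + 1)) := by
        rw [integral_const_mul]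
        have h8 : ∫ x in (Metric.closedBall (0 : E3) k)ᶜ, ‖G m x - G n x‖ ^ 2 ≤ 4 * C :=
          (setIntegral_le_integral hint2 (Eventually.of_forall fun x => by positivity)).trans
            (hdiff m n)
        have h9 : (0 : ℝ) ≤ 1 / ((k : ℝ) + 1) := by positivity
        nlinarith
      have e4 := hN m hm n hn
      linarith
    exact lt_of_pow_lt_pow_left₀ 2 hε.le hsq
  obtain ⟨u, hu⟩ := cauchySeq_tendsto_of_complete hcs
  obtain ⟨s, hs, hae⟩ := (tendstoInMeasure_of_tendsto_Lp hu).exists_seq_tendsto_ae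
  have haeF : ∀ᵐ x, Tendsto (fun n => G (s n) x) atTop (𝓝 ((wt x)⁻¹ • u x)) := by
    have hall : ∀ᵐ x, ∀ n, h (s n) x = wt x • G (s n) x :=
      ae_all_iff.2 fun n => (hH (s n)).coeFn_toLp
    filter_upwards [hae, hall] with x hx hx2
    have := hx.const_smul (wt x)⁻¹
    refine this.congr fun n => ?_
    rw [hx2 n, smul_smul, inv_mul_cancel₀ (wt_pos x).ne', one_smul]
  refine ⟨fun x => (wt x)⁻¹ • u x, s, ?_, hs, ?_, haeF⟩
  · refine ⟨(wt_cont.inv₀ fun x => (wt_pos x).ne').aestronglyMeasurable.smul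
      (Lp.aestronglyMeasurable u), ?_⟩
    refine lt_of_le_of_lt (Lp.eLpNorm_lim_le_liminf_eLpNorm (fun n => (hG (s n)).1) _ haeF) ?_
    have hb : ∀ n, eLpNorm (G n) 2 volume ≤ ENNReal.ofReal (Real.sqrt C) := by
      intro n
      rw [← ENNReal.ofReal_toReal (hG n).2.ne, ← Lp.norm_toLp (G n) (hG n)]
      refine ENNReal.ofReal_le_ofReal (Real.le_sqrt_of_sq_le ?_)
      rw [norm_sq_toLp]
      exact hC n
    refine lt_of_le_of_lt (liminf_le_of_le ?_ fun b hb' => ?_)
      (ENNReal.ofReal_lt_top (r := Real.sqrt C))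
    · isBoundedDefault
    · obtain ⟨n, hn⟩ := hb'.exists
      exact hn.trans (hb _)
  · intro K hK
    obtain ⟨R, hR0, hR⟩ : ∃ R : ℝ, 0 ≤ R ∧ ∀ x ∈ K, ‖x‖ ≤ R := by
      obtain ⟨R, hR⟩ := hK.isBounded.exists_norm_le
      exact ⟨max R 0, le_max_right _ _, fun x hx => (hR x hx).trans (le_max_left _ _)⟩
    have hlim : Tendsto (fun n => (1 + R) ^ 2 * ‖h n - u‖ ^ 2) atTop (𝓝 0) := by
      have h1 : Tendsto (fun n => ‖h n - u‖) atTop (𝓝 0) := by
        have := (hu.sub_const u).norm
        rwa [sub_self, norm_zero] at this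
      have := (h1.pow 2).const_mul ((1 + R) ^ 2)
      simpa using this
    refine squeeze_zero (fun n => integral_nonneg fun x => by positivity) (fun n => ?_) hlim
    have hint : Integrable (fun x => ‖wt x • G n x - u x‖ ^ 2) :=
      integrable_sq ((hH n).sub (Lp.memLp u))
    have e1 : ∫ x in K, ‖G n x - (wt x)⁻¹ • u x‖ ^ 2 ≤
        ∫ x in K, (1 + R) ^ 2 * ‖wt x • G n x - u x‖ ^ 2 := by
      refine integral_mono_of_nonneg (Eventually.of_forall fun x => by positivity)
        (hint.const_mul _).integrableOn ?_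
      filter_upwards [self_mem_ae_restrict hK.measurableSet] with x hx
      have h2 : wt x • G n x - u x = wt x • (G n x - (wt x)⁻¹ • u x) := by
        rw [smul_sub, smul_smul, mul_inv_cancel₀ (wt_pos x).ne', one_smul]
      rw [h2, norm_smul, mul_pow, Real.norm_eq_abs, sq_abs, ← mul_assoc]
      have h3 : 1 ≤ (1 + R) ^ 2 * wt x ^ 2 := by
        rw [← mul_pow]
        refine one_le_pow₀ ?_
        unfold wt
        rw [← div_eq_mul_inv, one_le_div (by have := norm_nonneg x; positivity)]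
        linarith [hR x hx]
      exact le_mul_of_one_le_left (by positivity) h3
    refine e1.trans ?_
    rw [integral_const_mul]
    refine mul_le_mul_of_nonneg_left ?_ (by positivity)
    rw [hh, norm_sub_toLp]
    exact setIntegral_le_integral hint (Eventually.of_forall fun x => by positivity)

end Pool.Agent.PFlow.PB
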