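import Pool.Agent.PFlow.StmtsP

/-!
# Module CPTU: Arzelà-Ascoli on `E3`
-/

open MeasureTheory Filter Topology Set
open scoped ContDiff RealInnerProductSpace

namespace Pool.Agent.PFlow.PB

open Pool.Agent.PenroseSph Pool.Agent.PFlow

namespace CptU

/-- The family of functions with the given bounds. -/
def fam (C : ℝ) : Set (E3 → ℝ) :=
  {f | (∀ x, |f x| ≤ C) ∧ ∀ x y, ‖x - y‖ ≤ 1 → |f x - f y| ≤ C * ‖x - y‖ ^ (1 / 4 : ℝ)}

lemma isCompact_fam (C : ℝ) : IsCompact (fam C) := by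
  have h1 : IsCompact (Set.univ.pi fun _ : E3 => Set.Icc (-C) C) :=
    isCompact_univ_pi fun _ => isCompact_Icc
  refine h1.of_isClosed_subset ?_ ?_
  · have h2 : fam C = (⋂ x : E3, {f : E3 → ℝ | |f x| ≤ C}) ∩
        ⋂ x : E3, ⋂ y : E3, ⋂ _ : ‖x - y‖ ≤ 1,
          {f : E3 → ℝ | |f x - f y| ≤ C * ‖x - y‖ ^ (1 / 4 : ℝ)} := by
      ext f
      simp only [fam, Set.mem_inter_iff, Set.mem_iInter, Set.mem_ofPred_eq]
    rw [h2]
    refine IsClosed.inter (isClosed_iInter fun x => ?_)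
      (isClosed_iInter fun x => isClosed_iInter fun y => isClosed_iInter fun _ => ?_)
    · exact isClosed_le (continuous_apply x).abs continuous_const
    · exact isClosed_le ((continuous_apply x).sub (continuous_apply y)).abs continuous_const
  · intro f hf x _
    exact abs_le.mp (hf.1 x)

/-- The modulus of continuity. -/
lemma modulus (C : ℝ) {e : ℝ} (he : 0 < e) :
    ∃ d : ℝ, 0 < d ∧ d ≤ 1 ∧ ∀ t : ℝ, 0 ≤ t → t < d → C * t ^ (1 / 4 : ℝ) < e := by
  have h1 : Continuous fun t : ℝ => C * t ^ (1 / 4 : ℝ) :=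
    continuous_const.mul (Real.continuous_rpow_const (by norm_num))
  have h2 : Tendsto (fun t : ℝ => C * t ^ (1 / 4 : ℝ)) (𝓝 0) (𝓝 0) := by
    have h3 := h1.tendsto 0
    rw [Real.zero_rpow (by norm_num), mul_zero] at h3
    exact h3
  obtain ⟨d, hd, hd'⟩ := Metric.eventually_nhds_iff.mp (h2.eventually (gt_mem_nhds he))
  refine ⟨min d 1, lt_min hd one_pos, min_le_right _ _, fun t ht htd => ?_⟩
  refine hd' ?_
  rw [Real.dist_eq, sub_zero, abs_of_nonneg ht]
  exact lt_of_lt_of_le htd (min_le_left _ _)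

lemma continuous_of_mem {C : ℝ} {f : E3 → ℝ} (hf : f ∈ fam C) : Continuous f := by
  rw [Metric.continuous_iff]
  intro x e he
  obtain ⟨d, hd, hd1, h⟩ := modulus C he
  refine ⟨d, hd, fun y hy => ?_⟩
  rw [dist_eq_norm] at hy
  rw [Real.dist_eq]
  exact lt_of_le_of_lt (hf.2 y x (hy.le.trans hd1)) (h _ (norm_nonneg _) hy)

end CptU

open CptU in
/-- **(CPTU)** Arzelà-Ascoli. -/
theorem cptu_thm : CPTU := by
  intro u C h1 h2
  set S : Set C(E3, ℝ) := {f | (f : E3 → ℝ) ∈ fam C} with hS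
  have hS1 : IsCompact (ContinuousMap.toFun '' S) := by
    have h3 : ContinuousMap.toFun '' S = fam C := by
      ext f
      constructor
      · rintro ⟨k, hk, rfl⟩
        exact hk
      · intro hf
        exact ⟨⟨f, continuous_of_mem hf⟩, hf, rfl⟩
    rw [h3]
    exact isCompact_fam C
  have hS2 : Equicontinuous ((↑) : S → E3 → ℝ) := by
    intro x
    rw [Metric.equicontinuousAt_iff]
    intro e he
    obtain ⟨d, hd, hd1, h⟩ := modulus C he
    refine ⟨d, hd, fun y hy f => ?_⟩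
    rw [dist_comm, dist_eq_norm] at hy
    rw [Real.dist_eq]
    exact lt_of_le_of_lt (f.2.2 x y (hy.le.trans hd1)) (h _ (norm_nonneg _) hy)
  have hc : IsCompact S := ArzelaAscoli.isCompact_of_equicontinuous S hS1 hS2
  have hmem : ∀ n, u n ∈ fam C := fun n => ⟨h1 n, h2 n⟩
  obtain ⟨v, -, s, hs, hv⟩ := hc.tendsto_subseq
    (x := fun n => (⟨u n, continuous_of_mem (hmem n)⟩ : C(E3, ℝ))) (fun n => hmem n)
  refine ⟨s, v, hs, v.continuous, fun K hK => ?_⟩
  exact ContinuousMap.tendsto_iff_forall_isCompact_tendstoUniformlyOn.mp hv K hK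

end Pool.Agent.PFlow.PB
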