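import Pool.Agent.PFlow.StmtsP

/-!
# Difference quotients on the whole space (module DQ)
-/

open MeasureTheory Filter Topology Set
open scoped ContDiff RealInnerProductSpace

namespace Pool.Agent.PFlow.PB

open Pool.Agent.PenroseSph Pool.Agent.PFlow

namespace DQm

theorem int_inner {F D : E3 → E3} (hF : MemLp F 2) (hD : MemLp D 2) :
    Integrable (fun x => ⟪F x, D x⟫) := by
  have h1 : Integrable (fun x => ‖F x‖ * ‖D x‖) := hF.norm.integrable_mul hD.norm
  refine h1.mono' (hF.aestronglyMeasurable.inner hD.aestronglyMeasurable)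
    (Eventually.of_forall fun x => ?_)
  exact norm_inner_le_norm _ _

theorem memLp_shift {E : Type*} [NormedAddCommGroup E] {F : E3 → E} (hF : MemLp F 2) (h : E3) :
    MemLp (fun x => F (x + h)) 2 :=
  hF.comp_measurePreserving (measurePreserving_add_right volume h)

theorem int_sq {F : E3 → E3} (hF : MemLp F 2) : Integrable (fun x => ‖F x‖ ^ 2) :=
  hF.integrable_norm_pow (by norm_num)

end DQm

open DQm

theorem dq_thm (h1 : API1) (h2 : API2) : DQ := by
  intro A B c L r hC u G f hu hf heq h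
  by_cases hh : h = 0
  · subst hh
    simp [sqv]
  have hc := hC.c_pos
  have hL : 0 < L := lt_of_lt_of_le hc hC.c_le
  have hhn : 0 < ‖h‖ := norm_pos_iff.2 hh
  set D : E3 → ℝ := fun x => u (x + h) - u x with hDdef
  set DG : E3 → E3 := fun x => G (x + h) - G x with hDGdef
  have hD : H1 D DG := h1.sub _ _ _ _ (h2.shift u G hu h) hu
  have hDs : H1 (fun x => D (x + -h)) (fun x => DG (x + -h)) := h2.shift D DG hD (-h)
  have hφ : H1 (fun x => D (x + -h) - D x) (fun x => DG (x + -h) - DG x) :=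
    h1.sub _ _ _ _ hDs hD
  have key := heq _ _ hφ
  have tr := h2.trans D DG hD (-h)
  rw [norm_neg] at tr
  -- the function A x (G x)
  have hAn : ∀ x ξ, ‖A x ξ‖ ≤ L * ‖ξ‖ := by
    intro x ξ
    have := hC.lipA x ξ 0
    rw [hC.A_zero x, sub_zero, sub_zero] at this
    exact this
  have hAc : Continuous (fun z : E3 × E3 => A z.1 z.2) := hC.smoothA.continuous
  have mG := hu.memG
  have mA : MemLp (fun x => A x (G x)) 2 := by
    refine mG.of_le_mul (c := L) ?_ (Eventually.of_forall fun x => hAn x (G x))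
    exact hAc.comp_aestronglyMeasurable
      (aestronglyMeasurable_id.prodMk mG.aestronglyMeasurable)
  have mGs : MemLp (fun x => G (x + h)) 2 := memLp_shift mG h
  have mAs : MemLp (fun x => A (x + h) (G (x + h))) 2 := memLp_shift mA h
  have mAm : MemLp (fun x => A x (G (x + h))) 2 := by
    refine mGs.of_le_mul (c := L) ?_ (Eventually.of_forall fun x => hAn x _)
    exact hAc.comp_aestronglyMeasurable
      (aestronglyMeasurable_id.prodMk mGs.aestronglyMeasurable)
  have mDG : MemLp DG 2 := hD.memG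
  -- the left side
  have e1 : ∫ x, ⟪A x (G x), DG (x + -h) - DG x⟫
      = ∫ x, ⟪A (x + h) (G (x + h)) - A x (G x), DG x⟫ := by
    have f1 : ∫ x, ⟪A x (G x), DG (x + -h) - DG x⟫
        = (∫ x, ⟪A x (G x), DG (x + -h)⟫) - ∫ x, ⟪A x (G x), DG x⟫ := by
      rw [← integral_sub (int_inner mA hDs.memG) (int_inner mA mDG)]
      refine integral_congr_ae (Eventually.of_forall fun x => ?_)
      exact inner_sub_right _ _ _
    have f2 : ∫ x, ⟪A x (G x), DG (x + -h)⟫ = ∫ x, ⟪A (x + h) (G (x + h)), DG x⟫ := by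
      rw [← integral_add_right_eq_self (fun x => ⟪A x (G x), DG (x + -h)⟫) h]
      refine integral_congr_ae (Eventually.of_forall fun x => ?_)
      simp only [add_neg_cancel_right]
    rw [f1, f2, ← integral_sub (int_inner mAs mDG) (int_inner mA mDG)]
    refine integral_congr_ae (Eventually.of_forall fun x => ?_)
    exact (inner_sub_left _ _ _).symm
  rw [e1] at key
  -- lower bound of the left side
  have iDG : Integrable (fun x => ‖DG x‖ ^ 2) := int_sq mDG
  have iGs : Integrable (fun x => ‖G (x + h)‖ ^ 2) := int_sq mGs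
  have low : ∀ x, (3 * c / 4) * ‖DG x‖ ^ 2 - (L ^ 2 * ‖h‖ ^ 2 / c) * ‖G (x + h)‖ ^ 2
      ≤ ⟪A (x + h) (G (x + h)) - A x (G x), DG x⟫ := by
    intro x
    have s1 : A (x + h) (G (x + h)) - A x (G x)
        = (A (x + h) (G (x + h)) - A x (G (x + h))) + (A x (G (x + h)) - A x (G x)) := by abel
    rw [s1, inner_add_left]
    have m1 := hC.mono x (G (x + h)) (G x)
    have m2 : -(‖A (x + h) (G (x + h)) - A x (G (x + h))‖ * ‖DG x‖)
        ≤ ⟪A (x + h) (G (x + h)) - A x (G (x + h)), DG x⟫ := by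
      have := abs_real_inner_le_norm (A (x + h) (G (x + h)) - A x (G (x + h))) (DG x)
      have h3 := neg_abs_le ⟪A (x + h) (G (x + h)) - A x (G (x + h)), DG x⟫
      linarith
    have m3 : ‖A (x + h) (G (x + h)) - A x (G (x + h))‖ ≤ L * ‖h‖ * ‖G (x + h)‖ := by
      have := hC.lipx (x + h) x (G (x + h))
      rwa [add_sub_cancel_left] at this
    have m4 : ‖A (x + h) (G (x + h)) - A x (G (x + h))‖ * ‖DG x‖
        ≤ (L * ‖h‖ * ‖G (x + h)‖) * ‖DG x‖ := mul_le_mul_of_nonneg_right m3 (norm_nonneg _)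
    have m5 : (L * ‖h‖ * ‖G (x + h)‖) * ‖DG x‖
        ≤ (L ^ 2 * ‖h‖ ^ 2 / c) * ‖G (x + h)‖ ^ 2 + (c / 4) * ‖DG x‖ ^ 2 := by
      have q : 0 ≤ (L * ‖h‖ * ‖G (x + h)‖ - c / 2 * ‖DG x‖) ^ 2 / c := by positivity
      have q2 : (L * ‖h‖ * ‖G (x + h)‖ - c / 2 * ‖DG x‖) ^ 2 / c
          = (L ^ 2 * ‖h‖ ^ 2 / c) * ‖G (x + h)‖ ^ 2 - (L * ‖h‖ * ‖G (x + h)‖) * ‖DG x‖
            + (c / 4) * ‖DG x‖ ^ 2 := by
        field_simp
        ring
      rw [q2] at q
      linarith
    have m6 : c * ‖DG x‖ ^ 2 ≤ ⟪A x (G (x + h)) - A x (G x), DG x⟫ := m1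
    linarith
  have lowi : (3 * c / 4) * sqv DG - (L ^ 2 * ‖h‖ ^ 2 / c) * sqv G
      ≤ ∫ x, ⟪A (x + h) (G (x + h)) - A x (G x), DG x⟫ := by
    have g1 : sqv G = ∫ x, ‖G (x + h)‖ ^ 2 :=
      (integral_add_right_eq_self (fun x => ‖G x‖ ^ 2) h).symm
    rw [g1]
    unfold sqv
    rw [← integral_const_mul, ← integral_const_mul,
      ← integral_sub (iDG.const_mul _) (iGs.const_mul _)]
    exact integral_mono ((iDG.const_mul _).sub (iGs.const_mul _))
      (int_inner (mAs.sub mA) mDG) low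
  -- upper bound of the right side
  have mφ : MemLp (fun x => D (x + -h) - D x) 2 := hφ.memf
  have ifs : Integrable (fun x => f x ^ 2) := hf.integrable_sq
  have iφs : Integrable (fun x => (D (x + -h) - D x) ^ 2) := mφ.integrable_sq
  have upi : ∫ x, f x * (D (x + -h) - D x) ≤ (‖h‖ ^ 2 / c) * sq f + (c / 4) * sqv DG := by
    have g1 : ∫ x, f x * (D (x + -h) - D x)
        ≤ ∫ x, ((‖h‖ ^ 2 / c) * f x ^ 2 + (c / (4 * ‖h‖ ^ 2)) * (D (x + -h) - D x) ^ 2) := by
      refine integral_mono (hf.integrable_mul mφ) ((ifs.const_mul _).add (iφs.const_mul _)) ?_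
      intro x
      simp only
      have q : 0 ≤ (‖h‖ ^ 2 * f x - c / 2 * (D (x + -h) - D x)) ^ 2 / (c * ‖h‖ ^ 2) := by
        positivity
      have q2 : (‖h‖ ^ 2 * f x - c / 2 * (D (x + -h) - D x)) ^ 2 / (c * ‖h‖ ^ 2)
          = (‖h‖ ^ 2 / c) * f x ^ 2 - f x * (D (x + -h) - D x)
            + (c / (4 * ‖h‖ ^ 2)) * (D (x + -h) - D x) ^ 2 := by
        field_simp
        ring
      rw [q2] at q
      linarith
    rw [integral_add (ifs.const_mul _) (iφs.const_mul _), integral_const_mul,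
      integral_const_mul] at g1
    have g2 : (c / (4 * ‖h‖ ^ 2)) * (∫ x, (D (x + -h) - D x) ^ 2)
        ≤ (c / (4 * ‖h‖ ^ 2)) * (‖h‖ ^ 2 * sqv DG) :=
      mul_le_mul_of_nonneg_left tr (by positivity)
    have g3 : (c / (4 * ‖h‖ ^ 2)) * (‖h‖ ^ 2 * sqv DG) = (c / 4) * sqv DG := by
      field_simp
    rw [g3] at g2
    exact g1.trans (add_le_add le_rfl g2)
  rw [key] at lowi
  have fin : (c / 2) * sqv DG ≤ (‖h‖ ^ 2 / c) * (L ^ 2 * sqv G + sq f) := by
    have e2 : (L ^ 2 * ‖h‖ ^ 2 / c) * sqv G = (‖h‖ ^ 2 / c) * (L ^ 2 * sqv G) := by ring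
    rw [e2] at lowi
    have := lowi.trans upi
    linarith
  have e3 : (2 * L ^ 2 * sqv G + 2 * sq f) / c ^ 2 * ‖h‖ ^ 2
      = (2 / c) * ((‖h‖ ^ 2 / c) * (L ^ 2 * sqv G + sq f)) := by
    field_simp
  have e4 : sqv DG = (2 / c) * ((c / 2) * sqv DG) := by
    field_simp
  change sqv DG ≤ _
  rw [e3, e4]
  exact mul_le_mul_of_nonneg_left fin (by positivity)

end Pool.Agent.PFlow.PB
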