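import Pool.Agent.PFlow.P.API2

/-!
# Block P, module DQR: functions with bounded difference quotients belong to `H1`
-/

open MeasureTheory Filter Topology Set
open scoped ContDiff RealInnerProductSpace ENNReal

namespace Pool.Agent.PFlow.PB

open Pool.Agent.PenroseSph Pool.Agent.PFlow

namespace DQRm

/-- the step -/
noncomputable def st (i : Fin 3) (n : ℕ) : E3 := ((n : ℝ) + 1)⁻¹ • ee i

theorem norm_ee (i : Fin 3) : ‖ee i‖ = 1 := by
  simp [ee]

theorem norm_st (i : Fin 3) (n : ℕ) : ‖st i n‖ = ((n : ℝ) + 1)⁻¹ := by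
  unfold st
  rw [norm_smul, norm_ee, mul_one, Real.norm_of_nonneg (by positivity)]

/-- the difference quotient -/
noncomputable def dq (f : E3 → ℝ) (i : Fin 3) (n : ℕ) (x : E3) : ℝ :=
  ((n : ℝ) + 1) * (f (x + st i n) - f x)

theorem dq_memLp {f : E3 → ℝ} (hf : MemLp f 2) (i : Fin 3) (n : ℕ) : MemLp (dq f i n) 2 :=
  ((memLp_shift f hf (st i n)).sub hf).const_mul _

theorem dq_sq {f : E3 → ℝ} {C : ℝ} (hC : ∀ h : E3, sq (fun x => f (x + h) - f x) ≤ C * ‖h‖ ^ 2)
    (i : Fin 3) (n : ℕ) : sq (dq f i n) ≤ C := by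
  have h1 : sq (dq f i n) = ((n : ℝ) + 1) ^ 2 * sq (fun x => f (x + st i n) - f x) := by
    unfold sq dq
    rw [← integral_const_mul]
    congr 1
    ext x
    ring
  have h2 := hC (st i n)
  rw [norm_st] at h2
  have hn : (0 : ℝ) < (n : ℝ) + 1 := by positivity
  calc sq (dq f i n) = ((n : ℝ) + 1) ^ 2 * sq (fun x => f (x + st i n) - f x) := h1
    _ ≤ ((n : ℝ) + 1) ^ 2 * (C * (((n : ℝ) + 1)⁻¹) ^ 2) :=
        mul_le_mul_of_nonneg_left h2 (by positivity)
    _ = C := by
        field_simp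

/-- summation by parts -/
theorem int_dq {f : E3 → ℝ} (hf : MemLp f 2) {ψ : E3 → ℝ} (hψ : Test ψ) (i : Fin 3) (n : ℕ) :
    ∫ x, ψ x * dq f i n x = ∫ x, f x * (((n : ℝ) + 1) * (ψ (x - st i n) - ψ x)) := by
  have hm := test_memLp ψ hψ
  have hfs := memLp_shift f hf (st i n)
  have hψs : MemLp (fun x => ψ (x - st i n)) 2 := by
    have h := memLp_shift ψ hm (-st i n)
    simpa only [sub_eq_add_neg] using h
  have h1 : ∫ x, ψ x * f (x + st i n) = ∫ x, ψ (x - st i n) * f x := by
    have h := integral_add_right_eq_self (μ := (volume : Measure E3))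
      (fun x => ψ (x - st i n) * f x) (st i n)
    simp only [add_sub_cancel_right] at h
    exact h
  have e1 : (fun x => ψ x * dq f i n x) =
      fun x => ((n : ℝ) + 1) * (ψ x * f (x + st i n) - ψ x * f x) := by
    funext x
    unfold dq
    ring
  have e2 : (fun x => f x * (((n : ℝ) + 1) * (ψ (x - st i n) - ψ x))) =
      fun x => ((n : ℝ) + 1) * (ψ (x - st i n) * f x - ψ x * f x) := by
    funext x
    ring
  rw [e1, e2, integral_const_mul, integral_const_mul,
    integral_sub (int_mul _ _ hm hfs) (int_mul _ _ hm hf),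
    integral_sub (int_mul _ _ hψs hf) (int_mul _ _ hm hf), h1]

theorem tend_step (ψ : E3 → ℝ) (hψ : Test ψ) (i : Fin 3) (x : E3) :
    Tendsto (fun n : ℕ => ((n : ℝ) + 1) * (ψ (x - st i n) - ψ x)) atTop (𝓝 (-pd i ψ x)) := by
  have hd : HasFDerivAt ψ (fderiv ℝ ψ x) x :=
    ((hψ.one.differentiable (by norm_num)) x).hasFDerivAt
  have h1 : HasDerivAt (fun t : ℝ => ψ (x + t • ee i)) (fderiv ℝ ψ x (ee i)) 0 :=
    hd.hasLineDerivAt (ee i)
  have h2 := hasDerivAt_iff_tendsto_slope.1 h1
  have h3 : Tendsto (fun n : ℕ => -((n : ℝ) + 1)⁻¹) atTop (𝓝[≠] 0) := by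
    rw [tendsto_nhdsWithin_iff]
    constructor
    · have h4 : Tendsto (fun n : ℕ => ((n : ℝ) + 1)⁻¹) atTop (𝓝 0) := by
        have := tendsto_one_div_add_atTop_nhds_zero_nat (𝕜 := ℝ)
        simpa using this
      simpa using h4.neg
    · refine Filter.Eventually.of_forall fun n => ?_
      have : (0 : ℝ) < (n : ℝ) + 1 := by positivity
      simp only [mem_compl_iff, mem_singleton_iff, neg_eq_zero, inv_eq_zero]
      exact this.ne'
  have h5 := (h2.comp h3).neg
  refine h5.congr fun n => ?_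
  simp only [Function.comp, slope_def_field, sub_zero, zero_smul, add_zero]
  have e : x + (-((n : ℝ) + 1)⁻¹) • ee i = x - st i n := by
    unfold st
    rw [neg_smul, sub_eq_add_neg]
  rw [e]
  have hn : ((n : ℝ) + 1) ≠ 0 := by positivity
  field_simp

theorem tend_dq {f : E3 → ℝ} (hf : MemLp f 2) {ψ : E3 → ℝ} (hψ : Test ψ) (i : Fin 3) :
    Tendsto (fun n => ∫ x, ψ x * dq f i n x) atTop (𝓝 (-∫ x, f x * pd i ψ x)) := by
  simp only [int_dq hf hψ i]
  have e : -∫ x, f x * pd i ψ x = ∫ x, f x * (-pd i ψ x) := by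
    rw [← integral_neg]
    congr 1
    ext x
    ring
  rw [e]
  obtain ⟨L, hL⟩ := hψ.one.lipschitzWith_of_hasCompactSupport hψ.cpt (by norm_num)
  have hK : IsCompact (Metric.cthickening 1 (tsupport ψ)) := hψ.cpt.isCompact.cthickening
  have hloc : LocallyIntegrable f volume := hf.locallyIntegrable (by norm_num)
  have hint : IntegrableOn (fun x => (L : ℝ) * ‖f x‖) (Metric.cthickening 1 (tsupport ψ)) :=
    ((hloc.integrableOn_isCompact hK).norm).const_mul _
  have hst1 : ∀ n, ‖st i n‖ ≤ 1 := by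
    intro n
    rw [norm_st]
    apply inv_le_one_of_one_le₀
    have : (0 : ℝ) ≤ n := Nat.cast_nonneg n
    linarith
  apply tendsto_integral_of_dominated_convergence
    ((Metric.cthickening 1 (tsupport ψ)).indicator fun x => (L : ℝ) * ‖f x‖)
  · intro n
    have hc : Continuous fun x => ((n : ℝ) + 1) * (ψ (x - st i n) - ψ x) := by
      have := hψ.smooth.continuous
      fun_prop
    exact hf.1.mul hc.aestronglyMeasurable
  · exact (integrable_indicator_iff hK.measurableSet).2 hint
  · intro n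
    refine Filter.Eventually.of_forall fun x => ?_
    by_cases hx : x ∈ Metric.cthickening 1 (tsupport ψ)
    · rw [indicator_of_mem hx, norm_mul, mul_comm]
      apply mul_le_mul_of_nonneg_right _ (norm_nonneg _)
      have h1 := hL.dist_le_mul (x - st i n) x
      rw [Real.dist_eq, dist_eq_norm] at h1
      have h2 : x - st i n - x = -st i n := by abel
      rw [h2, norm_neg, norm_st] at h1
      have hn : (0 : ℝ) < (n : ℝ) + 1 := by positivity
      rw [norm_mul, Real.norm_of_nonneg hn.le, Real.norm_eq_abs]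
      calc ((n : ℝ) + 1) * |ψ (x - st i n) - ψ x| ≤ ((n : ℝ) + 1) * (L * ((n : ℝ) + 1)⁻¹) :=
            mul_le_mul_of_nonneg_left h1 hn.le
        _ = L := by field_simp
    · rw [indicator_of_notMem hx]
      have h1 : ψ x = 0 := by
        by_contra h
        exact hx (Metric.self_subset_cthickening _ (subset_tsupport ψ h))
      have h2 : ψ (x - st i n) = 0 := by
        by_contra h
        apply hx
        refine Metric.mem_cthickening_of_dist_le x (x - st i n) 1 _ (subset_tsupport ψ h) ?_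
        rw [dist_eq_norm]
        have : x - (x - st i n) = st i n := by abel
        rw [this]
        exact hst1 n
      rw [h1, h2]
      simp
  · refine Filter.Eventually.of_forall fun x => ?_
    exact (tend_step ψ hψ i x).const_mul _

end DQRm

open DQRm in
/-- R2 (DQR): a function with bounded difference quotients belongs to `H1`. -/
theorem dqr_thm (_h1 : API1) (hw : WH) (hk : WEAKL) : DQR := by
  intro f C hf hC
  have h1 : ∀ i : Fin 3, ∃ g : E3 → ℝ, MemLp g 2 ∧ ∀ ψ, Test ψ →
      ∫ x, ψ x * g x = -∫ x, f x * pd i ψ x := by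
    intro i
    obtain ⟨g, hg1, _, hg3⟩ := hk (dq f i) C (dq_memLp hf i) (dq_sq hC i)
      (fun ψ hψ => ⟨_, tend_dq hf hψ i⟩)
    exact ⟨g, hg1, fun ψ hψ => tendsto_nhds_unique (hg3 ψ (test_memLp ψ hψ)) (tend_dq hf hψ i)⟩
  choose g hg1 hg2 using h1
  refine ⟨fun x => WithLp.toLp 2 fun i => g i x, hw f _ hf ?_ ?_⟩
  · exact memLp_of_comp _ fun i => hg1 i
  · intro φ hφ i
    have h2 := hg2 i φ hφ
    have h3 : ∫ x, (WithLp.toLp 2 (fun i => g i x) : E3) i * φ x = ∫ x, φ x * g i x := by
      congr 1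
      ext x
      exact mul_comm _ _
    rw [h3, h2, neg_neg]

end Pool.Agent.PFlow.PB
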