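import Pool.Agent.PFlow.P.WH

/-!
# Block P, module DENS: density of test functions in `H²`
-/

open MeasureTheory Filter Topology Set Metric
open scoped ContDiff RealInnerProductSpace ENNReal

namespace Pool.Agent.PFlow.PB

open Pool.Agent.PenroseSph Pool.Agent.PFlow

theorem gr_add' (f g : E3 → ℝ) (hf : Differentiable ℝ f) (hg : Differentiable ℝ g) (x : E3) :
    gr (fun x => f x + g x) x = gr f x + gr g x := gr_add f g x (hf x) (hg x)

theorem hs_mul (ζ v : E3 → ℝ) (hζ : ContDiff ℝ ∞ ζ) (hv : ContDiff ℝ ∞ v) (i : Fin 3) (x : E3) :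
    hs (fun x => ζ x * v x) i x
      = (ζ x • hs v i x + pd i v x • gr ζ x) + (v x • hs ζ i x + pd i ζ x • gr v x) := by
  have hzd := hζ.differentiable (by simp)
  have hvd := hv.differentiable (by simp)
  have hzd2 := (pd_C ζ hζ i).differentiable (by simp)
  have hvd2 := (pd_C v hv i).differentiable (by simp)
  have h1 : pd i (fun x => ζ x * v x) = fun x => ζ x * pd i v x + v x * pd i ζ x := by
    ext y
    have := congrArg (fun w : E3 => w i) (gr_mul ζ v y (hzd y) (hvd y))
    simpa [gr_apply] using this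
  unfold hs
  rw [h1, gr_add' (fun x => ζ x * pd i v x) (fun x => v x * pd i ζ x) (hzd.mul hvd2)
    (hvd.mul hzd2) x, gr_mul ζ (pd i v) x (hzd x) (hvd2 x), gr_mul v (pd i ζ) x (hvd x) (hzd2 x)]

/-- cutting off a smooth function of class `H²` -/
theorem cut_H2 (v : E3 → ℝ) (hv : ContDiff ℝ ∞ v) (hm : MemLp v 2) (hg : MemLp (gr v) 2)
    (hh : ∀ i, MemLp (hs v i) 2) :
    Tendsto (fun n => sq (fun x => zc n x * v x - v x)) atTop (𝓝 0) ∧
    Tendsto (fun n => sqv (fun x => gr (fun x => zc n x * v x) x - gr v x)) atTop (𝓝 0) ∧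
    ∀ i, Tendsto (fun n => sqv (fun x => hs (fun x => zc n x * v x) i x - hs v i x)) atTop
      (𝓝 0) := by
  obtain ⟨C, hC0, hC1, hC2⟩ := zc_bounds
  have hd := hv.differentiable (by simp)
  have hzd : ∀ n, Differentiable ℝ (zc n) := fun n => (zc_smooth n).differentiable (by simp)
  have hz1 : ∀ n, ContDiff ℝ 1 (zc n) := fun n => (zc_smooth n).of_le (by exact_mod_cast le_top)
  have hinv : ∀ n : ℕ, C * ((n : ℝ) + 1)⁻¹ ≤ C := by
    intro n
    have : ((n : ℝ) + 1)⁻¹ ≤ 1 := by
      rw [inv_le_one₀ (by positivity)]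
      have : (0 : ℝ) ≤ n := Nat.cast_nonneg n
      linarith
    nlinarith
  have hgz : ∀ n x, ‖gr (zc n) x‖ ≤ C := fun n x => (hC1 n x).trans (hinv n)
  have hhz : ∀ n i x, ‖hs (zc n) i x‖ ≤ C := fun n i x => (hC2 n i x).trans (hinv n)
  have hza : ∀ n x, |zc n x| ≤ 1 := fun n x => by
    rw [abs_of_nonneg (zc_nonneg n x)]
    exact zc_le_one n x
  refine ⟨?_, ?_, fun i => ?_⟩
  · have := zc_tend v hm
    simp only [sq_eq]
    simpa using this
  · have e : ∀ n, sqv (fun x => gr (fun x => zc n x * v x) x - gr v x)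
        = sqv (fun x => (zc n x • gr v x - gr v x) + v x • gr (zc n) x) := by
      intro n
      congr 1
      ext1 x
      rw [gr_mul _ _ x (hzd n x) (hd x)]
      abel
    simp only [e]
    refine tend_add_zero _ _ (fun n => ?_) (fun n => ?_) ?_ ?_
    · exact (memLp_smul_bdd (zc n) (gr v) 1 hg (zc_smooth n).continuous (hza n)).sub hg
    · exact memLp_smul_bdd' v _ C hm (gr_cont _ (hz1 n)) (hgz n)
    · exact zc_tend (gr v) hg
    · exact small_tend v (fun n => gr (zc n)) C hm hC1
  · have hgi : MemLp (pd i v) 2 := memLp_comp (gr v) hg i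
    have hpz : ∀ n x, |pd i (zc n) x| ≤ C * ((n : ℝ) + 1)⁻¹ := fun n x =>
      (abs_comp_le (gr (zc n) x) i).trans (hC1 n x)
    have e : ∀ n, sqv (fun x => hs (fun x => zc n x * v x) i x - hs v i x)
        = sqv (fun x => ((zc n x • hs v i x - hs v i x) + pd i v x • gr (zc n) x)
          + (v x • hs (zc n) i x + pd i (zc n) x • gr v x)) := by
      intro n
      congr 1
      ext1 x
      rw [hs_mul _ _ (zc_smooth n) hv i x]
      abel
    simp only [e]
    have m1 : ∀ n, MemLp (fun x => zc n x • hs v i x - hs v i x) 2 := fun n =>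
      (memLp_smul_bdd (zc n) (hs v i) 1 (hh i) (zc_smooth n).continuous (hza n)).sub (hh i)
    have m2 : ∀ n, MemLp (fun x => pd i v x • gr (zc n) x) 2 := fun n =>
      memLp_smul_bdd' (pd i v) _ C hgi (gr_cont _ (hz1 n)) (hgz n)
    have m3 : ∀ n, MemLp (fun x => v x • hs (zc n) i x) 2 := fun n =>
      memLp_smul_bdd' v _ C hm (hs_cont _ (zc_smooth n) i) (hhz n i)
    have m4 : ∀ n, MemLp (fun x => pd i (zc n) x • gr v x) 2 := fun n =>
      memLp_smul_bdd (pd i (zc n)) (gr v) C hg (pd_cont _ (hz1 n) i)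
        (fun x => (hpz n x).trans (hinv n))
    refine tend_add_zero _ _ (fun n => (m1 n).add (m2 n)) (fun n => (m3 n).add (m4 n))
      (tend_add_zero _ _ m1 m2 ?_ ?_) (tend_add_zero _ _ m3 m4 ?_ ?_)
    · exact zc_tend (hs v i) (hh i)
    · exact small_tend (pd i v) (fun n => gr (zc n)) C hgi hC1
    · exact small_tend v (fun n => hs (zc n) i) C hm (fun n x => hC2 n i x)
    · exact small_tend' (gr v) (fun n => pd i (zc n)) C hg hpz

theorem dens_thm (_h1 : API1) (hm : MOLL) : DENS := by
  obtain ⟨J, hJ⟩ := hm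
  intro u G M hu
  have hum := hu.h1.memf
  have hGm := hu.h1.memG
  have hGi := fun i => memLp_comp G hGm i
  have hMm := fun i => (hu.h2 i).memG
  have hMij := fun i j => memLp_comp (M i) (hMm i) j
  have hw := a1_wgrad u G hu.h1
  have hw2 := fun i => a1_wgrad _ _ (hu.h2 i)
  have hpd : ∀ n i, pd i (J n u) = J n (fun y => G y i) := by
    intro n i
    ext x
    exact hJ.grad u G hum hGm hw n x i
  have hhs : ∀ n i x j, hs (J n u) i x j = J n (fun y => M i y j) x := by
    intro n i x j
    unfold hs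
    rw [hpd]
    exact hJ.grad _ (M i) (hGi i) (hMm i) (hw2 i) n x j
  have hgm : ∀ n, MemLp (gr (J n u)) 2 := by
    intro n
    refine memLp_of_comp _ fun i => ?_
    have e : (fun x => gr (J n u) x i) = J n (fun y => G y i) := hpd n i
    rw [e]
    exact hJ.mem n _ (hGi i)
  have hhm : ∀ n i, MemLp (hs (J n u) i) 2 := by
    intro n i
    refine memLp_of_comp _ fun j => ?_
    have e : (fun x => hs (J n u) i x j) = J n (fun y => M i y j) := by
      ext x
      exact hhs n i x j
    rw [e]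
    exact hJ.mem n _ (hMij i j)
  -- convergence of the mollifications
  have t1 := hJ.tend u hum
  have t2 : Tendsto (fun n => sqv (fun x => gr (J n u) x - G x)) atTop (𝓝 0) := by
    refine tend_of_comp G (fun n => gr (J n u)) hGm hgm fun i => ?_
    refine (hJ.tend _ (hGi i)).congr fun n => ?_
    congr 1
    ext x
    rw [← hpd]
    rfl
  have t3 : ∀ i, Tendsto (fun n => sqv (fun x => hs (J n u) i x - M i x)) atTop (𝓝 0) := by
    intro i
    refine tend_of_comp (M i) (fun n => hs (J n u) i) (hMm i) (fun n => hhm n i) fun j => ?_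
    refine (hJ.tend _ (hMij i j)).congr fun n => ?_
    congr 1
    ext x
    rw [hhs]
  -- choice of the cut-offs
  have hc : ∀ n : ℕ, ∃ m : ℕ, n ≤ m ∧
      sq (fun x => zc m x * J n u x - J n u x) < ((n : ℝ) + 1)⁻¹ ∧
      sqv (fun x => gr (fun x => zc m x * J n u x) x - gr (J n u) x) < ((n : ℝ) + 1)⁻¹ ∧
      ∀ i, sqv (fun x => hs (fun x => zc m x * J n u x) i x - hs (J n u) i x)
        < ((n : ℝ) + 1)⁻¹ := by
    intro n
    obtain ⟨c1, c2, c3⟩ := cut_H2 (J n u) (hJ.smooth n u hum) (hJ.mem n u hum) (hgm n) (hhm n)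
    have hp : (0 : ℝ) < ((n : ℝ) + 1)⁻¹ := by positivity
    have e1 := (tendsto_order.1 c1).2 _ hp
    have e2 := (tendsto_order.1 c2).2 _ hp
    have e3 : ∀ᶠ m in atTop, ∀ i, sqv (fun x => hs (fun x => zc m x * J n u x) i x
        - hs (J n u) i x) < ((n : ℝ) + 1)⁻¹ := by
      rw [eventually_all]
      exact fun i => (tendsto_order.1 (c3 i)).2 _ hp
    obtain ⟨m, hm⟩ := (((eventually_ge_atTop n).and e1).and (e2.and e3)).exists
    exact ⟨m, hm.1.1, hm.1.2, hm.2.1, hm.2.2⟩
  choose m m0 m1 m2 m3 using hc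
  have hJs := fun n => hJ.smooth n u hum
  have hT : ∀ n, Test (fun x => zc (m n) x * J n u x) := fun n =>
    ⟨(zc_smooth _).mul (hJs n), (zc_cpt _).mul_right⟩
  refine ⟨fun n x => zc (m n) x * J n u x, hT, ?_, ?_, fun i => ?_, ?_⟩
  · have b := squeeze_zero (fun n => sq_nonneg' _) (fun n => (m1 n).le) inv_tend
    have := tend_add_zero' (fun n x => zc (m n) x * J n u x - J n u x) (fun n x => J n u x - u x)
      (fun n => (test_memLp _ (hT n)).sub (hJ.mem n u hum)) (fun n => (hJ.mem n u hum).sub hum)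
      b t1
    simpa using this
  · have b := squeeze_zero (fun n => sqv_nonneg' _) (fun n => (m2 n).le) inv_tend
    have := tend_add_zero (fun n x => gr (fun x => zc (m n) x * J n u x) x - gr (J n u) x)
      (fun n x => gr (J n u) x - G x)
      (fun n => (gr_memLp _ (hT n).one (hT n).cpt).sub (hgm n)) (fun n => (hgm n).sub hGm) b t2
    simpa using this
  · have b := squeeze_zero (fun n => sqv_nonneg' _) (fun n => (m3 n i).le) inv_tend
    have hhT : ∀ n, MemLp (hs (fun x => zc (m n) x * J n u x) i) 2 := fun n =>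
      (hs_cont _ (hT n).smooth i).memLp_of_hasCompactSupport (hs_cpt _ (hT n).cpt i)
    have := tend_add_zero (fun n x => hs (fun x => zc (m n) x * J n u x) i x - hs (J n u) i x)
      (fun n x => hs (J n u) i x - M i x)
      (fun n => (hhT n).sub (hhm n i)) (fun n => (hhm n i).sub (hMm i)) b (t3 i)
    simpa using this
  · intro hcu K hK
    have hunif := hJ.unif u hum hcu K hK
    obtain ⟨R, hR⟩ := hK.isBounded.exists_norm_le
    obtain ⟨N, hN⟩ := exists_nat_ge R
    rw [Metric.tendstoUniformlyOn_iff] at hunif ⊢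
    intro ε hε
    filter_upwards [hunif ε hε, eventually_ge_atTop N] with n hn hn2 x hx
    have h1 : ‖x‖ ≤ (m n : ℝ) + 1 := by
      have a1 := hR x hx
      have a2 : (N : ℝ) ≤ n := by exact_mod_cast hn2
      have a3 : (n : ℝ) ≤ m n := by exact_mod_cast m0 n
      linarith
    show dist (u x) (zc (m n) x * J n u x) < ε
    rw [zc_one _ x h1, one_mul]
    exact hn x hx

end Pool.Agent.PFlow.PB
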