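import Pool.Agent.PFlow.StmtsPF

/-!
# Block P, module ENER: the uniform `L²` bound
-/

open MeasureTheory Filter Topology Set
open scoped ContDiff RealInnerProductSpace

namespace Pool.Agent.PFlow.PB

open Pool.Agent.PenroseSph Pool.Agent.PFlow

namespace EnerAux

variable {A : E3 → E3 → E3} {B : E3 → E3 → ℝ} {c L r ρ T t₀ C : ℝ} {Θ θ u : E3 → ℝ} {G : E3 → E3}

lemma bdA (hco : PCoef A B c L ρ) (x ξ : E3) : ‖A x ξ‖ ≤ L * ‖ξ‖ := by
  have := hco.lipA x ξ 0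
  rwa [hco.A_zero, sub_zero, sub_zero] at this

lemma bdB (hco : PCoef A B c L ρ) (x ξ : E3) : |B x ξ| ≤ L * ‖ξ‖ := by
  have := hco.lipB x ξ 0
  rwa [hco.B_zero, sub_zero, sub_zero] at this

lemma measA (hco : PCoef A B c L ρ) (hG : AEStronglyMeasurable G volume) :
    AEStronglyMeasurable (fun x => A x (G x)) volume := by
  have hpair : AEStronglyMeasurable (fun x => (x, G x)) volume :=
    aestronglyMeasurable_id.prodMk hG
  exact hco.smoothA.continuous.comp_aestronglyMeasurable hpair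

lemma measB (hco : PCoef A B c L ρ) (hG : AEStronglyMeasurable G volume) :
    AEStronglyMeasurable (fun x => B x (G x)) volume := by
  have hpair : AEStronglyMeasurable (fun x => (x, G x)) volume :=
    aestronglyMeasurable_id.prodMk hG
  exact hco.smoothB.continuous.comp_aestronglyMeasurable hpair

lemma intA (hco : PCoef A B c L ρ) (hG : MemLp G 2) : Integrable (fun x => ⟪A x (G x), G x⟫) := by
  have hG2 : Integrable (fun x => ‖G x‖ ^ 2) := hG.norm.integrable_sq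
  refine (hG2.const_mul L).mono' ((measA hco hG.1).inner hG.1) (Eventually.of_forall fun x => ?_)
  calc ‖⟪A x (G x), G x⟫‖ ≤ ‖A x (G x)‖ * ‖G x‖ := norm_inner_le_norm _ _
    _ ≤ (L * ‖G x‖) * ‖G x‖ := mul_le_mul_of_nonneg_right (bdA hco _ _) (norm_nonneg _)
    _ = L * ‖G x‖ ^ 2 := by ring

lemma intB (hco : PCoef A B c L ρ) (hG : MemLp G 2) (hu : MemLp u 2) :
    Integrable (fun x => B x (G x) * u x) := by
  have hG2 : Integrable (fun x => ‖G x‖ ^ 2) := hG.norm.integrable_sq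
  have hu2 : Integrable (fun x => u x ^ 2) := hu.integrable_sq
  have hL : 0 ≤ L := hco.c_pos.le.trans hco.c_le
  refine ((hG2.add hu2).const_mul L).mono' ((measB hco hG.1).mul hu.1)
    (Eventually.of_forall fun x => ?_)
  show ‖B x (G x) * u x‖ ≤ L * (‖G x‖ ^ 2 + u x ^ 2)
  rw [norm_mul, Real.norm_eq_abs, Real.norm_eq_abs]
  calc |B x (G x)| * |u x| ≤ (L * ‖G x‖) * |u x| :=
        mul_le_mul_of_nonneg_right (bdB hco _ _) (abs_nonneg _)
    _ = L * (‖G x‖ * |u x|) := by ring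
    _ ≤ L * (‖G x‖ ^ 2 + u x ^ 2) := by
        apply mul_le_mul_of_nonneg_left _ hL
        nlinarith [sq_nonneg (‖G x‖ - |u x|), sq_abs (u x), sq_nonneg (‖G x‖), sq_nonneg (u x)]

lemma intθ (hp : Pen Θ θ T t₀ r) {S : Set E3} (hSm : MeasurableSet S) (hSf : volume S ≠ ⊤)
    (hS : ∀ x, x ∉ S → r ≤ ‖x‖) (hum : AEStronglyMeasurable u volume)
    (hu : ∀ᵐ x, 0 ≤ u x ∧ u x ≤ 1) : Integrable (fun x => θ x * u x) := by
  have hT0 : 0 ≤ T := (hp.nonneg 0).trans ((hp.le 0).trans (hp.bdd 0))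
  have hind : Integrable (S.indicator fun _ : E3 => T) :=
    (integrableOn_const hSf).integrable_indicator hSm
  refine hind.mono' (hp.contθ.aestronglyMeasurable.mul hum) ?_
  filter_upwards [hu] with x hx
  by_cases hxS : x ∈ S
  · rw [indicator_of_mem hxS, Real.norm_of_nonneg (mul_nonneg (hp.nonneg x) hx.1)]
    calc θ x * u x ≤ T * 1 := mul_le_mul ((hp.le x).trans (hp.bdd x)) hx.2 hx.1 hT0
      _ = T := mul_one T
  · rw [indicator_of_notMem hxS, hp.outθ x (hS x hxS)]; simp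

lemma intΘ (hp : Pen Θ θ T t₀ r) (hu : MemLp u 2) : Integrable (fun x => Θ x * u x ^ 2) := by
  have hu2 : Integrable (fun x => u x ^ 2) := hu.integrable_sq
  refine (hu2.const_mul T).mono' (hp.contΘ.aestronglyMeasurable.mul hu2.1)
    (Eventually.of_forall fun x => ?_)
  have h0 : 0 ≤ Θ x := (hp.nonneg x).trans (hp.le x)
  rw [Real.norm_of_nonneg (mul_nonneg h0 (sq_nonneg _))]
  exact mul_le_mul_of_nonneg_right (hp.bdd x) (sq_nonneg _)

/-- the pointwise bound of the right side -/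
lemma pt1 (hp : Pen Θ θ T t₀ r) (hco : PCoef A B c L ρ) {S : Set E3}
    (hS : ∀ x, x ∉ S → r ≤ ‖x‖) (hS2 : ∀ x, x ∉ S → ρ ≤ ‖x‖)
    (hC : ∀ x ξ : E3, 0 ≤ ⟪A x ξ, ξ⟫ ∧ |B x ξ| ≤ ⟪A x ξ, ξ⟫ + C) (x : E3)
    (hx : 0 ≤ u x ∧ u x ≤ 1) :
    B x (G x) * u x + θ x * u x ≤ ⟪A x (G x), G x⟫ + S.indicator (fun _ : E3 => C + T) x := by
  have hT0 : 0 ≤ T := (hp.nonneg 0).trans ((hp.le 0).trans (hp.bdd 0))
  obtain ⟨h0, hbd⟩ := hC x (G x)
  by_cases hxS : x ∈ S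
  · rw [indicator_of_mem hxS]
    have e1 : B x (G x) * u x ≤ ⟪A x (G x), G x⟫ + C := by
      calc B x (G x) * u x ≤ |B x (G x)| * u x :=
            mul_le_mul_of_nonneg_right (le_abs_self _) hx.1
        _ ≤ |B x (G x)| * 1 := mul_le_mul_of_nonneg_left hx.2 (abs_nonneg _)
        _ ≤ _ := by rw [mul_one]; exact hbd
    have e2 : θ x * u x ≤ T := by
      calc θ x * u x ≤ T * 1 := mul_le_mul ((hp.le x).trans (hp.bdd x)) hx.2 hx.1 hT0
        _ = T := mul_one T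
    linarith
  · rw [indicator_of_notMem hxS, hp.outθ x (hS x hxS), hco.suppB x (G x) (hS2 x hxS)]
    simpa using h0

lemma pt2 (hp : Pen Θ θ T t₀ r) {S : Set E3} (hS : ∀ x, x ∉ S → r ≤ ‖x‖) (x : E3)
    (hx : 0 ≤ u x ∧ u x ≤ 1) :
    u x ^ 2 ≤ S.indicator (fun _ : E3 => (1 : ℝ)) x + t₀⁻¹ * (Θ x * u x ^ 2) := by
  by_cases hxS : x ∈ S
  · rw [indicator_of_mem hxS]
    have e1 : u x ^ 2 ≤ 1 := pow_le_one₀ hx.1 hx.2
    have h0 : 0 ≤ Θ x := (hp.nonneg x).trans (hp.le x)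
    have e2 : 0 ≤ t₀⁻¹ * (Θ x * u x ^ 2) :=
      mul_nonneg (inv_pos.2 hp.t₀_pos).le (mul_nonneg h0 (sq_nonneg _))
    linarith
  · rw [indicator_of_notMem hxS, zero_add]
    have e1 : t₀ ≤ Θ x := hp.outΘ x (hS x hxS)
    have e2 : t₀ * u x ^ 2 ≤ Θ x * u x ^ 2 := mul_le_mul_of_nonneg_right e1 (sq_nonneg _)
    calc u x ^ 2 = t₀⁻¹ * (t₀ * u x ^ 2) := by
          rw [← mul_assoc, inv_mul_cancel₀ hp.t₀_pos.ne', one_mul]
      _ ≤ _ := mul_le_mul_of_nonneg_left e2 (inv_pos.2 hp.t₀_pos).le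

/-- the estimate for abstract coefficients -/
lemma main (hp : Pen Θ θ T t₀ r) (hco : PCoef A B c L ρ) {S : Set E3} (hSm : MeasurableSet S)
    (hSf : volume S ≠ ⊤) (hS : ∀ x, x ∉ S → r ≤ ‖x‖) (hS2 : ∀ x, x ∉ S → ρ ≤ ‖x‖)
    (hC : ∀ x ξ : E3, 0 ≤ ⟪A x ξ, ξ⟫ ∧ |B x ξ| ≤ ⟪A x ξ, ξ⟫ + C)
    (hsol : WSol A B Θ θ u G) (hu : ∀ᵐ x, 0 ≤ u x ∧ u x ≤ 1) :
    sq u ≤ volume.real S + t₀⁻¹ * (volume.real S * (C + T)) := by
  obtain ⟨hH, heq⟩ := hsol
  have key := heq u G hH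
  have hind : ∀ c : ℝ, Integrable (S.indicator fun _ : E3 => c) := fun c =>
    (integrableOn_const hSf).integrable_indicator hSm
  have hint : ∀ c : ℝ, ∫ x, S.indicator (fun _ : E3 => c) x = volume.real S * c := by
    intro c
    rw [integral_indicator_const _ hSm, smul_eq_mul]
  have hu2 : Integrable (fun x => u x ^ 2) := hH.memf.integrable_sq
  have iA := intA hco hH.memG
  have iB := intB hco hH.memG hH.memf
  have iΘ := intΘ hp hH.memf
  have iθ := intθ hp hSm hSf hS hH.memf.1 hu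
  have hrhs : ∫ x, (B x (G x) - Θ x * u x + θ x) * u x
      = (∫ x, (B x (G x) * u x + θ x * u x)) - ∫ x, Θ x * u x ^ 2 := by
    have e : (fun x => (B x (G x) - Θ x * u x + θ x) * u x)
        = fun x => (B x (G x) * u x + θ x * u x) - Θ x * u x ^ 2 := by
      funext x; ring
    rw [e]
    exact integral_sub (iB.add iθ) iΘ
  have hle : (∫ x, (B x (G x) * u x + θ x * u x))
      ≤ (∫ x, ⟪A x (G x), G x⟫) + volume.real S * (C + T) := by
    rw [← hint (C + T), ← integral_add iA (hind (C + T))]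
    refine integral_mono_ae (iB.add iθ) (iA.add (hind (C + T))) ?_
    filter_upwards [hu] with x hx
    exact pt1 hp hco hS hS2 hC x hx
  have hmain : ∫ x, Θ x * u x ^ 2 ≤ volume.real S * (C + T) := by
    rw [hrhs] at key
    linarith
  have hpt : ∫ x, u x ^ 2
      ≤ ∫ x, (S.indicator (fun _ : E3 => (1 : ℝ)) x + t₀⁻¹ * (Θ x * u x ^ 2)) := by
    refine integral_mono_ae hu2 ((hind 1).add (iΘ.const_mul t₀⁻¹)) ?_
    filter_upwards [hu] with x hx
    exact pt2 hp hS x hx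
  rw [integral_add (hind 1) (iΘ.const_mul t₀⁻¹), hint 1, mul_one, integral_const_mul] at hpt
  have h3 : t₀⁻¹ * ∫ x, Θ x * u x ^ 2 ≤ t₀⁻¹ * (volume.real S * (C + T)) :=
    mul_le_mul_of_nonneg_left hmain (inv_pos.2 hp.t₀_pos).le
  unfold sq
  linarith

end EnerAux

/-- F2 (ENER). -/
theorem ener_thm (_h1 : API1) (hb : BRID) (hk : KENE) : ENER := by
  intro ε g h r Θ θ T t₀ hε hε1 hg hp
  obtain ⟨C, hC0, hC⟩ := hk ε g h r hε hε1 hg
  have hρ0 : 0 < max r 1 := lt_of_lt_of_le one_pos (le_max_right _ _)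
  have hrρ : r ≤ max r 1 := le_max_left _ _
  have hgρ : GData g h (max r 1) := ⟨hg.met, hg.ten, fun x hx => hg.flat x (hrρ.trans hx)⟩
  refine ⟨volume.real (Metric.ball (0 : E3) (max r 1))
    + t₀⁻¹ * (volume.real (Metric.ball (0 : E3) (max r 1)) * (C + T)), ?_⟩
  intro δ κ hδ hδ1 hκ hκ1 u G hsol hu
  obtain ⟨c, L, hco⟩ := hb.coef ε δ κ g h (max r 1) hε hε1 hδ hκ hρ0 hgρ
  have hS : ∀ x : E3, x ∉ Metric.ball (0 : E3) (max r 1) → max r 1 ≤ ‖x‖ := by
    intro x hx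
    rwa [Metric.mem_ball, dist_zero_right, not_lt] at hx
  exact EnerAux.main hp hco Metric.isOpen_ball.measurableSet measure_ball_lt_top.ne
    (fun x hx => hrρ.trans (hS x hx)) hS (hC δ κ hδ hδ1 hκ hκ1) hsol hu

end Pool.Agent.PFlow.PB
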