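import Pool.Agent.PFlow.StmtsPF

/-!
# Block P, module EQL: the equation of the limit
-/

open MeasureTheory Filter Topology Set
open scoped ContDiff RealInnerProductSpace

namespace Pool.Agent.PFlow.PB

open Pool.Agent.PenroseSph Pool.Agent.PFlow

namespace EQLAux

/-! ### Affine functions of the matrix of second derivatives -/

/-- The matrix unit. -/
noncomputable def eu (i j : Fin 3) : Bil := Matrix.of fun k l => if k = i ∧ l = j then 1 else 0

theorem sum_eu (M : Bil) (k l : Fin 3) : ∑ i, ∑ j, M i j * eu i j k l = M k l := by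
  rw [Finset.sum_eq_single k]
  · rw [Finset.sum_eq_single l]
    · simp [eu]
    · intro j _ hj
      simp [eu, Ne.symm hj]
    · simp
  · intro i _ hi
    refine Finset.sum_eq_zero fun j _ => ?_
    simp [eu, Ne.symm hi]
  · simp

/-- `Φ` is an affine function of the matrix. -/
def Aff (Φ : Bil → ℝ) : Prop := ∃ L : Fin 3 → Fin 3 → ℝ, ∃ c : ℝ,
  ∀ M : Bil, Φ M = (∑ i, ∑ j, L i j * M i j) + c

theorem Aff.const (c : ℝ) : Aff fun _ => c := ⟨fun _ _ => 0, c, fun M => by simp⟩

theorem Aff.entry (i j : Fin 3) : Aff fun M => M i j :=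
  ⟨fun k l => if k = i ∧ l = j then 1 else 0, 0, fun M => by
    rw [add_zero, Finset.sum_eq_single i]
    · rw [Finset.sum_eq_single j]
      · simp
      · intro l _ hl
        simp [hl]
      · simp
    · intro k _ hk
      refine Finset.sum_eq_zero fun l _ => ?_
      simp [hk]
    · simp⟩

theorem Aff.add {Φ Ψ : Bil → ℝ} (h1 : Aff Φ) (h2 : Aff Ψ) : Aff fun M => Φ M + Ψ M := by
  obtain ⟨L, c, h1⟩ := h1
  obtain ⟨L', c', h2⟩ := h2
  refine ⟨fun i j => L i j + L' i j, c + c', fun M => ?_⟩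
  show Φ M + Ψ M = _
  rw [h1, h2]
  simp only [add_mul, Finset.sum_add_distrib]
  ring

theorem Aff.mul {Φ : Bil → ℝ} (a : ℝ) (h1 : Aff Φ) : Aff fun M => a * Φ M := by
  obtain ⟨L, c, h1⟩ := h1
  refine ⟨fun i j => a * L i j, a * c, fun M => ?_⟩
  show a * Φ M = _
  rw [h1, mul_add, Finset.mul_sum]
  congr 1
  refine Finset.sum_congr rfl fun i _ => ?_
  rw [Finset.mul_sum]
  exact Finset.sum_congr rfl fun j _ => by ring

theorem Aff.sum {ι : Type} (s : Finset ι) (Φ : ι → Bil → ℝ) (h : ∀ i ∈ s, Aff (Φ i)) :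
    Aff fun M => ∑ i ∈ s, Φ i M := by
  classical
  induction s using Finset.induction_on with
  | empty => simpa using Aff.const 0
  | insert a s ha ih =>
    have h1 := (h a (Finset.mem_insert_self a s)).add
      (ih fun i hi => h i (Finset.mem_insert_of_mem hi))
    have h2 : (fun M => ∑ i ∈ insert a s, Φ i M) = fun M => Φ a M + ∑ i ∈ s, Φ i M := by
      funext M
      rw [Finset.sum_insert ha]
    rw [h2]
    exact h1

/-- An affine function is determined by its values at `0` and at the matrix units. -/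
theorem Aff.expand {Φ : Bil → ℝ} (h : Aff Φ) (M : Bil) :
    Φ M = (∑ i, ∑ j, (Φ (eu i j) - Φ 0) * M i j) + Φ 0 := by
  obtain ⟨L, c, h⟩ := h
  have h0 : Φ 0 = c := by
    rw [h]
    simp
  have h1 : ∀ i j, Φ (eu i j) - Φ 0 = L i j := by
    intro i j
    rw [h0, h]
    have h2 : ∑ k, ∑ l, L k l * eu i j k l = L i j := by
      rw [Finset.sum_eq_single i]
      · rw [Finset.sum_eq_single j]
        · simp [eu]
        · intro l _ hl
          simp [eu, hl]
        · simp
      · intro k _ hk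
        refine Finset.sum_eq_zero fun l _ => ?_
        simp [eu, hk]
      · simp
    rw [h2]
    ring
  rw [h M]
  refine congrArg₂ (· + ·) ?_ h0.symm
  exact Finset.sum_congr rfl fun i _ => Finset.sum_congr rfl fun j _ => by rw [h1]

theorem Aff.scale {Φ : Bil → ℝ} (h : Aff Φ) (i j : Fin 3) (t : ℝ) :
    Φ (t • eu i j) - Φ 0 = t * (Φ (eu i j) - Φ 0) := by
  obtain ⟨L, c, h⟩ := h
  rw [h, h, h]
  show (∑ k, ∑ l, L k l * (t * eu i j k l)) + c - ((∑ k, ∑ l, L k l * (0 : ℝ)) + c) =
    t * ((∑ k, ∑ l, L k l * eu i j k l) + c - ((∑ k, ∑ l, L k l * (0 : ℝ)) + c))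
  simp only [mul_zero, Finset.sum_const_zero]
  have h1 : ∑ k, ∑ l, L k l * (t * eu i j k l) = t * ∑ k, ∑ l, L k l * eu i j k l := by
    rw [Finset.mul_sum]
    refine Finset.sum_congr rfl fun k _ => ?_
    rw [Finset.mul_sum]
    exact Finset.sum_congr rfl fun l _ => by ring
  rw [h1]
  ring

theorem aff_cHess (g : TensorField) (x : E3) (p : Cov) (i j : Fin 3) :
    Aff fun M => cHess g x p M i j := by
  have h1 := (Aff.entry i j).add (Aff.const (-∑ k, christoffel g k i j x * p k))
  refine h1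

theorem aff_trg (g : TensorField) (x : E3) (p : Cov) : Aff fun M => trg g x (cHess g x p M) := by
  unfold trg
  exact Aff.sum _ _ fun i _ => Aff.sum _ _ fun j _ => (aff_cHess g x p i j).mul _

theorem aff_ev (g : TensorField) (x : E3) (p v w : Cov) :
    Aff fun M => ev (cHess g x p M) v w := by
  unfold ev
  refine Aff.sum _ _ fun i _ => Aff.sum _ _ fun j _ => ?_
  have h1 := (aff_cHess g x p i j).mul (v i * w j)
  have h2 : (fun M => cHess g x p M i j * v i * w j) =
      fun M => v i * w j * cHess g x p M i j := by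
    funext M
    ring
  rw [h2]
  exact h1

theorem aff_opL (ε δ κ : ℝ) (g : TensorField) (x : E3) (p : Cov) : Aff (opL ε δ κ g x p) := by
  unfold opL
  exact (((aff_trg g x p).mul _).add ((aff_ev g x p _ _).mul _)).mul _

theorem aff_beps (ε : ℝ) (g : TensorField) (x : E3) (p : Cov) :
    Aff fun M => beps ε g x p (cHess g x p M) := by
  unfold beps bnn
  have h1 := (aff_trg g x p).add ((aff_ev g x p (nrm g x p) (nrm g x p)).mul (-(1 - ε)))
  have h2 : (fun M => trg g x (cHess g x p M) -
      (1 - ε) * ev (cHess g x p M) (nrm g x p) (nrm g x p)) =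
      fun M => trg g x (cHess g x p M) +
        -(1 - ε) * ev (cHess g x p M) (nrm g x p) (nrm g x p) := by
    funext M
    ring
  rw [h2]
  exact h1

/-! ### Measurability -/

theorem meas_inv {g : TensorField} (hg : ∀ i j, Continuous fun x => g x i j) (i j : Fin 3) :
    Measurable fun x => (g x)⁻¹ i j := by
  have hc : Continuous g := continuous_pi fun i => continuous_pi fun j => hg i j
  have h1 : (fun x => (g x)⁻¹ i j) = fun x => ((g x).det)⁻¹ * (g x).adjugate i j := by
    funext x
    rw [Matrix.inv_def, Matrix.smul_apply, smul_eq_mul, Ring.inverse_eq_inv']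
  rw [h1]
  refine (Continuous.matrix_det hc).measurable.inv.mul ?_
  exact ((Continuous.matrix_adjugate hc).matrix_elem i j).measurable

theorem meas_lsq {g : TensorField} (hg : ∀ i j, Continuous fun x => g x i j) :
    Measurable fun z : E3 × E3 => lsq g z.1 z.2 := by
  unfold lsq ev
  refine Finset.measurable_sum _ fun i _ => Finset.measurable_sum _ fun j _ => ?_
  refine (((meas_inv hg i j).comp measurable_fst).mul ?_).mul ?_
  · exact (by fun_prop : Continuous fun z : E3 × E3 => z.2 i).measurable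
  · exact (by fun_prop : Continuous fun z : E3 × E3 => z.2 j).measurable

theorem meas_regA {g : TensorField} (hg : ∀ i j, Continuous fun x => g x i j) (ε δ κ : ℝ) :
    Measurable fun z : E3 × E3 => regA ε δ κ (lsq g z.1 z.2) := by
  unfold regA
  exact (((meas_lsq hg).add_const _).pow_const _).add_const _

theorem cont_opA {A : E3 → E3 → E3} (hA : ContDiff ℝ ∞ fun z : E3 × E3 => A z.1 z.2)
    (M : Fin 3 → E3) : Continuous fun z : E3 × E3 => opA A z.1 z.2 M := by
  have hd : Differentiable ℝ fun z : E3 × E3 => A z.1 z.2 := hA.differentiable (by simp)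
  have hf : Continuous (fderiv ℝ fun z : E3 × E3 => A z.1 z.2) :=
    hA.continuous_fderiv (by simp)
  have h1 : ∀ x ξ v : E3, fderiv ℝ (fun y => A y ξ) x v =
      fderiv ℝ (fun z : E3 × E3 => A z.1 z.2) (x, ξ) (v, 0) := by
    intro x ξ v
    have h2 : HasFDerivAt (fun y : E3 => ((y, ξ) : E3 × E3))
        (ContinuousLinearMap.inl ℝ E3 E3) x := hasFDerivAt_prodMk_left x ξ
    have h3 := ((hd (x, ξ)).hasFDerivAt.comp x h2).fderiv
    have h4 : ((fun z : E3 × E3 => A z.1 z.2) ∘ fun y : E3 => ((y, ξ) : E3 × E3)) =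
        fun y => A y ξ := rfl
    rw [h4] at h3
    rw [h3]
    rfl
  have h1' : ∀ x ξ v : E3, fderiv ℝ (A x) ξ v =
      fderiv ℝ (fun z : E3 × E3 => A z.1 z.2) (x, ξ) (0, v) := by
    intro x ξ v
    have h2 : HasFDerivAt (fun y : E3 => ((x, y) : E3 × E3))
        (ContinuousLinearMap.inr ℝ E3 E3) ξ := hasFDerivAt_prodMk_right x ξ
    have h3 := ((hd (x, ξ)).hasFDerivAt.comp ξ h2).fderiv
    have h4 : ((fun z : E3 × E3 => A z.1 z.2) ∘ fun y : E3 => ((x, y) : E3 × E3)) = A x := rfl
    rw [h4] at h3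
    rw [h3]
    rfl
  have h5 : (fun z : E3 × E3 => opA A z.1 z.2 M) = fun z =>
      ∑ i, (fderiv ℝ (fun z : E3 × E3 => A z.1 z.2) z (ee i, 0)) i +
        ∑ i, (fderiv ℝ (fun z : E3 × E3 => A z.1 z.2) z (0, M i)) i := by
    funext z
    unfold opA
    simp only [h1, h1']
  rw [h5]
  refine (continuous_finsetSum _ fun i _ => ?_).add (continuous_finsetSum _ fun i _ => ?_)
  · exact (PiLp.continuous_apply 2 _ i).comp (hf.clm_apply continuous_const)
  · exact (PiLp.continuous_apply 2 _ i).comp (hf.clm_apply continuous_const)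

theorem isOpen_Ann (a b : ℝ) : IsOpen (Ann a b) :=
  (isOpen_lt continuous_const continuous_norm).inter (isOpen_lt continuous_norm continuous_const)

theorem sq_nonneg' (f : E3 → ℝ) : 0 ≤ sq f := integral_nonneg fun x => by positivity

theorem sqv_nonneg (G : E3 → E3) : 0 ≤ sqv G := integral_nonneg fun x => by positivity

end EQLAux

open EQLAux

theorem eql_thm (hb : BRID) (hn : NDIV) (hl : LIMEQ) (hs : SYMM) (hk : KLIMU) (hm : KSMO)
    (ht : KTN) : EQL := by
  intro ε a b g h Θ θ T t₀ δ κ u G M C v F N L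
  have hbpos : 0 < b := by linarith [L.a_pos, L.hab]
  have hr : (0 : ℝ) < 3 * b / 2 := by linarith
  have hD : GData g h (3 * b / 2) :=
    ⟨L.data.met, L.data.ten, fun x hx => L.data.flat x (by linarith)⟩
  have hgc : ∀ i j, Continuous fun x => g x i j := fun i j =>
    (contDiffOn_univ.1 (L.data.met.smooth i j)).continuous
  have hreg : ∀ n x ξ, 0 < regA ε (δ n) (κ n) (lsq g x ξ) := by
    intro n x ξ
    have h1 : 0 ≤ lsq g x ξ := (ht g x (L.data.met.posDef x (mem_univ x)) ξ).1
    unfold regA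
    have h2 : 0 < (lsq g x ξ + δ n ^ 2) ^ ((ε - 1) / 2) :=
      Real.rpow_pos_of_pos (by have := L.δ_pos n; positivity) _
    have := L.κ_pos n
    positivity
  obtain ⟨⟨C₁, hC₁, hbd⟩, hconv⟩ := hk ε g h _ L.eps_pos L.eps_lt hD
  -- the coefficients
  set α : ℕ → E3 → E3 → Fin 3 → Fin 3 → ℝ := fun n x ξ i j =>
    (opL ε (δ n) (κ n) g x ξ (eu i j) - opL ε (δ n) (κ n) g x ξ 0) /
      regA ε (δ n) (κ n) (lsq g x ξ) with hα
  set β : ℕ → E3 → E3 → ℝ := fun n x ξ =>
    (opL ε (δ n) (κ n) g x ξ 0 + cB ε (δ n) g h x ξ) /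
      regA ε (δ n) (κ n) (lsq g x ξ) with hβ
  set α₀ : E3 → E3 → Fin 3 → Fin 3 → ℝ := fun x ξ i j =>
    volDen g x * beps ε g x ξ (cHess g x ξ (eu i j)) -
      volDen g x * beps ε g x ξ (cHess g x ξ 0) with hα₀
  set β₀ : E3 → E3 → ℝ := fun x ξ =>
    volDen g x * beps ε g x ξ (cHess g x ξ 0) +
      volDen g x * (len g x ξ * beps ε g x ξ (h x)) with hβ₀
  set C₂ : ℝ := max C (2 * C₁) with hC₂
  have hCle : C ≤ C₂ := le_max_left _ _
  have hC1le : 2 * C₁ ≤ C₂ := le_max_right _ _
  have hM2 : ∀ n i, MemLp (M n i) 2 := fun n i => ((L.h2 n).h2 i).memG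
  have hmeasL : ∀ n (X : Bil), Measurable fun z : E3 × E3 =>
      opL ε (δ n) (κ n) g z.1 z.2 X := by
    intro n X
    have h1 := (cont_opA (hm ε (δ n) (κ n) g h _ L.eps_pos L.eps_lt (L.δ_pos n) (L.κ_pos n) hD).1
      (fun i => WithLp.toLp 2 (X i))).measurable
    have h2 : (fun z : E3 × E3 => opL ε (δ n) (κ n) g z.1 z.2 X) = fun z : E3 × E3 =>
        opA (cA ε (δ n) (κ n) g) z.1 z.2 (fun i => WithLp.toLp 2 (X i)) := by
      funext z
      rw [hb.op ε (δ n) (κ n) g h _ L.eps_pos L.eps_lt (L.δ_pos n) (L.κ_pos n) hD]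
      rfl
    rw [h2]
    exact h1
  have hmeasR : ∀ n, Measurable fun z : E3 × E3 =>
      regA ε (δ n) (κ n) (lsq g z.1 z.2) := fun n => meas_regA hgc _ _ _
  have hsq : ∀ n, sqv (G n) ≤ C := by
    intro n
    have h1 := L.bound n
    have h2 := sq_nonneg' (u n)
    have h3 : 0 ≤ ∑ i, sqv (M n i) := Finset.sum_nonneg fun i _ => sqv_nonneg _
    linarith
  have hsM : ∀ n, ∑ i, sqv (M n i) ≤ C := by
    intro n
    have h1 := L.bound n
    have h2 := sq_nonneg' (u n)
    have h3 := sqv_nonneg (G n)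
    linarith
  have key := hl (Ann a b) G M F N α β α₀ β₀ C₂ (isOpen_Ann a b) hM2
    (fun i => (L.h2v.h2 i).memG) (fun n => (L.h2 n).h1.memG) L.h2v.h1.memG
    (fun n => (hsM n).trans hCle) (fun n => (hsq n).trans hCle) L.ae L.weak ?_ ?_ ?_ ?_ ?_ ?_
  · -- conclusion
    obtain ⟨hsym, hzero⟩ := hs v F N L.h2v
    rw [EqU, ae_restrict_iff' (isOpen_Ann a b).measurableSet]
    filter_upwards [key, hsym, hzero] with x hx hsx hzx hxU
    have hmt : mat N x = mt fun i => N i x := by
      ext i j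
      exact (hsx i j).symm
    refine ⟨fun hF => ?_, fun hF => ?_⟩
    · have hF' : F x ≠ 0 := by
        intro h0
        apply hF
        funext i
        show (F x) i = 0
        rw [h0]
        rfl
      have h1 := hx hxU hF'
      have haff := ((aff_beps ε g x (F x)).mul (volDen g x)).expand (mt fun i => N i x)
      have hvol : 0 < volDen g x :=
        Real.sqrt_pos.2 (L.data.met.posDef x (mem_univ x)).det_pos
      have h2 : volDen g x * beps ε g x (F x) (cHess g x (F x) (mt fun i => N i x)) +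
          volDen g x * (len g x (F x) * beps ε g x (F x) (h x)) = 0 := by
        rw [haff, add_assoc]
        exact h1
      rw [hmt]
      have h3 : volDen g x * (beps ε g x (F x) (cHess g x (F x) (mt fun i => N i x)) +
          len g x (F x) * beps ε g x (F x) (h x)) = 0 := by
        rw [mul_add]
        exact h2
      exact (mul_eq_zero.1 h3).resolve_left hvol.ne'
    · have hF' : F x = 0 := by
        ext i
        exact congrFun hF i
      have h1 := hzx hF'
      rw [hmt]
      ext i j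
      show N i x j = 0
      rw [h1 i]
      rfl
  · -- the equation
    intro n
    obtain ⟨c, L', hc⟩ := hb.coef ε (δ n) (κ n) g h _ L.eps_pos L.eps_lt (L.δ_pos n) (L.κ_pos n)
      hr hD
    filter_upwards [hn _ _ _ _ _ _ _ _ _ hc L.pen.pen _ _ _ (L.sol n) (L.h2 n)] with x hx hxU
    have hx1 : a ≤ ‖x‖ := hxU.1.le
    have hx2 : ‖x‖ ≤ b := hxU.2.le
    rw [L.pen.mid x hx1 hx2, L.pen.out x hx1, zero_mul, sub_zero,
      hb.op ε (δ n) (κ n) g h _ L.eps_pos L.eps_lt (L.δ_pos n) (L.κ_pos n) hD,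
      (aff_opL ε (δ n) (κ n) g x (G n x)).expand] at hx
    have hR := hreg n x (G n x)
    simp only [hα, hβ]
    have h1 : ∑ i, ∑ j, (opL ε (δ n) (κ n) g x (G n x) (eu i j) -
        opL ε (δ n) (κ n) g x (G n x) 0) / regA ε (δ n) (κ n) (lsq g x (G n x)) * M n i x j =
        (∑ i, ∑ j, (opL ε (δ n) (κ n) g x (G n x) (eu i j) -
        opL ε (δ n) (κ n) g x (G n x) 0) * M n i x j) /
          regA ε (δ n) (κ n) (lsq g x (G n x)) := by
      rw [Finset.sum_div]
      refine Finset.sum_congr rfl fun i _ => ?_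
      rw [Finset.sum_div]
      exact Finset.sum_congr rfl fun j _ => by ring
    rw [h1, ← add_div, ← add_assoc]
    rw [div_eq_zero_iff]
    left
    exact hx
  · intro n i j
    exact ((hmeasL n _).sub (hmeasL n _)).div (hmeasR n)
  · intro n
    refine ((hmeasL n _).add ?_).div (hmeasR n)
    exact (hm ε (δ n) (κ n) g h _ L.eps_pos L.eps_lt (L.δ_pos n) (L.κ_pos n)
      hD).2.1.continuous.measurable
  · -- the bound of α
    intro n x ξ i j
    have hb1 := fun X => (hbd (δ n) (κ n) (L.δ_pos n) (L.δ_le n) (L.κ_pos n) (L.κ_le n) x ξ X).1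
    have h0 := hb1 0
    simp only [Matrix.zero_apply, abs_zero, Finset.sum_const_zero, add_zero] at h0
    have ht1 : ∀ t : ℝ, 0 < t → t * |α n x ξ i j| ≤ C₁ * t + 2 * C₁ * ‖ξ‖ := by
      intro t htp
      have h1 := hb1 (t • eu i j)
      have h2 : ∑ k, ∑ l, |(t • eu i j) k l| = t := by
        rw [Finset.sum_eq_single i]
        · rw [Finset.sum_eq_single j]
          · simp [eu, abs_of_pos htp]
          · intro l _ hl
            simp [eu, hl]
          · simp
        · intro k _ hk
          refine Finset.sum_eq_zero fun l _ => ?_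
          simp [eu, hk]
        · simp
      rw [h2] at h1
      have h3 := (aff_opL ε (δ n) (κ n) g x ξ).scale i j t
      have h4 : t * α n x ξ i j = opL ε (δ n) (κ n) g x ξ (t • eu i j) /
          regA ε (δ n) (κ n) (lsq g x ξ) - opL ε (δ n) (κ n) g x ξ 0 /
          regA ε (δ n) (κ n) (lsq g x ξ) := by
        rw [← sub_div, h3]
        simp only [hα]
        ring
      have h5 : t * |α n x ξ i j| = |t * α n x ξ i j| := by
        rw [abs_mul, abs_of_pos htp]
      rw [h5, h4]
      refine (abs_sub _ _).trans ?_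
      linarith
    have hle : |α n x ξ i j| ≤ C₁ := by
      by_contra hcon
      push Not at hcon
      have h1 := ht1 ((2 * C₁ * ‖ξ‖ + 1) / (|α n x ξ i j| - C₁)) (by
        apply div_pos
        · positivity
        · linarith)
      have h2 : 0 < |α n x ξ i j| - C₁ := by linarith
      have h3 : (2 * C₁ * ‖ξ‖ + 1) / (|α n x ξ i j| - C₁) * (|α n x ξ i j| - C₁) =
          2 * C₁ * ‖ξ‖ + 1 := div_mul_cancel₀ _ h2.ne'
      nlinarith
    linarith
  · -- the bound of β
    intro n x ξ
    have hb1 := hbd (δ n) (κ n) (L.δ_pos n) (L.δ_le n) (L.κ_pos n) (L.κ_le n) x ξ 0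
    have h0 := hb1.1
    simp only [Matrix.zero_apply, abs_zero, Finset.sum_const_zero, add_zero] at h0
    simp only [hβ]
    rw [add_div]
    refine (abs_add_le _ _).trans ?_
    have h1 := hb1.2.1
    have h2 : 2 * C₁ * ‖ξ‖ ≤ C₂ * ‖ξ‖ := mul_le_mul_of_nonneg_right hC1le (norm_nonneg _)
    linarith
  · -- convergence
    intro x ξ p hξ hp
    have hξ' : (WithLp.ofLp ξ) ≠ 0 := by
      intro h0
      apply hξ
      ext i
      exact congrFun h0 i
    obtain ⟨h1, h2⟩ := hconv x δ κ p ξ L.δ_pos L.κ_pos L.δ_tend L.κ_tend hp hξ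
    refine ⟨fun i j => ?_, ?_⟩
    · have h3 := (h1 (eu i j)).sub (h1 0)
      refine h3.congr fun n => ?_
      simp only [hα, sub_div]
    · have h3 := (h1 0).add h2
      refine h3.congr fun n => ?_
      simp only [hβ, add_div]

end Pool.Agent.PFlow.PB
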