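import Pool.Agent.PFlow.StmtsP

/-!
# Block P: existence for the regularised equation by monotone iteration (EXI)
-/

open MeasureTheory Filter Topology Set
open scoped ContDiff RealInnerProductSpace

namespace Pool.Agent.PFlow.PB

open Pool.Agent.PenroseSph Pool.Agent.PFlow

namespace MEXI

theorem int_lim (F : ℕ → E3 → ℝ) (F0 : E3 → ℝ) (a : ℕ → E3 → ℝ) (b : E3 → ℝ)
    (hF : ∀ k, Integrable (F k)) (hF0 : Integrable F0) (hb : Integrable fun x => b x ^ 2)
    (ha : ∀ k, Integrable fun x => a k x ^ 2) (hle : ∀ k x, |F k x - F0 x| ≤ a k x * b x)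
    (hlim : Tendsto (fun k => ∫ x, a k x ^ 2) atTop (𝓝 0)) :
    Tendsto (fun k => ∫ x, F k x) atTop (𝓝 (∫ x, F0 x)) := by
  rw [Metric.tendsto_atTop]
  intro ε hε
  set I : ℝ := ∫ x, b x ^ 2 with hI
  have hI0 : 0 ≤ I := integral_nonneg fun x => sq_nonneg _
  set δ : ℝ := ε / (I + 1) with hδ
  have hδ0 : 0 < δ := by positivity
  have hδI : δ * (I + 1) = ε := by
    rw [hδ]
    field_simp
  rw [Metric.tendsto_atTop] at hlim
  obtain ⟨N, hN⟩ := hlim (δ * ε) (by positivity)
  refine ⟨N, fun k hk => ?_⟩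
  have h1 := hN k hk
  rw [Real.dist_eq, sub_zero] at h1
  have h1' := (le_abs_self _).trans_lt h1
  rw [Real.dist_eq, ← integral_sub (hF k) hF0]
  have h2 : ∀ x, |F k x - F0 x| ≤ a k x ^ 2 / (2 * δ) + δ / 2 * b x ^ 2 := by
    intro x
    refine (hle k x).trans ?_
    have h3 : 0 ≤ (a k x - δ * b x) ^ 2 / (2 * δ) := by positivity
    have h4 : (a k x - δ * b x) ^ 2 / (2 * δ) =
        a k x ^ 2 / (2 * δ) + δ / 2 * b x ^ 2 - a k x * b x := by
      field_simp
      ring
    linarith
  have h5 : |∫ x, (F k x - F0 x)| ≤ ∫ x, |F k x - F0 x| := abs_integral_le_integral_abs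
  have h6 : ∫ x, |F k x - F0 x| ≤ ∫ x, (a k x ^ 2 / (2 * δ) + δ / 2 * b x ^ 2) := by
    refine integral_mono ((hF k).sub hF0).abs ?_ h2
    exact ((ha k).div_const _).add (hb.const_mul _)
  have h7 : ∫ x, (a k x ^ 2 / (2 * δ) + δ / 2 * b x ^ 2) =
      (∫ x, a k x ^ 2) / (2 * δ) + δ / 2 * I := by
    rw [integral_add ((ha k).div_const _) (hb.const_mul _), integral_div, integral_const_mul]
  have h8 : (∫ x, a k x ^ 2) / (2 * δ) < ε / 2 := by
    rw [div_lt_iff₀ (by positivity)]
    calc ∫ x, a k x ^ 2 < δ * ε := h1'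
      _ = ε / 2 * (2 * δ) := by ring
  have h9 : δ / 2 * I < ε / 2 := by
    have : δ * I < ε := by
      calc δ * I < δ * (I + 1) := by
            apply mul_lt_mul_of_pos_left _ hδ0
            linarith
        _ = ε := hδI
    linarith
  linarith

theorem isq {f : E3 → ℝ} (hf : MemLp f 2) : Integrable fun x => f x ^ 2 := hf.integrable_sq

theorem isqv {G : E3 → E3} (hG : MemLp G 2) : Integrable fun x => ‖G x‖ ^ 2 :=
  hG.norm.integrable_sq

theorem int_inner {F G : E3 → E3} (hF : MemLp F 2) (hG : MemLp G 2) :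
    Integrable fun x => ⟪F x, G x⟫ := by
  refine (hF.norm.integrable_mul hG.norm).mono'
    (hF.aestronglyMeasurable.inner hG.aestronglyMeasurable) (Eventually.of_forall fun x => ?_)
  exact norm_inner_le_norm (F x) (G x)

theorem sq_nn (f : E3 → ℝ) : 0 ≤ sq f := integral_nonneg fun x => sq_nonneg _

theorem sqv_nn (G : E3 → E3) : 0 ≤ sqv G := integral_nonneg fun _ => by positivity

theorem sq_comm (f g : E3 → ℝ) : sq (fun x => f x - g x) = sq (fun x => g x - f x) := by
  unfold sq
  refine integral_congr_ae (Eventually.of_forall fun x => ?_)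
  simp only
  ring

theorem sq_sub_le {f g : E3 → ℝ} (hf : MemLp f 2) (hg : MemLp g 2) (h0 : ∀ᵐ x, 0 ≤ g x)
    (h1 : ∀ᵐ x, g x ≤ f x) : sq (fun x => f x - g x) ≤ sq f - sq g := by
  unfold sq
  rw [← integral_sub (isq hf) (isq hg)]
  refine integral_mono_ae (isq (hf.sub hg)) ((isq hf).sub (isq hg)) ?_
  filter_upwards [h0, h1] with x hx0 hx1
  change (f x - g x) ^ 2 ≤ f x ^ 2 - g x ^ 2
  nlinarith

section coef

variable {A : E3 → E3 → E3} {B : E3 → E3 → ℝ} {c L r : ℝ} {Θ θ : E3 → ℝ} {T t₀ : ℝ}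

theorem L_nn (hC : PCoef A B c L r) : 0 ≤ L := hC.c_pos.le.trans hC.c_le

theorem memA (hC : PCoef A B c L r) {G : E3 → E3} (hG : MemLp G 2) :
    MemLp (fun x => A x (G x)) 2 := by
  refine hG.of_le_mul (c := L) ?_ (Eventually.of_forall fun x => ?_)
  · exact hC.smoothA.continuous.comp_aestronglyMeasurable
      (aestronglyMeasurable_id.prodMk hG.aestronglyMeasurable)
  · have := hC.lipA x (G x) 0
    rw [hC.A_zero, sub_zero, sub_zero] at this
    exact this

theorem memB (hC : PCoef A B c L r) {G : E3 → E3} (hG : MemLp G 2) :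
    MemLp (fun x => B x (G x)) 2 := by
  refine hG.of_le_mul (c := L) ?_ (Eventually.of_forall fun x => ?_)
  · exact hC.smoothB.continuous.comp_aestronglyMeasurable
      (aestronglyMeasurable_id.prodMk hG.aestronglyMeasurable)
  · have := hC.lipB x (G x) 0
    rw [hC.B_zero, sub_zero, sub_zero] at this
    exact this

theorem absΘ (hP : Pen Θ θ T t₀ r) (x : E3) : |Θ x| ≤ T := by
  rw [abs_of_nonneg ((hP.nonneg x).trans (hP.le x))]
  exact hP.bdd x

theorem memΘ (hP : Pen Θ θ T t₀ r) {u : E3 → ℝ} (hu : MemLp u 2) :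
    MemLp (fun x => Θ x * u x) 2 := by
  refine hu.of_le_mul (c := T) ?_ (Eventually.of_forall fun x => ?_)
  · exact hP.contΘ.aestronglyMeasurable.mul hu.aestronglyMeasurable
  · rw [norm_mul, Real.norm_eq_abs (Θ x)]
    exact mul_le_mul_of_nonneg_right (absΘ hP x) (norm_nonneg _)

theorem memθ (hP : Pen Θ θ T t₀ r) : MemLp θ 2 := by
  refine hP.contθ.memLp_of_hasCompactSupport ?_
  refine HasCompactSupport.of_support_subset_isCompact (isCompact_closedBall (0 : E3) r) ?_
  intro x hx
  rw [mem_closedBall_zero_iff]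
  by_contra hcon
  exact hx (hP.outθ x (not_le.mp hcon).le)

end coef

end MEXI

open MEXI in
/-- E6 (EXI): existence for the regularised equation. -/
theorem exi_thm (h1 : API1) (hs : STEP) (ho : ORDER) (hl : LIPS) (hb : BDD) : EXI := by
  intro A B c L r Θ θ T t₀ hC hP
  set m : ℝ := L ^ 2 / c + 1 with hm
  have hm' : L ^ 2 / c + 1 ≤ m := le_rfl
  have hc0 := hC.c_pos
  have hm0 : 0 ≤ m := by positivity
  have hS : ∀ v : {v : E3 → ℝ // MemLp v 2}, ∃ (u : E3 → ℝ) (G : E3 → E3),
      StepEq A B Θ θ m v.1 u G := fun v => hs A B c L r Θ θ T t₀ hC hP m hm' v.1 v.2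
  choose S GS hSG using hS
  let w : ℕ → {v : E3 → ℝ // MemLp v 2} := fun k =>
    Nat.rec ⟨0, MemLp.zero⟩ (fun _ v => ⟨S v, (hSG v).1.memf⟩) k
  have w0 : (w 0).1 = 0 := rfl
  have ws : ∀ k, (w (k + 1)).1 = S (w k) := fun _ => rfl
  have weq : ∀ k, StepEq A B Θ θ m (w k).1 (w (k + 1)).1 (GS (w k)) := fun k => hSG (w k)
  -- order
  have hnn : ∀ k, ∀ᵐ x, 0 ≤ (w k).1 x := by
    intro k
    induction k with
    | zero => exact Eventually.of_forall fun x => by rw [w0]; exact le_rfl
    | succ k ih => exact ho.nonneg A B c L r Θ θ T t₀ hC hP m hm' _ _ _ (w k).2 (weq k) ih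
  have hle1 : ∀ k, ∀ᵐ x, (w k).1 x ≤ 1 := by
    intro k
    induction k with
    | zero => exact Eventually.of_forall fun x => by rw [w0]; exact zero_le_one
    | succ k ih => exact ho.le_one A B c L r Θ θ T t₀ hC hP m hm' _ _ _ (w k).2 (weq k) ih
  have hmon : ∀ k, ∀ᵐ x, (w k).1 x ≤ (w (k + 1)).1 x := by
    intro k
    induction k with
    | zero =>
      filter_upwards [hnn 1] with x hx
      rw [w0]
      exact hx
    | succ k ih =>
      exact ho.mono A B c L r Θ θ T t₀ hC hP m hm' _ _ _ _ _ _ (w k).2 (w (k + 1)).2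
        (weq k) (weq (k + 1)) ih
  have hmono : ∀ j k, k ≤ j → ∀ᵐ x, (w k).1 x ≤ (w j).1 x := by
    intro j k hkj
    induction j, hkj using Nat.le_induction with
    | base => exact Eventually.of_forall fun x => le_rfl
    | succ j _ ih =>
      filter_upwards [ih, hmon j] with x hx hx'
      exact hx.trans hx'
  have hsub : ∀ j k, k ≤ j → sq (fun x => (w j).1 x - (w k).1 x) ≤ sq (w j).1 - sq (w k).1 :=
    fun j k hkj => sq_sub_le (w j).2 (w k).2 (hnn k) (hmono j k hkj)
  obtain ⟨C, hCb⟩ := hb A B c L r Θ θ T t₀ hC hP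
  have hbd : ∀ k, sq (w (k + 1)).1 ≤ C := fun k =>
    hCb m hm0 _ _ _ (w k).2 (weq k) (hmon k) (hnn (k + 1)) (hle1 (k + 1))
  have hsm : Monotone fun k => sq (w k).1 := by
    refine monotone_nat_of_le_succ fun k => ?_
    have := hsub (k + 1) k (Nat.le_succ k)
    have h2 := sq_nn (fun x => (w (k + 1)).1 x - (w k).1 x)
    linarith
  have hbdd : BddAbove (Set.range fun k => sq (w k).1) := by
    refine ⟨C, ?_⟩
    rintro _ ⟨k, rfl⟩
    exact (hsm (Nat.le_succ k)).trans (hbd k)
  have hconv := tendsto_atTop_ciSup hsm hbdd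
  have hcau : ∀ ε > 0, ∃ N, ∀ i ≥ N, ∀ j ≥ N, sq (fun x => (w i).1 x - (w j).1 x) < ε := by
    intro ε hε
    obtain ⟨N, hN⟩ := Metric.cauchySeq_iff.mp hconv.cauchySeq ε hε
    refine ⟨N, fun i hi j hj => ?_⟩
    have h3 := hN i hi j hj
    rw [Real.dist_eq] at h3
    rcases le_total j i with hij | hij
    · exact (hsub i j hij).trans_lt ((le_abs_self _).trans_lt h3)
    · rw [sq_comm]
      rw [abs_sub_comm] at h3
      exact (hsub j i hij).trans_lt ((le_abs_self _).trans_lt h3)
  obtain ⟨u, hu, hul⟩ := h1.complete (fun k => (w k).1) (fun k => (w k).2) hcau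
  -- gradients
  obtain ⟨C', hC'⟩ := hl A B c L r Θ θ T t₀ hC hP m hm'
  have hgr : ∀ i j, sqv (fun x => GS (w i) x - GS (w j) x) ≤
      (|C'| + 1) * sq (fun x => (w i).1 x - (w j).1 x) := by
    intro i j
    have h3 := hC' _ _ _ _ _ _ (w i).2 (w j).2 (weq i) (weq j)
    have h4 := sq_nn (fun x => (w (i + 1)).1 x - (w (j + 1)).1 x)
    have h5 := sq_nn (fun x => (w i).1 x - (w j).1 x)
    have h6 : C' * sq (fun x => (w i).1 x - (w j).1 x) ≤
        (|C'| + 1) * sq (fun x => (w i).1 x - (w j).1 x) :=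
      mul_le_mul_of_nonneg_right ((le_abs_self C').trans (by linarith)) h5
    linarith
  have hGm : ∀ k, MemLp (GS (w k)) 2 := fun k => (weq k).1.memG
  obtain ⟨G, hG, hGl⟩ := h1.completev (fun k => GS (w k)) hGm (by
    intro ε hε
    have hpos : 0 < |C'| + 1 := by positivity
    obtain ⟨N, hN⟩ := hcau (ε / (|C'| + 1)) (by positivity)
    refine ⟨N, fun i hi j hj => (hgr i j).trans_lt ?_⟩
    have := hN i hi j hj
    rw [lt_div_iff₀ hpos] at this
    linarith)
  have hul1 : Tendsto (fun k => sq (fun x => (w (k + 1)).1 x - u x)) atTop (𝓝 0) :=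
    (tendsto_add_atTop_iff_nat 1).mpr hul
  have hH1 : H1 u G := h1.closed u G (fun k => (w (k + 1)).1) (fun k => GS (w k))
    (fun k => (weq k).1) hu hG hul1 hGl
  have hstep : Tendsto (fun k => sq (fun x => (w (k + 1)).1 x - (w k).1 x)) atTop (𝓝 0) := by
    rw [Metric.tendsto_atTop]
    intro ε hε
    obtain ⟨N, hN⟩ := hcau ε hε
    refine ⟨N, fun k hk => ?_⟩
    rw [Real.dist_eq, sub_zero, abs_of_nonneg (sq_nn _)]
    exact hN (k + 1) (hk.trans (Nat.le_succ k)) k hk
  refine ⟨u, G, ⟨hH1, ?_⟩, ?_⟩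
  · intro φ Φ hφ
    have L0 := L_nn hC
    -- the left-hand side
    have hleft : Tendsto (fun k => ∫ x, ⟪A x (GS (w k) x), Φ x⟫) atTop
        (𝓝 (∫ x, ⟪A x (G x), Φ x⟫)) := by
      refine int_lim _ _ (fun k x => L * ‖GS (w k) x - G x‖) (fun x => ‖Φ x‖) ?_ ?_ ?_ ?_ ?_ ?_
      · exact fun k => int_inner (memA hC (hGm k)) hφ.memG
      · exact int_inner (memA hC hG) hφ.memG
      · exact isqv hφ.memG
      · exact fun k => isq (((hGm k).sub hG).norm.const_mul L)
      · intro k x
        rw [← inner_sub_left]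
        refine (abs_real_inner_le_norm _ _).trans ?_
        exact mul_le_mul_of_nonneg_right (hC.lipA x _ _) (norm_nonneg _)
      · have h7 : ∀ k, ∫ x, (L * ‖GS (w k) x - G x‖) ^ 2 =
            L ^ 2 * sqv (fun x => GS (w k) x - G x) := by
          intro k
          unfold sqv
          rw [← integral_const_mul]
          refine integral_congr_ae (Eventually.of_forall fun x => ?_)
          simp only
          ring
        simp only [h7]
        have := hGl.const_mul (L ^ 2)
        rwa [mul_zero] at this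
    have hright : Tendsto (fun k => ∫ x, (B x (GS (w k) x) - Θ x * (w (k + 1)).1 x + θ x
          - m * ((w (k + 1)).1 x - (w k).1 x)) * φ x) atTop
        (𝓝 (∫ x, (B x (G x) - Θ x * u x + θ x) * φ x)) := by
      have mR : ∀ k, MemLp (fun x => B x (GS (w k) x) - Θ x * (w (k + 1)).1 x + θ x
          - m * ((w (k + 1)).1 x - (w k).1 x)) 2 := fun k =>
        (((memB hC (hGm k)).sub (memΘ hP (w (k + 1)).2)).add (memθ hP)).sub
          (((w (k + 1)).2.sub (w k).2).const_mul m)
      have mR0 : MemLp (fun x => B x (G x) - Θ x * u x + θ x) 2 :=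
        ((memB hC hG).sub (memΘ hP hu)).add (memθ hP)
      have ma : ∀ k, MemLp (fun x => L * ‖GS (w k) x - G x‖ + T * |(w (k + 1)).1 x - u x| +
          m * |(w (k + 1)).1 x - (w k).1 x|) 2 := fun k =>
        ((((hGm k).sub hG).norm.const_mul L).add (((w (k + 1)).2.sub hu).norm.const_mul T)).add
          (((w (k + 1)).2.sub (w k).2).norm.const_mul m)
      have T0 : 0 ≤ T := (abs_nonneg _).trans (absΘ hP 0)
      refine int_lim _ _ (fun k x => L * ‖GS (w k) x - G x‖ + T * |(w (k + 1)).1 x - u x| +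
          m * |(w (k + 1)).1 x - (w k).1 x|) (fun x => |φ x|) ?_ ?_ ?_ ?_ ?_ ?_
      · exact fun k => (mR k).integrable_mul hφ.memf
      · exact mR0.integrable_mul hφ.memf
      · exact isq hφ.memf.norm
      · exact fun k => isq (ma k)
      · intro k x
        rw [← sub_mul, abs_mul]
        refine mul_le_mul_of_nonneg_right ?_ (abs_nonneg _)
        have e : B x (GS (w k) x) - Θ x * (w (k + 1)).1 x + θ x
            - m * ((w (k + 1)).1 x - (w k).1 x) - (B x (G x) - Θ x * u x + θ x) =
            (B x (GS (w k) x) - B x (G x)) - Θ x * ((w (k + 1)).1 x - u x) -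
              m * ((w (k + 1)).1 x - (w k).1 x) := by ring
        rw [e]
        refine (abs_sub _ _).trans (add_le_add ((abs_sub _ _).trans (add_le_add ?_ ?_)) ?_)
        · exact hC.lipB x _ _
        · rw [abs_mul]
          exact mul_le_mul_of_nonneg_right (absΘ hP x) (abs_nonneg _)
        · rw [abs_mul, abs_of_nonneg hm0]
      · have hup : ∀ k, ∫ x, (L * ‖GS (w k) x - G x‖ + T * |(w (k + 1)).1 x - u x| +
            m * |(w (k + 1)).1 x - (w k).1 x|) ^ 2 ≤
            3 * L ^ 2 * sqv (fun x => GS (w k) x - G x) +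
              3 * T ^ 2 * sq (fun x => (w (k + 1)).1 x - u x) +
              3 * m ^ 2 * sq (fun x => (w (k + 1)).1 x - (w k).1 x) := by
          intro k
          have i1 : Integrable fun x => 3 * L ^ 2 * ‖GS (w k) x - G x‖ ^ 2 :=
            (isqv ((hGm k).sub hG)).const_mul _
          have i2 : Integrable fun x => 3 * T ^ 2 * ((w (k + 1)).1 x - u x) ^ 2 :=
            (isq ((w (k + 1)).2.sub hu)).const_mul _
          have i3 : Integrable fun x => 3 * m ^ 2 * ((w (k + 1)).1 x - (w k).1 x) ^ 2 :=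
            (isq ((w (k + 1)).2.sub (w k).2)).const_mul _
          have e : 3 * L ^ 2 * sqv (fun x => GS (w k) x - G x) +
              3 * T ^ 2 * sq (fun x => (w (k + 1)).1 x - u x) +
              3 * m ^ 2 * sq (fun x => (w (k + 1)).1 x - (w k).1 x) =
              ∫ x, (3 * L ^ 2 * ‖GS (w k) x - G x‖ ^ 2 +
                3 * T ^ 2 * ((w (k + 1)).1 x - u x) ^ 2 +
                3 * m ^ 2 * ((w (k + 1)).1 x - (w k).1 x) ^ 2) := by
            have j1 := integral_add (i1.add i2) i3
            have j2 := integral_add i1 i2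
            simp only [Pi.add_apply] at j1 j2
            rw [j1, j2, integral_const_mul, integral_const_mul, integral_const_mul]
            rfl
          rw [e]
          refine integral_mono (isq (ma k)) ((i1.add i2).add i3) fun x => ?_
          simp only
          have q1 := sq_abs ((w (k + 1)).1 x - u x)
          have q2 := sq_abs ((w (k + 1)).1 x - (w k).1 x)
          rw [← q1, ← q2]
          nlinarith [sq_nonneg (L * ‖GS (w k) x - G x‖ - T * |(w (k + 1)).1 x - u x|),
            sq_nonneg (L * ‖GS (w k) x - G x‖ - m * |(w (k + 1)).1 x - (w k).1 x|),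
            sq_nonneg (T * |(w (k + 1)).1 x - u x| - m * |(w (k + 1)).1 x - (w k).1 x|)]
        have hz : Tendsto (fun k => 3 * L ^ 2 * sqv (fun x => GS (w k) x - G x) +
              3 * T ^ 2 * sq (fun x => (w (k + 1)).1 x - u x) +
              3 * m ^ 2 * sq (fun x => (w (k + 1)).1 x - (w k).1 x)) atTop (𝓝 0) := by
          have := ((hGl.const_mul (3 * L ^ 2)).add (hul1.const_mul (3 * T ^ 2))).add
            (hstep.const_mul (3 * m ^ 2))
          simpa using this
        exact squeeze_zero (fun k => integral_nonneg fun x => sq_nonneg _) hup hz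
    refine tendsto_nhds_unique hleft ?_
    refine hright.congr fun k => ?_
    exact ((weq k).2 φ Φ hφ).symm
  · -- the limit is between 0 and 1
    have hq : ∀ k, ∀ᵐ x, max (u x - 1) 0 ^ 2 + max (-u x) 0 ^ 2 ≤ ((w k).1 x - u x) ^ 2 := by
      intro k
      filter_upwards [hnn k, hle1 k] with x hx0 hx1
      rcases le_total (u x) 0 with h | h
      · rw [max_eq_right (by linarith), max_eq_left (by linarith)]
        nlinarith
      · rcases le_total (u x) 1 with h' | h'
        · rw [max_eq_right (by linarith), max_eq_right (by linarith)]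
          nlinarith [sq_nonneg ((w k).1 x - u x)]
        · rw [max_eq_left (by linarith), max_eq_right (by linarith)]
          nlinarith
    have hqm : AEStronglyMeasurable (fun x => max (u x - 1) 0 ^ 2 + max (-u x) 0 ^ 2) volume := by
      have hum := hu.aestronglyMeasurable
      have g : Continuous fun t : ℝ => max (t - 1) 0 ^ 2 + max (-t) 0 ^ 2 := by fun_prop
      exact g.comp_aestronglyMeasurable hum
    have hqi : Integrable (fun x => max (u x - 1) 0 ^ 2 + max (-u x) 0 ^ 2) := by
      refine (isq ((w 0).2.sub hu)).mono' hqm ?_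
      filter_upwards [hq 0] with x hx
      rw [Real.norm_of_nonneg (by positivity)]
      exact hx
    have hq0 : ∫ x, (max (u x - 1) 0 ^ 2 + max (-u x) 0 ^ 2) = 0 := by
      refine le_antisymm ?_ (integral_nonneg fun x => by positivity)
      refine ge_of_tendsto hul (Eventually.of_forall fun k => ?_)
      exact integral_mono_ae hqi (isq ((w k).2.sub hu)) (hq k)
    have hq1 := (integral_eq_zero_iff_of_nonneg (fun x => by positivity) hqi).mp hq0
    filter_upwards [hq1] with x hx
    simp only [Pi.zero_apply] at hx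
    have a1 : max (u x - 1) 0 ^ 2 = 0 := by
      have := sq_nonneg (max (u x - 1) 0)
      have := sq_nonneg (max (-u x) 0)
      linarith
    have a2 : max (-u x) 0 ^ 2 = 0 := by
      have := sq_nonneg (max (u x - 1) 0)
      have := sq_nonneg (max (-u x) 0)
      linarith
    have b1 := le_max_left (u x - 1) 0
    have b2 := le_max_left (-u x) 0
    rw [pow_eq_zero_iff two_ne_zero] at a1 a2
    constructor
    · linarith
    · linarith

end Pool.Agent.PFlow.PB
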