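import Pool.Agent.PFlow.StmtsPF

/-!
# Block P, module FINP: the main theorem of block P from its parts
-/

open MeasureTheory Filter Topology Set
open scoped ContDiff RealInnerProductSpace

namespace Pool.Agent.PFlow.PB

open Pool.Agent.PenroseSph Pool.Agent.PFlow

/-- Module FINP. -/
theorem finp_thm : FINP := by
  intro hE hF hS hN hH hL ε a b η g h hε hε1 ha hab hη hg hh hflat
  have hd : GData g h (b / 2) := ⟨hg, hh, hflat⟩
  obtain ⟨Θ, θ, T, t₀, δ, κ, u, G, M, C, v, F, N, lim, hin, hout⟩ :=
    hL ε a b η g h hε hε1 ha hab hη hd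
  obtain ⟨hs1, hs2⟩ := hS _ _ _ _ _ _ _ _ _ _ _ _ _ _ _ _ _ _ lim
  have hopen : IsOpen (Ann a b) :=
    (isOpen_lt continuous_const continuous_norm).inter
      (isOpen_lt continuous_norm continuous_const)
  have htend : ∀ x, Tendsto (fun n => u n x) atTop (𝓝 (v x)) := fun x =>
    (lim.unif {x} isCompact_singleton).tendsto_at (mem_singleton x)
  refine ⟨v, fun x => F x, mat N, ?_⟩
  exact
    { cont := lim.contv
      nonneg := fun x => ge_of_tendsto' (htend x) fun n => lim.nonneg n x
      le_one := fun x => le_of_tendsto' (htend x) fun n => lim.le_one n x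
      inner := hin
      outer := hout
      h2 := hH v F N _ hopen lim.h2v lim.contv
      eq := hE _ _ _ _ _ _ _ _ _ _ _ _ _ _ _ _ _ _ lim
      flux := hF _ _ _ _ _ _ _ _ _ _ _ _ _ _ _ _ _ _ lim
      sub := fun K hK hKs f hf ho hfr => hs1 K hK (fun x hx => (hKs hx).2) f hf ho hfr
      super := fun K hK hKs f hf ho hfr => hs2 K hK (fun x hx => (hKs hx).1) f hf ho hfr
      noIsland := hN ε a b g h v hε hε1 ha hab hd lim.contv hs1 hs2 }

end Pool.Agent.PFlow.PB
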