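import Pool.Agent.PFlow.StmtsPF

/-!
# Block P: the flux identity of the limit (module FLUXL)
-/

open MeasureTheory Filter Topology Set
open scoped ContDiff RealInnerProductSpace

namespace Pool.Agent.PFlow.PB

open Pool.Agent.PenroseSph Pool.Agent.PFlow

namespace FluxL

lemma rpow_le {ε t : ℝ} (h0 : 0 < ε) (h1 : ε < 1) (ht : 0 ≤ t) : t ^ ε ≤ 1 + t := by
  rcases le_total t 1 with h | h
  · exact (Real.rpow_le_one ht h h0.le).trans (by linarith)
  · calc t ^ ε ≤ t ^ (1 : ℝ) := Real.rpow_le_rpow_of_exponent_le h h1.le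
      _ = t := Real.rpow_one t
      _ ≤ 1 + t := by linarith

lemma inner_cA0 (ht : KTN) {g : TensorField} {x : E3} (hx : (g x).PosDef) (ε : ℝ) (ξ : E3)
    (χ : E3 → ℝ) : ⟪cA0 ε g x ξ, gr χ x⟫ =
      len g x ξ ^ (ε - 1) * ev (g x)⁻¹ ξ (grad χ x) * volDen g x := by
  obtain ⟨-, -, -, h1, -⟩ := ht g x hx ξ
  rw [← h1 (grad χ x), PiLp.inner_apply]
  simp only [cA0, gr, grad, RCLike.inner_apply, conj_trivial]
  rw [Finset.mul_sum, Finset.sum_mul]
  refine Finset.sum_congr rfl fun i _ => ?_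
  ring

end FluxL

/-- F7 (FLUXL): the flux identity of the limit. -/
theorem fluxl_thm (_h1 : API1) (h2 : API2) (hl : LIMW) (hk : KLIM) (hm : KSMO) (ht : KTN) :
    FLUXL := by
  intro ε a b g h Θ θ T t₀ δ κ u G M C v F N L χ hχ hχc hχs
  obtain ⟨⟨C₁, hC₁, hgr⟩, hconv⟩ := hk ε g h (b / 2) L.eps_pos L.eps_lt L.data
  have hsm := fun n => hm ε (δ n) (κ n) g h (b / 2) L.eps_pos L.eps_lt (L.δ_pos n) (L.κ_pos n)
    L.data
  have hH1 : H1 χ (gr χ) := h2.ofC1 χ hχ hχc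
  have key := hl G F (fun n => cA ε (δ n) (κ n) g) (fun n => cB ε (δ n) g h) (cA0 ε g)
    (cB0 ε g h) (2 * C₁) (fun n => (L.h2 n).h1.memG) L.h2v.h1.memG L.strong L.ae
    (fun n => (hsm n).1.continuous.measurable) (fun n => (hsm n).2.1.continuous.measurable)
    ?_ ?_ ?_ χ hχ hχc ?_
  · have e1 : ∀ x, ⟪cA0 ε g x (F x), gr χ x⟫ =
        len g x (F x) ^ (ε - 1) * ev (g x)⁻¹ (F x) (grad χ x) * volDen g x := fun x =>
      FluxL.inner_cA0 ht (L.data.met.posDef x (Set.mem_univ x)) ε (F x) χ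
    have e2 : ∀ x, cB0 ε g h x (F x) * χ x =
        len g x (F x) ^ ε * beps ε g x (F x) (h x) * χ x * volDen g x := fun x => by
      unfold cB0
      ring
    simp only [e1, e2] at key
    exact key
  · intro n x ξ
    have h3 := (hgr (δ n) (κ n) (L.δ_pos n) (L.δ_le n) (L.κ_pos n) (L.κ_le n) x ξ).1
    refine h3.trans ?_
    have h4 := FluxL.rpow_le L.eps_pos L.eps_lt (norm_nonneg ξ)
    have h5 : κ n * ‖ξ‖ ≤ 1 * ‖ξ‖ := mul_le_mul_of_nonneg_right (L.κ_le n) (norm_nonneg ξ)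
    calc C₁ * (‖ξ‖ ^ ε + κ n * ‖ξ‖) ≤ C₁ * ((1 + ‖ξ‖) + (1 + ‖ξ‖)) := by
          apply mul_le_mul_of_nonneg_left _ hC₁
          linarith
      _ = _ := by ring
  · intro n x ξ
    have h3 := (hgr (δ n) (κ n) (L.δ_pos n) (L.δ_le n) (L.κ_pos n) (L.κ_le n) x ξ).2
    refine h3.trans ?_
    have h4 := FluxL.rpow_le L.eps_pos L.eps_lt (norm_nonneg ξ)
    calc C₁ * ‖ξ‖ ^ ε ≤ C₁ * ((1 + ‖ξ‖) + (1 + ‖ξ‖)) := by
          apply mul_le_mul_of_nonneg_left _ hC₁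
          linarith [norm_nonneg ξ]
      _ = _ := by ring
  · intro x ξ p hp
    exact hconv x δ κ p ξ L.δ_pos L.κ_pos L.δ_tend L.κ_tend hp
  · intro n
    rw [(L.sol n).2 χ (gr χ) hH1]
    refine integral_congr_ae (Filter.Eventually.of_forall fun x => ?_)
    show (cB ε (δ n) g h x (G n x) - Θ x * u n x + θ x) * χ x = cB ε (δ n) g h x (G n x) * χ x
    by_cases hx : x ∈ tsupport χ
    · obtain ⟨h6, h7⟩ := hχs hx
      rw [L.pen.mid x h6.le h7.le, L.pen.out x h6.le]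
      ring
    · rw [image_eq_zero_of_notMem_tsupport hx, mul_zero, mul_zero]

end Pool.Agent.PFlow.PB
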