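import Pool.Agent.PFlow.StmtsP

/-!
# Module HTWO: solutions belong to `H²`
-/

open MeasureTheory Filter Topology Set
open scoped ContDiff RealInnerProductSpace

namespace Pool.Agent.PFlow.PB

open Pool.Agent.PenroseSph Pool.Agent.PFlow

namespace HTwo

/-- The right-hand side of the equation belongs to `L²`. -/
theorem rhs_memLp {A : E3 → E3 → E3} {B : E3 → E3 → ℝ} {c L r : ℝ} {Θ θ : E3 → ℝ} {T t₀ : ℝ}
    (hA : PCoef A B c L r) (hP : Pen Θ θ T t₀ r) {u : E3 → ℝ} {G : E3 → E3}
    (hu : MemLp u 2) (hG : MemLp G 2) :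
    MemLp (fun x => B x (G x) - Θ x * u x + θ x) 2 := by
  have hBm : AEStronglyMeasurable (fun x => B x (G x)) volume :=
    hA.smoothB.continuous.comp_aestronglyMeasurable
      (aestronglyMeasurable_id.prodMk hG.aestronglyMeasurable)
  have h1 : MemLp (fun x => B x (G x)) 2 := by
    refine hG.of_le_mul (c := L) hBm (Eventually.of_forall fun x => ?_)
    have := hA.lipB x (G x) 0
    rw [hA.B_zero x, sub_zero, sub_zero] at this
    exact this
  have h2 : MemLp (fun x => Θ x * u x) 2 := by
    refine hu.of_le_mul (c := T) (hP.contΘ.aestronglyMeasurable.mul hu.aestronglyMeasurable)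
      (Eventually.of_forall fun x => ?_)
    rw [norm_mul]
    refine mul_le_mul_of_nonneg_right ?_ (norm_nonneg _)
    rw [Real.norm_eq_abs, abs_of_nonneg ((hP.nonneg x).trans (hP.le x))]
    exact hP.bdd x
  have h3 : MemLp θ 2 := by
    have hc : HasCompactSupport θ := by
      refine HasCompactSupport.of_support_subset_isCompact
        (isCompact_closedBall (0 : E3) r) fun x hx => ?_
      rw [Metric.mem_closedBall, dist_zero_right]
      by_contra h
      exact hx (hP.outθ x (not_le.1 h).le)
    exact hP.contθ.memLp_of_hasCompactSupport hc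
  exact (h1.sub h2).add h3

end HTwo

open HTwo in
theorem htwo_thm (_h1 : API1) (hd : DQ) (hr : DQR) : HTWO := by
  intro A B c L r Θ θ T t₀ hA hP u G hu
  obtain ⟨hH, heq⟩ := hu
  have hf := rhs_memLp hA hP hH.memf hH.memG
  have hdq := hd A B c L r hA u G _ hH hf heq
  have key : ∀ i, ∃ N, H1 (fun x => G x i) N := by
    intro i
    have hGi : MemLp (fun x => G x i) 2 := by
      refine hH.memG.of_le_mul (c := 1)
        ((EuclideanSpace.proj (𝕜 := ℝ) i).continuous.comp_aestronglyMeasurable
          hH.memG.aestronglyMeasurable) (Eventually.of_forall fun x => ?_)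
      rw [one_mul]
      exact PiLp.norm_apply_le (G x) i
    refine hr (fun x => G x i) ((2 * L ^ 2 * sqv G +
      2 * sq (fun x => B x (G x) - Θ x * u x + θ x)) / c ^ 2) hGi fun h => ?_
    refine le_trans ?_ (hdq h)
    have hmp : MeasurePreserving (fun x : E3 => x + h) volume volume :=
      measurePreserving_add_right volume h
    have hsh : MemLp (fun x => G (x + h) - G x) 2 :=
      (hH.memG.comp_measurePreserving hmp).sub hH.memG
    have hi : Integrable (fun x => ‖G (x + h) - G x‖ ^ 2) := by
      exact hsh.integrable_norm_pow two_ne_zero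
    unfold sq sqv
    refine integral_mono_of_nonneg (Eventually.of_forall fun x => sq_nonneg _) hi
      (Eventually.of_forall fun x => ?_)
    have hle : |G (x + h) i - G x i| ≤ ‖G (x + h) - G x‖ :=
      PiLp.norm_apply_le (G (x + h) - G x) i
    change (G (x + h) i - G x i) ^ 2 ≤ ‖G (x + h) - G x‖ ^ 2
    rw [← sq_abs]
    exact pow_le_pow_left₀ (abs_nonneg _) hle 2
  choose M hM using key
  exact ⟨M, ⟨hH, hM⟩⟩

end Pool.Agent.PFlow.PB
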