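import Pool.Agent.PFlow.StmtsPF
import Pool.Agent.PFlow.P.Base

/-!
# Block P, module HTWOON: the class `H2On`
-/

open MeasureTheory Filter Topology Set
open scoped ContDiff RealInnerProductSpace

namespace Pool.Agent.PFlow.PB

open Pool.Agent.PenroseSph Pool.Agent.PFlow

/-- Local convergence of the components. -/
theorem htwoon_aux (A : ℕ → E3 → E3) (G : E3 → E3) (hA : ∀ n, MemLp (A n) 2) (hG : MemLp G 2)
    (h : Tendsto (fun n => sqv (fun x => A n x - G x)) atTop (𝓝 0)) (K : Set E3) (i : Fin 3) :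
    Tendsto (fun n => ∫ x in K, (A n x i - G x i) ^ 2) atTop (𝓝 0) := by
  refine squeeze_zero (fun n => integral_nonneg fun x => sq_nonneg _) (fun n => ?_) h
  have hm : MemLp (fun x => A n x - G x) 2 := (hA n).sub hG
  have h1 := sq_comp_le (fun x => A n x - G x) hm i
  refine le_trans ?_ h1
  have hi : Integrable (fun x => (A n x - G x) i ^ 2) := by
    have := int_sq _ (memLp_comp _ hm i)
    simpa [Real.norm_eq_abs, sq_abs] using this
  have h2 := setIntegral_le_integral (s := K) hi (Eventually.of_forall fun x => sq_nonneg _)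
  exact h2

/-- Module HTWOON. -/
theorem htwoon_thm (hd : DENS) : HTWOON := by
  intro v F N U _ h2 hc
  obtain ⟨φ, hφ, _, h1, h2', hunif⟩ := hd v F N h2
  have hpd : ∀ n i, ContDiff ℝ 1 (pd i (φ n)) := by
    intro n i
    have : ContDiff ℝ ∞ (fderiv ℝ (φ n)) := (hφ n).smooth.fderiv_right (by simp)
    have h3 : ContDiff ℝ ∞ (pd i (φ n)) := this.clm_apply contDiff_const
    exact h3.of_le (by exact_mod_cast le_top)
  have hpc : ∀ n i, HasCompactSupport (pd i (φ n)) := by
    intro n i
    refine ((hφ n).cpt.fderiv (𝕜 := ℝ)).mono ?_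
    intro x hx
    rw [Function.mem_support] at hx ⊢
    intro h0
    apply hx
    unfold pd
    rw [h0]; simp
  refine ⟨hc.continuousOn, fun K _ _ i => ?_, fun K _ _ i j => ?_, fun K hK _ => ?_⟩
  · exact (memLp_comp F h2.h1.memG i).restrict K
  · exact (memLp_comp (N j) (h2.h2 j).memG i).restrict K
  · refine ⟨φ, fun n => (hφ n).smooth, hunif hc K hK, fun i => ?_, fun i j => ?_⟩
    · exact htwoon_aux (fun n => gr (φ n)) F (fun n => gr_memLp _ (hφ n).one (hφ n).cpt) h2.h1.memG
        h1 K i
    · exact htwoon_aux (fun n => hs (φ n) j) (N j)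
        (fun n => gr_memLp _ (hpd n j) (hpc n j)) (h2.h2 j).memG (h2' j) K i

end Pool.Agent.PFlow.PB
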