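import Pool.Agent.PFlow.StmtsP

/-!
# Module INTP: interpolation between `u` and its second derivatives
-/

open MeasureTheory Filter Topology Set
open scoped ContDiff RealInnerProductSpace

namespace Pool.Agent.PFlow.PB

open Pool.Agent.PenroseSph Pool.Agent.PFlow

namespace IntPAux

/-- Cauchy-Schwarz. -/
theorem abs_integral_mul_le {f g : E3 → ℝ} (hf : MemLp f 2) (hg : MemLp g 2) :
    |∫ x, f x * g x| ≤ √(sq f) * √(sq g) := by
  have hpq : Real.HolderConjugate 2 2 := Real.HolderConjugate.two_two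
  have hf' : MemLp f (ENNReal.ofReal 2) := by simpa using hf
  have hg' : MemLp g (ENNReal.ofReal 2) := by simpa using hg
  have h := integral_mul_norm_le_Lp_mul_Lq hpq hf' hg'
  have h1 : |∫ x, f x * g x| ≤ ∫ x, ‖f x‖ * ‖g x‖ := by
    refine (abs_integral_le_integral_abs).trans (le_of_eq ?_)
    refine integral_congr_ae (Eventually.of_forall fun x => ?_)
    simp only [Real.norm_eq_abs, abs_mul]
  refine h1.trans (h.trans (le_of_eq ?_))
  unfold sq
  simp only [Real.norm_eq_abs, Real.rpow_two, sq_abs, Real.sqrt_eq_rpow]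

theorem sq_comp_le {M : E3 → E3} (hM : MemLp M 2) (i : Fin 3) (hi : MemLp (fun x => M x i) 2) :
    sq (fun x => M x i) ≤ sqv M := by
  unfold sq sqv
  apply integral_mono hi.integrable_sq (by simpa using hM.integrable_norm_pow (p := 2) two_ne_zero)
  intro x
  have h := PiLp.norm_apply_le (M x) i
  rw [Real.norm_eq_abs] at h
  have h2 : (M x i) ^ 2 = |M x i| ^ 2 := (sq_abs _).symm
  simp only
  rw [h2]
  gcongr

end IntPAux

open IntPAux in
theorem intp_thm (_h1 : API1) (_hd : DENS) (h2 : API2) : INTP := by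
  intro u G M h
  have hG : ∀ i, MemLp (fun x => G x i) 2 := fun i => (h.h2 i).memf
  have hM : ∀ i, MemLp (M i) 2 := fun i => (h.h2 i).memG
  have hMi : ∀ i, MemLp (fun x => M i x i) 2 := fun i => by
    exact (EuclideanSpace.proj (𝕜 := ℝ) i : E3 →L[ℝ] ℝ).comp_memLp' (hM i)
  have e1 : sqv G = ∑ i, ∫ x, G x i * G x i := by
    unfold sqv
    rw [← integral_finsetSum]
    · refine integral_congr_ae (Eventually.of_forall fun x => ?_)
      simp only [EuclideanSpace.norm_sq_eq, Real.norm_eq_abs, sq_abs]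
      exact Finset.sum_congr rfl fun i _ => by ring
    · intro i _
      exact (hG i).integrable_mul (hG i)
  have e2 : ∀ i, ∫ x, G x i * G x i ≤ √(sq u) * √(sqv (M i)) := by
    intro i
    rw [h2.ibp (fun x => G x i) (M i) u G (h.h2 i) h.h1 i]
    have h3 := abs_integral_mul_le (hMi i) h.h1.memf
    have h4 : √(sq (fun x => M i x i)) ≤ √(sqv (M i)) := Real.sqrt_le_sqrt (sq_comp_le (hM i) i (hMi i))
    have h5 := neg_abs_le (∫ x, M i x i * u x)
    have h6 : √(sq (fun x => M i x i)) * √(sq u) ≤ √(sqv (M i)) * √(sq u) :=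
      mul_le_mul_of_nonneg_right h4 (Real.sqrt_nonneg _)
    linarith
  have e3 : ∑ i : Fin 3, √(sqv (M i)) ≤ √3 * √(∑ i, sqv (M i)) := by
    have hnn : ∀ i, 0 ≤ sqv (M i) := fun i => integral_nonneg fun x => sq_nonneg _
    rw [← Real.sqrt_mul (by norm_num)]
    apply Real.le_sqrt_of_sq_le
    have h7 : (∑ i : Fin 3, √(sqv (M i))) ^ 2 ≤ 3 * ∑ i, √(sqv (M i)) ^ 2 := by
      have := sq_sum_le_card_mul_sum_sq (s := (Finset.univ : Finset (Fin 3)))
        (f := fun i => √(sqv (M i)))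
      simpa using this
    refine h7.trans (le_of_eq ?_)
    congr 1
    exact Finset.sum_congr rfl fun i _ => Real.sq_sqrt (hnn i)
  calc sqv G = ∑ i, ∫ x, G x i * G x i := e1
    _ ≤ ∑ i, √(sq u) * √(sqv (M i)) := Finset.sum_le_sum fun i _ => e2 i
    _ = √(sq u) * ∑ i, √(sqv (M i)) := by rw [Finset.mul_sum]
    _ ≤ √(sq u) * (√3 * √(∑ i, sqv (M i))) := mul_le_mul_of_nonneg_left e3 (Real.sqrt_nonneg _)
    _ = √3 * √(sq u) * √(∑ i, sqv (M i)) := by ring

end Pool.Agent.PFlow.PB
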