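import Pool.Agent.PFlow.StmtsPF

/-!
# Block P, module KENE: the drift is controlled by the energy
-/

open MeasureTheory Filter Topology Set
open scoped ContDiff RealInnerProductSpace

namespace Pool.Agent.PFlow.PB

open Pool.Agent.PenroseSph Pool.Agent.PFlow

namespace KENEM

theorem inner_cA (ht : KTN) {ε δ κ : ℝ} {g : TensorField} {x : E3} (hg : (g x).PosDef) (ξ : E3) :
    ⟪cA ε δ κ g x ξ, ξ⟫ = volDen g x * regA ε δ κ (lsq g x ξ) * lsq g x ξ := by
  obtain ⟨-, -, -, hr, -⟩ := ht g x hg ξ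
  have h1 : ⟪cA ε δ κ g x ξ, ξ⟫ = ∑ i, volDen g x * regA ε δ κ (lsq g x ξ) * raise g x ξ i * ξ i := by
    rw [PiLp.inner_apply]
    apply Finset.sum_congr rfl
    intro i _
    simp only [cA, RCLike.inner_apply, conj_trivial]
    ring
  rw [h1]
  have h2 : lsq g x ξ = ∑ i, raise g x ξ i * ξ i := (hr ξ).symm
  conv_rhs => rw [h2]
  rw [Finset.mul_sum]
  apply Finset.sum_congr rfl
  intro i _
  rw [← h2]
  ring

/-- the scalar inequality for the drift -/
theorem scal_up {ε s δ : ℝ} (hε : 0 < ε) (hε1 : ε < 1) (hs : 0 ≤ s) :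
    (s + δ ^ 2) ^ ((ε - 2) / 2) * s ≤ s ^ (ε / 2) := by
  rcases hs.eq_or_lt with h | h
  · rw [← h, mul_zero]
    exact Real.rpow_nonneg le_rfl _
  · have h1 : (s + δ ^ 2) ^ ((ε - 2) / 2) ≤ s ^ ((ε - 2) / 2) :=
      Real.rpow_le_rpow_of_nonpos h (by nlinarith [sq_nonneg δ]) (by linarith)
    have h2 : s ^ ((ε - 2) / 2) * s = s ^ (ε / 2) := by
      rw [← Real.rpow_add_one h.ne']
      congr 1
      ring
    calc (s + δ ^ 2) ^ ((ε - 2) / 2) * s ≤ s ^ ((ε - 2) / 2) * s :=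
          mul_le_mul_of_nonneg_right h1 h.le
      _ = s ^ (ε / 2) := h2

/-- the scalar inequality for the energy -/
theorem scal_low {ε s D S : ℝ} (hε : 0 < ε) (hε1 : ε < 1) (hs : 0 ≤ s) (hD : 0 ≤ D)
    (hS1 : 1 ≤ S) (hS2 : 4 * D ^ 2 ≤ S) :
    D * s ^ (ε / 2) ≤ (s + 1) ^ ((ε - 1) / 2) * s + D * S := by
  have h0 : 0 ≤ (s + 1) ^ ((ε - 1) / 2) * s := mul_nonneg (Real.rpow_nonneg (by linarith) _) hs
  rcases le_total s S with h | h
  · have h1 : s ^ (ε / 2) ≤ S ^ (ε / 2) := Real.rpow_le_rpow hs h (by linarith)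
    have h2 : S ^ (ε / 2) ≤ S := by
      calc S ^ (ε / 2) ≤ S ^ (1 : ℝ) := Real.rpow_le_rpow_of_exponent_le hS1 (by linarith)
        _ = S := Real.rpow_one S
    have h3 := mul_le_mul_of_nonneg_left (h1.trans h2) hD
    linarith
  · have hs1 : 1 ≤ s := hS1.trans h
    have hs0 : 0 < s := by linarith
    have h1 : (2 * s) ^ ((ε - 1) / 2) ≤ (s + 1) ^ ((ε - 1) / 2) :=
      Real.rpow_le_rpow_of_nonpos (by linarith) (by linarith) (by linarith)
    have h2 : (2 * s) ^ ((ε - 1) / 2) = 2 ^ ((ε - 1) / 2) * s ^ ((ε - 1) / 2) :=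
      Real.mul_rpow (by norm_num) hs0.le
    have h3 : (1 / 2 : ℝ) ≤ 2 ^ ((ε - 1) / 2) := by
      calc (1 / 2 : ℝ) = 2 ^ (-1 : ℝ) := by rw [Real.rpow_neg_one]; norm_num
        _ ≤ 2 ^ ((ε - 1) / 2) := Real.rpow_le_rpow_of_exponent_le (by norm_num) (by linarith)
    have h4 : s ^ ((ε - 1) / 2) * s = s ^ (ε / 2) * Real.sqrt s := by
      rw [← Real.rpow_add_one hs0.ne', Real.sqrt_eq_rpow, ← Real.rpow_add hs0]
      congr 1
      ring
    have h5 : 2 * D ≤ Real.sqrt s := by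
      apply Real.le_sqrt_of_sq_le
      calc (2 * D) ^ 2 = 4 * D ^ 2 := by ring
        _ ≤ S := hS2
        _ ≤ s := h
    have h6 : 0 ≤ s ^ (ε / 2) := Real.rpow_nonneg hs0.le _
    have h7 : D * s ^ (ε / 2) ≤ (s + 1) ^ ((ε - 1) / 2) * s := by
      calc D * s ^ (ε / 2) = 1 / 2 * (s ^ (ε / 2) * (2 * D)) := by ring
        _ ≤ 1 / 2 * (s ^ (ε / 2) * Real.sqrt s) := by
            apply mul_le_mul_of_nonneg_left _ (by norm_num)
            exact mul_le_mul_of_nonneg_left h5 h6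
        _ ≤ 2 ^ ((ε - 1) / 2) * (s ^ (ε / 2) * Real.sqrt s) :=
            mul_le_mul_of_nonneg_right h3 (mul_nonneg h6 (Real.sqrt_nonneg _))
        _ = (2 * s) ^ ((ε - 1) / 2) * s := by rw [← h4, h2]; ring
        _ ≤ (s + 1) ^ ((ε - 1) / 2) * s := mul_le_mul_of_nonneg_right h1 hs0.le
    have h8 : 0 ≤ D * S := mul_nonneg hD (by linarith)
    linarith

end KENEM

open KENEM in
theorem kene_thm (hb : KBND) (ht : KTN) : KENE := by
  intro ε g h r hε hε1 hG
  obtain ⟨C, hC⟩ := hb g h r hG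
  have hC1 := hC.one
  have hC0 : 0 ≤ C := by linarith
  set D : ℝ := 9 * C ^ 2 + Real.sqrt (9 * C ^ 3) with hD
  have hD0 : 0 ≤ D := by positivity
  set S : ℝ := max 1 (4 * D ^ 2) with hS
  have hS1 : 1 ≤ S := le_max_left _ _
  have hS2 : 4 * D ^ 2 ≤ S := le_max_right _ _
  have hS0 : 0 ≤ S := by linarith
  refine ⟨C * (D * S), by positivity, ?_⟩
  intro δ κ hδ hδ1 hκ hκ1 x ξ
  have hg : (g x).PosDef := hG.met.posDef x (mem_univ x)
  obtain ⟨hs0, -, -, -, -, hB, hnsq, -⟩ := ht g x hg ξ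
  have hv : 0 ≤ volDen g x := Real.sqrt_nonneg _
  rw [inner_cA ht hg]
  set s : ℝ := lsq g x ξ with hs
  have hreg : (s + 1) ^ ((ε - 1) / 2) ≤ regA ε δ κ s := by
    unfold regA
    have h1 : (s + 1) ^ ((ε - 1) / 2) ≤ (s + δ ^ 2) ^ ((ε - 1) / 2) := by
      apply Real.rpow_le_rpow_of_nonpos
      · positivity
      · nlinarith
      · linarith
    linarith
  have hreg0 : 0 ≤ regA ε δ κ s :=
    le_trans (Real.rpow_nonneg (by linarith) _) hreg
  refine ⟨mul_nonneg (mul_nonneg hv hreg0) hs0, ?_⟩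
  -- the bound of the tensor
  have htr : |trg g x (h x)| ≤ 9 * C ^ 2 := by
    refine (hC.tr x (h x)).trans ?_
    have h1 : ∑ i, ∑ j, |h x i j| ≤ ∑ _i : Fin 3, ∑ _j : Fin 3, C :=
      Finset.sum_le_sum fun i _ => Finset.sum_le_sum fun j _ => hC.hh x i j
    simp only [Finset.sum_const, Finset.card_univ, Fintype.card_fin, nsmul_eq_mul] at h1
    have h2 := mul_le_mul_of_nonneg_left h1 hC0
    refine h2.trans (le_of_eq ?_)
    push_cast
    ring
  have hn : nsq g x (h x) ≤ 9 * C ^ 3 := by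
    refine (hC.nsqUp x (h x)).trans ?_
    have h1 : ∑ i, ∑ j, h x i j ^ 2 ≤ ∑ _i : Fin 3, ∑ _j : Fin 3, C ^ 2 :=
      Finset.sum_le_sum fun i _ => Finset.sum_le_sum fun j _ => by
        rw [← sq_abs]
        exact pow_le_pow_left₀ (abs_nonneg _) (hC.hh x i j) 2
    simp only [Finset.sum_const, Finset.card_univ, Fintype.card_fin, nsmul_eq_mul] at h1
    have h2 := mul_le_mul_of_nonneg_left h1 hC0
    refine h2.trans (le_of_eq ?_)
    push_cast
    ring
  have hev : |ev (h x) (raise g x ξ) (raise g x ξ)| ≤ s * Real.sqrt (9 * C ^ 3) := by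
    have h1 := hB (h x)
    have h2 : |ev (h x) (raise g x ξ) (raise g x ξ)| ≤ Real.sqrt (s ^ 2 * nsq g x (h x)) := by
      rw [← Real.sqrt_sq_eq_abs]
      exact Real.sqrt_le_sqrt h1
    refine h2.trans ?_
    rw [Real.sqrt_mul (sq_nonneg s), Real.sqrt_sq hs0]
    exact mul_le_mul_of_nonneg_left (Real.sqrt_le_sqrt hn) hs0
  have hmid : |s * trg g x (h x) - (1 - ε) * ev (h x) (raise g x ξ) (raise g x ξ)| ≤ s * D := by
    have h1 : |s * trg g x (h x)| ≤ s * (9 * C ^ 2) := by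
      rw [abs_mul, abs_of_nonneg hs0]
      exact mul_le_mul_of_nonneg_left htr hs0
    have h2 : |(1 - ε) * ev (h x) (raise g x ξ) (raise g x ξ)| ≤ s * Real.sqrt (9 * C ^ 3) := by
      rw [abs_mul, abs_of_nonneg (by linarith : (0 : ℝ) ≤ 1 - ε)]
      calc (1 - ε) * |ev (h x) (raise g x ξ) (raise g x ξ)|
          ≤ 1 * |ev (h x) (raise g x ξ) (raise g x ξ)| :=
            mul_le_mul_of_nonneg_right (by linarith) (abs_nonneg _)
        _ ≤ s * Real.sqrt (9 * C ^ 3) := by rw [one_mul]; exact hev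
    calc |s * trg g x (h x) - (1 - ε) * ev (h x) (raise g x ξ) (raise g x ξ)|
        ≤ |s * trg g x (h x)| + |(1 - ε) * ev (h x) (raise g x ξ) (raise g x ξ)| := abs_sub _ _
      _ ≤ s * (9 * C ^ 2) + s * Real.sqrt (9 * C ^ 3) := add_le_add h1 h2
      _ = s * D := by rw [hD]; ring
  have hBb : |cB ε δ g h x ξ| ≤ volDen g x * (D * s ^ (ε / 2)) := by
    unfold cB
    rw [← hs, abs_mul, abs_mul, abs_of_nonneg hv]
    have h0 : 0 ≤ (s + δ ^ 2) ^ ((ε - 2) / 2) := Real.rpow_nonneg (by positivity) _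
    rw [abs_of_nonneg h0, mul_assoc]
    apply mul_le_mul_of_nonneg_left _ hv
    calc (s + δ ^ 2) ^ ((ε - 2) / 2) *
          |s * trg g x (h x) - (1 - ε) * ev (h x) (raise g x ξ) (raise g x ξ)|
        ≤ (s + δ ^ 2) ^ ((ε - 2) / 2) * (s * D) := mul_le_mul_of_nonneg_left hmid h0
      _ = D * ((s + δ ^ 2) ^ ((ε - 2) / 2) * s) := by ring
      _ ≤ D * s ^ (ε / 2) := mul_le_mul_of_nonneg_left (scal_up hε hε1 hs0) hD0
  have hlow := scal_low hε hε1 hs0 hD0 hS1 hS2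
  calc |cB ε δ g h x ξ| ≤ volDen g x * (D * s ^ (ε / 2)) := hBb
    _ ≤ volDen g x * ((s + 1) ^ ((ε - 1) / 2) * s + D * S) := mul_le_mul_of_nonneg_left hlow hv
    _ = volDen g x * ((s + 1) ^ ((ε - 1) / 2) * s) + volDen g x * (D * S) := by ring
    _ ≤ volDen g x * (regA ε δ κ s * s) + C * (D * S) := by
        apply add_le_add
        · exact mul_le_mul_of_nonneg_left (mul_le_mul_of_nonneg_right hreg hs0) hv
        · exact mul_le_mul_of_nonneg_right (hC.volUp x) (mul_nonneg hD0 hS0)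
    _ = volDen g x * regA ε δ κ s * s + C * (D * S) := by ring

end Pool.Agent.PFlow.PB
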