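import Pool.Agent.PFlow.P.Step

/-!
# Block P, module LIMEQ: the equation in nondivergence form passes to the limit
-/

open MeasureTheory Filter Topology Set
open scoped ContDiff RealInnerProductSpace ENNReal

namespace Pool.Agent.PFlow.PB

open Pool.Agent.PenroseSph Pool.Agent.PFlow

namespace LimEq

/-- Cauchy-Schwarz. -/
lemma cs {f g : E3 → ℝ} (hf : MemLp f 2) (hg : MemLp g 2) :
    |∫ x, f x * g x| ≤ √(sq f) * √(sq g) := by
  have h1 := abs_real_inner_le_norm hg.toLp hf.toLp
  have h2 : ⟪hg.toLp, hf.toLp⟫ = ∫ x, f x * g x := by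
    rw [L2.inner_def]
    refine integral_congr_ae ?_
    filter_upwards [hf.coeFn_toLp, hg.coeFn_toLp] with x e1 e2
    rw [e1, e2]
    simp only [RCLike.inner_apply, conj_trivial]
  have h3 : ∀ {u : E3 → ℝ} (hu : MemLp u 2), ‖hu.toLp‖ = √(sq u) := by
    intro u hu
    have h4 : sq u = ‖hu.toLp‖ ^ 2 := by
      rw [← Step.sq_lp]
      unfold sq
      refine integral_congr_ae ?_
      filter_upwards [hu.coeFn_toLp] with x e1
      rw [e1]
    rw [h4, Real.sqrt_sq (norm_nonneg _)]
  rw [h2, h3 hf, h3 hg, mul_comm] at h1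
  exact h1

lemma memLp_bdd {S : Set E3} (hS : MeasurableSet S) (hv : volume S < ⊤) {a : E3 → ℝ} {C : ℝ}
    (ha : AEStronglyMeasurable a (volume.restrict S)) (hb : ∀ᵐ x ∂(volume.restrict S), |a x| ≤ C) :
    MemLp (S.indicator a) 2 := by
  have : IsFiniteMeasure (volume.restrict S) := ⟨by
    rw [Measure.restrict_apply_univ]
    exact hv⟩
  rw [memLp_indicator_iff_restrict hS]
  exact MemLp.of_bound ha C hb

/-- Bounded convergent times weakly convergent. -/
lemma key {S : Set E3} (hS : MeasurableSet S) (hv : volume S < ⊤) {a : ℕ → E3 → ℝ} {a₀ : E3 → ℝ}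
    {C : ℝ} (ha : ∀ n, AEStronglyMeasurable (a n) (volume.restrict S))
    (hb : ∀ n, ∀ᵐ x ∂(volume.restrict S), |a n x| ≤ C)
    (hl : ∀ᵐ x ∂(volume.restrict S), Tendsto (fun n => a n x) atTop (𝓝 (a₀ x)))
    {m : ℕ → E3 → ℝ} {m₀ : E3 → ℝ} {C' : ℝ} (hm : ∀ n, MemLp (m n) 2)
    (hmC : ∀ n, sq (m n) ≤ C')
    (hw : ∀ ψ : E3 → ℝ, MemLp ψ 2 →
      Tendsto (fun n => ∫ x, ψ x * m n x) atTop (𝓝 (∫ x, ψ x * m₀ x))) :
    Tendsto (fun n => ∫ x in S, a n x * m n x) atTop (𝓝 (∫ x in S, a₀ x * m₀ x)) := by
  have hfin : IsFiniteMeasure (volume.restrict S) := ⟨by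
    rw [Measure.restrict_apply_univ]
    exact hv⟩
  have ha₀ : AEStronglyMeasurable a₀ (volume.restrict S) :=
    aestronglyMeasurable_of_tendsto_ae atTop ha hl
  have hb₀ : ∀ᵐ x ∂(volume.restrict S), |a₀ x| ≤ C := by
    filter_upwards [hl, ae_all_iff.mpr hb] with x h1 h2
    exact le_of_tendsto h1.abs (Eventually.of_forall h2)
  have hψ := memLp_bdd hS hv ha₀ hb₀
  have hψn := fun n => memLp_bdd hS hv (ha n) (hb n)
  have hrw : ∀ (u v : E3 → ℝ), ∫ x in S, u x * v x = ∫ x, S.indicator u x * v x := by
    intro u v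
    rw [← integral_indicator hS]
    refine integral_congr_ae (Eventually.of_forall fun x => ?_)
    show S.indicator (fun x => u x * v x) x = _
    rw [Set.indicator_mul_left]
  rw [hrw]
  have h1 := hw _ hψ
  have h2 : Tendsto (fun n => sq (fun x => S.indicator (a n) x - S.indicator a₀ x)) atTop
      (𝓝 0) := by
    have h3 : Tendsto (fun n => ∫ x in S, (a n x - a₀ x) ^ 2) atTop (𝓝 (∫ x in S, (0 : ℝ))) := by
      refine tendsto_integral_of_dominated_convergence (fun _ => (2 * C) ^ 2) ?_
        (integrable_const _) ?_ ?_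
      · intro n
        exact ((ha n).sub ha₀).pow 2
      · intro n
        filter_upwards [hb n, hb₀] with x e1 e2
        rw [Real.norm_eq_abs, abs_of_nonneg (sq_nonneg _)]
        refine sq_le_sq' ?_ ?_
        · linarith [(abs_le.mp e1).1, (abs_le.mp e2).2]
        · linarith [(abs_le.mp e1).2, (abs_le.mp e2).1]
      · filter_upwards [hl] with x e1
        have e2 := (e1.sub_const (a₀ x)).pow 2
        simpa using e2
    rw [integral_zero] at h3
    refine h3.congr fun n => ?_
    unfold sq
    rw [← integral_indicator hS]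
    refine integral_congr_ae (Eventually.of_forall fun x => ?_)
    by_cases hx : x ∈ S
    · simp [hx]
    · simp [hx]
  have h4 : Tendsto (fun n => ∫ x, (S.indicator (a n) x - S.indicator a₀ x) * m n x) atTop
      (𝓝 0) := by
    have h5 : Tendsto (fun n => √(sq (fun x => S.indicator (a n) x - S.indicator a₀ x)) * √C')
        atTop (𝓝 0) := by
      have h6 := ((Real.continuous_sqrt.tendsto 0).comp h2).mul_const (√C')
      simpa using h6
    refine squeeze_zero_norm (fun n => ?_) h5
    rw [Real.norm_eq_abs]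
    refine (cs ((hψn n).sub hψ) (hm n)).trans ?_
    exact mul_le_mul_of_nonneg_left (Real.sqrt_le_sqrt (hmC n)) (Real.sqrt_nonneg _)
  have h7 := h4.add h1
  rw [zero_add] at h7
  refine h7.congr fun n => ?_
  rw [hrw, ← integral_add]
  · refine integral_congr_ae (Eventually.of_forall fun x => ?_)
    show (S.indicator (a n) x - S.indicator a₀ x) * m n x + S.indicator a₀ x * m n x = _
    ring
  · exact (((hψn n).sub hψ).integrable_mul (hm n))
  · exact (hψ.integrable_mul (hm n))

end LimEq

open LimEq in
/-- Module LIMEQ. -/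
theorem limeq_thm : LIMEQ := by
  intro U G M F N α β α₀ β₀ C hU hM hN hG hF hMC hGC hGF hMw heq hαm hβm hαb hβb hlim
  -- representatives
  have hC : 0 ≤ C := (abs_nonneg _).trans (hαb 0 0 0 0 0)
  set F' : E3 → E3 := hF.aestronglyMeasurable.mk F with hF'
  have hF'm : Measurable F' := hF.aestronglyMeasurable.stronglyMeasurable_mk.measurable
  have hFF' : F =ᵐ[volume] F' := hF.aestronglyMeasurable.ae_eq_mk
  set G' : ℕ → E3 → E3 := fun n => (hG n).aestronglyMeasurable.mk (G n) with hG'
  have hG'm : ∀ n, Measurable (G' n) := fun n =>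
    (hG n).aestronglyMeasurable.stronglyMeasurable_mk.measurable
  have hGG' : ∀ n, G n =ᵐ[volume] G' n := fun n => (hG n).aestronglyMeasurable.ae_eq_mk
  set E : E3 → ℝ := fun x => (∑ i, ∑ j, α₀ x (F' x) i j * N i x j) + β₀ x (F' x) with hE
  -- the sets
  set D : ℕ → Set E3 := fun k => {x | x ∈ U ∧ F' x ≠ 0 ∧ ∀ n, ‖G' n x‖ ≤ k} with hD
  have hDm : ∀ k, MeasurableSet (D k) := by
    intro k
    refine hU.measurableSet.inter (MeasurableSet.inter ?_ ?_)
    · exact (hF'm (measurableSet_singleton 0)).compl
    · have : {x | ∀ n, ‖G' n x‖ ≤ k} = ⋂ n, {x | ‖G' n x‖ ≤ k} := by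
        ext x
        simp
      have h2 : MeasurableSet {x | ∀ n, ‖G' n x‖ ≤ k} := by
        rw [this]
        exact MeasurableSet.iInter fun n => measurableSet_le (hG'm n).norm measurable_const
      exact h2
  have hlimD : ∀ᵐ x, F' x ≠ 0 →
      (∀ i j, Tendsto (fun n => α n x (G' n x) i j) atTop (𝓝 (α₀ x (F' x) i j))) ∧
      Tendsto (fun n => β n x (G' n x)) atTop (𝓝 (β₀ x (F' x))) := by
    filter_upwards [hGF, hFF', ae_all_iff.mpr hGG'] with x h1 h2 h3 h4
    refine hlim x (F' x) (fun n => G' n x) h4 ?_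
    rw [← h2]
    refine h1.congr fun n => ?_
    rw [h3 n]
  have hMij : ∀ n i j, MemLp (fun x => M n i x j) 2 := fun n i j =>
    (EuclideanSpace.proj (𝕜 := ℝ) j).comp_memLp' (hM n i)
  have hNij : ∀ i j, MemLp (fun x => N i x j) 2 := fun i j =>
    (EuclideanSpace.proj (𝕜 := ℝ) j).comp_memLp' (hN i)
  have hsqM : ∀ n i j, sq (fun x => M n i x j) ≤ C := by
    intro n i j
    have h1 : sq (fun x => M n i x j) ≤ sqv (M n i) := by
      refine integral_mono (hMij n i j).integrable_sq
        ((hM n i).integrable_norm_pow (by norm_num)) fun x => ?_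
      have h2 : |M n i x j| ≤ ‖M n i x‖ := by
        rw [← Real.norm_eq_abs]
        exact PiLp.norm_apply_le _ _
      show (M n i x j) ^ 2 ≤ ‖M n i x‖ ^ 2
      rw [← sq_abs]
      exact pow_le_pow_left₀ (abs_nonneg _) h2 2
    refine h1.trans (le_trans ?_ (hMC n))
    exact Finset.single_le_sum (f := fun i => sqv (M n i))
      (fun i _ => integral_nonneg fun x => sq_nonneg _) (Finset.mem_univ i)
  -- the claim on each of the sets
  have hclaim : ∀ k, ∀ᵐ x ∂(volume.restrict (D k)), E x = 0 := by
    intro k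
    have hsets : ∀ s : Set E3, MeasurableSet s → (volume.restrict (D k)) s < ⊤ →
        IntegrableOn E s (volume.restrict (D k)) ∧
        ∫ x in s, E x ∂(volume.restrict (D k)) = 0 := by
      intro s hs hvs
      rw [Measure.restrict_apply hs] at hvs
      set S := s ∩ D k with hSd
      have hS : MeasurableSet S := hs.inter (hDm k)
      have hfin : IsFiniteMeasure (volume.restrict S) := ⟨by
        rw [Measure.restrict_apply_univ]
        exact hvs⟩
      have hrr : (volume.restrict (D k)).restrict s = volume.restrict S := by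
        rw [Measure.restrict_restrict hs]
      rw [IntegrableOn, hrr]
      have hDS : ∀ᵐ x ∂(volume.restrict S), x ∈ D k := by
        filter_upwards [ae_restrict_mem hS] with x hx
        exact hx.2
      have hlS : ∀ᵐ x ∂(volume.restrict S),
          (∀ i j, Tendsto (fun n => α n x (G' n x) i j) atTop (𝓝 (α₀ x (F' x) i j))) ∧
          Tendsto (fun n => β n x (G' n x)) atTop (𝓝 (β₀ x (F' x))) := by
        filter_upwards [hDS, ae_restrict_of_ae hlimD] with x h1 h2
        exact h2 h1.2.1
      have hαsm : ∀ n i j, AEStronglyMeasurable (fun x => α n x (G' n x) i j)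
          (volume.restrict S) := fun n i j =>
        ((hαm n i j).comp (measurable_id.prodMk (hG'm n))).aestronglyMeasurable
      have hβsm : ∀ n, AEStronglyMeasurable (fun x => β n x (G' n x))
          (volume.restrict S) := fun n =>
        ((hβm n).comp (measurable_id.prodMk (hG'm n))).aestronglyMeasurable
      have hαb' : ∀ n i j, ∀ᵐ x ∂(volume.restrict S), |α n x (G' n x) i j| ≤ C := fun n i j =>
        Eventually.of_forall fun x => hαb n x _ i j
      have hβb' : ∀ n, ∀ᵐ x ∂(volume.restrict S), ‖β n x (G' n x)‖ ≤ C * k := by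
        intro n
        filter_upwards [hDS] with x hx
        exact (hβb n x _).trans (mul_le_mul_of_nonneg_left (hx.2.2 n) hC)
      have hα₀m : ∀ i j, AEStronglyMeasurable (fun x => α₀ x (F' x) i j)
          (volume.restrict S) := fun i j =>
        aestronglyMeasurable_of_tendsto_ae atTop (fun n => hαsm n i j)
          (hlS.mono fun x hx => hx.1 i j)
      have hβ₀m : AEStronglyMeasurable (fun x => β₀ x (F' x)) (volume.restrict S) :=
        aestronglyMeasurable_of_tendsto_ae atTop hβsm (hlS.mono fun x hx => hx.2)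
      have hα₀b : ∀ i j, ∀ᵐ x ∂(volume.restrict S), |α₀ x (F' x) i j| ≤ C := by
        intro i j
        filter_upwards [hlS] with x hx
        exact le_of_tendsto (hx.1 i j).abs (Eventually.of_forall fun n => hαb n x _ i j)
      have hβ₀b : ∀ᵐ x ∂(volume.restrict S), ‖β₀ x (F' x)‖ ≤ C * k := by
        filter_upwards [hlS, ae_all_iff.mpr hβb'] with x hx hx'
        exact le_of_tendsto hx.2.norm (Eventually.of_forall hx')
      have hintMN : ∀ {a m : E3 → ℝ}, AEStronglyMeasurable a (volume.restrict S) →
          (∀ᵐ x ∂(volume.restrict S), |a x| ≤ C) → MemLp m 2 →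
          Integrable (fun x => a x * m x) (volume.restrict S) := by
        intro a m h1 h2 h3
        have h4 : Integrable m (volume.restrict S) :=
          (h3.restrict S).integrable (by norm_num)
        exact h4.bdd_mul h1 h2
      have hiE : Integrable E (volume.restrict S) := by
        refine Integrable.add ?_ ?_
        · exact integrable_finsetSum _ fun i _ => integrable_finsetSum _ fun j _ =>
            hintMN (hα₀m i j) (hα₀b i j) (hNij i j)
        · exact Integrable.of_bound hβ₀m (C * k) hβ₀b
      refine ⟨hiE, ?_⟩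
      have hzero : ∀ n, (∑ i, ∑ j, ∫ x in S, α n x (G' n x) i j * M n i x j)
          + ∫ x in S, β n x (G' n x) = 0 := by
        intro n
        have h1 : ∫ x in S, ((∑ i, ∑ j, α n x (G' n x) i j * M n i x j) + β n x (G' n x))
            = 0 := by
          refine integral_eq_zero_of_ae ?_
          filter_upwards [hDS, ae_restrict_of_ae (heq n), ae_restrict_of_ae (hGG' n)] with x e1 e2 e3
          rw [← e3]
          exact e2 e1.1
        rw [integral_add, integral_finsetSum] at h1
        · rw [← h1]
          congr 1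
          refine Finset.sum_congr rfl fun i _ => ?_
          rw [integral_finsetSum]
          intro j _
          exact hintMN (hαsm n i j) (hαb' n i j) (hMij n i j)
        · exact fun i _ => integrable_finsetSum _ fun j _ =>
            hintMN (hαsm n i j) (hαb' n i j) (hMij n i j)
        · exact integrable_finsetSum _ fun i _ => integrable_finsetSum _ fun j _ =>
            hintMN (hαsm n i j) (hαb' n i j) (hMij n i j)
        · exact Integrable.of_bound (hβsm n) (C * k) (hβb' n)
      have hlimit : Tendsto (fun n => (∑ i, ∑ j, ∫ x in S, α n x (G' n x) i j * M n i x j)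
          + ∫ x in S, β n x (G' n x)) atTop
          (𝓝 ((∑ i, ∑ j, ∫ x in S, α₀ x (F' x) i j * N i x j) + ∫ x in S, β₀ x (F' x))) := by
        refine Tendsto.add (tendsto_finsetSum _ fun i _ => tendsto_finsetSum _ fun j _ => ?_) ?_
        · exact key hS hvs (fun n => hαsm n i j) (fun n => hαb' n i j)
            (hlS.mono fun x hx => hx.1 i j) (fun n => hMij n i j) (fun n => hsqM n i j)
            (fun ψ hψ => hMw ψ hψ i j)
        · exact tendsto_integral_of_dominated_convergence (fun _ => C * k) hβsm
            (integrable_const _) hβb' (hlS.mono fun x hx => hx.2)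
      have h0 : (∑ i, ∑ j, ∫ x in S, α₀ x (F' x) i j * N i x j) + ∫ x in S, β₀ x (F' x) = 0 :=
        tendsto_nhds_unique hlimit (by simp [hzero])
      rw [← h0, hE]
      beta_reduce
      rw [integral_add, integral_finsetSum]
      · congr 1
        refine Finset.sum_congr rfl fun i _ => ?_
        rw [integral_finsetSum]
        intro j _
        exact hintMN (hα₀m i j) (hα₀b i j) (hNij i j)
      · exact fun i _ => integrable_finsetSum _ fun j _ =>
          hintMN (hα₀m i j) (hα₀b i j) (hNij i j)
      · exact integrable_finsetSum _ fun i _ => integrable_finsetSum _ fun j _ =>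
          hintMN (hα₀m i j) (hα₀b i j) (hNij i j)
      · exact Integrable.of_bound hβ₀m (C * k) hβ₀b
    exact ae_eq_zero_of_forall_setIntegral_eq_of_sigmaFinite (fun s hs hvs => (hsets s hs hvs).1)
      (fun s hs hvs => (hsets s hs hvs).2)
  have hall : ∀ᵐ x, ∀ k, x ∈ D k → E x = 0 := by
    rw [ae_all_iff]
    intro k
    exact (ae_restrict_iff' (hDm k)).mp (hclaim k)
  filter_upwards [hall, hGF, hFF', ae_all_iff.mpr hGG'] with x h1 h2 h3 h4 hxU hxF
  have h5 : Tendsto (fun n => ‖G n x‖) atTop (𝓝 ‖F x‖) := h2.norm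
  obtain ⟨R, hR⟩ := h5.bddAbove_range
  obtain ⟨k, hk⟩ := exists_nat_ge R
  have h6 : x ∈ D k := by
    refine ⟨hxU, ?_, fun n => ?_⟩
    · rw [← h3]
      exact hxF
    · rw [← h4 n]
      exact (hR ⟨n, rfl⟩).trans hk
  have h7 := h1 k h6
  rw [hE] at h7
  simp only [← h3] at h7
  exact h7

end Pool.Agent.PFlow.PB
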