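import Pool.Agent.PFlow.StmtsPF

/-!
# Block P, module LIMX: existence of the sequence of regularised solutions and of its limit
-/

open MeasureTheory Filter Topology Set
open scoped ContDiff RealInnerProductSpace ENNReal

namespace Pool.Agent.PFlow.PB

open Pool.Agent.PenroseSph Pool.Agent.PFlow

namespace LimXm

theorem cont_of_holder {w : E3 → ℝ} {A : ℝ}
    (h : ∀ x y, ‖x - y‖ ≤ 1 → |w x - w y| ≤ A * ‖x - y‖ ^ (1 / 4 : ℝ)) : Continuous w := by
  rw [continuous_iff_continuousAt]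
  intro x
  unfold ContinuousAt
  rw [tendsto_iff_norm_sub_tendsto_zero]
  have h1 : Tendsto (fun y => A * ‖y - x‖ ^ (1 / 4 : ℝ)) (𝓝 x) (𝓝 0) := by
    have h2 : Tendsto (fun y => ‖y - x‖) (𝓝 x) (𝓝 0) := by
      have := (continuous_id.sub continuous_const).norm.tendsto x (f := fun y : E3 => ‖y - x‖)
      simpa using this
    have h3 := (h2.rpow_const (p := (1 / 4 : ℝ)) (Or.inr (by norm_num))).const_mul A
    rw [Real.zero_rpow (by norm_num), mul_zero] at h3
    exact h3
  have h4 : ∀ᶠ y in 𝓝 x, ‖y - x‖ ≤ 1 := by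
    filter_upwards [Metric.closedBall_mem_nhds x one_pos] with y hy
    rwa [mem_closedBall_iff_norm] at hy
  refine squeeze_zero' (Filter.Eventually.of_forall fun y => norm_nonneg _) ?_ h1
  filter_upwards [h4] with y hy
  rw [Real.norm_eq_abs]
  exact h y x hy

theorem all_of_ae {p : E3 → Prop} (hc : IsClosed {x | p x}) (h : ∀ᵐ x, p x) : ∀ x, p x := by
  have hd : Dense {x | p x} := Measure.dense_of_ae h
  have he : {x | p x} = univ := by
    rw [← hc.closure_eq]
    exact hd.closure_eq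
  intro x
  have : x ∈ {x | p x} := by
    rw [he]
    exact mem_univ x
  exact this

theorem wsol_congr (h1 : API1) {A : E3 → E3 → E3} {B : E3 → E3 → ℝ} {Θ θ u w : E3 → ℝ} {G : E3 → E3}
    (h : WSol A B Θ θ u G) (hw : w =ᵐ[volume] u) : WSol A B Θ θ w G := by
  refine ⟨h1.congr _ _ _ _ h.1 hw.symm (Filter.EventuallyEq.refl _ _), ?_⟩
  intro φ Φ hφ
  rw [h.2 φ Φ hφ]
  apply integral_congr_ae
  filter_upwards [hw] with x hx
  rw [hx]

theorem h2_congr (h1 : API1) {u w : E3 → ℝ} {G : E3 → E3} {M : Fin 3 → E3 → E3}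
    (h : H2 u G M) (hw : w =ᵐ[volume] u) : H2 w G M :=
  ⟨h1.congr _ _ _ _ h.h1 hw.symm (Filter.EventuallyEq.refl _ _), h.h2⟩

end LimXm

open LimXm in
/-- F11 (LIMX): existence of the sequence and its limit. -/
theorem limx_thm (h1 : API1) (hb : BRID) (hc : CLOSE) (he : EXI) (h2 : HTWO) (hco : CONT)
    (hu : UNIF) (hp : CPT) : LIMX := by
  intro ε a b η g h hε hε1 ha hab hη hd
  obtain ⟨Θ, θ, T, t₀, hpen, hclose⟩ := hc ε a b η g h hε hε1 ha hab hη hd
  have hbpos : 0 < b := by linarith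
  have hr : 0 < 3 * b / 2 := by linarith
  have hd2 : GData g h (3 * b / 2) := ⟨hd.met, hd.ten, fun x hx => hd.flat x (by linarith)⟩
  -- the solutions for fixed parameters
  have hex : ∀ δ : ℝ, 0 < δ → ∃ (u : E3 → ℝ) (G : E3 → E3) (M : Fin 3 → E3 → E3),
      WSol (cA ε δ δ g) (cB ε δ g h) Θ θ u G ∧ H2 u G M ∧ Continuous u ∧
      ∀ x, 0 ≤ u x ∧ u x ≤ 1 := by
    intro δ hδ
    obtain ⟨c, L, hcoef⟩ := hb.coef ε δ δ g h (3 * b / 2) hε hε1 hδ hδ hr hd2
    obtain ⟨u, G, hsol, h01⟩ := he _ _ c L _ Θ θ T t₀ hcoef hpen.pen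
    obtain ⟨M, hM⟩ := h2 _ _ c L _ Θ θ T t₀ hcoef hpen.pen u G hsol
    obtain ⟨C, _, hC⟩ := hco
    obtain ⟨w, hw1, _, hw3⟩ := hC u G M hM
    have hwc : Continuous w := cont_of_holder hw3
    refine ⟨w, G, M, wsol_congr h1 hsol hw1, h2_congr h1 hM hw1, hwc, ?_⟩
    apply all_of_ae
    · exact (isClosed_le continuous_const hwc).inter (isClosed_le hwc continuous_const)
    · filter_upwards [hw1, h01] with x hx1 hx2
      rw [hx1]
      exact hx2
  have hδpos : ∀ n : ℕ, (0 : ℝ) < 1 / ((n : ℝ) + 1) := fun n => by positivity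
  have hδle : ∀ n : ℕ, 1 / ((n : ℝ) + 1) ≤ (1 : ℝ) := by
    intro n
    rw [div_le_one (by positivity)]
    have : (0 : ℝ) ≤ n := Nat.cast_nonneg n
    linarith
  have hδt : Tendsto (fun n : ℕ => 1 / ((n : ℝ) + 1)) atTop (𝓝 0) :=
    tendsto_one_div_add_atTop_nhds_zero_nat
  choose u G M hsol hH2 hcont h01 using fun n : ℕ => hex (1 / ((n : ℝ) + 1)) (hδpos n)
  obtain ⟨C, hC⟩ := hu ε g h (3 * b / 2) Θ θ T t₀ hε hε1 hr hd2 hpen.pen
  have hbound : ∀ n, sq (u n) + sqv (G n) + ∑ i, sqv (M n i) ≤ C := fun n =>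
    hC _ _ (hδpos n) (hδle n) (hδpos n) (hδle n) (u n) (G n) (M n) (hsol n) (hH2 n)
      (Filter.Eventually.of_forall (h01 n))
  obtain ⟨s, v, F, N, hs, hv, hvc, hunif, hstrong, hae, hweak⟩ := hp u G M C hH2 hcont hbound
  have hpt : ∀ x, Tendsto (fun n => u (s n) x) atTop (𝓝 (v x)) := fun x =>
    (hunif {x} isCompact_singleton).tendsto_at (mem_singleton x)
  refine ⟨Θ, θ, T, t₀, fun n => 1 / ((s n : ℝ) + 1), fun n => 1 / ((s n : ℝ) + 1),
    fun n => u (s n), fun n => G (s n), fun n => M (s n), C, v, F, N, ?_, ?_, ?_⟩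
  · exact
      { eps_pos := hε
        eps_lt := hε1
        a_pos := ha
        hab := hab
        data := hd
        pen := hpen
        δ_pos := fun n => hδpos (s n)
        δ_le := fun n => hδle (s n)
        δ_tend := hδt.comp hs.tendsto_atTop
        κ_pos := fun n => hδpos (s n)
        κ_le := fun n => hδle (s n)
        κ_tend := hδt.comp hs.tendsto_atTop
        sol := fun n => hsol (s n)
        h2 := fun n => hH2 (s n)
        cont := fun n => hcont (s n)
        nonneg := fun n x => (h01 (s n) x).1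
        le_one := fun n x => (h01 (s n) x).2
        bound := fun n => hbound (s n)
        h2v := hv
        contv := hvc
        unif := hunif
        strong := hstrong
        ae := hae
        weak := hweak }
  · intro x hx
    refine ge_of_tendsto' (hpt x) fun n => ?_
    exact (hclose _ _ (hδpos (s n)) (hδle (s n)) (hδpos (s n)) (hδle (s n)) (u (s n)) (G (s n))
      (hsol (s n)) (hcont (s n)) (h01 (s n))).1 x hx
  · intro x hx
    refine le_of_tendsto' (hpt x) fun n => ?_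
    exact (hclose _ _ (hδpos (s n)) (hδle (s n)) (hδpos (s n)) (hδle (s n)) (u (s n)) (G (s n))
      (hsol (s n)) (hcont (s n)) (h01 (s n))).2 x hx

end Pool.Agent.PFlow.PB
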