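import Pool.Agent.PFlow.P.Base
import Pool.Agent.PFlow.P.Step

/-!
# Block P, module LIPS: the solution depends on the data in a Lipschitz way
-/

open MeasureTheory Filter Topology Set
open scoped ContDiff RealInnerProductSpace ENNReal

namespace Pool.Agent.PFlow.PB

open Pool.Agent.PenroseSph Pool.Agent.PFlow

namespace Lips

lemma int_inner {F G : E3 → E3} (hF : MemLp F 2) (hG : MemLp G 2) :
    Integrable (fun x => ⟪F x, G x⟫) := by
  have h1 : Integrable (fun x => ‖F x‖ * ‖G x‖) := hF.norm.integrable_mul hG.norm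
  refine h1.mono (hF.1.inner hG.1) (Eventually.of_forall fun x => ?_)
  rw [norm_mul, norm_norm, norm_norm]
  exact norm_inner_le_norm _ _

lemma pt {c L m d w q P Q th : ℝ} (hc : 0 < c) (hm : L ^ 2 / c + 1 ≤ m) (hth : 0 ≤ th)
    (hP : c * d ^ 2 ≤ P) (hQ : Q * w ≤ L * d * |w|) :
    c / 2 * d ^ 2 + 1 / 2 * w ^ 2 - m / 2 * q ^ 2
      ≤ P - (Q - th * w - m * (w - q)) * w := by
  have h3 : L * d * |w| ≤ c / 2 * d ^ 2 + L ^ 2 / (2 * c) * w ^ 2 := by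
    have h4 : 0 ≤ (c * d - L * |w|) ^ 2 / (2 * c) := by positivity
    have h5 : (c * d - L * |w|) ^ 2 / (2 * c)
        = c / 2 * d ^ 2 + L ^ 2 / (2 * c) * |w| ^ 2 - L * d * |w| := by
      field_simp
      ring
    rw [h5, sq_abs] at h4
    linarith
  have hm0 : 0 ≤ m := by
    have : 0 ≤ L ^ 2 / c := by positivity
    linarith
  have h6 : L ^ 2 / (2 * c) * w ^ 2 ≤ (m - 1) / 2 * w ^ 2 := by
    refine mul_le_mul_of_nonneg_right ?_ (sq_nonneg _)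
    have e : L ^ 2 / (2 * c) = L ^ 2 / c / 2 := by
      field_simp
    rw [e]
    linarith
  have h7 : m * (q * w) ≤ m / 2 * q ^ 2 + m / 2 * w ^ 2 := by
    nlinarith [mul_nonneg hm0 (sq_nonneg (q - w))]
  have h8 : 0 ≤ th * w ^ 2 := mul_nonneg hth (sq_nonneg _)
  nlinarith

end Lips

open Lips Step in
/-- Module LIPS. -/
theorem lips_thm (h1 : API1) : LIPS := by
  intro A B c L r Θ θ T t₀ hP hp m hm
  have hc := hP.c_pos
  have hL : 0 < L := hP.c_pos.trans_le hP.c_le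
  have hm0 : 0 ≤ m := by
    have : 0 ≤ L ^ 2 / c := by positivity
    linarith
  refine ⟨m * (1 + 1 / c), fun v₁ v₂ u₁ u₂ G₁ G₂ hv₁ hv₂ h₁ h₂ => ?_⟩
  have hW : H1 (fun x => u₁ x - u₂ x) (fun x => G₁ x - G₂ x) := h1.sub _ _ _ _ h₁.1 h₂.1
  have e1 := h₁.2 _ _ hW
  have e2 := h₂.2 _ _ hW
  have hq : MemLp (fun x => v₁ x - v₂ x) 2 := hv₁.sub hv₂
  have f : ∀ {v u : E3 → ℝ} {G : E3 → E3}, MemLp v 2 → MemLp u 2 → MemLp G 2 →
      MemLp (fun x => B x (G x) - Θ x * u x + θ x - m * (u x - v x)) 2 := fun hv hu hG =>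
    (((memB hP hG).sub (memTheta hp hu)).add (memtheta hp)).sub ((hu.sub hv).const_mul m)
  have i1 := int_inner (memA hP h₁.1.memG) hW.memG
  have i2 := int_inner (memA hP h₂.1.memG) hW.memG
  have i3 := int_mul _ _ (f hv₁ h₁.1.memf h₁.1.memG) hW.memf
  have i4 := int_mul _ _ (f hv₂ h₂.1.memf h₂.1.memG) hW.memf
  have hzero : ∫ x, ((⟪A x (G₁ x), G₁ x - G₂ x⟫ - ⟪A x (G₂ x), G₁ x - G₂ x⟫)
      - ((B x (G₁ x) - Θ x * u₁ x + θ x - m * (u₁ x - v₁ x)) * (u₁ x - u₂ x)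
        - (B x (G₂ x) - Θ x * u₂ x + θ x - m * (u₂ x - v₂ x)) * (u₁ x - u₂ x))) = 0 := by
    have a1 : Integrable (fun x => ⟪A x (G₁ x), G₁ x - G₂ x⟫ - ⟪A x (G₂ x), G₁ x - G₂ x⟫) :=
      i1.sub i2
    have a2 : Integrable (fun x =>
        (B x (G₁ x) - Θ x * u₁ x + θ x - m * (u₁ x - v₁ x)) * (u₁ x - u₂ x)
        - (B x (G₂ x) - Θ x * u₂ x + θ x - m * (u₂ x - v₂ x)) * (u₁ x - u₂ x)) := i3.sub i4
    rw [integral_sub a1 a2, integral_sub i1 i2, integral_sub i3 i4, e1, e2, sub_self]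
  have j1 := int_sq _ hW.memG
  have j2 : Integrable (fun x => (u₁ x - u₂ x) ^ 2) := by
    simpa [Real.norm_eq_abs, sq_abs] using int_sq _ hW.memf
  have j3 : Integrable (fun x => (v₁ x - v₂ x) ^ 2) := by
    simpa [Real.norm_eq_abs, sq_abs] using int_sq _ hq
  have b1 : Integrable (fun x => c / 2 * ‖G₁ x - G₂ x‖ ^ 2) := j1.const_mul _
  have b2 : Integrable (fun x => 1 / 2 * (u₁ x - u₂ x) ^ 2) := j2.const_mul _
  have b3 : Integrable (fun x => m / 2 * (v₁ x - v₂ x) ^ 2) := j3.const_mul _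
  have b4 : Integrable (fun x => c / 2 * ‖G₁ x - G₂ x‖ ^ 2 + 1 / 2 * (u₁ x - u₂ x) ^ 2) :=
    b1.add b2
  have hle : ∫ x, (c / 2 * ‖G₁ x - G₂ x‖ ^ 2 + 1 / 2 * (u₁ x - u₂ x) ^ 2
      - m / 2 * (v₁ x - v₂ x) ^ 2) ≤ 0 := by
    rw [← hzero]
    refine integral_mono (b4.sub b3) ((i1.sub i2).sub (i3.sub i4)) fun x => ?_
    have h3 := hP.mono x (G₁ x) (G₂ x)
    have h4 := hP.lipB x (G₁ x) (G₂ x)
    have h5 : (B x (G₁ x) - B x (G₂ x)) * (u₁ x - u₂ x)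
        ≤ L * ‖G₁ x - G₂ x‖ * |u₁ x - u₂ x| := by
      refine (le_abs_self _).trans ?_
      rw [abs_mul]
      exact mul_le_mul_of_nonneg_right h4 (abs_nonneg _)
    have h6 := pt (q := v₁ x - v₂ x) hc hm ((hp.nonneg x).trans (hp.le x)) h3 h5
    refine h6.trans (le_of_eq ?_)
    rw [inner_sub_left]
    ring
  rw [integral_sub b4 b3, integral_add b1 b2, integral_const_mul, integral_const_mul,
    integral_const_mul] at hle
  have hle' : c / 2 * sqv (fun x => G₁ x - G₂ x) + 1 / 2 * sq (fun x => u₁ x - u₂ x)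
      - m / 2 * sq (fun x => v₁ x - v₂ x) ≤ 0 := hle
  have n1 := sqv_nonneg' (fun x => G₁ x - G₂ x)
  have n2 := sq_nonneg' (fun x => u₁ x - u₂ x)
  have n3 := sq_nonneg' (fun x => v₁ x - v₂ x)
  have k1 : sq (fun x => u₁ x - u₂ x) ≤ m * sq (fun x => v₁ x - v₂ x) := by nlinarith
  have k2 : sqv (fun x => G₁ x - G₂ x) ≤ m * (1 / c) * sq (fun x => v₁ x - v₂ x) := by
    have k3 : c * sqv (fun x => G₁ x - G₂ x) ≤ m * sq (fun x => v₁ x - v₂ x) := by nlinarith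
    have e : m * (1 / c) * sq (fun x => v₁ x - v₂ x) = m * sq (fun x => v₁ x - v₂ x) / c := by
      ring
    rw [e, le_div_iff₀ hc, mul_comm]
    exact k3
  calc sq (fun x => u₁ x - u₂ x) + sqv (fun x => G₁ x - G₂ x)
      ≤ m * sq (fun x => v₁ x - v₂ x) + m * (1 / c) * sq (fun x => v₁ x - v₂ x) :=
        add_le_add k1 k2
    _ = m * (1 + 1 / c) * sq (fun x => v₁ x - v₂ x) := by ring

end Pool.Agent.PFlow.PB
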