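import Pool.Agent.PFlow.P.Step
import Pool.Agent.PFlow.P.Base

/-!
# Block P, module ORDER: comparison for the problem with the additional term
-/

open MeasureTheory Filter Topology Set
open scoped ContDiff RealInnerProductSpace ENNReal

namespace Pool.Agent.PFlow.PB

open Pool.Agent.PenroseSph Pool.Agent.PFlow

namespace OrderP

/-- The derivative of the test function. -/
noncomputable def psi (t : ℝ) : ℝ := min (max t 0) 1

/-- The test function, convex, with `Psi t = 0` for `t ≤ 0`. -/
noncomputable def Psi (t : ℝ) : ℝ := ∫ s in (0 : ℝ)..t, psi s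

lemma psi_cont : Continuous psi := (continuous_id.max continuous_const).min continuous_const

lemma psi_mono : Monotone psi := by
  intro s t h
  exact min_le_min_right _ (max_le_max_right _ h)

lemma psi_nonneg (t : ℝ) : 0 ≤ psi t := le_min (le_max_right _ _) zero_le_one

lemma psi_le_one (t : ℝ) : psi t ≤ 1 := min_le_right _ _

lemma psi_nonpos {t : ℝ} (h : t ≤ 0) : psi t = 0 := by
  unfold psi
  rw [max_eq_right h]
  norm_num

lemma psi_pos {t : ℝ} (h : 0 < t) : 0 < psi t := by
  unfold psi
  rw [max_eq_left h.le]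
  exact lt_min h one_pos

lemma hasDeriv_Psi (t : ℝ) : HasDerivAt Psi (psi t) t :=
  (psi_cont.integral_hasStrictDerivAt 0 t).hasDerivAt

lemma deriv_Psi (t : ℝ) : deriv Psi t = psi t := (hasDeriv_Psi t).deriv

lemma contDiff_Psi : ContDiff ℝ 1 Psi := by
  rw [contDiff_one_iff_deriv]
  refine ⟨fun t => (hasDeriv_Psi t).differentiableAt, ?_⟩
  have : deriv Psi = psi := funext deriv_Psi
  rw [this]
  exact psi_cont

lemma Psi_nonpos {t : ℝ} (h : t ≤ 0) : Psi t = 0 := by
  unfold Psi
  rw [intervalIntegral.integral_symm, intervalIntegral.integral_of_le h]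
  have : ∫ s in Set.Ioc t 0, psi s = 0 := by
    rw [setIntegral_congr_fun (g := fun _ => (0 : ℝ)) measurableSet_Ioc
      (fun s hs => psi_nonpos hs.2)]
    simp
  rw [this, neg_zero]

lemma Psi_pos {t : ℝ} (h : 0 < t) : 0 < Psi t := by
  unfold Psi
  refine intervalIntegral.intervalIntegral_pos_of_pos_on (psi_cont.intervalIntegrable _ _) ?_ h
  intro s hs
  exact psi_pos hs.1

lemma Psi_le {t : ℝ} (h : 0 ≤ t) : Psi t ≤ t * psi t := by
  unfold Psi
  have h1 : ∫ s in (0 : ℝ)..t, psi s ≤ ∫ _ in (0 : ℝ)..t, psi t :=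
    intervalIntegral.integral_mono_on h (psi_cont.intervalIntegrable _ _)
      (continuous_const.intervalIntegrable _ _) (fun s hs => psi_mono hs.2)
  rw [intervalIntegral.integral_const, sub_zero, smul_eq_mul] at h1
  exact h1

lemma key {c L m t d : ℝ} (hc : 0 < c) (hm : L ^ 2 / c + 1 ≤ m) (ht : 0 < t) :
    0 < c * d ^ 2 * psi t - L * d * Psi t + m * t * Psi t := by
  have hq := psi_pos ht
  have hP := Psi_pos ht
  obtain ⟨s, hs⟩ : ∃ s, s = Psi t / psi t := ⟨_, rfl⟩
  have hPs : Psi t = s * psi t := by rw [hs, div_mul_cancel₀ _ hq.ne']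
  have hs0 : 0 < s := by rw [hs]; exact div_pos hP hq
  have hst : s ≤ t := by
    rw [hs, div_le_iff₀ hq]
    exact Psi_le ht.le
  have h1 : 0 ≤ psi t / (4 * c) * (2 * c * d - L * s) ^ 2 := by positivity
  have h2 : psi t / (4 * c) * (2 * c * d - L * s) ^ 2
      = c * d ^ 2 * psi t - L * d * Psi t + L ^ 2 / (4 * c) * s * Psi t := by
    rw [hPs]
    field_simp
    ring
  have h3 : L ^ 2 / (4 * c) * s * Psi t ≤ L ^ 2 / c * t * Psi t := by
    have e1 : L ^ 2 / (4 * c) ≤ L ^ 2 / c := by
      apply div_le_div_of_nonneg_left (sq_nonneg _) hc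
      linarith
    have e2 : L ^ 2 / (4 * c) * s ≤ L ^ 2 / c * t :=
      mul_le_mul e1 hst hs0.le (by positivity)
    exact mul_le_mul_of_nonneg_right e2 hP.le
  have h4 : (L ^ 2 / c + 1) * t * Psi t ≤ m * t * Psi t := by
    apply mul_le_mul_of_nonneg_right _ hP.le
    exact mul_le_mul_of_nonneg_right hm ht.le
  have h5 : 0 < t * Psi t := mul_pos ht hP
  nlinarith

lemma int_inner {F G : E3 → E3} (hF : MemLp F 2) (hG : MemLp G 2) :
    Integrable (fun x => ⟪F x, G x⟫) := by
  refine (L2.integrable_inner (hF.toLp F) (hG.toLp G) (𝕜 := ℝ)).congr ?_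
  filter_upwards [hF.coeFn_toLp, hG.coeFn_toLp] with x h1 h2
  rw [h1, h2]

/-- The common argument. -/
lemma core (hc : CHAIN) {c L m k : ℝ} (hc0 : 0 < c) (hm : L ^ 2 / c + 1 ≤ m) (hk : 0 ≤ k)
    {w : E3 → ℝ} {W a : E3 → E3} {b : E3 → ℝ} (hw : H1 w W) (ha : MemLp a 2) (hb : MemLp b 2)
    (hE : ∀ φ Φ, H1 φ Φ → ∫ x, ⟪a x, Φ x⟫ = ∫ x, b x * φ x)
    (hA : ∀ᵐ x, c * ‖W x‖ ^ 2 ≤ ⟪a x, W x⟫)
    (hB : ∀ᵐ x, k < w x → b x ≤ L * ‖W x‖ - m * (w x - k)) : ∀ᵐ x, w x ≤ k := by
  have hd : ∀ t, deriv (fun t => Psi (t - k)) t = psi (t - k) := by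
    intro t
    have := ((hasDeriv_Psi (t - k)).comp t ((hasDerivAt_id t).sub_const k)).deriv
    rw [mul_one] at this
    exact this
  have hH := hc.lip w W (fun t => Psi (t - k)) 1 hw
    (contDiff_Psi.comp (contDiff_id.sub contDiff_const)) (Psi_nonpos (by linarith)) (by
      intro t
      rw [hd, abs_of_nonneg (psi_nonneg _)]
      exact psi_le_one _)
  simp only [hd] at hH
  have hint := hE _ _ hH
  have i1 := int_inner ha hH.memG
  have i2 := int_mul _ _ hb hH.memf
  have hzero : ∫ x, (⟪a x, psi (w x - k) • W x⟫ - b x * Psi (w x - k)) = 0 := by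
    rw [integral_sub i1 i2, hint, sub_self]
  have hpt : ∀ᵐ x, 0 ≤ ⟪a x, psi (w x - k) • W x⟫ - b x * Psi (w x - k) ∧
      (k < w x → 0 < ⟪a x, psi (w x - k) • W x⟫ - b x * Psi (w x - k)) := by
    filter_upwards [hA, hB] with x hx1 hx2
    have hpos : k < w x → 0 < ⟪a x, psi (w x - k) • W x⟫ - b x * Psi (w x - k) := by
      intro hkx
      have h1 : 0 < w x - k := by linarith
      have h2 := key (d := ‖W x‖) hc0 hm h1
      have h3 := hx2 hkx
      have h4 := psi_pos h1
      have h5 := Psi_pos h1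
      rw [real_inner_smul_right]
      have h6 : c * ‖W x‖ ^ 2 * psi (w x - k) ≤ psi (w x - k) * ⟪a x, W x⟫ := by
        rw [mul_comm]
        exact mul_le_mul_of_nonneg_left hx1 h4.le
      have h7 : b x * Psi (w x - k) ≤ (L * ‖W x‖ - m * (w x - k)) * Psi (w x - k) :=
        mul_le_mul_of_nonneg_right h3 h5.le
      nlinarith
    refine ⟨?_, hpos⟩
    by_cases hkx : k < w x
    · exact (hpos hkx).le
    · rw [not_lt] at hkx
      rw [psi_nonpos (by linarith), Psi_nonpos (by linarith)]
      simp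
  have hnn : 0 ≤ᵐ[volume] fun x => ⟪a x, psi (w x - k) • W x⟫ - b x * Psi (w x - k) := by
    filter_upwards [hpt] with x hx
    exact hx.1
  have hz := (integral_eq_zero_iff_of_nonneg_ae hnn (i1.sub i2)).mp hzero
  filter_upwards [hpt, hz] with x hx hx0
  by_contra hcon
  rw [not_le] at hcon
  have := hx.2 hcon
  change _ = (0 : ℝ) at hx0
  linarith

end OrderP

open OrderP Step

theorem order_thm (h1 : API1) (hc : CHAIN) : ORDER where
  mono := by
    intro A B c L r Θ θ T t₀ hP hp m hm v₁ v₂ u₁ u₂ G₁ G₂ hv₁ hv₂ hs₁ hs₂ hv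
    obtain ⟨hu₁, he₁⟩ := hs₁
    obtain ⟨hu₂, he₂⟩ := hs₂
    have hmp : 0 < m := by
      have := hP.c_pos
      have : 0 ≤ L ^ 2 / c := by positivity
      linarith
    have ma₁ := memA hP hu₁.memG
    have ma₂ := memA hP hu₂.memG
    have mb₁ : MemLp (fun x => B x (G₁ x) - Θ x * u₁ x + θ x - m * (u₁ x - v₁ x)) 2 :=
      ((((memB hP hu₁.memG).sub (memTheta hp hu₁.memf)).add (memtheta hp)).sub
        ((hu₁.memf.sub hv₁).const_mul m))
    have mb₂ : MemLp (fun x => B x (G₂ x) - Θ x * u₂ x + θ x - m * (u₂ x - v₂ x)) 2 :=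
      ((((memB hP hu₂.memG).sub (memTheta hp hu₂.memf)).add (memtheta hp)).sub
        ((hu₂.memf.sub hv₂).const_mul m))
    have := core hc (L := L) hP.c_pos hm le_rfl (h1.sub _ _ _ _ hu₁ hu₂) (ma₁.sub ma₂)
      (mb₁.sub mb₂) (by
        intro φ Φ hφ
        have e1 : ∫ x, ⟪((fun x => A x (G₁ x)) - fun x => A x (G₂ x)) x, Φ x⟫
            = ∫ x, (⟪A x (G₁ x), Φ x⟫ - ⟪A x (G₂ x), Φ x⟫) := by
          refine integral_congr_ae (Eventually.of_forall fun x => ?_)
          simp only [Pi.sub_apply]
          rw [inner_sub_left]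
        rw [e1, integral_sub (int_inner ma₁ hφ.memG) (int_inner ma₂ hφ.memG), he₁ φ Φ hφ,
          he₂ φ Φ hφ, ← integral_sub (int_mul _ _ mb₁ hφ.memf) (int_mul _ _ mb₂ hφ.memf)]
        refine integral_congr_ae (Eventually.of_forall fun x => ?_)
        simp only [Pi.sub_apply]
        ring) (Eventually.of_forall fun x => hP.mono x _ _) (by
        filter_upwards [hv] with x hx hpos
        simp only [Pi.sub_apply]
        have h2 := (le_abs_self _).trans (hP.lipB x (G₁ x) (G₂ x))
        have h3 := (hp.nonneg x).trans (hp.le x)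
        have h4 : 0 ≤ Θ x * (u₁ x - u₂ x) := mul_nonneg h3 hpos.le
        have h5 : 0 ≤ m * (v₂ x - v₁ x) := mul_nonneg hmp.le (by linarith)
        nlinarith)
    filter_upwards [this] with x hx
    linarith
  nonneg := by
    intro A B c L r Θ θ T t₀ hP hp m hm v u G hv hs hvn
    obtain ⟨hu, he⟩ := hs
    have hmp : 0 < m := by
      have := hP.c_pos
      have : 0 ≤ L ^ 2 / c := by positivity
      linarith
    have ma := memA hP hu.memG
    have mb : MemLp (fun x => B x (G x) - Θ x * u x + θ x - m * (u x - v x)) 2 :=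
      ((((memB hP hu.memG).sub (memTheta hp hu.memf)).add (memtheta hp)).sub
        ((hu.memf.sub hv).const_mul m))
    have := core hc (L := L) hP.c_pos hm le_rfl (h1.smul (-1) _ _ hu) ma.neg mb.neg (by
        intro φ Φ hφ
        have e1 : ∫ x, ⟪(-fun x => A x (G x)) x, Φ x⟫ = - ∫ x, ⟪A x (G x), Φ x⟫ := by
          rw [← integral_neg]
          refine integral_congr_ae (Eventually.of_forall fun x => ?_)
          simp only [Pi.neg_apply]
          rw [inner_neg_left]
        rw [e1, he φ Φ hφ, ← integral_neg]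
        refine integral_congr_ae (Eventually.of_forall fun x => ?_)
        simp only [Pi.neg_apply]
        ring) (Eventually.of_forall fun x => by
          have h2 := hP.mono x (G x) 0
          rw [hP.A_zero, sub_zero, sub_zero] at h2
          simp only [Pi.neg_apply]
          rw [neg_one_smul, inner_neg_neg, norm_neg]
          exact h2) (by
        filter_upwards [hvn] with x hx hpos
        simp only [Pi.neg_apply]
        rw [neg_one_smul, norm_neg]
        have h2 := (neg_abs_le _).trans' (neg_le_neg (hP.lipB x (G x) 0))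
        rw [hP.B_zero, sub_zero, sub_zero] at h2
        have h3 := (hp.nonneg x).trans (hp.le x)
        have h4 : Θ x * u x ≤ 0 := mul_nonpos_of_nonneg_of_nonpos h3 (by linarith)
        have h5 : 0 ≤ m * v x := mul_nonneg hmp.le hx
        have h6 := hp.nonneg x
        nlinarith)
    filter_upwards [this] with x hx
    linarith
  le_one := by
    intro A B c L r Θ θ T t₀ hP hp m hm v u G hv hs hv1
    obtain ⟨hu, he⟩ := hs
    have hmp : 0 < m := by
      have := hP.c_pos
      have : 0 ≤ L ^ 2 / c := by positivity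
      linarith
    have ma := memA hP hu.memG
    have mb : MemLp (fun x => B x (G x) - Θ x * u x + θ x - m * (u x - v x)) 2 :=
      ((((memB hP hu.memG).sub (memTheta hp hu.memf)).add (memtheta hp)).sub
        ((hu.memf.sub hv).const_mul m))
    exact core hc (L := L) hP.c_pos hm zero_le_one hu ma mb he
      (Eventually.of_forall fun x => by
          have h2 := hP.mono x (G x) 0
          rw [hP.A_zero, sub_zero, sub_zero] at h2
          exact h2) (by
        filter_upwards [hv1] with x hx hpos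
        have h2 := (le_abs_self _).trans (hP.lipB x (G x) 0)
        rw [hP.B_zero, sub_zero, sub_zero] at h2
        have h3 := (hp.nonneg x).trans (hp.le x)
        have h4 : Θ x ≤ Θ x * u x := le_mul_of_one_le_right h3 hpos.le
        have h5 : 0 ≤ m * (1 - v x) := mul_nonneg hmp.le (by linarith)
        have h6 := hp.le x
        nlinarith)

end Pool.Agent.PFlow.PB
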