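import Pool.Agent.PFlow.StmtsP
import Pool.Agent.PFlow.P.Base

/-!
# SUPB: pointwise bound of test functions by the `L²` norms of the function and of its second
derivatives

Fourier inversion and the Plancherel formula.
-/

open MeasureTheory Filter Topology Set
open scoped ContDiff RealInnerProductSpace ENNReal SchwartzMap FourierTransform LineDeriv

namespace Pool.Agent.PFlow.PB

open Pool.Agent.PenroseSph Pool.Agent.PFlow

namespace SupB

/-- the complex Schwartz function of a test function -/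
noncomputable def sch (φ : E3 → ℝ) (h : Test φ) : 𝓢(E3, ℂ) :=
  HasCompactSupport.toSchwartzMap (f := fun x => (φ x : ℂ))
    (h.cpt.comp_left (g := ((↑) : ℝ → ℂ)) Complex.ofReal_zero)
    (Complex.ofRealCLM.contDiff.comp h.smooth)

theorem sch_apply (φ : E3 → ℝ) (h : Test φ) (x : E3) : sch φ h x = (φ x : ℂ) := rfl

/-- the derivative of the complexification -/
theorem fderiv_ofReal (f : E3 → ℝ) (hf : Differentiable ℝ f) (x v : E3) :
    fderiv ℝ (fun y => (f y : ℂ)) x v = ((fderiv ℝ f x v : ℝ) : ℂ) := by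
  have h := (Complex.ofRealCLM.hasFDerivAt (x := f x)).comp x (hf x).hasFDerivAt
  have h2 : HasFDerivAt (fun y => (f y : ℂ)) (Complex.ofRealCLM.comp (fderiv ℝ f x)) x := h
  rw [h2.fderiv]
  rfl

theorem pd_smooth (f : E3 → ℝ) (hf : ContDiff ℝ ∞ f) (i : Fin 3) : ContDiff ℝ ∞ (pd i f) := by
  have h1 : ContDiff ℝ ∞ (fderiv ℝ f) := hf.fderiv_right (by norm_num)
  exact h1.clm_apply contDiff_const

theorem pd_cpt (f : E3 → ℝ) (hf : HasCompactSupport f) (i : Fin 3) :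
    HasCompactSupport (pd i f) := by
  refine (hf.fderiv (𝕜 := ℝ)).mono ?_
  intro x hx
  rw [Function.mem_support] at hx ⊢
  intro h0
  apply hx
  rw [pd_eq, h0]
  rfl

theorem Test.pd {φ : E3 → ℝ} (h : Test φ) (i : Fin 3) : Test (pd i φ) :=
  ⟨pd_smooth φ h.smooth i, pd_cpt φ h.cpt i⟩

theorem lineDeriv_sch (φ : E3 → ℝ) (h : Test φ) (i : Fin 3) :
    ∂_{ee i} (sch φ h) = sch (pd i φ) (Test.pd h i) := by
  ext x
  rw [SchwartzMap.lineDerivOp_apply_eq_fderiv, sch_apply]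
  exact fderiv_ofReal φ (h.smooth.differentiable (by norm_num)) x (ee i)

/-- the Fourier transform of a second derivative -/
theorem fourier_second (φ : E3 → ℝ) (h : Test φ) (i : Fin 3) (ξ : E3) :
    ‖𝓕 (sch (pd i (pd i φ)) (Test.pd (Test.pd h i) i)) ξ‖
      = (2 * Real.pi) ^ 2 * ξ i ^ 2 * ‖𝓕 (sch φ h) ξ‖ := by
  have hT : (inner ℝ · (ee i) : E3 → ℝ).HasTemperateGrowth :=
    ((innerSL ℝ).flip (ee i)).hasTemperateGrowth
  rw [← lineDeriv_sch (pd i φ) (Test.pd h i) i, ← lineDeriv_sch φ h i,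
    SchwartzMap.fourier_lineDerivOp_eq, SchwartzMap.fourier_lineDerivOp_eq]
  have e1 : ⟪ξ, ee i⟫ = ξ i := by
    simp [ee, EuclideanSpace.inner_single_right]
  simp only [smul_apply, SchwartzMap.smulLeftCLM_apply_apply hT, e1]
  simp only [norm_smul, smul_eq_mul, norm_mul]
  have e2 : ‖(2 : ℂ)‖ = 2 := by simp
  rw [Complex.norm_I, Complex.norm_real, e2, Real.norm_of_nonneg Real.pi_pos.le,
    Real.norm_eq_abs, mul_one]
  rw [← sq_abs (ξ i)]
  ring

/-- the inversion formula gives the supremum bound -/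
theorem sup_le (φ : E3 → ℝ) (h : Test φ) (x : E3) :
    |φ x| ≤ ∫ ξ, ‖𝓕 (sch φ h) ξ‖ := by
  have h1 : 𝓕⁻ (𝓕 (sch φ h)) = sch φ h := FourierTransform.fourierInv_fourier_eq _
  have h2 : ((φ x : ℝ) : ℂ) = (𝓕⁻ ((𝓕 (sch φ h) : 𝓢(E3, ℂ)) : E3 → ℂ)) x := by
    rw [← SchwartzMap.fourierInv_coe, h1, sch_apply]
  have h3 : |φ x| = ‖((φ x : ℝ) : ℂ)‖ := by
    rw [Complex.norm_real, Real.norm_eq_abs]
  rw [h3, h2, Real.fourierInv_eq]
  refine (norm_integral_le_integral_norm _).trans (le_of_eq ?_)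
  refine integral_congr_ae (ae_of_all _ fun ξ => ?_)
  simp

/-- Plancherel -/
theorem planch (φ : E3 → ℝ) (h : Test φ) :
    sq (fun ξ => ‖𝓕 (sch φ h) ξ‖) = sq φ := by
  unfold sq
  rw [SchwartzMap.integral_norm_sq_fourier]
  refine integral_congr_ae (ae_of_all _ fun x => ?_)
  simp only [sch_apply, Complex.norm_real, Real.norm_eq_abs, sq_abs]

/-- the weight at scale one -/
noncomputable def wt (ξ : E3) : ℝ := (1 + ‖ξ‖ ^ 2)⁻¹

theorem wt_sq_int : Integrable (fun ξ : E3 => wt ξ ^ 2) := by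
  have h : Integrable (fun x : E3 ↦ ((1 : ℝ) + ‖x‖ ^ 2) ^ (-(4 : ℝ) / 2)) volume :=
    integrable_rpow_neg_one_add_norm_sq (by
      rw [finrank_euclideanSpace, Fintype.card_fin]
      norm_num)
  refine h.congr (ae_of_all _ fun x => ?_)
  have h1 : (0 : ℝ) < 1 + ‖x‖ ^ 2 := by positivity
  show ((1 : ℝ) + ‖x‖ ^ 2) ^ (-(4 : ℝ) / 2) = ((1 + ‖x‖ ^ 2)⁻¹) ^ 2
  have e : (-(4 : ℝ) / 2) = -(2 : ℕ) := by norm_num
  rw [e, Real.rpow_neg h1.le, Real.rpow_natCast, inv_pow]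

theorem wt_cont : Continuous wt := by
  unfold wt
  refine Continuous.inv₀ (by fun_prop) fun x => ?_
  positivity

/-- the weight at scale `r` belongs to `L²` -/
theorem wtr_memLp {r : ℝ} (hr : 0 < r) : MemLp (fun ξ : E3 => wt (r • ξ)) 2 := by
  have h1 : Continuous fun ξ : E3 => wt (r • ξ) := wt_cont.comp (continuous_const_smul r)
  rw [memLp_two_iff_integrable_sq h1.aestronglyMeasurable]
  exact wt_sq_int.comp_smul hr.ne'

theorem wtr_sq {r : ℝ} (hr : 0 < r) : √(sq (fun ξ : E3 => wt (r • ξ)))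
    = r ^ (-(3 / 2) : ℝ) * √(sq wt) := by
  have h1 : sq (fun ξ : E3 => wt (r • ξ)) = (r ^ 3)⁻¹ * sq wt := by
    unfold sq
    rw [Measure.integral_comp_smul volume (fun ξ : E3 => wt ξ ^ 2) r, finrank_euclideanSpace,
      Fintype.card_fin, abs_of_pos (by positivity), smul_eq_mul]
  rw [h1, Real.sqrt_mul (by positivity)]
  congr 1
  rw [Real.sqrt_eq_rpow, Real.rpow_neg hr.le, Real.inv_rpow (by positivity),
    ← Real.rpow_natCast r 3, ← Real.rpow_mul hr.le]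
  norm_num

theorem hs_ge (φ : E3 → ℝ) (h : Test φ) (i : Fin 3) :
    sq (pd i (pd i φ)) ≤ ∑ j, sqv (hs φ j) := by
  have h1 : sq (pd i (pd i φ)) ≤ sqv (hs φ i) :=
    sq_comp_le (hs φ i) (gr_memLp _ (Test.pd h i).one (Test.pd h i).cpt) i
  exact h1.trans (Finset.single_le_sum (fun j _ => sqv_nonneg' (hs φ j)) (Finset.mem_univ i))

theorem main (φ : E3 → ℝ) (h : Test φ) {r : ℝ} (hr : 0 < r) (x : E3) :
    |φ x| ≤ √(sq wt) * (r ^ (-(3 / 2) : ℝ) * √(sq φ)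
      + r ^ (1 / 2 : ℝ) * √(∑ i, sqv (hs φ i))) := by
  set S := √(∑ i, sqv (hs φ i)) with hS
  set F : E3 → ℝ := fun ξ => ‖𝓕 (sch φ h) ξ‖ with hF
  set H : Fin 3 → E3 → ℝ := fun i ξ => ‖𝓕 (sch (pd i (pd i φ)) (Test.pd (Test.pd h i) i)) ξ‖
    with hH
  have mF : MemLp F 2 := ((𝓕 (sch φ h)).memLp 2 volume).norm
  have mH : ∀ i, MemLp (H i) 2 := fun i => ((𝓕 (sch (pd i (pd i φ)) _)).memLp 2 volume).norm
  set c : ℝ := r ^ 2 / (2 * Real.pi) ^ 2 with hc
  have hc0 : 0 ≤ c := by positivity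
  have mcH : ∀ i, MemLp (fun ξ => c * H i ξ) 2 := fun i => (mH i).const_mul c
  have bcH : ∀ i, √(sq (fun ξ => c * H i ξ)) ≤ c * S := by
    intro i
    have e1 : sq (fun ξ => c * H i ξ) = c ^ 2 * sq (H i) := by
      unfold sq
      rw [← integral_const_mul]
      refine integral_congr_ae (ae_of_all _ fun ξ => ?_)
      show (c * H i ξ) ^ 2 = c ^ 2 * H i ξ ^ 2
      ring
    rw [e1, Real.sqrt_mul (by positivity), Real.sqrt_sq hc0]
    refine mul_le_mul_of_nonneg_left (Real.sqrt_le_sqrt ?_) hc0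
    have e2 : sq (H i) = sq (pd i (pd i φ)) := planch _ _
    rw [e2]
    exact hs_ge φ h i
  -- the function with the weight
  set Q : E3 → ℝ := fun ξ => F ξ + (c * H 0 ξ + (c * H 1 ξ + c * H 2 ξ)) with hQ
  have m12 : MemLp (fun ξ => c * H 1 ξ + c * H 2 ξ) 2 := (mcH 1).add (mcH 2)
  have m012 : MemLp (fun ξ => c * H 0 ξ + (c * H 1 ξ + c * H 2 ξ)) 2 := (mcH 0).add m12
  have mQ : MemLp Q 2 := mF.add m012
  have bQ : √(sq Q) ≤ √(sq φ) + r ^ 2 * S := by
    have b1 := sq_add_le _ _ mF m012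
    have b2 := sq_add_le _ _ (mcH 0) m12
    have b3 := sq_add_le _ _ (mcH 1) (mcH 2)
    have b4 := bcH 0
    have b5 := bcH 1
    have b6 := bcH 2
    have e3 : sq F = sq φ := planch φ h
    have b7 : 3 * c ≤ r ^ 2 := by
      rw [hc]
      have hpi : 3 ≤ (2 * Real.pi) ^ 2 := by nlinarith [Real.pi_gt_three]
      rw [← mul_div_assoc, div_le_iff₀ (by positivity)]
      nlinarith [sq_nonneg r]
    have hS0 : 0 ≤ S := Real.sqrt_nonneg _
    rw [e3] at b1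
    have b8 : 3 * c * S ≤ r ^ 2 * S := mul_le_mul_of_nonneg_right b7 hS0
    have b9 : √(sq Q) ≤ √(sq φ) + √(sq fun ξ => c * H 0 ξ + (c * H 1 ξ + c * H 2 ξ)) := b1
    linarith
  have eFQ : ∀ ξ, F ξ = wt (r • ξ) * Q ξ := by
    intro ξ
    have e4 : ∀ i, H i ξ = (2 * Real.pi) ^ 2 * ξ i ^ 2 * F ξ := fun i => fourier_second φ h i ξ
    have e5 : Q ξ = (1 + ‖r • ξ‖ ^ 2) * F ξ := by
      show F ξ + (c * H 0 ξ + (c * H 1 ξ + c * H 2 ξ)) = _
      have e6 : ‖r • ξ‖ ^ 2 = r ^ 2 * (ξ 0 ^ 2 + ξ 1 ^ 2 + ξ 2 ^ 2) := by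
        rw [norm_smul, mul_pow, norm_sq_eq ξ, Fin.sum_univ_three, Real.norm_eq_abs, sq_abs]
      rw [e4, e4, e4, e6, hc]
      have hpi : Real.pi ≠ 0 := Real.pi_ne_zero
      field_simp
      ring
    rw [e5]
    unfold wt
    have : (1 + ‖r • ξ‖ ^ 2) ≠ 0 := by positivity
    field_simp
  calc |φ x| ≤ ∫ ξ, F ξ := sup_le φ h x
    _ = ∫ ξ, wt (r • ξ) * Q ξ := by
        refine integral_congr_ae (ae_of_all _ fun ξ => eFQ ξ)
    _ ≤ |∫ ξ, wt (r • ξ) * Q ξ| := le_abs_self _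
    _ ≤ √(sq (fun ξ => wt (r • ξ))) * √(sq Q) := cs _ _ (wtr_memLp hr) mQ
    _ ≤ √(sq (fun ξ => wt (r • ξ))) * (√(sq φ) + r ^ 2 * S) :=
        mul_le_mul_of_nonneg_left bQ (Real.sqrt_nonneg _)
    _ = _ := by
        rw [wtr_sq hr]
        have e6 : r ^ (1 / 2 : ℝ) = r ^ (-(3 / 2) : ℝ) * r ^ 2 := by
          rw [← Real.rpow_natCast r 2, ← Real.rpow_add hr]
          norm_num
        rw [e6]
        ring

end SupB

theorem supb_thm : SUPB := by
  refine ⟨√(sq SupB.wt) + 1, by positivity, fun φ h r hr x => ?_⟩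
  refine (SupB.main φ h hr x).trans ?_
  refine mul_le_mul_of_nonneg_right (by linarith) ?_
  positivity

end Pool.Agent.PFlow.PB
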