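import Pool.Agent.PFlow.P.API1
import Mathlib.Analysis.Distribution.AEEqOfIntegralContDiff

/-!
# Block P, module SYMM: the second derivatives are symmetric
-/

open MeasureTheory Filter Topology Set
open scoped ContDiff RealInnerProductSpace

namespace Pool.Agent.PFlow.PB

open Pool.Agent.PenroseSph Pool.Agent.PFlow

namespace Symm

theorem test_pd {φ : E3 → ℝ} (h : Test φ) (j : Fin 3) : Test (pd j φ) := by
  refine ⟨?_, pd_cpt φ h.cpt j⟩
  have h1 : ContDiff ℝ ∞ (fderiv ℝ φ) := h.smooth.fderiv_right (by simp)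
  exact h1.clm_apply contDiff_const

theorem pd_comm {φ : E3 → ℝ} (h : Test φ) (i j : Fin 3) (x : E3) :
    pd i (pd j φ) x = pd j (pd i φ) x := by
  have h1 : ContDiffAt ℝ 2 φ x := (h.smooth.of_le (WithTop.coe_le_coe.mpr le_top)).contDiffAt
  have hs : IsSymmSndFDerivAt ℝ φ x := h1.isSymmSndFDerivAt (by simp)
  have hd : DifferentiableAt ℝ (fderiv ℝ φ) x := by
    have h2 : ContDiff ℝ ∞ (fderiv ℝ φ) := h.smooth.fderiv_right (by simp)
    exact h2.differentiable (by simp) x
  have key : ∀ a b : Fin 3, pd a (pd b φ) x = fderiv ℝ (fderiv ℝ φ) x (ee a) (ee b) := by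
    intro a b
    have e1 : pd b φ = fun y => fderiv ℝ φ y (ee b) := rfl
    rw [pd_eq, e1]
    have h3 : HasFDerivAt (fun y => fderiv ℝ φ y (ee b))
        ((ContinuousLinearMap.apply ℝ ℝ (ee b)).comp (fderiv ℝ (fderiv ℝ φ) x)) x :=
      (ContinuousLinearMap.apply ℝ ℝ (ee b)).hasFDerivAt.comp x hd.hasFDerivAt
    rw [h3.fderiv]
    rfl
  rw [key i j, key j i]
  exact hs (ee i) (ee j)

end Symm

open Symm in
theorem symm_thm (h1 : API1) (hc : CHAIN) : SYMM := by
  intro u G M h
  constructor
  · rw [ae_all_iff]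
    intro i
    rw [ae_all_iff]
    intro j
    have hM : ∀ a b, MemLp (fun x => M a x b) 2 := fun a b => memLp_comp (M a) (h.h2 a).memG b
    have key : ∀ φ : E3 → ℝ, Test φ → ∀ a b,
        ∫ x, M a x b * φ x = ∫ x, u x * pd a (pd b φ) x := by
      intro φ hφ a b
      have e1 := h1.wgrad _ _ (h.h2 a) φ hφ b
      have e2 := h1.wgrad _ _ h.h1 (pd b φ) (test_pd hφ b) a
      rw [e2, e1, neg_neg]
    have hmem : MemLp (fun x => M i x j - M j x i) 2 := (hM i j).sub (hM j i)
    have hloc : ∀ f : E3 → ℝ, MemLp f 2 → LocallyIntegrable f :=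
      fun f hf => hf.locallyIntegrable (by norm_num)
    have h0 : ∀ᵐ x, (fun x => M i x j - M j x i) x = 0 := by
      apply ae_eq_zero_of_integral_contDiff_smul_eq_zero (hloc _ hmem)
      intro g hg hgc
      have hT : Test g := ⟨hg, hgc⟩
      have hI : ∀ a b, Integrable (fun x => g x * M a x b) := by
        intro a b
        have := (hloc _ (hM a b)).integrable_smul_left_of_hasCompactSupport hg.continuous hgc
        exact this
      have e1 : (fun x => g x • (M i x j - M j x i)) = fun x => g x * M i x j - g x * M j x i := by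
        funext x
        rw [smul_eq_mul, mul_sub]
      rw [e1, integral_sub (hI i j) (hI j i)]
      have e2 : ∀ a b, ∫ x, g x * M a x b = ∫ x, u x * pd a (pd b g) x := by
        intro a b
        rw [← key g hT a b]
        congr 1
        funext x
        ring
      rw [e2, e2, sub_eq_zero]
      congr 1
      funext x
      rw [pd_comm hT i j x]
    filter_upwards [h0] with x hx
    exact sub_eq_zero.mp hx
  · have h2 : ∀ i, ∀ᵐ x, G x i = 0 → M i x = 0 := fun i => hc.zero _ _ (h.h2 i)
    rw [← ae_all_iff] at h2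
    filter_upwards [h2] with x hx hG i
    apply hx i
    rw [hG]
    rfl

end Pool.Agent.PFlow.PB
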