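import Pool.Agent.PFlow.StmtsPF

/-!
# Block P, F4: the uniform bound in `H²`
-/

open MeasureTheory Filter Topology Set
open scoped ContDiff RealInnerProductSpace

namespace Pool.Agent.PFlow.PB

open Pool.Agent.PenroseSph Pool.Agent.PFlow

/-- `m ≤ a √m + b` gives a bound for `m`. -/
theorem unif_quad {m a b : ℝ} (hm : 0 ≤ m) (h : m ≤ a * √m + b) : m ≤ a ^ 2 + 2 * b := by
  have hs : √m ^ 2 = m := Real.sq_sqrt hm
  nlinarith [sq_nonneg (a - √m)]

theorem unif_sq_nonneg (f : E3 → ℝ) : 0 ≤ sq f := integral_nonneg fun x => sq_nonneg _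

theorem unif_sqv_nonneg (f : E3 → E3) : 0 ≤ sqv f := integral_nonneg fun x => sq_nonneg _

theorem unif_sq_int {f : E3 → ℝ} (hf : MemLp f 2) : Integrable fun x => f x ^ 2 :=
  hf.integrable_sq

theorem unif_memTheta {Θ θ : E3 → ℝ} {T t₀ r : ℝ} (hP : Pen Θ θ T t₀ r) : MemLp θ 2 := by
  have hc : HasCompactSupport θ := by
    apply HasCompactSupport.of_support_subset_isCompact (isCompact_closedBall (0 : E3) r)
    intro x hx
    rw [Metric.mem_closedBall, dist_zero_right]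
    by_contra hcon
    exact hx (hP.outθ x (not_le.mp hcon).le)
  exact hP.contθ.memLp_of_hasCompactSupport hc

theorem unif_memF {Θ θ : E3 → ℝ} {T t₀ r : ℝ} (hP : Pen Θ θ T t₀ r) {u : E3 → ℝ}
    (hu : MemLp u 2) : MemLp (fun x => Θ x * u x - θ x) 2 := by
  have h1 : MemLp (fun x => Θ x * u x) 2 := by
    refine MemLp.of_le_mul (c := T) hu ?_ ?_
    · exact hP.contΘ.aestronglyMeasurable.mul hu.1
    · refine Eventually.of_forall fun x => ?_
      rw [norm_mul]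
      have h0 : 0 ≤ Θ x := (hP.nonneg x).trans (hP.le x)
      rw [Real.norm_of_nonneg h0]
      exact mul_le_mul_of_nonneg_right (hP.bdd x) (norm_nonneg _)
  exact h1.sub (unif_memTheta hP)

theorem unif_sqF {Θ θ : E3 → ℝ} {T t₀ r : ℝ} (hP : Pen Θ θ T t₀ r) {u : E3 → ℝ}
    (hu : MemLp u 2) :
    sq (fun x => Θ x * u x - θ x) ≤ 2 * T ^ 2 * sq u + 2 * sq θ := by
  unfold sq
  rw [← integral_const_mul, ← integral_const_mul, ← integral_add]
  · refine integral_mono (unif_sq_int (unif_memF hP hu)) ?_ ?_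
    · exact ((unif_sq_int hu).const_mul _).add ((unif_sq_int (unif_memTheta hP)).const_mul _)
    · intro x
      have h0 : 0 ≤ Θ x := (hP.nonneg x).trans (hP.le x)
      have h1 : (Θ x) ^ 2 ≤ T ^ 2 := pow_le_pow_left₀ h0 (hP.bdd x) 2
      have h2 : (Θ x) ^ 2 * u x ^ 2 ≤ T ^ 2 * u x ^ 2 :=
        mul_le_mul_of_nonneg_right h1 (sq_nonneg _)
      show (Θ x * u x - θ x) ^ 2 ≤ 2 * T ^ 2 * u x ^ 2 + 2 * θ x ^ 2
      nlinarith [sq_nonneg (Θ x * u x + θ x)]
  · exact (unif_sq_int hu).const_mul _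
  · exact (unif_sq_int (unif_memTheta hP)).const_mul _

theorem unif_thm (_h1 : API1) (hb : BRID) (he : ENER) (hn : NDIV) (hk : KCOR) (hc : CORDI)
    (hi : INTP) : UNIF := by
  intro ε g h r Θ θ T t₀ hε hε1 hr hG hP
  obtain ⟨C1, hC1⟩ := he ε g h r Θ θ T t₀ hε hε1 hG hP
  obtain ⟨C0, hC0, hK⟩ := hk ε g h r hε hε1 hG
  obtain ⟨C2, hC2⟩ := hc ε g h r hε hε1 hG C0 T
  set S := max C1 0 with hS
  set A := |C2| * (√3 * √S) with hA
  set B := |C2| * (2 * T ^ 2 * S + 2 * sq θ) with hB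
  refine ⟨S + √3 * √S * (1 + (A ^ 2 + 2 * B)) + (A ^ 2 + 2 * B), ?_⟩
  intro δ κ hδ hδ1 hκ hκ1 u G M hW hH h01
  have hu2 : MemLp u 2 := hH.h1.memf
  have hsu : sq u ≤ S := (hC1 δ κ hδ hδ1 hκ hκ1 u G hW h01).trans (le_max_left _ _)
  have hS0 : 0 ≤ S := le_max_right _ _
  have hsθ : 0 ≤ sq θ := unif_sq_nonneg θ
  obtain ⟨c, L, hPC⟩ := hb.coef ε δ κ g h r hε hε1 hδ hκ hr hG
  have hnd := hn _ _ c L r Θ θ T t₀ hPC hP u G M hW hH
  set F : E3 → ℝ := fun x => Θ x * u x - θ x with hF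
  have hFm : MemLp F 2 := unif_memF hP hu2
  have hFb : ∀ᵐ x, |F x| ≤ T := by
    filter_upwards [h01] with x hx
    have h0 : 0 ≤ Θ x := (hP.nonneg x).trans (hP.le x)
    have h1 := hP.nonneg x
    have h2 := hP.le x
    have h3 := hP.bdd x
    have h4 : Θ x * u x ≤ Θ x := by nlinarith [hx.2]
    have h5 : 0 ≤ Θ x * u x := mul_nonneg h0 hx.1
    rw [abs_le]
    constructor
    · show -T ≤ Θ x * u x - θ x
      linarith
    · show Θ x * u x - θ x ≤ T
      linarith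
  have hcord : ∀ᵐ x, trg g x (cHess g x (G x) (mt fun i => M i x)) ^ 2 ≤
      (1 - ε) * nsq g x (cHess g x (G x) (mt fun i => M i x))
        + C0 * (‖G x‖ ^ 2 + F x ^ 2 * (1 + ‖G x‖ ^ 2)) := by
    filter_upwards [hnd] with x hx
    rw [hb.op ε δ κ g h r hε hε1 hδ hκ hG x (G x) (fun i => M i x)] at hx
    have := hK δ κ hδ hδ1 hκ hκ1 x (G x) (mt fun i => M i x) (F x) hx
    exact this
  have hM := hC2 u G M F hH hFm hFb hcord
  set m := ∑ i, sqv (M i) with hm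
  have hm0 : 0 ≤ m := Finset.sum_nonneg fun i _ => unif_sqv_nonneg _
  have hG0 : 0 ≤ sqv G := unif_sqv_nonneg _
  have hF0 : 0 ≤ sq F := unif_sq_nonneg _
  have hint : sqv G ≤ √3 * √(sq u) * √m := hi u G M hH
  have hint' : sqv G ≤ √3 * √S * √m := by
    have h1 : √(sq u) ≤ √S := Real.sqrt_le_sqrt hsu
    have h2 : √3 * √(sq u) ≤ √3 * √S := mul_le_mul_of_nonneg_left h1 (Real.sqrt_nonneg _)
    exact hint.trans (mul_le_mul_of_nonneg_right h2 (Real.sqrt_nonneg _))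
  have hsF : sq F ≤ 2 * T ^ 2 * S + 2 * sq θ := by
    have h1 : sq F ≤ 2 * T ^ 2 * sq u + 2 * sq θ := unif_sqF hP hu2
    have h2 : 2 * T ^ 2 * sq u ≤ 2 * T ^ 2 * S :=
      mul_le_mul_of_nonneg_left hsu (by positivity)
    linarith
  have hmb : m ≤ A * √m + B := by
    calc m ≤ C2 * (sqv G + sq F) := hM
      _ ≤ |C2| * (sqv G + sq F) :=
          mul_le_mul_of_nonneg_right (le_abs_self _) (add_nonneg hG0 hF0)
      _ ≤ |C2| * (√3 * √S * √m + (2 * T ^ 2 * S + 2 * sq θ)) :=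
          mul_le_mul_of_nonneg_left (add_le_add hint' hsF) (abs_nonneg _)
      _ = A * √m + B := by rw [hA, hB]; ring
  have hmq := unif_quad hm0 hmb
  have hsm : √m ≤ 1 + m := by
    nlinarith [Real.sq_sqrt hm0, sq_nonneg (√m - 1), Real.sqrt_nonneg m]
  have h3S : 0 ≤ √3 * √S := by positivity
  have : sqv G ≤ √3 * √S * (1 + (A ^ 2 + 2 * B)) :=
    hint'.trans (mul_le_mul_of_nonneg_left (hsm.trans (by linarith)) h3S)
  linarith

end Pool.Agent.PFlow.PB
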