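import Pool.Agent.PFlow.StmtsP

/-!
# WEAKL: weak compactness in `L²`
-/

open MeasureTheory Filter Topology Set
open scoped ContDiff RealInnerProductSpace

namespace Pool.Agent.PFlow.PB

open Pool.Agent.PenroseSph Pool.Agent.PFlow

namespace WeakL

/-- A bounded sequence in a Hilbert space that converges weakly on a dense set converges weakly. -/
theorem hilbert {H : Type*} [NormedAddCommGroup H] [InnerProductSpace ℝ H] [CompleteSpace H]
    (u : ℕ → H) (c : ℝ) (hc : ∀ n, ‖u n‖ ≤ c) (D : Set H) (hD : Dense D)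
    (hconv : ∀ d ∈ D, ∃ l : ℝ, Tendsto (fun n => ⟪u n, d⟫) atTop (𝓝 l)) :
    ∃ G : H, ‖G‖ ≤ c ∧ ∀ x, Tendsto (fun n => ⟪u n, x⟫) atTop (𝓝 ⟪G, x⟫) := by
  have hc0 : 0 ≤ c := (norm_nonneg _).trans (hc 0)
  have h1 : ∀ x, ∃ l : ℝ, Tendsto (fun n => ⟪u n, x⟫) atTop (𝓝 l) := by
    intro x
    apply cauchySeq_tendsto_of_complete
    rw [Metric.cauchySeq_iff]
    intro ε hε
    obtain ⟨d, hd, hxd⟩ := hD.exists_dist_lt x (ε := ε / (4 * (c + 1))) (by positivity)
    obtain ⟨l, hl⟩ := hconv d hd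
    obtain ⟨N, hN⟩ := Metric.cauchySeq_iff.1 hl.cauchySeq (ε / 2) (by positivity)
    refine ⟨N, fun m hm n hn => ?_⟩
    have h2 := hN m hm n hn
    rw [Real.dist_eq] at h2 ⊢
    have h3 : ∀ k, |⟪u k, x - d⟫| ≤ ε / 4 := by
      intro k
      refine (abs_real_inner_le_norm _ _).trans ?_
      rw [dist_eq_norm] at hxd
      calc ‖u k‖ * ‖x - d‖ ≤ c * (ε / (4 * (c + 1))) :=
            mul_le_mul (hc k) hxd.le (norm_nonneg _) hc0
        _ ≤ ε / 4 := by
            have : c * (ε / (4 * (c + 1))) = ε / 4 * (c / (c + 1)) := by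
              field_simp
            rw [this]
            have h4 : c / (c + 1) ≤ 1 := by
              rw [div_le_one (by positivity)]
              linarith
            nlinarith
    have h5 : ⟪u m, x⟫ - ⟪u n, x⟫ = (⟪u m, d⟫ - ⟪u n, d⟫) + (⟪u m, x - d⟫ - ⟪u n, x - d⟫) := by
      rw [inner_sub_right, inner_sub_right]
      ring
    rw [h5]
    have h6 := h3 m
    have h7 := h3 n
    rw [abs_le] at h6 h7
    rw [abs_lt] at h2 ⊢
    constructor <;> linarith
  choose l hl using h1
  let L : H →ₗ[ℝ] ℝ :=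
    { toFun := l
      map_add' := by
        intro x y
        refine tendsto_nhds_unique (hl (x + y)) ?_
        have := (hl x).add (hl y)
        refine this.congr fun n => ?_
        rw [inner_add_right]
      map_smul' := by
        intro a x
        refine tendsto_nhds_unique (hl (a • x)) ?_
        have := (hl x).const_mul a
        refine this.congr fun n => ?_
        rw [inner_smul_right] }
  have hLb : ∀ x, ‖L x‖ ≤ c * ‖x‖ := by
    intro x
    have h2 : Tendsto (fun n => ‖⟪u n, x⟫‖) atTop (𝓝 ‖l x‖) := (hl x).norm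
    refine le_of_tendsto h2 (Eventually.of_forall fun n => ?_)
    exact (norm_inner_le_norm _ _).trans (mul_le_mul_of_nonneg_right (hc n) (norm_nonneg _))
  let L' := L.mkContinuous c hLb
  refine ⟨(InnerProductSpace.toDual ℝ H).symm L', ?_, ?_⟩
  · rw [LinearIsometryEquiv.norm_map]
    exact L.mkContinuous_norm_le hc0 hLb
  · intro x
    rw [InnerProductSpace.toDual_symm_apply]
    exact hl x

theorem inner_toLp {f g : E3 → ℝ} (hf : MemLp f 2) (hg : MemLp g 2) :
    ⟪hf.toLp, hg.toLp⟫ = ∫ x, g x * f x := by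
  rw [L2.inner_def]
  refine integral_congr_ae ?_
  filter_upwards [hf.coeFn_toLp, hg.coeFn_toLp] with x h1 h2
  rw [h1, h2]
  simp

end WeakL

open WeakL in
theorem weakl_thm : WEAKL := by
  intro h C hmem hC htest
  have hC0 : 0 ≤ C := by
    refine le_trans ?_ (hC 0)
    exact integral_nonneg fun x => sq_nonneg _
  have hnorm : ∀ n, ‖(hmem n).toLp‖ ≤ Real.sqrt C := by
    intro n
    apply Real.le_sqrt_of_sq_le
    rw [← real_inner_self_eq_norm_sq, inner_toLp]
    refine le_trans (le_of_eq ?_) (hC n)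
    unfold sq
    refine integral_congr_ae (Eventually.of_forall fun x => ?_)
    change h n x * h n x = h n x ^ 2
    ring
  obtain ⟨G, hG, hlim⟩ := hilbert (fun n => (hmem n).toLp) (Real.sqrt C) hnorm
    {f : Lp ℝ 2 (volume : Measure E3) | ∃ g : E3 → ℝ, f =ᵐ[volume] g ∧ HasCompactSupport g ∧
      ContDiff ℝ ∞ g} (Lp.dense_hasCompactSupport_contDiff (by simp)) (by
      rintro f ⟨ψ, hf, hψ, hψ'⟩
      obtain ⟨l, hl⟩ := htest ψ ⟨hψ', hψ⟩
      refine ⟨l, hl.congr fun n => ?_⟩
      have hm : MemLp ψ 2 := hψ'.continuous.memLp_of_hasCompactSupport hψ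
      have hf' : f = hm.toLp := by
        apply Lp.ext
        exact hf.trans hm.coeFn_toLp.symm
      rw [hf', inner_toLp])
  refine ⟨G, Lp.memLp G, ?_, ?_⟩
  · have h1 : sq G = ‖G‖ ^ 2 := by
      rw [← real_inner_self_eq_norm_sq, L2.inner_def]
      unfold sq
      refine integral_congr_ae (Eventually.of_forall fun x => ?_)
      simp
    rw [h1]
    calc ‖G‖ ^ 2 ≤ Real.sqrt C ^ 2 := by
          gcongr
      _ = C := Real.sq_sqrt hC0
  · intro ψ hψ
    have h1 := hlim hψ.toLp
    have h2 : ⟪G, hψ.toLp⟫ = ∫ x, ψ x * G x := by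
      have h3 : G = (Lp.memLp G).toLp := (Lp.toLp_coeFn G (Lp.memLp G)).symm
      conv_lhs => rw [h3]
      rw [inner_toLp]
    rw [h2] at h1
    refine h1.congr fun n => ?_
    rw [inner_toLp]

end Pool.Agent.PFlow.PB
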