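import Pool.Agent.PFlow.StmtsP

/-!
# ZAR: strongly monotone Lipschitz operators on a Hilbert space are onto
-/

open MeasureTheory Filter Topology Set
open scoped ContDiff RealInnerProductSpace NNReal

namespace Pool.Agent.PFlow.PB

open Pool.Agent.PenroseSph Pool.Agent.PFlow

/-- E1 (ZAR): strongly monotone Lipschitz operators are onto. -/
theorem zar_thm : ZAR := by
  intro H _ _ _ T c L hc hmon hL b
  set L' : ℝ := max L c with hL'
  have hL'0 : 0 < L' := hc.trans_le (le_max_right _ _)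
  have hcL : c ≤ L' := le_max_right _ _
  set τ : ℝ := c / L' ^ 2 with hτ
  have hτ0 : 0 < τ := by positivity
  set k : ℝ := 1 - c ^ 2 / L' ^ 2 with hk
  have hk0 : 0 ≤ k := by
    rw [hk, sub_nonneg, div_le_one (by positivity)]
    exact pow_le_pow_left₀ hc.le hcL 2
  have hk1 : k < 1 := by
    have : 0 < c ^ 2 / L' ^ 2 := by positivity
    rw [hk]
    linarith
  have hstep : ∀ x y : H, ‖(x - τ • (T x - b)) - (y - τ • (T y - b))‖ ^ 2 ≤
      k * ‖x - y‖ ^ 2 := by
    intro x y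
    have e : (x - τ • (T x - b)) - (y - τ • (T y - b)) = (x - y) - τ • (T x - T y) := by
      simp only [smul_sub]
      abel
    rw [e, norm_sub_sq_real, norm_smul, real_inner_smul_right, real_inner_comm]
    have h1 := hmon x y
    have h2 : ‖T x - T y‖ ≤ L' * ‖x - y‖ := (hL x y).trans
      (mul_le_mul_of_nonneg_right (le_max_left _ _) (norm_nonneg _))
    have h3 : ‖T x - T y‖ ^ 2 ≤ L' ^ 2 * ‖x - y‖ ^ 2 := by
      rw [← mul_pow]
      exact pow_le_pow_left₀ (norm_nonneg _) h2 2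
    have h4 : ‖τ‖ = τ := by rw [Real.norm_eq_abs, abs_of_pos hτ0]
    rw [h4, mul_pow]
    have h5 : τ ^ 2 * ‖T x - T y‖ ^ 2 ≤ τ ^ 2 * (L' ^ 2 * ‖x - y‖ ^ 2) :=
      mul_le_mul_of_nonneg_left h3 (by positivity)
    have h6 : τ * (c * ‖x - y‖ ^ 2) ≤ τ * ⟪T x - T y, x - y⟫ :=
      mul_le_mul_of_nonneg_left h1 hτ0.le
    have h7 : τ ^ 2 * (L' ^ 2 * ‖x - y‖ ^ 2) = c ^ 2 / L' ^ 2 * ‖x - y‖ ^ 2 := by
      rw [hτ]
      field_simp
    have h8 : τ * (c * ‖x - y‖ ^ 2) = c ^ 2 / L' ^ 2 * ‖x - y‖ ^ 2 := by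
      rw [hτ]
      field_simp
    rw [h7] at h5
    rw [h8] at h6
    rw [hk]
    linarith
  set K : ℝ≥0 := Real.toNNReal (Real.sqrt k) with hK
  have hKc : (K : ℝ) = Real.sqrt k := Real.coe_toNNReal _ (Real.sqrt_nonneg _)
  have hcon : ContractingWith K (fun x : H => x - τ • (T x - b)) := by
    constructor
    · rw [← NNReal.coe_lt_coe, hKc, NNReal.coe_one]
      rw [show (1 : ℝ) = Real.sqrt 1 by simp]
      exact Real.sqrt_lt_sqrt hk0 hk1
    · refine LipschitzWith.of_dist_le_mul fun x y => ?_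
      rw [dist_eq_norm, dist_eq_norm, hKc]
      have h1 := Real.sqrt_le_sqrt (hstep x y)
      rw [Real.sqrt_sq (norm_nonneg _), Real.sqrt_mul hk0, Real.sqrt_sq (norm_nonneg _)] at h1
      exact h1
  have : Nonempty H := ⟨0⟩
  refine ⟨ContractingWith.fixedPoint _ hcon, ?_⟩
  have h1 := hcon.fixedPoint_isFixedPt
  unfold Function.IsFixedPt at h1
  rw [sub_eq_self, smul_eq_zero] at h1
  rcases h1 with h1 | h1
  · exact absurd h1 hτ0.ne'
  · exact sub_eq_zero.mp h1

end Pool.Agent.PFlow.PB
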