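import Pool.Agent.PFlow.P.AllK
import Pool.Agent.PFlow.P.API2
import Pool.Agent.PFlow.P.Bdd
import Pool.Agent.PFlow.P.Brid
import Pool.Agent.PFlow.P.CCpt
import Pool.Agent.PFlow.P.CGlo
import Pool.Agent.PFlow.P.CID
import Pool.Agent.PFlow.P.CKey
import Pool.Agent.PFlow.P.Chain
import Pool.Agent.PFlow.P.Close
import Pool.Agent.PFlow.P.Cont
import Pool.Agent.PFlow.P.CordI
import Pool.Agent.PFlow.P.Cpt
import Pool.Agent.PFlow.P.CptA
import Pool.Agent.PFlow.P.CptG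
import Pool.Agent.PFlow.P.CptU
import Pool.Agent.PFlow.P.DQ
import Pool.Agent.PFlow.P.DQR
import Pool.Agent.PFlow.P.Dens
import Pool.Agent.PFlow.P.Ener
import Pool.Agent.PFlow.P.EqL
import Pool.Agent.PFlow.P.Exi
import Pool.Agent.PFlow.P.FinP
import Pool.Agent.PFlow.P.FluxL
import Pool.Agent.PFlow.P.HTwo
import Pool.Agent.PFlow.P.HTwoOn
import Pool.Agent.PFlow.P.IntP
import Pool.Agent.PFlow.P.KEne
import Pool.Agent.PFlow.P.LimEq
import Pool.Agent.PFlow.P.LimW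
import Pool.Agent.PFlow.P.LimX
import Pool.Agent.PFlow.P.Lips
import Pool.Agent.PFlow.P.Moll
import Pool.Agent.PFlow.P.NoIsl
import Pool.Agent.PFlow.P.Order
import Pool.Agent.PFlow.P.Step
import Pool.Agent.PFlow.P.SubL
import Pool.Agent.PFlow.P.SupB
import Pool.Agent.PFlow.P.Symm
import Pool.Agent.PFlow.P.Unif
import Pool.Agent.PFlow.P.WH
import Pool.Agent.PFlow.P.WeakL
import Pool.Agent.PFlow.P.Zar

/-!
# Block P, assembly: all statements except `NDIV`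
-/

namespace Pool.Agent.PFlow.PB

open Pool.Agent.PFlow

theorem pMOLL : MOLL := moll_thm
theorem pAPI1 : API1 := api1_thm
theorem pAPI2 : API2 := api2_thm pMOLL
theorem pWH : WH := wh_thm pAPI1 pAPI2 pMOLL
theorem pDENS : DENS := dens_thm pAPI1 pMOLL
theorem pCHAIN : CHAIN := chain_thm pAPI1 pAPI2
theorem pSYMM : SYMM := symm_thm pAPI1 pCHAIN
theorem pZAR : ZAR := zar_thm
theorem pSTEP : STEP := step_thm pAPI1 pZAR
theorem pORDER : ORDER := order_thm pAPI1 pCHAIN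
theorem pLIPS : LIPS := lips_thm pAPI1
theorem pBDD : BDD := bdd_thm pAPI1
theorem pEXI : EXI := exi_thm pAPI1 pSTEP pORDER pLIPS pBDD
theorem pWEAKL : WEAKL := weakl_thm
theorem pDQ : DQ := dq_thm pAPI1 pAPI2
theorem pDQR : DQR := dqr_thm pAPI1 pWH pWEAKL
theorem pHTWO : HTWO := htwo_thm pAPI1 pDQ pDQR
theorem pSUPB : SUPB := supb_thm
theorem pCONT : CONT := cont_thm pAPI1 pAPI2 pDENS pSUPB
theorem pINTP : INTP := intp_thm pAPI1 pDENS pAPI2
theorem pCID : CID := cid_thm pAPI1 pDENS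
theorem pCPTU : CPTU := cptu_thm
theorem pCPTG : CPTG := cptg_thm pAPI1 pAPI2
theorem pCPTA : CPTA := cpta_thm
theorem pCPT : CPT := cpt_thm pAPI1 pCONT pCPTU pCPTG pCPTA pWEAKL pWH
theorem pLIMEQ : LIMEQ := limeq_thm
theorem pLIMW : LIMW := limw_thm
theorem pCKEY : CKEY := ckey_thm pAPI1 pAPI2 pCHAIN
theorem pCCPT : CCPT := ccpt_thm pAPI1 pAPI2 pCKEY
theorem pCGLO : CGLO := cglo_thm pAPI1 pAPI2 pCHAIN pCKEY
theorem pBRID : BRID := brid_thm kCOEF kJET kSMO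
theorem pKENE : KENE := kene_thm kBND kTN
theorem pCORDI : CORDI := cordi_thm pAPI1 pCID kBND kSM
theorem pENER : ENER := ener_thm pAPI1 pBRID pKENE
theorem pUNIF (hn : NDIV) : UNIF := unif_thm pAPI1 pBRID pENER hn kCOR pCORDI pINTP
theorem pCLOSE : CLOSE := close_thm pBRID kBAR kCUT pCGLO
theorem pFLUXL : FLUXL := fluxl_thm pAPI1 pAPI2 pLIMW kLIM kSMO kTN
theorem pSUBL : SUBL := subl_thm pBRID pCCPT kPOS
theorem pNOISL : NOISL := noisl_thm kEXP
theorem pHTWOON : HTWOON := htwoon_thm pDENS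
theorem pLIMX (hn : NDIV) : LIMX :=
  limx_thm pAPI1 pBRID pCLOSE pEXI pHTWO pCONT (pUNIF hn) pCPT

theorem pEQL (hn : NDIV) : EQL := eql_thm pBRID hn pLIMEQ pSYMM kLIMU kSMO kTN

theorem stmt_P_of (hn : NDIV) : Stmt_P :=
  finp_thm (pEQL hn) pFLUXL pSUBL pNOISL pHTWOON (pLIMX hn)

end Pool.Agent.PFlow.PB
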