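import Pool.Agent.PFlow.StmtsP
import Pool.Agent.PFlow.P.Base

/-!
# Block P: the gradients are a Cauchy sequence in `L²_loc` (CPTG)
-/

open MeasureTheory Filter Topology Set
open scoped ContDiff RealInnerProductSpace

namespace Pool.Agent.PFlow.PB

open Pool.Agent.PenroseSph Pool.Agent.PFlow

namespace CptG

theorem cutoff (K : Set E3) (hK : IsCompact K) : ∃ ζ : E3 → ℝ, Test ζ ∧
    (∀ x, 0 ≤ ζ x ∧ ζ x ≤ 1) ∧ ∀ x ∈ K, ζ x = 1 := by
  obtain ⟨R, hR⟩ := hK.isBounded.subset_closedBall (0 : E3)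
  let f : ContDiffBump (0 : E3) := ⟨|R| + 1, |R| + 2, by positivity, by linarith⟩
  refine ⟨f, ⟨f.contDiff, f.hasCompactSupport⟩, fun x => ⟨f.nonneg, f.le_one⟩, fun x hx => ?_⟩
  apply f.one_of_mem_closedBall
  have := hR hx
  rw [Metric.mem_closedBall] at this ⊢
  have h2 := le_abs_self R
  show dist x 0 ≤ |R| + 1
  linarith

theorem sqv_sub_le (a b : E3 → E3) (ha : MemLp a 2) (hb : MemLp b 2) :
    sqv (fun x => a x - b x) ≤ 2 * sqv a + 2 * sqv b := by
  unfold sqv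
  rw [← integral_const_mul, ← integral_const_mul, ← integral_add ((int_sq a ha).const_mul 2)
    ((int_sq b hb).const_mul 2)]
  refine integral_mono (int_sq _ (ha.sub hb)) (((int_sq a ha).const_mul 2).add
    ((int_sq b hb).const_mul 2)) fun x => ?_
  have h1 := norm_sub_le (a x) (b x)
  have h2 := norm_nonneg (a x - b x)
  have h3 : ‖a x - b x‖ ^ 2 ≤ (‖a x‖ + ‖b x‖) ^ 2 := by gcongr
  show ‖a x - b x‖ ^ 2 ≤ 2 * ‖a x‖ ^ 2 + 2 * ‖b x‖ ^ 2
  nlinarith [sq_nonneg (‖a x‖ - ‖b x‖)]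

theorem int_sq' (f : E3 → ℝ) (hf : MemLp f 2) : Integrable (fun x => f x ^ 2) := by
  have := int_sq f hf
  simpa [Real.norm_eq_abs, sq_abs] using this

theorem gr_zero (ζ : E3 → ℝ) (x : E3) (hx : x ∉ tsupport ζ) (i : Fin 3) : gr ζ x i = 0 := by
  rw [gr_apply, pd_eq, fderiv_of_notMem_tsupport (𝕜 := ℝ) hx]
  rfl

theorem one_comp (h1 : API1) (h2 : API2) (ζ : E3 → ℝ) (hζ : Test ζ) (hζ1 : ∀ x, 0 ≤ ζ x ∧ ζ x ≤ 1)
    (C₁ : ℝ) (hC₁ : 1 ≤ C₁) (hgr : ∀ x, ‖gr ζ x‖ ≤ C₁) (w : E3 → ℝ) (D N : E3 → E3) (i : Fin 3)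
    (hw : H1 w D) (hD : H1 (fun x => D x i) N) (δ : ℝ) (hδ : 0 ≤ δ)
    (hs : ∀ x ∈ tsupport ζ, |w x| ≤ δ) :
    ∫ x, ζ x * (D x i) ^ 2 ≤ δ * ((1 + C₁) * (volume (tsupport ζ)).toReal + sqv N +
      C₁ * sq (fun x => D x i)) := by
  have hS : IsCompact (tsupport ζ) := hζ.cpt
  have hF := h2.mul w D ζ C₁ hw (hζ.one) (fun x => by
    rw [abs_of_nonneg (hζ1 x).1]; linarith [(hζ1 x).2]) hgr
  have hibp := h2.ibp _ _ _ _ hF hD i
  have hind : Integrable ((tsupport ζ).indicator (fun _ : E3 => (1 : ℝ))) := by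
    rw [integrable_indicator_iff (isClosed_tsupport ζ).measurableSet]
    exact integrableOn_const hS.measure_lt_top.ne
  have hindint : ∫ x, (tsupport ζ).indicator (fun _ : E3 => (1 : ℝ)) x =
      (volume (tsupport ζ)).toReal := by
    rw [integral_indicator (isClosed_tsupport ζ).measurableSet, setIntegral_const, smul_eq_mul,
      mul_one]
    rfl
  have hNi : MemLp (fun x => N x i) 2 := memLp_comp N hD.memG i
  have hDi : MemLp (fun x => D x i) 2 := hD.memf
  -- the term with the second derivative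
  have e1 : |∫ x, ζ x * w x * N x i| ≤ δ * ((volume (tsupport ζ)).toReal + sqv N) := by
    have hb : Integrable (fun x => δ * ((tsupport ζ).indicator (fun _ : E3 => (1 : ℝ)) x +
        (N x i) ^ 2)) := (hind.add (int_sq' _ hNi)).const_mul δ
    have hle : ∀ x, ‖ζ x * w x * N x i‖ ≤ δ * ((tsupport ζ).indicator (fun _ : E3 => (1 : ℝ)) x +
        (N x i) ^ 2) := by
      intro x
      by_cases hx : x ∈ tsupport ζ
      · rw [indicator_of_mem hx, Real.norm_eq_abs, abs_mul, abs_mul, abs_of_nonneg (hζ1 x).1]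
        have h3 := hs x hx
        have h4 : |N x i| ≤ 1 + (N x i) ^ 2 := by
          rw [← sq_abs (N x i)]
          nlinarith [sq_nonneg (|N x i| - 1), abs_nonneg (N x i)]
        have h5 : ζ x * |w x| ≤ δ := by
          have := mul_le_mul (hζ1 x).2 h3 (abs_nonneg _) zero_le_one
          linarith
        calc ζ x * |w x| * |N x i| ≤ δ * |N x i| := by gcongr
          _ ≤ _ := by gcongr
      · rw [image_eq_zero_of_notMem_tsupport hx, zero_mul, zero_mul, norm_zero]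
        have : 0 ≤ (tsupport ζ).indicator (fun _ : E3 => (1 : ℝ)) x :=
          indicator_nonneg (fun _ _ => zero_le_one) x
        positivity
    have h6 := norm_integral_le_of_norm_le hb (Eventually.of_forall hle)
    rw [Real.norm_eq_abs, integral_const_mul, integral_add hind (int_sq' _ hNi), hindint] at h6
    refine h6.trans ?_
    have := sq_comp_le N hD.memG i
    unfold sq at this
    gcongr
  -- the main term
  have hFi : MemLp (fun x => (ζ x • D x + w x • gr ζ x) i) 2 := memLp_comp _ hF.memG i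
  have hFD : Integrable (fun x => (ζ x • D x + w x • gr ζ x) i * D x i) := int_mul _ _ hFi hDi
  have hq : Integrable (fun x => δ * C₁ * ((tsupport ζ).indicator (fun _ : E3 => (1 : ℝ)) x +
      (D x i) ^ 2)) := (hind.add (int_sq' _ hDi)).const_mul _
  have e2 : ∫ x, ζ x * (D x i) ^ 2 ≤ ∫ x, ((ζ x • D x + w x • gr ζ x) i * D x i +
      δ * C₁ * ((tsupport ζ).indicator (fun _ : E3 => (1 : ℝ)) x + (D x i) ^ 2)) := by
    apply integral_mono_of_nonneg
    · exact Eventually.of_forall fun x => mul_nonneg (hζ1 x).1 (sq_nonneg _)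
    · exact hFD.add hq
    · refine Eventually.of_forall fun x => ?_
      show ζ x * (D x i) ^ 2 ≤ (ζ x * D x i + w x * gr ζ x i) * D x i +
        δ * C₁ * ((tsupport ζ).indicator (fun _ : E3 => (1 : ℝ)) x + (D x i) ^ 2)
      by_cases hx : x ∈ tsupport ζ
      · rw [indicator_of_mem hx]
        have h3 := hs x hx
        have h4 : |D x i| ≤ 1 + (D x i) ^ 2 := by
          rw [← sq_abs (D x i)]
          nlinarith [sq_nonneg (|D x i| - 1), abs_nonneg (D x i)]
        have h5 : |gr ζ x i| ≤ C₁ := (abs_comp_le _ i).trans (hgr x)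
        have h6 : |w x * gr ζ x i * D x i| ≤ δ * C₁ * (1 + (D x i) ^ 2) := by
          rw [abs_mul, abs_mul]
          gcongr
        have h7 := neg_abs_le (w x * gr ζ x i * D x i)
        nlinarith
      · rw [indicator_of_notMem hx, image_eq_zero_of_notMem_tsupport hx, gr_zero ζ x hx i]
        have : 0 ≤ δ * C₁ * (0 + (D x i) ^ 2) := by positivity
        simpa using this
  rw [integral_add hFD hq, integral_const_mul,
    integral_add hind (int_sq' _ hDi), hindint] at e2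
  have e3 : ∫ x, (ζ x • D x + w x • gr ζ x) i * D x i = - ∫ x, ζ x * w x * N x i := by
    linarith
  rw [e3] at e2
  have e4 := neg_abs_le (∫ x, ζ x * w x * N x i)
  have e5 : ∫ x, (D x i) ^ 2 = sq (fun x => D x i) := rfl
  rw [e5] at e2
  nlinarith

theorem key (h1 : API1) (h2 : API2) (ζ : E3 → ℝ) (hζ : Test ζ) (hζ1 : ∀ x, 0 ≤ ζ x ∧ ζ x ≤ 1)
    (C₁ : ℝ) (hC₁ : 1 ≤ C₁) (hgr : ∀ x, ‖gr ζ x‖ ≤ C₁) (K : Set E3) (hK : IsCompact K)
    (hζK : ∀ x ∈ K, ζ x = 1) (w : E3 → ℝ) (D : E3 → E3) (N : Fin 3 → E3 → E3)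
    (hw : H1 w D) (hD : ∀ i, H1 (fun x => D x i) (N i)) (δ : ℝ) (hδ : 0 ≤ δ)
    (hs : ∀ x ∈ tsupport ζ, |w x| ≤ δ) :
    ∫ x in K, ‖D x‖ ^ 2 ≤ δ * (3 * (1 + C₁) * (volume (tsupport ζ)).toReal + ∑ i, sqv (N i) +
      C₁ * sqv D) := by
  have hDm : MemLp D 2 := hw.memG
  have hDi : ∀ i, MemLp (fun x => D x i) 2 := fun i => memLp_comp D hDm i
  have e0 : ∀ x, ‖D x‖ ^ 2 = ∑ i, (D x i) ^ 2 := fun x => norm_sq_eq _
  have e1 : ∫ x in K, ‖D x‖ ^ 2 = ∑ i, ∫ x in K, (D x i) ^ 2 := by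
    rw [← integral_finsetSum _ fun i _ => (int_sq' _ (hDi i)).integrableOn]
    exact integral_congr_ae (Eventually.of_forall fun x => e0 x)
  have e2 : ∀ i, ∫ x in K, (D x i) ^ 2 ≤ ∫ x, ζ x * (D x i) ^ 2 := by
    intro i
    rw [← integral_indicator hK.measurableSet]
    refine integral_mono ((int_sq' _ (hDi i)).indicator hK.measurableSet) ?_ fun x => ?_
    · refine (int_sq' _ (hDi i)).mono (hζ.smooth.continuous.aestronglyMeasurable.mul
        (int_sq' _ (hDi i)).1) (Eventually.of_forall fun x => ?_)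
      rw [norm_mul, Real.norm_eq_abs (ζ x), abs_of_nonneg (hζ1 x).1]
      have := mul_le_mul_of_nonneg_right (hζ1 x).2 (norm_nonneg ((D x i) ^ 2))
      linarith
    · by_cases hx : x ∈ K
      · rw [indicator_of_mem hx, hζK x hx, one_mul]
      · rw [indicator_of_notMem hx]
        exact mul_nonneg (hζ1 x).1 (sq_nonneg _)
  have e3 : ∀ i, ∫ x in K, (D x i) ^ 2 ≤ δ * ((1 + C₁) * (volume (tsupport ζ)).toReal + sqv (N i) +
      C₁ * sq (fun x => D x i)) := fun i =>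
    (e2 i).trans (one_comp h1 h2 ζ hζ hζ1 C₁ hC₁ hgr w D (N i) i hw (hD i) δ hδ hs)
  have e4 : sqv D = ∑ i, sq (fun x => D x i) := by
    unfold sqv sq
    rw [← integral_finsetSum _ fun i _ => int_sq' _ (hDi i)]
    exact integral_congr_ae (Eventually.of_forall fun x => e0 x)
  rw [e1]
  refine (Finset.sum_le_sum fun i _ => e3 i).trans (le_of_eq ?_)
  rw [← Finset.mul_sum, e4]
  simp only [Fin.sum_univ_three]
  ring

end CptG

open CptG in
theorem cptg_thm (h1 : API1) (h2 : API2) : CPTG := by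
  intro u G M C v hH hC hu K hK ε hε
  obtain ⟨ζ, hζ, hζ1, hζK⟩ := cutoff K hK
  obtain ⟨C₀, hC₀⟩ := (gr_cpt ζ hζ.cpt).exists_bound_of_continuous (gr_cont ζ hζ.one)
  obtain ⟨C₁, hC₁1, hC₁⟩ : ∃ C₁ : ℝ, 1 ≤ C₁ ∧ ∀ x, ‖gr ζ x‖ ≤ C₁ :=
    ⟨max C₀ 1, le_max_right _ _, fun x => (hC₀ x).trans (le_max_left _ _)⟩
  have hS : IsCompact (tsupport ζ) := hζ.cpt
  have hCnn : 0 ≤ C := by
    refine le_trans ?_ (hC 0)
    have := sq_nonneg' (u 0)
    have := sqv_nonneg' (G 0)
    have := Finset.sum_nonneg fun (i : Fin 3) (_ : i ∈ Finset.univ) => sqv_nonneg' (M 0 i)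
    linarith
  have hG : ∀ n, sqv (G n) ≤ C := by
    intro n
    have h3 := hC n
    have := sq_nonneg' (u n)
    have := Finset.sum_nonneg fun (i : Fin 3) (_ : i ∈ Finset.univ) => sqv_nonneg' (M n i)
    linarith
  have hM : ∀ n, ∑ i, sqv (M n i) ≤ C := by
    intro n
    have h3 := hC n
    have := sq_nonneg' (u n)
    have := sqv_nonneg' (G n)
    linarith
  obtain ⟨V, hV⟩ : ∃ V, V = (volume (tsupport ζ)).toReal := ⟨_, rfl⟩
  have hV0 : 0 ≤ V := by rw [hV]; exact ENNReal.toReal_nonneg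
  obtain ⟨B, hB⟩ : ∃ B, B = 3 * (1 + C₁) * V + 4 * C + C₁ * (4 * C) := ⟨_, rfl⟩
  have hB0 : 0 ≤ B := by rw [hB]; positivity
  obtain ⟨δ, hδ, hδB⟩ : ∃ δ > 0, δ * B < ε := by
    refine ⟨ε / (B + 1), by positivity, ?_⟩
    rw [div_mul_eq_mul_div, div_lt_iff₀ (by linarith)]
    nlinarith
  have hun := hu (tsupport ζ) hS
  rw [Metric.tendstoUniformlyOn_iff] at hun
  obtain ⟨N, hN⟩ := eventually_atTop.1 (hun (δ / 2) (by positivity))
  refine ⟨N, fun m hm n hn => lt_of_le_of_lt ?_ hδB⟩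
  have hw : H1 (fun x => u m x - u n x) (fun x => G m x - G n x) :=
    h1.sub _ _ _ _ (hH m).h1 (hH n).h1
  have hD : ∀ i, H1 (fun x => (G m x - G n x) i) (fun x => M m i x - M n i x) := fun i =>
    h1.sub _ _ _ _ ((hH m).h2 i) ((hH n).h2 i)
  have hk := key h1 h2 ζ hζ hζ1 C₁ hC₁1 hC₁ K hK hζK _ _ (fun i x => M m i x - M n i x) hw hD δ
    hδ.le (fun x hx => by
      have e1 := hN m hm x hx
      have e2 := hN n hn x hx
      rw [Real.dist_eq] at e1 e2
      rw [abs_le]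
      have := abs_lt.1 e1
      have := abs_lt.1 e2
      constructor <;> linarith)
  refine hk.trans ?_
  rw [← hV, hB]
  have f1 : sqv (fun x => G m x - G n x) ≤ 4 * C := by
    have := sqv_sub_le _ _ (hH m).h1.memG (hH n).h1.memG
    have := hG m
    have := hG n
    linarith
  have f2 : ∑ i, sqv (fun x => M m i x - M n i x) ≤ 4 * C := by
    have h3 : ∑ i, sqv (fun x => M m i x - M n i x) ≤
        ∑ i, (2 * sqv (M m i) + 2 * sqv (M n i)) := Finset.sum_le_sum fun i _ =>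
      sqv_sub_le _ _ ((hH m).h2 i).memG ((hH n).h2 i).memG
    rw [Finset.sum_add_distrib, ← Finset.mul_sum, ← Finset.mul_sum] at h3
    have := hM m
    have := hM n
    linarith
  gcongr

end Pool.Agent.PFlow.PB
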