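import Pool.Agent.PFlow.P.API2

/-!
# Block P: cut-off functions `ζ(x/(n+1))`
-/

open MeasureTheory Filter Topology Set Metric
open scoped ContDiff RealInnerProductSpace ENNReal

namespace Pool.Agent.PFlow.PB

open Pool.Agent.PenroseSph Pool.Agent.PFlow

/-- the bump function: `1` on the unit ball, `0` outside the ball of radius `2` -/
noncomputable def cb : ContDiffBump (0 : E3) where
  rIn := 1
  rOut := 2
  rIn_pos := by norm_num
  rIn_lt_rOut := by norm_num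

/-- the cut-off function at the scale `n + 1` -/
noncomputable def zc (n : ℕ) (x : E3) : ℝ := cb (((n : ℝ) + 1)⁻¹ • x)

theorem cb_smooth : ContDiff ℝ ∞ (cb : E3 → ℝ) := cb.contDiff

theorem cb_cpt : HasCompactSupport (cb : E3 → ℝ) := cb.hasCompactSupport

theorem zc_smooth (n : ℕ) : ContDiff ℝ ∞ (zc n) := by
  unfold zc
  exact cb_smooth.comp (contDiff_const_smul _)

theorem zc_cpt (n : ℕ) : HasCompactSupport (zc n) := by
  have hn : ((n : ℝ) + 1)⁻¹ ≠ 0 := by positivity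
  exact cb_cpt.comp_homeomorph (Homeomorph.smulOfNeZero _ hn)

theorem zc_test (n : ℕ) : Test (zc n) := ⟨zc_smooth n, zc_cpt n⟩

theorem zc_nonneg (n : ℕ) (x : E3) : 0 ≤ zc n x := cb.nonneg

theorem zc_le_one (n : ℕ) (x : E3) : zc n x ≤ 1 := cb.le_one

theorem zc_one (n : ℕ) (x : E3) (h : ‖x‖ ≤ n + 1) : zc n x = 1 := by
  apply cb.one_of_mem_closedBall
  have : (0 : ℝ) < (n : ℝ) + 1 := by positivity
  rw [mem_closedBall_zero_iff, norm_smul, norm_inv, Real.norm_of_nonneg this.le,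
    inv_mul_le_iff₀ this]
  show ‖x‖ ≤ ((n : ℝ) + 1) * 1
  linarith

theorem pd_scale (f : E3 → ℝ) (a : ℝ) (x : E3) (i : Fin 3) (hf : DifferentiableAt ℝ f (a • x)) :
    pd i (fun y => f (a • y)) x = a * pd i f (a • x) := by
  rw [pd_eq, pd_eq]
  have h1 : HasFDerivAt f (fderiv ℝ f (a • x)) (a • x) := hf.hasFDerivAt
  have h2 : HasFDerivAt (fun y : E3 => a • y) (a • ContinuousLinearMap.id ℝ E3) x :=
    (hasFDerivAt_id x).const_smul a
  have h3 := (h1.comp x h2).fderiv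
  have h4 : fderiv ℝ (fun y => f (a • y)) x
      = (fderiv ℝ f (a • x)).comp (a • ContinuousLinearMap.id ℝ E3) := h3
  rw [h4]
  simp

theorem pd_C (f : E3 → ℝ) (hf : ContDiff ℝ ∞ f) (i : Fin 3) : ContDiff ℝ ∞ (pd i f) := by
  have h := hf.fderiv_right (m := ∞) (by exact_mod_cast le_top)
  exact h.clm_apply contDiff_const

theorem pd_zc (n : ℕ) (x : E3) (i : Fin 3) :
    pd i (zc n) x = ((n : ℝ) + 1)⁻¹ * pd i (cb : E3 → ℝ) (((n : ℝ) + 1)⁻¹ • x) :=
  pd_scale _ _ x i ((cb_smooth.differentiable (by simp)) _)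

theorem gr_zc (n : ℕ) (x : E3) :
    gr (zc n) x = ((n : ℝ) + 1)⁻¹ • gr (cb : E3 → ℝ) (((n : ℝ) + 1)⁻¹ • x) := by
  ext i
  simp [gr_apply, pd_zc]

theorem hs_zc (n : ℕ) (x : E3) (i : Fin 3) :
    hs (zc n) i x = (((n : ℝ) + 1)⁻¹) ^ 2 • hs (cb : E3 → ℝ) i (((n : ℝ) + 1)⁻¹ • x) := by
  have h1 : pd i (zc n) = fun x => ((n : ℝ) + 1)⁻¹ * pd i (cb : E3 → ℝ) (((n : ℝ) + 1)⁻¹ • x) := by
    ext x
    exact pd_zc n x i
  have hd : ∀ y, DifferentiableAt ℝ (pd i (cb : E3 → ℝ)) y :=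
    fun y => (pd_C _ cb_smooth i).differentiable (by simp) y
  have hd1 : DifferentiableAt ℝ (fun y : E3 => ((n : ℝ) + 1)⁻¹ • y) x := by fun_prop
  have hd2 : DifferentiableAt ℝ (fun y : E3 => pd i (cb : E3 → ℝ) (((n : ℝ) + 1)⁻¹ • y)) x :=
    DifferentiableAt.comp x (hd _) hd1
  ext j
  show pd j (pd i (zc n)) x = _
  rw [h1]
  have h2 : pd j (fun x => ((n : ℝ) + 1)⁻¹ * pd i (cb : E3 → ℝ) (((n : ℝ) + 1)⁻¹ • x)) x
      = ((n : ℝ) + 1)⁻¹ * pd j (fun x => pd i (cb : E3 → ℝ) (((n : ℝ) + 1)⁻¹ • x)) x := by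
    rw [pd_eq, fderiv_const_mul hd2]
    rfl
  rw [h2, pd_scale _ _ x j (hd _)]
  simp only [PiLp.smul_apply, smul_eq_mul, hs, gr_apply]
  generalize ((n : ℝ) + 1)⁻¹ = a
  ring

theorem exists_bound (F : E3 → E3) (hc : Continuous F) (hs : HasCompactSupport F) :
    ∃ C, 0 ≤ C ∧ ∀ x, ‖F x‖ ≤ C := by
  obtain ⟨C, hC⟩ := hs.exists_bound_of_continuous hc
  exact ⟨C, (norm_nonneg _).trans (hC 0), hC⟩

theorem hs_cont (f : E3 → ℝ) (hf : ContDiff ℝ ∞ f) (i : Fin 3) : Continuous (hs f i) :=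
  gr_cont _ ((pd_C f hf i).of_le (by exact_mod_cast le_top))

theorem hs_cpt (f : E3 → ℝ) (hc : HasCompactSupport f) (i : Fin 3) : HasCompactSupport (hs f i) :=
  gr_cpt _ (pd_cpt f hc i)

/-- bounds for the derivatives of the cut-off functions -/
theorem zc_bounds : ∃ C, 0 ≤ C ∧ (∀ n x, ‖gr (zc n) x‖ ≤ C * ((n : ℝ) + 1)⁻¹) ∧
    (∀ n i x, ‖hs (zc n) i x‖ ≤ C * ((n : ℝ) + 1)⁻¹) := by
  obtain ⟨C1, h10, h1⟩ := exists_bound (gr (cb : E3 → ℝ))
    (gr_cont _ (cb_smooth.of_le (by exact_mod_cast le_top))) (gr_cpt _ cb_cpt)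
  have h2 : ∀ i, ∃ C, 0 ≤ C ∧ ∀ x, ‖hs (cb : E3 → ℝ) i x‖ ≤ C := fun i =>
    exists_bound _ (hs_cont _ cb_smooth i) (hs_cpt _ cb_cpt i)
  choose C2 h20 h2 using h2
  refine ⟨C1 + ∑ i, C2 i, by have := Finset.sum_nonneg fun i (_ : i ∈ Finset.univ) => h20 i; positivity,
    fun n x => ?_, fun n i x => ?_⟩
  · rw [gr_zc, norm_smul, norm_inv, Real.norm_of_nonneg (by positivity), mul_comm]
    have := Finset.sum_nonneg fun i (_ : i ∈ Finset.univ) => h20 i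
    have := h1 (((n : ℝ) + 1)⁻¹ • x)
    gcongr
    linarith
  · rw [hs_zc, norm_smul, norm_pow, norm_inv, Real.norm_of_nonneg (by positivity)]
    have h3 := h2 i (((n : ℝ) + 1)⁻¹ • x)
    have h4 : C2 i ≤ ∑ i, C2 i := Finset.single_le_sum (fun j _ => h20 j) (Finset.mem_univ i)
    have h5 : ((n : ℝ) + 1)⁻¹ ≤ 1 := by
      rw [inv_le_one₀ (by positivity)]
      have : (0 : ℝ) ≤ n := Nat.cast_nonneg n
      linarith
    have h6 : (((n : ℝ) + 1)⁻¹) ^ 2 ≤ ((n : ℝ) + 1)⁻¹ := by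
      have h0 : (0 : ℝ) ≤ ((n : ℝ) + 1)⁻¹ := by positivity
      nlinarith
    calc (((n : ℝ) + 1)⁻¹) ^ 2 * ‖hs (cb : E3 → ℝ) i (((n : ℝ) + 1)⁻¹ • x)‖
        ≤ ((n : ℝ) + 1)⁻¹ * (C1 + ∑ i, C2 i) := by
          gcongr
          linarith
      _ = _ := mul_comm _ _

theorem inv_tend : Tendsto (fun n : ℕ => ((n : ℝ) + 1)⁻¹) atTop (𝓝 0) := by
  simpa using tendsto_one_div_add_atTop_nhds_zero_nat (𝕜 := ℝ)

/-- the cut-off of a function in `L²` converges -/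
theorem zc_tend {F : Type*} [NormedAddCommGroup F] [NormedSpace ℝ F] (f : E3 → F)
    (hf : MemLp f 2) : Tendsto (fun n => ∫ x, ‖zc n x • f x - f x‖ ^ 2) atTop (𝓝 0) := by
  have h0 : (0 : ℝ) = ∫ _x : E3, (0 : ℝ) := by simp
  rw [h0]
  refine tendsto_integral_of_dominated_convergence (fun x => ‖f x‖ ^ 2) (fun n => ?_)
    (int_sq f hf) (fun n => Eventually.of_forall fun x => ?_) (Eventually.of_forall fun x => ?_)
  · have : AEStronglyMeasurable (fun x => zc n x • f x - f x) volume :=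
      ((zc_smooth n).continuous.aestronglyMeasurable.smul hf.1).sub hf.1
    exact this.norm.pow 2
  · have e : zc n x • f x - f x = (zc n x - 1) • f x := by rw [sub_smul, one_smul]
    rw [e, norm_smul, norm_pow, norm_mul, norm_norm, norm_norm, mul_pow]
    have h1 : ‖zc n x - 1‖ ≤ 1 := by
      rw [Real.norm_eq_abs, abs_le]
      have := zc_nonneg n x
      have := zc_le_one n x
      constructor <;> linarith
    have h2 : ‖zc n x - 1‖ ^ 2 ≤ 1 := by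
      have := norm_nonneg (zc n x - 1)
      nlinarith
    have h3 : 0 ≤ ‖f x‖ ^ 2 := by positivity
    nlinarith
  · have : ∀ᶠ n : ℕ in atTop, ‖zc n x • f x - f x‖ ^ 2 = 0 := by
      obtain ⟨N, hN⟩ := exists_nat_ge ‖x‖
      filter_upwards [eventually_ge_atTop N] with n hn
      have hn' : (N : ℝ) ≤ n := by exact_mod_cast hn
      rw [zc_one n x (by linarith), one_smul, sub_self, norm_zero]
      norm_num
    exact tendsto_nhds_of_eventually_eq this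

/-- products with functions tending to `0` uniformly -/
theorem small_tend (f : E3 → ℝ) (Z : ℕ → E3 → E3) (C : ℝ) (hf : MemLp f 2)
    (hZ : ∀ n x, ‖Z n x‖ ≤ C * ((n : ℝ) + 1)⁻¹) :
    Tendsto (fun n => sqv (fun x => f x • Z n x)) atTop (𝓝 0) := by
  have h : Tendsto (fun n : ℕ => (C * ((n : ℝ) + 1)⁻¹) ^ 2 * sq f) atTop (𝓝 0) := by
    have := ((inv_tend.const_mul C).pow 2).mul_const (sq f)
    simpa using this
  exact squeeze_zero (fun n => sqv_nonneg' _)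
    (fun n => sqv_smul_le' f (Z n) _ hf (hZ n)) h

theorem small_tend' (F : E3 → E3) (ζ : ℕ → E3 → ℝ) (C : ℝ) (hF : MemLp F 2)
    (hZ : ∀ n x, |ζ n x| ≤ C * ((n : ℝ) + 1)⁻¹) :
    Tendsto (fun n => sqv (fun x => ζ n x • F x)) atTop (𝓝 0) := by
  have h : Tendsto (fun n : ℕ => (C * ((n : ℝ) + 1)⁻¹) ^ 2 * sqv F) atTop (𝓝 0) := by
    have := ((inv_tend.const_mul C).pow 2).mul_const (sqv F)
    simpa using this
  exact squeeze_zero (fun n => sqv_nonneg' _)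
    (fun n => sqv_smul_le (ζ n) F _ hF (hZ n)) h

end Pool.Agent.PFlow.PB
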