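import Pool.Agent.PFlow.StmtsP

/-!
# The weak form passes to the limit
-/

open MeasureTheory Filter Topology Set
open scoped ContDiff RealInnerProductSpace

namespace Pool.Agent.PFlow.PB

open Pool.Agent.PenroseSph Pool.Agent.PFlow

namespace LimW

/-- Generalised dominated convergence. -/
theorem conv {α : Type*} [MeasurableSpace α] {μ : Measure α} {f : ℕ → α → ℝ} {f0 H : α → ℝ}
    {e : ℕ → α → ℝ} (hf : ∀ n, AEStronglyMeasurable (f n) μ) (hH : Integrable H μ)
    (he : ∀ n, Integrable (e n) μ) (he0 : ∀ n x, 0 ≤ e n x)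
    (hbd : ∀ n, ∀ᵐ x ∂μ, |f n x| ≤ H x + e n x)
    (heT : Tendsto (fun n => ∫ x, e n x ∂μ) atTop (𝓝 0))
    (hlim : ∀ᵐ x ∂μ, Tendsto (fun n => f n x) atTop (𝓝 (f0 x)))
    (hbd0 : ∀ᵐ x ∂μ, |f0 x| ≤ H x) :
    Tendsto (fun n => ∫ x, f n x ∂μ) atTop (𝓝 (∫ x, f0 x ∂μ)) := by
  have hf0 : AEStronglyMeasurable f0 μ := aestronglyMeasurable_of_tendsto_ae atTop hf hlim
  have hi0 : Integrable f0 μ := hH.mono' hf0 (by simpa [Real.norm_eq_abs] using hbd0)
  have hi : ∀ n, Integrable (f n) μ := fun n =>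
    (hH.add (he n)).mono' (hf n) (by
      filter_upwards [hbd n] with x hx
      simpa [Real.norm_eq_abs] using hx)
  have hu : Tendsto (fun n => ∫ x, max (|f n x - f0 x| - e n x) 0 ∂μ) atTop
      (𝓝 (∫ _, (0 : ℝ) ∂μ)) := by
    refine tendsto_integral_of_dominated_convergence (fun x => 2 * H x) ?_ (hH.const_mul 2) ?_ ?_
    · intro n
      exact ((((hi n).sub hi0).abs.sub (he n)).sup (integrable_zero _ _ _)).aestronglyMeasurable
    · intro n
      filter_upwards [hbd n, hbd0] with x h1 h2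
      rw [Real.norm_eq_abs, abs_of_nonneg (le_max_right _ _)]
      have h3 : 0 ≤ H x := (abs_nonneg _).trans h2
      refine max_le ?_ (by linarith)
      have h4 : |f n x - f0 x| ≤ |f n x| + |f0 x| := abs_sub _ _
      linarith
    · filter_upwards [hlim] with x hx
      have h1 : Tendsto (fun n => |f n x - f0 x|) atTop (𝓝 0) := by
        have h2 : Tendsto (fun n => f n x - f0 x) atTop (𝓝 (f0 x - f0 x)) :=
          hx.sub tendsto_const_nhds
        rw [sub_self] at h2
        simpa using h2.abs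
      refine squeeze_zero (fun n => le_max_right _ _) (fun n => ?_) h1
      exact max_le (by linarith [he0 n x]) (abs_nonneg _)
  rw [integral_zero] at hu
  have hs : Tendsto (fun n => ∫ x, f n x ∂μ - ∫ x, f0 x ∂μ) atTop (𝓝 0) := by
    have h1 := hu.add heT
    rw [add_zero] at h1
    refine squeeze_zero_norm (fun n => ?_) h1
    rw [← integral_sub (hi n) hi0]
    refine (norm_integral_le_integral_norm _).trans ?_
    have h2 : Integrable (fun x => max (|f n x - f0 x| - e n x) 0) μ :=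
      (((hi n).sub hi0).abs.sub (he n)).sup (integrable_zero _ _ _)
    rw [← integral_add h2 (he n)]
    refine integral_mono ((hi n).sub hi0).norm (h2.add (he n)) fun x => ?_
    simp only [Real.norm_eq_abs]
    have := le_max_left (|f n x - f0 x| - e n x) 0
    linarith
  have h3 := hs.add_const (∫ x, f0 x ∂μ)
  simpa using h3

theorem gr_cont {χ : E3 → ℝ} (h : ContDiff ℝ 1 χ) : Continuous (gr χ) := by
  have h1 : Continuous (fderiv ℝ χ) := h.continuous_fderiv one_ne_zero
  unfold gr pd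
  refine (PiLp.continuous_toLp 2 (fun _ : Fin 3 => ℝ)).comp ?_
  exact continuous_pi fun i => h1.clm_apply continuous_const

theorem gr_zero {χ : E3 → ℝ} {x : E3} (h : x ∉ tsupport χ) : gr χ x = 0 := by
  have h1 : χ =ᶠ[𝓝 x] fun _ => 0 := by
    filter_upwards [(isClosed_tsupport χ).isOpen_compl.mem_nhds h] with y hy
    exact image_eq_zero_of_notMem_tsupport hy
  have h2 : fderiv ℝ χ x = 0 := by
    rw [h1.fderiv_eq]
    simp
  ext i
  simp [gr, pd, h2]

end LimW

open LimW

theorem limw_thm : LIMW := by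
  intro G F A B A₀ B₀ C hG hF hK hae hA hB hAb hBb hlim χ hχ hc heq
  have hC : 0 ≤ C := by
    have h := hAb 0 0 0
    simp only [norm_zero, add_zero, mul_one] at h
    exact (norm_nonneg _).trans h
  have hAb0 : ∀ x ξ, ‖A₀ x ξ‖ ≤ C * (1 + ‖ξ‖) := fun x ξ =>
    le_of_tendsto (hlim x ξ (fun _ => ξ) tendsto_const_nhds).1.norm
      (Eventually.of_forall fun n => hAb n x ξ)
  have hBb0 : ∀ x ξ, |B₀ x ξ| ≤ C * (1 + ‖ξ‖) := fun x ξ =>
    le_of_tendsto (hlim x ξ (fun _ => ξ) tendsto_const_nhds).2.abs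
      (Eventually.of_forall fun n => hBb n x ξ)
  set K : Set E3 := tsupport χ with hKdef
  have hKc : IsCompact K := hc
  have hfin : IsFiniteMeasure (volume.restrict K) := ⟨by simpa using hKc.measure_lt_top⟩
  obtain ⟨D₁, hD₁⟩ : ∃ D, ∀ x, ‖gr χ x‖ ≤ D := by
    have h1 : HasCompactSupport (gr χ) := by
      refine HasCompactSupport.intro hKc fun x hx => gr_zero hx
    exact (gr_cont hχ).bounded_above_of_compact_support h1
  obtain ⟨D₂, hD₂⟩ : ∃ D, ∀ x, ‖χ x‖ ≤ D := hχ.continuous.bounded_above_of_compact_support hc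
  set D := max D₁ D₂ with hD
  have hD0 : 0 ≤ D := (norm_nonneg (χ 0)).trans ((hD₂ 0).trans (le_max_right _ _))
  have hgD : ∀ x, ‖gr χ x‖ ≤ D := fun x => (hD₁ x).trans (le_max_left _ _)
  have hχD : ∀ x, |χ x| ≤ D := fun x => (hD₂ x).trans (le_max_right _ _)
  have hHi : Integrable (fun x => C * D * (2 + ‖F x‖)) (volume.restrict K) := by
    have h1 : Integrable F (volume.restrict K) := (hF.restrict K).integrable one_le_two
    exact ((integrable_const _).add h1.norm).const_mul _
  have hei : ∀ n, Integrable (fun x => C * D * ‖G n x - F x‖ ^ 2) (volume.restrict K) := by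
    intro n
    have h1 : MemLp (fun x => G n x - F x) 2 (volume.restrict K) := ((hG n).sub hF).restrict K
    exact (h1.integrable_norm_pow two_ne_zero).const_mul _
  have he0 : ∀ n x, 0 ≤ C * D * ‖G n x - F x‖ ^ 2 := fun n x => by positivity
  have heT : Tendsto (fun n => ∫ x in K, C * D * ‖G n x - F x‖ ^ 2) atTop (𝓝 0) := by
    have h1 := (hK K hKc).const_mul (C * D)
    rw [mul_zero] at h1
    simpa only [integral_const_mul] using h1
  have hkey : ∀ (n : ℕ) (x : E3) (a b : ℝ), 0 ≤ b → a ≤ C * (1 + ‖G n x‖) → b ≤ D →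
      a * b ≤ C * D * (2 + ‖F x‖) + C * D * ‖G n x - F x‖ ^ 2 := by
    intro n x a b hb0 ha hb
    have h1 : ‖G n x‖ ≤ ‖F x‖ + ‖G n x - F x‖ := by
      have := norm_add_le (F x) (G n x - F x)
      rwa [add_sub_cancel] at this
    have h2 : ‖G n x - F x‖ ≤ 1 + ‖G n x - F x‖ ^ 2 := by
      nlinarith [sq_nonneg (‖G n x - F x‖ - 1 / 2)]
    have h3 : a ≤ C * (2 + ‖F x‖ + ‖G n x - F x‖ ^ 2) :=
      ha.trans (mul_le_mul_of_nonneg_left (by linarith) hC)
    have h4 : 0 ≤ C * (2 + ‖F x‖ + ‖G n x - F x‖ ^ 2) := by positivity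
    calc a * b ≤ C * (2 + ‖F x‖ + ‖G n x - F x‖ ^ 2) * b := mul_le_mul_of_nonneg_right h3 hb0
      _ ≤ C * (2 + ‖F x‖ + ‖G n x - F x‖ ^ 2) * D := mul_le_mul_of_nonneg_left hb h4
      _ = C * D * (2 + ‖F x‖) + C * D * ‖G n x - F x‖ ^ 2 := by ring
  have hkey0 : ∀ (x : E3) (a b : ℝ), 0 ≤ b → a ≤ C * (1 + ‖F x‖) → b ≤ D →
      a * b ≤ C * D * (2 + ‖F x‖) := by
    intro x a b hb0 ha hb
    have h4 : 0 ≤ C * (2 + ‖F x‖) := by positivity
    have h3 : a ≤ C * (2 + ‖F x‖) := ha.trans (mul_le_mul_of_nonneg_left (by linarith) hC)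
    calc a * b ≤ C * (2 + ‖F x‖) * b := mul_le_mul_of_nonneg_right h3 hb0
      _ ≤ C * (2 + ‖F x‖) * D := mul_le_mul_of_nonneg_left hb h4
      _ = C * D * (2 + ‖F x‖) := by ring
  have hGm : ∀ n, AEMeasurable (fun x => (x, G n x)) (volume.restrict K) := fun n =>
    aemeasurable_id.prodMk ((hG n).restrict K).aestronglyMeasurable.aemeasurable
  have hAm : ∀ n, AEStronglyMeasurable (fun x => ⟪A n x (G n x), gr χ x⟫)
      (volume.restrict K) := by
    intro n
    have h1 : AEMeasurable (fun x => A n x (G n x)) (volume.restrict K) :=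
      (hA n).comp_aemeasurable (hGm n)
    exact h1.aestronglyMeasurable.inner (gr_cont hχ).aestronglyMeasurable
  have hBm : ∀ n, AEStronglyMeasurable (fun x => B n x (G n x) * χ x)
      (volume.restrict K) := by
    intro n
    have h1 : AEMeasurable (fun x => B n x (G n x)) (volume.restrict K) :=
      (hB n).comp_aemeasurable (hGm n)
    exact h1.aestronglyMeasurable.mul hχ.continuous.aestronglyMeasurable
  have hae' : ∀ᵐ x ∂(volume.restrict K), Tendsto (fun n => G n x) atTop (𝓝 (F x)) :=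
    ae_restrict_of_ae hae
  have c1 := conv (f0 := fun x => ⟪A₀ x (F x), gr χ x⟫) hAm hHi hei he0 (fun n => by
    refine Eventually.of_forall fun x => ?_
    exact (abs_real_inner_le_norm _ _).trans
      (hkey n x _ _ (norm_nonneg _) (hAb n x _) (hgD x))) heT (by
    filter_upwards [hae'] with x hx
    exact ((hlim x (F x) _ hx).1).inner tendsto_const_nhds) (by
    refine Eventually.of_forall fun x => ?_
    exact (abs_real_inner_le_norm _ _).trans (hkey0 x _ _ (norm_nonneg _) (hAb0 x _) (hgD x)))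
  have c2 := conv (f0 := fun x => B₀ x (F x) * χ x) hBm hHi hei he0 (fun n => by
    refine Eventually.of_forall fun x => ?_
    rw [abs_mul]
    exact hkey n x _ _ (abs_nonneg _) (hBb n x _) (hχD x)) heT (by
    filter_upwards [hae'] with x hx
    exact ((hlim x (F x) _ hx).2).mul tendsto_const_nhds) (by
    refine Eventually.of_forall fun x => ?_
    rw [abs_mul]
    exact hkey0 x _ _ (abs_nonneg _) (hBb0 x _) (hχD x))
  have r1 : ∀ (X : E3 → E3), ∫ x in K, ⟪X x, gr χ x⟫ = ∫ x, ⟪X x, gr χ x⟫ := fun X =>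
    setIntegral_eq_integral_of_forall_compl_eq_zero fun x hx => by
      rw [gr_zero hx, inner_zero_right]
  have r2 : ∀ (Y : E3 → ℝ), ∫ x in K, Y x * χ x = ∫ x, Y x * χ x := fun Y =>
    setIntegral_eq_integral_of_forall_compl_eq_zero fun x hx => by
      rw [image_eq_zero_of_notMem_tsupport hx, mul_zero]
  simp only [r1, r2] at c1 c2
  simp only [heq] at c1
  exact tendsto_nhds_unique c1 c2

end Pool.Agent.PFlow.PB
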